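import Mathlib

set_option autoImplicit false

namespace Pool.Agent.P.MP_fe41f2_co

/-- `v 0, v 1, ...` (indices mod `n`) are the vertices, in cyclic order, of a simple polygon. -/
def IsSimplePolygon (n : ℕ) (v : ZMod n → ℝ × ℝ) : Prop :=
  3 ≤ n ∧ Function.Injective v ∧
  (∀ i, ¬ Collinear ℝ ({v i, v (i + 1), v (i + 2)} : Set (ℝ × ℝ))) ∧
  ∀ i j, i ≠ j → segment ℝ (v i) (v (i + 1)) ∩ segment ℝ (v j) (v (j + 1)) ⊆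
    ({v i, v (i + 1)} : Set (ℝ × ℝ)) ∩ {v j, v (j + 1)}

/-- The closed polygonal curve. -/
def curve (n : ℕ) (v : ZMod n → ℝ × ℝ) : Set (ℝ × ℝ) :=
  ⋃ i, segment ℝ (v i) (v (i + 1))

/-- The polygon as a closed region: the curve and the points it encloses. -/
def region (n : ℕ) (v : ZMod n → ℝ × ℝ) : Set (ℝ × ℝ) :=
  curve n v ∪ {x | x ∉ curve n v ∧ Bornology.IsBounded (connectedComponentIn (curve n v)ᶜ x)}

/-- `T` is a triangulation of `(P, S)`; a triangle is given by its set of three vertices. -/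
def IsTriangulation (P S : Set (ℝ × ℝ)) (T : Set (Set (ℝ × ℝ))) : Prop :=
  (∀ t ∈ T, t ⊆ S ∧ ∃ a b c, t = {a, b, c} ∧ ¬ Collinear ℝ ({a, b, c} : Set (ℝ × ℝ))) ∧
  (∀ t ∈ T, ∀ t' ∈ T, t ≠ t' →
    Disjoint (interior (convexHull ℝ t)) (interior (convexHull ℝ t'))) ∧
  (⋃ t ∈ T, convexHull ℝ t) = P ∧
  ∀ t ∈ T, ∀ s ∈ S, s ∉ interior (convexHull ℝ t) ∧ (s ∈ convexHull ℝ t → s ∈ t)

/-- `T'` arises from `T` by flipping the edge `ab` to `cd`. -/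
def Flip (T T' : Set (Set (ℝ × ℝ))) : Prop :=
  ∃ a b c d : ℝ × ℝ, a ≠ b ∧ a ≠ c ∧ a ≠ d ∧ b ≠ c ∧ b ≠ d ∧ c ≠ d ∧
    ({a, b, c} : Set (ℝ × ℝ)) ∈ T ∧ ({a, b, d} : Set (ℝ × ℝ)) ∈ T ∧
    Convex ℝ (convexHull ℝ ({a, b, c} : Set (ℝ × ℝ)) ∪ convexHull ℝ ({a, b, d} : Set (ℝ × ℝ))) ∧
    T' = (T \ {{a, b, c}, {a, b, d}}) ∪ {{a, c, d}, {b, c, d}}

/-- `T'` arises from `T` by a sequence of `N` flips. -/
def FlipSeq (N : ℕ) (T T' : Set (Set (ℝ × ℝ))) : Prop :=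
  ∃ f : ℕ → Set (Set (ℝ × ℝ)), f 0 = T ∧ f N = T' ∧ ∀ i < N, Flip (f i) (f (i + 1))

/-- `T'` arises from `T` by joining `p` to the vertices of a triangle containing it in its
interior. -/
def InsertPoint (p : ℝ × ℝ) (T T' : Set (Set (ℝ × ℝ))) : Prop :=
  ∃ a b c : ℝ × ℝ, ({a, b, c} : Set (ℝ × ℝ)) ∈ T ∧
    p ∈ interior (convexHull ℝ ({a, b, c} : Set (ℝ × ℝ))) ∧
    T' = (T \ {{a, b, c}}) ∪ {{p, a, b}, {p, b, c}, {p, c, a}}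

/-- The pair `(T₁', T₂')` arises from `(T₁, T₂)` by inserting `k` Steiner points one at a time. -/
def InsertSeq (k : ℕ) (T₁ T₂ T₁' T₂' : Set (Set (ℝ × ℝ))) : Prop :=
  ∃ (p : ℕ → ℝ × ℝ) (f₁ f₂ : ℕ → Set (Set (ℝ × ℝ))),
    f₁ 0 = T₁ ∧ f₂ 0 = T₂ ∧ f₁ k = T₁' ∧ f₂ k = T₂' ∧
    ∀ i < k, InsertPoint (p i) (f₁ i) (f₁ (i + 1)) ∧ InsertPoint (p i) (f₂ i) (f₂ (i + 1))

end Pool.Agent.P.MP_fe41f2_co
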