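import Mathlib
import Pool.Agent.P.MP_fe41f2_co.Defs

set_option autoImplicit false

namespace Pool.Agent.P.MP_fe41f2_co

open Set

/-- piecewise linear interpolation -/
noncomputable def interp (f : ℕ → ℝ) (K : ℕ) (x : ℝ) : ℝ :=
  f 0 + ∑ j ∈ Finset.range K, (f (j + 1) - f j) * max 0 (min 1 (x - j))

lemma interp_cont (f : ℕ → ℝ) (K : ℕ) : Continuous (interp f K) := by
  unfold interp
  fun_prop

lemma interp_ge (f : ℕ → ℝ) (k : ℕ) (x : ℝ) (hx : (k : ℝ) ≤ x) : interp f k x = f k := by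
  induction k with
  | zero => simp [interp]
  | succ k ih =>
    have h1 : (k : ℝ) ≤ x := by push_cast at hx; linarith
    have h2 := ih h1
    unfold interp at h2 ⊢
    rw [Finset.sum_range_succ]
    have : min 1 (x - k) = 1 := min_eq_left (by push_cast at hx; linarith)
    rw [this]
    have : max (0 : ℝ) 1 = 1 := by norm_num
    rw [this]
    linarith

lemma interp_le (f : ℕ → ℝ) (k K : ℕ) (hk : k ≤ K) (x : ℝ) (hx : x ≤ k) :
    interp f K x = interp f k x := by
  induction K, hk using Nat.le_induction with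
  | base => rfl
  | succ K hK ih =>
    rw [← ih]
    unfold interp
    rw [Finset.sum_range_succ]
    have h1 : (k : ℝ) ≤ K := by exact_mod_cast hK
    have : max 0 (min 1 (x - K)) = 0 := max_eq_left ((min_le_right _ _).trans (by linarith))
    rw [this]
    ring

lemma interp_eq (f : ℕ → ℝ) {K k : ℕ} (hk : k < K) {x : ℝ} (h1 : (k : ℝ) ≤ x)
    (h2 : x ≤ k + 1) : interp f K x = f k + (x - k) * (f (k + 1) - f k) := by
  rw [interp_le f (k + 1) K hk x (by push_cast; linarith)]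
  have h3 := interp_ge f k x h1
  unfold interp at h3 ⊢
  rw [Finset.sum_range_succ]
  have : min 1 (x - k) = x - k := min_eq_right (by linarith)
  rw [this, max_eq_right (by linarith)]
  linarith

lemma interp_nat (f : ℕ → ℝ) {K k : ℕ} (hk : k ≤ K) : interp f K k = f k := by
  rw [interp_le f k K hk k le_rfl, interp_ge f k k le_rfl]

lemma exists_col {K : ℕ} (hK : 0 < K) {x : ℝ} (h0 : 0 ≤ x) (h1 : x ≤ K) :
    ∃ k < K, (k : ℝ) ≤ x ∧ x ≤ k + 1 := by
  induction K with
  | zero => omega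
  | succ K ih =>
    by_cases h : (K : ℝ) ≤ x
    · exact ⟨K, by omega, h, by push_cast at h1; linarith⟩
    · have hK' : 0 < K := by
        rcases Nat.eq_zero_or_pos K with h' | h'
        · subst h'; simp at h; linarith
        · exact h'
      obtain ⟨k, hk, h2⟩ := ih hK' (by linarith)
      exact ⟨k, by omega, h2⟩

lemma interp_lt {L U : ℕ → ℝ} (h : ∀ k, L k < U k) {K : ℕ} (hK : 0 < K) {x : ℝ} (h0 : 0 ≤ x)
    (h1 : x ≤ K) : interp L K x < interp U K x := by
  obtain ⟨k, hk, h2, h3⟩ := exists_col hK h0 h1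
  rw [interp_eq L hk h2 h3, interp_eq U hk h2 h3]
  have a1 := h k
  have a2 := h (k + 1)
  rcases eq_or_lt_of_le h2 with h4 | h4
  · rw [← h4]; simpa using a1
  · have e1 : 0 ≤ (k + 1 - x) * (U k - L k) := mul_nonneg (by linarith) (by linarith)
    have e2 : 0 < (x - k) * (U (k + 1) - L (k + 1)) := mul_pos (by linarith) (by linarith)
    nlinarith

/-- point of a chain -/
def ch (f : ℕ → ℝ) (k : ℕ) : ℝ × ℝ := ((k : ℝ), f k)

/-- the region between the chains -/
def strip (L U : ℕ → ℝ) (K : ℕ) : Set (ℝ × ℝ) :=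
  {p | 0 ≤ p.1 ∧ p.1 ≤ K ∧ interp L K p.1 ≤ p.2 ∧ p.2 ≤ interp U K p.1}

def vtx (L U : ℕ → ℝ) (K : ℕ) (i : ZMod (2 * K + 2)) : ℝ × ℝ :=
  if i.val ≤ K then ch U i.val else ch L (2 * K + 1 - i.val)

lemma mem_seg_ch (f : ℕ → ℝ) {K k : ℕ} (hk : k < K) (p : ℝ × ℝ) :
    p ∈ segment ℝ (ch f k) (ch f (k + 1)) ↔
      (k : ℝ) ≤ p.1 ∧ p.1 ≤ k + 1 ∧ p.2 = interp f K p.1 := by
  constructor
  · rintro ⟨a, b, ha, hb, hab, rfl⟩
    have e1 : (a • ch f k + b • ch f (k + 1)).1 = k + b := by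
      simp [ch]; linear_combination (k : ℝ) * hab
    have e2 : (a • ch f k + b • ch f (k + 1)).2 = a * f k + b * f (k + 1) := by simp [ch]
    rw [e1, e2]
    refine ⟨by linarith, by linarith, ?_⟩
    rw [interp_eq f hk (by linarith) (by linarith)]
    linear_combination (f k) * hab
  · rintro ⟨h1, h2, h3⟩
    refine ⟨k + 1 - p.1, p.1 - k, by linarith, by linarith, by ring, ?_⟩
    rw [interp_eq f hk h1 h2] at h3
    ext
    · simp [ch]; ring
    · simp [ch]; rw [h3]; ring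

lemma mem_seg_vert {L U : ℕ → ℝ} (h : ∀ k, L k < U k) (k : ℕ) (p : ℝ × ℝ) :
    p ∈ segment ℝ (ch L k) (ch U k) ↔ p.1 = k ∧ L k ≤ p.2 ∧ p.2 ≤ U k := by
  have hk := h k
  constructor
  · rintro ⟨a, b, ha, hb, hab, rfl⟩
    have e1 : (a • ch L k + b • ch U k).1 = k := by
      simp [ch]; linear_combination (k : ℝ) * hab
    have e2 : (a • ch L k + b • ch U k).2 = a * L k + b * U k := by simp [ch]
    rw [e1, e2]
    refine ⟨rfl, ?_, ?_⟩
    · have : b * (U k - L k) ≥ 0 := mul_nonneg hb (by linarith)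
      have e : a = 1 - b := by linarith
      rw [e]; nlinarith
    · have : a * (U k - L k) ≥ 0 := mul_nonneg ha (by linarith)
      have e : b = 1 - a := by linarith
      rw [e]; nlinarith
  · rintro ⟨h1, h2, h3⟩
    have hp : 0 < U k - L k := by linarith
    refine ⟨(U k - p.2) / (U k - L k), (p.2 - L k) / (U k - L k), div_nonneg (by linarith) hp.le,
      div_nonneg (by linarith) hp.le, by field_simp; ring, ?_⟩
    ext
    · simp [ch]; rw [h1]; field_simp; ring
    · simp [ch]; field_simp; ring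

lemma val_succ {K : ℕ} (i : ZMod (2 * K + 2)) : (i + 1).val = (i.val + 1) % (2 * K + 2) := by
  have : Fact (1 < 2 * K + 2) := ⟨by omega⟩
  rw [ZMod.val_add, ZMod.val_one]

lemma edge_cases (L U : ℕ → ℝ) (K : ℕ) (i : ZMod (2 * K + 2)) :
    (∃ k < K, i.val = k ∧ (i + 1).val = k + 1 ∧ vtx L U K i = ch U k ∧
        vtx L U K (i + 1) = ch U (k + 1)) ∨
    (i.val = K ∧ (i + 1).val = K + 1 ∧ vtx L U K i = ch U K ∧ vtx L U K (i + 1) = ch L K) ∨
    (∃ k < K, i.val = 2 * K - k ∧ (i + 1).val = 2 * K + 1 - k ∧ vtx L U K i = ch L (k + 1) ∧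
        vtx L U K (i + 1) = ch L k) ∨
    (i.val = 2 * K + 1 ∧ (i + 1).val = 0 ∧ vtx L U K i = ch L 0 ∧ vtx L U K (i + 1) = ch U 0) := by
  have h1 := val_succ i
  have h2 : i.val < 2 * K + 2 := ZMod.val_lt i
  unfold vtx
  rcases lt_trichotomy i.val K with h | h | h
  · left
    have e : (i + 1).val = i.val + 1 := by rw [h1, Nat.mod_eq_of_lt (by omega)]
    refine ⟨i.val, h, rfl, e, by rw [if_pos h.le], by rw [e, if_pos (by omega)]⟩
  · right; left
    have e : (i + 1).val = K + 1 := by rw [h1, Nat.mod_eq_of_lt (by omega), h]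
    refine ⟨h, e, by rw [if_pos h.le, h], ?_⟩
    rw [e, if_neg (by omega)]
    congr 1; omega
  · right; right
    by_cases h' : i.val = 2 * K + 1
    · right
      have e : (i + 1).val = 0 := by rw [h1, h']; simp
      refine ⟨h', e, ?_, by rw [e, if_pos (by omega)]⟩
      rw [if_neg (by omega), h']; simp
    · left
      have e : (i + 1).val = i.val + 1 := by rw [h1, Nat.mod_eq_of_lt (by omega)]
      refine ⟨2 * K - i.val, by omega, by omega, by omega, ?_, ?_⟩
      · rw [if_neg (by omega)]; congr 1; omega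
      · rw [e, if_neg (by omega)]; congr 1; omega

lemma exists_val {K : ℕ} (j : ℕ) (hj : j < 2 * K + 2) : ∃ i : ZMod (2 * K + 2), i.val = j :=
  ⟨(j : ZMod (2 * K + 2)), ZMod.val_cast_of_lt hj⟩

lemma ch_inj {f : ℕ → ℝ} {k k' : ℕ} (h : ch f k = ch f k') : k = k' := by
  have := congrArg Prod.fst h
  simpa [ch] using this

lemma ch_ne {L U : ℕ → ℝ} (h : ∀ k, L k < U k) (k k' : ℕ) : ch U k ≠ ch L k' := by
  intro e
  have e1 := congrArg Prod.fst e
  have e2 := congrArg Prod.snd e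
  simp [ch] at e1 e2
  subst e1
  exact (h k).ne' e2

lemma range_vtx (L U : ℕ → ℝ) (K : ℕ) (p : ℝ × ℝ) :
    p ∈ range (vtx L U K) ↔ ∃ k ≤ K, p = ch U k ∨ p = ch L k := by
  constructor
  · rintro ⟨i, rfl⟩
    rcases edge_cases L U K i with ⟨k, hk, -, -, h, -⟩ | ⟨-, -, h, -⟩ | ⟨k, hk, -, -, h, -⟩ |
      ⟨-, -, h, -⟩
    · exact ⟨k, hk.le, Or.inl h⟩
    · exact ⟨K, le_rfl, Or.inl h⟩
    · exact ⟨k + 1, hk, Or.inr h⟩
    · exact ⟨0, by omega, Or.inr h⟩
  · rintro ⟨k, hk, rfl | rfl⟩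
    · obtain ⟨i, hi⟩ := exists_val (K := K) k (by omega)
      exact ⟨i, by unfold vtx; rw [if_pos (by omega), hi]⟩
    · obtain ⟨i, hi⟩ := exists_val (K := K) (2 * K + 1 - k) (by omega)
      refine ⟨i, ?_⟩
      unfold vtx
      rw [if_neg (by omega), hi]
      congr 1; omega

lemma vtx_inj {L U : ℕ → ℝ} (h : ∀ k, L k < U k) (K : ℕ) : Function.Injective (vtx L U K) := by
  intro i j e
  apply ZMod.val_injective
  have h1 : i.val < 2 * K + 2 := ZMod.val_lt i
  have h2 : j.val < 2 * K + 2 := ZMod.val_lt j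
  unfold vtx at e
  split_ifs at e with a b b
  · exact ch_inj e
  · exact absurd e (ch_ne h _ _)
  · exact absurd e.symm (ch_ne h _ _)
  · have := ch_inj e; omega

/-- orientation determinant -/
def det3 (a b c : ℝ × ℝ) : ℝ := (b.1 - a.1) * (c.2 - a.2) - (b.2 - a.2) * (c.1 - a.1)

lemma det_of_collinear {a b c : ℝ × ℝ} (h : Collinear ℝ ({a, b, c} : Set (ℝ × ℝ))) :
    det3 a b c = 0 := by
  obtain ⟨w, hw⟩ := (collinear_iff_of_mem (p₀ := a) (by simp)).1 h
  obtain ⟨r, hr⟩ := hw b (by simp)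
  obtain ⟨s, hs⟩ := hw c (by simp)
  unfold det3
  rw [hr, hs]
  simp
  ring

lemma seg_one_side {L U : ℕ → ℝ} (h : ∀ k, L k < U k) {K : ℕ} (hK : 0 < K)
    (i j : ZMod (2 * K + 2)) (hij : i ≠ j) (p : ℝ × ℝ)
    (hi : p ∈ segment ℝ (vtx L U K i) (vtx L U K (i + 1)))
    (hj : p ∈ segment ℝ (vtx L U K j) (vtx L U K (j + 1))) :
    p = vtx L U K i ∨ p = vtx L U K (i + 1) := by
  have hv : i.val ≠ j.val := fun e => hij (ZMod.val_injective _ e)
  have hK' : (0 : ℝ) < K := by exact_mod_cast hK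
  have key : ∀ (f : ℕ → ℝ) (k : ℕ), k ≤ K → p.1 = k → p.2 = interp f K p.1 → p = ch f k := by
    intro f k hk e1 e2
    rw [e1, interp_nat f hk] at e2
    exact Prod.ext e1 e2
  have nn : ∀ (k k' : ℕ), (k : ℝ) < p.1 → p.1 < k + 1 → (k' : ℝ) ≤ p.1 → p.1 ≤ k' + 1 → k = k' := by
    intro k k' a b c d
    have e1 : (k : ℝ) < ((k' + 1 : ℕ) : ℝ) := by push_cast; linarith
    have e2 : (k' : ℝ) < ((k + 1 : ℕ) : ℝ) := by push_cast; linarith
    have := Nat.cast_lt.1 e1
    have := Nat.cast_lt.1 e2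
    omega
  have cases2 : ∀ (f : ℕ → ℝ) (k : ℕ), k < K → (k : ℝ) ≤ p.1 → p.1 ≤ k + 1 →
      p.2 = interp f K p.1 → (p = ch f k ∨ p = ch f (k + 1)) ∨
        ((k : ℝ) < p.1 ∧ p.1 < k + 1 ∧ 0 < p.1 ∧ p.1 < K) := by
    intro f k hk a b c
    rcases eq_or_lt_of_le a with a' | a'
    · exact Or.inl (Or.inl (key f k hk.le a'.symm c))
    rcases eq_or_lt_of_le b with b' | b'
    · exact Or.inl (Or.inr (key f (k + 1) hk (by push_cast; exact b') c))
    right
    have e1 : (0 : ℝ) ≤ k := Nat.cast_nonneg k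
    have e2 : ((k + 1 : ℕ) : ℝ) ≤ K := by exact_mod_cast hk
    push_cast at e2
    exact ⟨a', b', by linarith, by linarith⟩
  rcases edge_cases L U K i with ⟨k, hk, v1, -, a1, a2⟩ | ⟨v1, -, a1, a2⟩ |
      ⟨k, hk, v1, -, a1, a2⟩ | ⟨v1, -, a1, a2⟩ <;>
    rcases edge_cases L U K j with ⟨k', hk', v2, -, b1, b2⟩ | ⟨v2, -, b1, b2⟩ |
      ⟨k', hk', v2, -, b1, b2⟩ | ⟨v2, -, b1, b2⟩ <;>
    rw [a1, a2] at hi ⊢ <;> rw [b1, b2] at hj
  all_goals
    first
    | rw [mem_seg_ch _ hk] at hi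
    | rw [segment_symm, mem_seg_ch _ hk] at hi
    | rw [mem_seg_vert h] at hi
    | rw [segment_symm, mem_seg_vert h] at hi
  all_goals
    first
    | rw [mem_seg_ch _ hk'] at hj
    | rw [segment_symm, mem_seg_ch _ hk'] at hj
    | rw [mem_seg_vert h] at hj
    | rw [segment_symm, mem_seg_vert h] at hj
  all_goals obtain ⟨c1, c2, c3⟩ := hi
  all_goals obtain ⟨d1, d2, d3⟩ := hj
  · rcases cases2 U k hk c1 c2 c3 with e | ⟨e1, e2, e3, e4⟩
    · exact e
    · have := nn k k' e1 e2 d1 d2; omega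
  · rcases cases2 U k hk c1 c2 c3 with e | ⟨e1, e2, e3, e4⟩
    · exact e
    · linarith
  · rcases cases2 U k hk c1 c2 c3 with e | ⟨e1, e2, e3, e4⟩
    · exact e
    · have := interp_lt h hK e3.le e4.le; linarith
  · rcases cases2 U k hk c1 c2 c3 with e | ⟨e1, e2, e3, e4⟩
    · exact e
    · simp at d1; linarith
  · exact Or.inl (key U K le_rfl c1 d3)
  · omega
  · exact Or.inr (key L K le_rfl c1 d3)
  · simp at d1; linarith
  · rcases cases2 L k hk c1 c2 c3 with e | ⟨e1, e2, e3, e4⟩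
    · exact e.symm
    · have := interp_lt h hK e3.le e4.le; linarith
  · rcases cases2 L k hk c1 c2 c3 with e | ⟨e1, e2, e3, e4⟩
    · exact e.symm
    · linarith
  · rcases cases2 L k hk c1 c2 c3 with e | ⟨e1, e2, e3, e4⟩
    · exact e.symm
    · have := nn k k' e1 e2 d1 d2; omega
  · rcases cases2 L k hk c1 c2 c3 with e | ⟨e1, e2, e3, e4⟩
    · exact e.symm
    · simp at d1; linarith
  · exact Or.inr (key U 0 (by omega) c1 d3)
  · simp at c1; linarith
  · exact Or.inl (key L 0 (by omega) c1 d3)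
  · omega

theorem simple {L U : ℕ → ℝ} (h : ∀ k, L k < U k) {K : ℕ} (hK : 0 < K)
    (hU : ∀ k, U k + U (k + 2) ≠ 2 * U (k + 1)) (hL : ∀ k, L k + L (k + 2) ≠ 2 * L (k + 1)) :
    IsSimplePolygon (2 * K + 2) (vtx L U K) := by
  refine ⟨by omega, vtx_inj h K, ?_, ?_⟩
  · intro i hc
    have hd := det_of_collinear hc
    have e : i + 2 = i + 1 + 1 := by ring
    rw [e] at hd
    rcases edge_cases L U K i with ⟨k, hk, v1, w1, a1, a2⟩ | ⟨v1, w1, a1, a2⟩ |
        ⟨k, hk, v1, w1, a1, a2⟩ | ⟨v1, w1, a1, a2⟩ <;>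
      rcases edge_cases L U K (i + 1) with ⟨k', hk', v2, -, -, b2⟩ | ⟨v2, -, -, b2⟩ |
        ⟨k', hk', v2, -, -, b2⟩ | ⟨v2, -, -, b2⟩ <;>
      first
      | omega
      | rw [a1, a2, b2] at hd
    · obtain rfl : k' = k + 1 := by omega
      apply hU k
      simp [det3, ch] at hd
      have e2 : k + 1 + 1 = k + 2 := rfl
      rw [e2] at hd
      linarith
    · obtain rfl : K = k + 1 := by omega
      have := h (k + 1)
      simp [det3, ch] at hd
      linarith
    · obtain rfl : K = k' + 1 := by omega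
      have := h (k' + 1)
      simp [det3, ch] at hd
      linarith
    · obtain rfl : k = k' + 1 := by omega
      apply hL k'
      simp [det3, ch] at hd
      have e2 : k' + 1 + 1 = k' + 2 := rfl
      rw [e2] at hd
      linarith
    · obtain rfl : k = 0 := by omega
      have := h 0
      simp [det3, ch] at hd
      linarith
    · obtain rfl : k' = 0 := by omega
      have := h 0
      simp [det3, ch] at hd
      linarith
  · rintro i j hij p ⟨hi, hj⟩
    exact ⟨seg_one_side h hK i j hij p hi hj, seg_one_side h hK j i hij.symm p hj hi⟩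

lemma mem_curve {L U : ℕ → ℝ} (h : ∀ k, L k < U k) {K : ℕ} (hK : 0 < K) (p : ℝ × ℝ) :
    p ∈ curve (2 * K + 2) (vtx L U K) ↔ p ∈ strip L U K ∧
      (p.1 = 0 ∨ p.1 = K ∨ p.2 = interp L K p.1 ∨ p.2 = interp U K p.1) := by
  have hK' : (0 : ℝ) < K := by exact_mod_cast hK
  unfold curve strip
  simp only [mem_iUnion, mem_ofPred_eq]
  constructor
  · rintro ⟨i, hi⟩
    have bd : ∀ k < K, (k : ℝ) ≤ p.1 → p.1 ≤ k + 1 → 0 ≤ p.1 ∧ p.1 ≤ K := by
      intro k hk a b
      have e1 : (0 : ℝ) ≤ k := Nat.cast_nonneg k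
      have e2 : ((k + 1 : ℕ) : ℝ) ≤ K := by exact_mod_cast hk
      push_cast at e2
      exact ⟨by linarith, by linarith⟩
    rcases edge_cases L U K i with ⟨k, hk, v1, -, a1, a2⟩ | ⟨v1, -, a1, a2⟩ |
      ⟨k, hk, v1, -, a1, a2⟩ | ⟨v1, -, a1, a2⟩ <;> rw [a1, a2] at hi
    · rw [mem_seg_ch _ hk] at hi
      obtain ⟨c1, c2, c3⟩ := hi
      obtain ⟨d1, d2⟩ := bd k hk c1 c2
      have := interp_lt h hK d1 d2
      exact ⟨⟨d1, d2, by linarith, c3.le⟩, by tauto⟩
    · rw [segment_symm, mem_seg_vert h] at hi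
      obtain ⟨c1, c2, c3⟩ := hi
      refine ⟨⟨by linarith, c1.le, ?_, ?_⟩, by tauto⟩
      · rw [c1, interp_nat L le_rfl]; exact c2
      · rw [c1, interp_nat U le_rfl]; exact c3
    · rw [segment_symm, mem_seg_ch _ hk] at hi
      obtain ⟨c1, c2, c3⟩ := hi
      obtain ⟨d1, d2⟩ := bd k hk c1 c2
      have := interp_lt h hK d1 d2
      exact ⟨⟨d1, d2, c3.ge, by linarith⟩, by tauto⟩
    · rw [mem_seg_vert h] at hi
      obtain ⟨c1, c2, c3⟩ := hi
      refine ⟨⟨by rw [c1]; simp, by rw [c1]; simp, ?_, ?_⟩, Or.inl (by simpa using c1)⟩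
      · rw [c1, interp_nat L (Nat.zero_le K)]; exact c2
      · rw [c1, interp_nat U (Nat.zero_le K)]; exact c3
  · rintro ⟨⟨c1, c2, c3, c4⟩, e | e | e | e⟩
    · obtain ⟨i, hi⟩ := exists_val (K := K) (2 * K + 1) (by omega)
      refine ⟨i, ?_⟩
      rcases edge_cases L U K i with ⟨k, hk, v1, -, a1, a2⟩ | ⟨v1, -, a1, a2⟩ |
        ⟨k, hk, v1, -, a1, a2⟩ | ⟨v1, -, a1, a2⟩ <;> try omega
      rw [a1, a2, mem_seg_vert h]
      have e' : p.1 = ((0 : ℕ) : ℝ) := by simpa using e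
      rw [e', interp_nat _ (Nat.zero_le K)] at c3 c4
      exact ⟨e', c3, c4⟩
    · obtain ⟨i, hi⟩ := exists_val (K := K) K (by omega)
      refine ⟨i, ?_⟩
      rcases edge_cases L U K i with ⟨k, hk, v1, -, a1, a2⟩ | ⟨v1, -, a1, a2⟩ |
        ⟨k, hk, v1, -, a1, a2⟩ | ⟨v1, -, a1, a2⟩ <;> try omega
      rw [a1, a2, segment_symm, mem_seg_vert h]
      rw [e, interp_nat _ le_rfl] at c3 c4
      exact ⟨e, c3, c4⟩
    · obtain ⟨k0, hk0, d1, d2⟩ := exists_col hK c1 c2
      obtain ⟨i, hi⟩ := exists_val (K := K) (2 * K - k0) (by omega)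
      refine ⟨i, ?_⟩
      rcases edge_cases L U K i with ⟨k, hk, v1, -, a1, a2⟩ | ⟨v1, -, a1, a2⟩ |
        ⟨k, hk, v1, -, a1, a2⟩ | ⟨v1, -, a1, a2⟩ <;> try omega
      obtain rfl : k = k0 := by omega
      rw [a1, a2, segment_symm, mem_seg_ch _ hk]
      exact ⟨d1, d2, e⟩
    · obtain ⟨k0, hk0, d1, d2⟩ := exists_col hK c1 c2
      obtain ⟨i, hi⟩ := exists_val (K := K) k0 (by omega)
      refine ⟨i, ?_⟩
      rcases edge_cases L U K i with ⟨k, hk, v1, -, a1, a2⟩ | ⟨v1, -, a1, a2⟩ |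
        ⟨k, hk, v1, -, a1, a2⟩ | ⟨v1, -, a1, a2⟩ <;> try omega
      obtain rfl : k = k0 := by omega
      rw [a1, a2, mem_seg_ch _ hk]
      exact ⟨d1, d2, e⟩

lemma strip_closed (L U : ℕ → ℝ) (K : ℕ) : IsClosed (strip L U K) := by
  have h1 := interp_cont L K
  have h2 := interp_cont U K
  unfold strip
  refine (isClosed_le continuous_const continuous_fst).inter
    ((isClosed_le continuous_fst continuous_const).inter
      ((isClosed_le (h1.comp continuous_fst) continuous_snd).inter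
        (isClosed_le continuous_snd (h2.comp continuous_fst))))

lemma strip_bounded (L U : ℕ → ℝ) (K : ℕ) : Bornology.IsBounded (strip L U K) := by
  have h1 := interp_cont L K
  have h2 := interp_cont U K
  obtain ⟨A, hA⟩ := (isCompact_Icc (a := (0 : ℝ)) (b := K)).bddBelow_image h1.continuousOn
  obtain ⟨B, hB⟩ := (isCompact_Icc (a := (0 : ℝ)) (b := K)).bddAbove_image h2.continuousOn
  refine ((Metric.isBounded_Icc (0 : ℝ) K).prod (Metric.isBounded_Icc A B)).subset ?_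
  rintro p ⟨c1, c2, c3, c4⟩
  exact ⟨⟨c1, c2⟩, (hA ⟨p.1, ⟨c1, c2⟩, rfl⟩).trans c3, c4.trans (hB ⟨p.1, ⟨c1, c2⟩, rfl⟩)⟩

lemma ray_unbounded (F : Set (ℝ × ℝ)) (p : ℝ × ℝ) (e : ℝ) (he : e = 1 ∨ e = -1)
    (hr : ∀ t : ℝ, 0 ≤ t → (p.1, p.2 + e * t) ∈ F) :
    ¬ Bornology.IsBounded (connectedComponentIn F p) := by
  intro hb
  have hc : IsPreconnected ((fun t : ℝ => (p.1, p.2 + e * t)) '' Ici 0) :=
    isPreconnected_Ici.image _ (by fun_prop)
  have hs : (fun t : ℝ => (p.1, p.2 + e * t)) '' Ici 0 ⊆ connectedComponentIn F p := by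
    apply hc.subset_connectedComponentIn
    · exact ⟨0, by simp, by simp⟩
    · rintro q ⟨t, ht, rfl⟩; exact hr t ht
  obtain ⟨R, hR⟩ := (hb.subset hs).exists_norm_le
  have h1 := hR _ ⟨|R| + |p.2| + 1, by simp only [mem_Ici]; positivity, rfl⟩
  have h2 := (norm_snd_le _).trans h1
  simp only [Real.norm_eq_abs] at h2
  have h3 := le_abs_self R
  have h4 := le_abs_self p.2
  have h5 := neg_abs_le p.2
  rw [abs_le] at h2
  rcases he with rfl | rfl <;> linarith [h2.1, h2.2]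

theorem region_eq {L U : ℕ → ℝ} (h : ∀ k, L k < U k) {K : ℕ} (hK : 0 < K) :
    region (2 * K + 2) (vtx L U K) = strip L U K := by
  ext p
  unfold region
  simp only [mem_union, mem_ofPred_eq]
  constructor
  · rintro (hp | ⟨-, hp⟩)
    · exact ((mem_curve h hK p).1 hp).1
    · by_contra hn
      by_cases h3 : 0 ≤ p.1 ∧ p.1 ≤ K ∧ p.2 < interp L K p.1
      · refine ray_unbounded _ p (-1) (Or.inr rfl) ?_ hp
        intro t ht hc
        have := ((mem_curve h hK _).1 hc).1.2.2.1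
        simp only at this
        linarith [h3.2.2]
      · refine ray_unbounded _ p 1 (Or.inl rfl) ?_ hp
        intro t ht hc
        obtain ⟨c1, c2, c3, c4⟩ := ((mem_curve h hK _).1 hc).1
        simp only at c1 c2 c3 c4
        apply hn
        refine ⟨c1, c2, ?_, by linarith⟩
        by_contra h4
        exact h3 ⟨c1, c2, not_le.1 h4⟩
  · intro hp
    by_cases hc : p ∈ curve (2 * K + 2) (vtx L U K)
    · exact Or.inl hc
    refine Or.inr ⟨hc, (strip_bounded L U K).subset ?_⟩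
    have h1 := interp_cont L K
    have h2 := interp_cont U K
    set I : Set (ℝ × ℝ) :=
      {q | 0 < q.1 ∧ q.1 < K ∧ interp L K q.1 < q.2 ∧ q.2 < interp U K q.1} with hI
    have hIo : IsOpen I :=
      (isOpen_lt continuous_const continuous_fst).inter
        ((isOpen_lt continuous_fst continuous_const).inter
          ((isOpen_lt (h1.comp continuous_fst) continuous_snd).inter
            (isOpen_lt continuous_snd (h2.comp continuous_fst))))
    have hIs : I ⊆ strip L U K := fun q hq => ⟨hq.1.le, hq.2.1.le, hq.2.2.1.le, hq.2.2.2.le⟩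
    have hin : ∀ q, q ∈ strip L U K → q ∉ curve (2 * K + 2) (vtx L U K) → q ∈ I := by
      intro q hq hq'
      rw [mem_curve h hK] at hq'
      push Not at hq'
      obtain ⟨a1, a2, a3, a4⟩ := hq' hq
      obtain ⟨c1, c2, c3, c4⟩ := hq
      exact ⟨lt_of_le_of_ne c1 (Ne.symm a1), lt_of_le_of_ne c2 a2, lt_of_le_of_ne c3 (Ne.symm a3),
        lt_of_le_of_ne c4 a4⟩
    refine subset_trans ?_ hIs
    refine IsPreconnected.subset_left_of_subset_union hIo (strip_closed L U K).isOpen_compl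
      (disjoint_compl_right.mono_left hIs) ?_ ⟨p, mem_connectedComponentIn hc, hin p hp hc⟩
      isPreconnected_connectedComponentIn
    intro q hq
    have hq' := connectedComponentIn_subset _ _ hq
    by_cases hs : q ∈ strip L U K
    · exact Or.inl (hin q hs hq')
    · exact Or.inr hs

end Pool.Agent.P.MP_fe41f2_co
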