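import Mathlib
import Pool.Agent.P.MP_fe41f2_co.Mono

set_option autoImplicit false

namespace Pool.Agent.P.MP_fe41f2_co

open Set

def Aff (f : ℝ × ℝ → ℝ) : Prop :=
  ∀ (p q : ℝ × ℝ) (a : ℝ), f ((1 - a) • p + a • q) = (1 - a) * f p + a * f q

lemma hull_nonneg {f : ℝ × ℝ → ℝ} (hf : Aff f) {t : Set (ℝ × ℝ)} (h : ∀ x ∈ t, 0 ≤ f x)
    {p : ℝ × ℝ} (hp : p ∈ convexHull ℝ t) : 0 ≤ f p := by
  have hc : Convex ℝ {x | 0 ≤ f x} := by
    intro x hx y hy a b ha hb hab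
    obtain rfl : a = 1 - b := by linarith
    show 0 ≤ f _
    rw [hf]
    exact add_nonneg (mul_nonneg ha hx) (mul_nonneg hb hy)
  exact convexHull_min (fun x hx => h x hx) hc hp

lemma Aff.neg {f : ℝ × ℝ → ℝ} (hf : Aff f) : Aff (fun p => - f p) := by
  intro p q a
  simp only [hf p q a]
  ring

lemma hull_nonpos {f : ℝ × ℝ → ℝ} (hf : Aff f) {t : Set (ℝ × ℝ)} (h : ∀ x ∈ t, f x ≤ 0)
    {p : ℝ × ℝ} (hp : p ∈ convexHull ℝ t) : f p ≤ 0 := by
  have := hull_nonneg hf.neg (t := t) (fun x hx => by linarith [h x hx]) hp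
  linarith

lemma interior_step {s : Set (ℝ × ℝ)} {p : ℝ × ℝ} (hp : p ∈ interior s) (q : ℝ × ℝ) :
    ∃ a : ℝ, 0 < a ∧ (1 - a) • p + a • q ∈ s := by
  have hc : Continuous (fun a : ℝ => (1 - a) • p + a • q) := by fun_prop
  have h0 : (fun a : ℝ => (1 - a) • p + a • q) ⁻¹' interior s ∈ nhds (0 : ℝ) :=
    hc.continuousAt.preimage_mem_nhds (isOpen_interior.mem_nhds (by simpa using hp))
  obtain ⟨ε, hε, hb⟩ := Metric.mem_nhds_iff.1 h0
  refine ⟨ε / 2, by linarith, interior_subset (hb ?_)⟩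
  rw [Metric.mem_ball, Real.dist_eq, sub_zero, abs_of_pos (by linarith)]
  linarith

lemma disj_of_aff {f : ℝ × ℝ → ℝ} (hf : Aff f) (q : ℝ × ℝ) (hq : f q ≠ 0) {t t' : Set (ℝ × ℝ)}
    (h : ∀ x ∈ t, f x ≤ 0) (h' : ∀ x ∈ t', 0 ≤ f x) :
    Disjoint (interior (convexHull ℝ t)) (interior (convexHull ℝ t')) := by
  rw [Set.disjoint_left]
  intro p hp hp'
  have hi : p ∈ interior (convexHull ℝ t ∩ convexHull ℝ t') := by
    rw [interior_inter]; exact ⟨hp, hp'⟩
  obtain ⟨a, ha, h1, h2⟩ := interior_step hi q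
  have e1 := hull_nonpos hf h h1
  have e2 := hull_nonneg hf h' h2
  have e3 := hull_nonpos hf h (interior_subset hp)
  have e4 := hull_nonneg hf h' (interior_subset hp')
  have e5 : f p = 0 := le_antisymm e3 e4
  rw [hf, e5] at e1 e2
  have : a * f q = 0 := by linarith
  rcases mul_eq_zero.1 this with h0 | h0
  · linarith
  · exact hq h0

lemma mem_hull_of_det (e : ℝ) {a b c p : ℝ × ℝ} (h : 0 < e * det3 a b c)
    (h1 : 0 ≤ e * det3 a b p) (h2 : 0 ≤ e * det3 b c p) (h3 : 0 ≤ e * det3 c a p) :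
    p ∈ convexHull ℝ ({a, b, c} : Set (ℝ × ℝ)) := by
  have hc := convex_convexHull ℝ ({a, b, c} : Set (ℝ × ℝ))
  have hs := subset_convexHull ℝ ({a, b, c} : Set (ℝ × ℝ))
  have he : e ≠ 0 := by rintro rfl; simp at h
  have hd : det3 a b c ≠ 0 := by intro h0; rw [h0] at h; simp at h
  have := hc.sum_mem (t := (Finset.univ : Finset (Fin 3)))
    (w := ![e * det3 b c p / (e * det3 a b c), e * det3 c a p / (e * det3 a b c),
      e * det3 a b p / (e * det3 a b c)]) (z := ![a, b, c])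
    (by intro i _; fin_cases i <;> simp <;> positivity)
    (by simp [Fin.sum_univ_three]; field_simp; unfold det3; ring)
    (by intro i _; fin_cases i <;> apply hs <;> simp)
  convert this using 1
  simp only [Fin.sum_univ_three]
  ext
  · simp; field_simp; unfold det3; ring
  · simp; field_simp; unfold det3; ring

def zz (m g X : ℝ) : ℝ := 5 * m ^ 3 * g * (g - 1) + 10 * m ^ 2 * g * X
def rr (m i : ℝ) : ℝ := 2 * m ^ 2 - i * (m - i)
def ln (m i X : ℝ) : ℝ := 2 * m ^ 2 - m * X + (2 * i + 1) * X - i * (i + 1)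

/-- heights of the upper (`e = 1`) and lower (`e = -1`) chain -/
def hgt (m : ℕ) (e : ℝ) (k : ℕ) : ℝ :=
  zz m (k / m : ℕ) (k % m : ℕ) + e * rr m (k % m : ℕ)

lemma hgt_block {m : ℕ} (hm : 0 < m) (e : ℝ) (g : ℕ) {i : ℕ} (hi : i ≤ m) :
    hgt m e (g * m + i) = zz m g i + e * rr m i := by
  unfold hgt
  rcases eq_or_lt_of_le hi with h | h
  · subst h
    have e1 : (g * i + i) / i = g + 1 := by
      rw [show g * i + i = (g + 1) * i by ring, Nat.mul_div_cancel _ hm]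
    have e2 : (g * i + i) % i = 0 := by
      rw [show g * i + i = (g + 1) * i by ring, Nat.mul_mod_left]
    rw [e1, e2]
    unfold zz rr
    push_cast
    ring
  · have e1 : (g * m + i) / m = g := by
      rw [add_comm, Nat.add_mul_div_right _ _ hm, Nat.div_eq_of_lt h, zero_add]
    have e2 : (g * m + i) % m = i := by
      rw [add_comm, Nat.add_mul_mod_self_right, Nat.mod_eq_of_lt h]
    rw [e1, e2]

lemma rr_ge {m i : ℝ} (h0 : 0 ≤ i) (h1 : i ≤ m) : m ^ 2 ≤ rr m i := by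
  unfold rr; nlinarith

lemma rr_le {m i : ℝ} (h0 : 0 ≤ i) (h1 : i ≤ m) : rr m i ≤ 2 * m ^ 2 := by
  unfold rr; nlinarith

lemma ln_nonneg {m i X : ℝ} (h0 : 0 ≤ i) (h1 : i + 1 ≤ m) (h2 : 0 ≤ X) (h3 : X ≤ m) :
    0 ≤ ln m i X := by
  unfold ln; nlinarith

lemma hgt_lt {m : ℕ} (hm : 0 < m) (k : ℕ) : hgt m (-1) k < hgt m 1 k := by
  unfold hgt
  have h1 : ((k % m : ℕ) : ℝ) ≤ m := by exact_mod_cast (Nat.mod_lt k hm).le
  have h2 := rr_ge (Nat.cast_nonneg (k % m)) h1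
  have h3 : (0 : ℝ) < m := by exact_mod_cast hm
  have : (0 : ℝ) < (m : ℝ) ^ 2 := by positivity
  linarith

lemma exists_block {m : ℕ} (hm : 0 < m) (k : ℕ) : ∃ g i, i < m ∧ k = g * m + i :=
  ⟨k / m, k % m, Nat.mod_lt k hm, by rw [mul_comm]; exact (Nat.div_add_mod k m).symm⟩

lemma hgt_second {m : ℕ} (hm : 0 < m) {e : ℝ} (he : e = 1 ∨ e = -1) (k : ℕ) :
    hgt m e k + hgt m e (k + 2) ≠ 2 * hgt m e (k + 1) := by
  obtain ⟨g, i, hi, rfl⟩ := exists_block hm k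
  have h3 : (1 : ℝ) ≤ m := by exact_mod_cast hm
  rw [add_assoc, add_assoc, hgt_block hm e g hi.le, hgt_block hm e g (i := i + 1) hi]
  by_cases h : i + 2 ≤ m
  · rw [hgt_block hm e g h]
    unfold zz rr
    push_cast
    rcases he with rfl | rfl <;> intro h' <;> linarith
  · obtain rfl : m = i + 1 := by omega
    rw [show g * (i + 1) + (i + 2) = (g + 1) * (i + 1) + 1 by ring,
      hgt_block hm e (g + 1) (i := 1) (by omega)]
    unfold zz rr
    push_cast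
    have : (0 : ℝ) ≤ i := Nat.cast_nonneg i
    rcases he with rfl | rfl <;> intro h' <;> nlinarith

def lx (m g : ℕ) (p : ℝ × ℝ) : ℝ := p.1 - g * m
def ly (m g : ℕ) (p : ℝ × ℝ) : ℝ := p.2 - zz m g (p.1 - g * m)

/-- vertex `i` of block `g` on the chain `e` -/
def pt (m : ℕ) (e : ℝ) (g i : ℕ) : ℝ × ℝ := ch (hgt m e) (g * m + i)

lemma lx_pt (m : ℕ) (e : ℝ) (g i : ℕ) : lx m g (pt m e g i) = i := by
  simp [lx, pt, ch]

lemma ly_pt {m : ℕ} (hm : 0 < m) (e : ℝ) (g : ℕ) {i : ℕ} (hi : i ≤ m) :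
    ly m g (pt m e g i) = e * rr m i := by
  simp [ly, pt, ch, hgt_block hm e g hi]

lemma aff_loc (m g : ℕ) (α β γ : ℝ) : Aff (fun p => α * lx m g p + β * ly m g p + γ) := by
  intro p q a
  simp [lx, ly, zz]
  ring

/-- the polygon -/
def PP (m N : ℕ) : Set (ℝ × ℝ) := strip (hgt m (-1)) (hgt m 1) (N * m)

lemma interp_loc {m N g k : ℕ} (hm : 0 < m) (hg : g < N) (hk : k < m) (e : ℝ) {p : ℝ × ℝ}
    (h1 : (k : ℝ) ≤ lx m g p) (h2 : lx m g p ≤ k + 1) :
    interp (hgt m e) (N * m) p.1 = zz m g (lx m g p) + e * ln m k (lx m g p) := by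
  have hlt : g * m + k < N * m := by nlinarith
  unfold lx at *
  rw [interp_eq _ hlt (by push_cast; linarith) (by push_cast; linarith), add_assoc,
    hgt_block hm e g hk.le, hgt_block hm e g (i := k + 1) hk]
  unfold zz rr ln
  push_cast
  ring

lemma of_mem {m N g k : ℕ} (hm : 0 < m) (hg : g < N) (hk : k < m) {e : ℝ} (he : e = 1 ∨ e = -1)
    {p : ℝ × ℝ} (hp : p ∈ PP m N) (h1 : (k : ℝ) ≤ lx m g p) (h2 : lx m g p ≤ k + 1) :
    e * ly m g p ≤ ln m k (lx m g p) := by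
  obtain ⟨-, -, c3, c4⟩ := hp
  rw [interp_loc hm hg hk _ h1 h2] at c3 c4
  unfold ly lx at *
  rcases he with rfl | rfl <;> linarith

lemma ln_mono {m X : ℝ} (i k : ℕ) (h1 : (k : ℝ) ≤ X) (h2 : X ≤ k + 1) : ln m i X ≤ ln m k X := by
  unfold ln
  rcases lt_trichotomy i k with h | h | h
  · have : ((i + 1 : ℕ) : ℝ) ≤ k := by exact_mod_cast h
    push_cast at this
    nlinarith
  · rw [h]
  · have : ((k + 1 : ℕ) : ℝ) ≤ i := by exact_mod_cast h
    push_cast at this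
    nlinarith

lemma mem_of {m N g : ℕ} (hm : 0 < m) (hg : g < N) {e : ℝ} (he : e = 1 ∨ e = -1) (i j : ℕ)
    {p : ℝ × ℝ} (h0 : 0 ≤ lx m g p) (h1 : lx m g p ≤ m)
    (h2 : e * ly m g p ≤ ln m i (lx m g p)) (h3 : -e * ly m g p ≤ ln m j (lx m g p)) :
    p ∈ PP m N := by
  obtain ⟨k, hk, a1, a2⟩ := exists_col hm h0 h1
  have b1 := ln_mono (m := m) i k a1 a2
  have b2 := ln_mono (m := m) j k a1 a2
  have hg' : ((g + 1 : ℕ) : ℝ) ≤ N := by exact_mod_cast hg
  have hm' : (0 : ℝ) ≤ m := Nat.cast_nonneg m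
  have hg0 : (0 : ℝ) ≤ g := Nat.cast_nonneg g
  push_cast at hg'
  refine ⟨?_, ?_, ?_, ?_⟩
  · unfold lx at h0; nlinarith
  · unfold lx at h1; push_cast; nlinarith
  · rw [interp_loc hm hg hk _ a1 a2]
    unfold ly lx at *
    rcases he with rfl | rfl <;> linarith
  · rw [interp_loc hm hg hk _ a1 a2]
    unfold ly lx at *
    rcases he with rfl | rfl <;> linarith

/-- side of the line through vertex `i` of chain `e` and vertex `j` of the other chain -/
def side (m g : ℕ) (e : ℝ) (i j : ℕ) (p : ℝ × ℝ) : ℝ :=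
  (rr m i + rr m j) * (lx m g p - i) - (i - j) * (e * ly m g p - rr m i)

lemma side_aff (m g : ℕ) (e : ℝ) (i j : ℕ) : Aff (side m g e i j) := by
  intro p q a
  simp [side, lx, ly, zz]
  ring

lemma side_symm (m g : ℕ) (e : ℝ) (i j : ℕ) (p : ℝ × ℝ) :
    side m g (-e) j i p = side m g e i j p := by
  unfold side; ring

lemma brk {m a b r s : ℝ} (hm : 1 ≤ m) (ha : -m ≤ a) (ha' : a ≤ m) (hb : -m ≤ b) (hb' : b ≤ m)
    (hr : m ^ 2 ≤ r) (hs : m ^ 2 ≤ s) : 0 < r + s - a * b := by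
  nlinarith [mul_nonneg (sub_nonneg.2 ha') (sub_nonneg.2 hb'),
    mul_nonneg (sub_nonneg.2 ha) (sub_nonneg.2 hb)]

lemma side_same {m : ℕ} (hm : 0 < m) (g : ℕ) {e : ℝ} (he : e = 1 ∨ e = -1) {i j k : ℕ}
    (hi : i ≤ m) (hj : j ≤ m) (hk : k ≤ m) :
    ∃ c : ℝ, 0 < c ∧ side m g e i j (pt m e g k) = ((k : ℝ) - i) * c := by
  have h1 : (1 : ℝ) ≤ m := by exact_mod_cast hm
  have hi' : (i : ℝ) ≤ m := by exact_mod_cast hi
  have hj' : (j : ℝ) ≤ m := by exact_mod_cast hj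
  have hk' : (k : ℝ) ≤ m := by exact_mod_cast hk
  have i0 : (0 : ℝ) ≤ i := Nat.cast_nonneg i
  have j0 : (0 : ℝ) ≤ j := Nat.cast_nonneg j
  have k0 : (0 : ℝ) ≤ k := Nat.cast_nonneg k
  refine ⟨rr m i + rr m j - (i - j) * (k + i - m), brk h1 (by linarith) (by linarith) (by linarith)
    (by linarith) (rr_ge i0 hi') (rr_ge j0 hj'), ?_⟩
  unfold side
  rw [lx_pt, ly_pt hm e g hk]
  unfold rr
  rcases he with rfl | rfl <;> ring

lemma side_opp {m : ℕ} (hm : 0 < m) (g : ℕ) {e : ℝ} (he : e = 1 ∨ e = -1) {i j k : ℕ}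
    (hi : i ≤ m) (hj : j ≤ m) (hk : k ≤ m) :
    ∃ c : ℝ, 0 < c ∧ side m g e i j (pt m (-e) g k) = ((k : ℝ) - j) * c := by
  rw [← side_symm]
  exact side_same hm g (by rcases he with rfl | rfl <;> simp) hj hi hk

/-- triangle on the edge `i` of chain `e` with apex vertex `j` of the other chain -/
def TT (m : ℕ) (e : ℝ) (g i j : ℕ) : Set (ℝ × ℝ) :=
  {pt m (-e) g j, pt m e g (i + 1), pt m e g i}

lemma TT_det {m : ℕ} (hm : 0 < m) (g : ℕ) {e : ℝ} (he : e = 1 ∨ e = -1) {i j : ℕ}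
    (hi : i < m) (hj : j ≤ m) (p : ℝ × ℝ) :
    e * det3 (pt m (-e) g j) (pt m e g (i + 1)) p = - side m g e (i + 1) j p ∧
    e * det3 (pt m e g (i + 1)) (pt m e g i) p = ln m i (lx m g p) - e * ly m g p ∧
    e * det3 (pt m e g i) (pt m (-e) g j) p = side m g e i j p := by
  unfold det3 side pt ch
  rw [hgt_block hm _ g hj, hgt_block hm _ g hi.le, hgt_block hm _ g (i := i + 1) hi]
  unfold lx ly zz rr ln
  push_cast
  rcases he with rfl | rfl <;> refine ⟨?_, ?_, ?_⟩ <;> ring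

lemma TT_pos {m : ℕ} (hm : 0 < m) (g : ℕ) {e : ℝ} (he : e = 1 ∨ e = -1) {i j : ℕ}
    (hi : i < m) (hj : j ≤ m) :
    0 < e * det3 (pt m (-e) g j) (pt m e g (i + 1)) (pt m e g i) := by
  rw [(TT_det hm g he hi hj _).1]
  obtain ⟨c, hc, h⟩ := side_same hm g he (i := i + 1) (j := j) (k := i) hi hj hi.le
  rw [h]
  push_cast
  linarith

lemma wedge_aux {m X W δ R : ℝ} (hm : 1 ≤ m) (hX : 0 ≤ X) (h1 : -m * X < W) (h2 : W ≤ m * X)
    (h3 : -m ≤ δ) (h4 : δ ≤ m) (hR : 2 * m ^ 2 ≤ R) (h : R * X ≤ δ * W) : False := by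
  have e1 : δ * W ≤ m * (m * X) := by
    nlinarith [mul_nonneg (sub_nonneg.2 h4) (sub_nonneg.2 h2),
      mul_nonneg (sub_nonneg.2 h3) (sub_nonneg.2 h1.le)]
  have e2 : 2 * m ^ 2 * X ≤ R * X := mul_le_mul_of_nonneg_right hR hX
  have e3 : m ^ 2 * X ≤ 0 := by nlinarith
  have e4 : X = 0 := by
    have : 0 < m ^ 2 := by positivity
    nlinarith
  subst e4
  linarith

lemma wedge {m N g : ℕ} (hm : 0 < m) (hg : g < N) {e : ℝ} (he : e = 1 ∨ e = -1) {i j : ℕ}
    (hi : i < m) (hj : j ≤ m) {p : ℝ × ℝ} (hp : p ∈ PP m N) (h0 : 0 ≤ lx m g p)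
    (h1 : lx m g p ≤ m) (s1 : 0 ≤ side m g e i j p) (s2 : side m g e (i + 1) j p ≤ 0) :
    p ∈ convexHull ℝ (TT m e g i j) := by
  obtain ⟨d1, d2, d3⟩ := TT_det hm g he hi hj p
  refine mem_hull_of_det e (TT_pos hm g he hi hj) (by linarith) ?_ (by linarith)
  rw [d2]
  by_contra hc
  obtain ⟨k, hk, a1, a2⟩ := exists_col hm h0 h1
  have b := of_mem hm hg hk he hp a1 a2
  have m1 : (1 : ℝ) ≤ m := by exact_mod_cast hm
  have hi' : ((i + 1 : ℕ) : ℝ) ≤ m := by exact_mod_cast hi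
  have hk' : ((k + 1 : ℕ) : ℝ) ≤ m := by exact_mod_cast hk
  have hj' : (j : ℝ) ≤ m := by exact_mod_cast hj
  have i0 : (0 : ℝ) ≤ i := Nat.cast_nonneg i
  have j0 : (0 : ℝ) ≤ j := Nat.cast_nonneg j
  have k0 : (0 : ℝ) ≤ k := Nat.cast_nonneg k
  unfold side at s1 s2
  push_cast at hi' hk' s2
  have r1 := rr_ge (m := m) i0 (by linarith)
  have r2 := rr_ge (m := m) (i := i + 1) (by linarith) hi'
  have r3 := rr_ge j0 hj'
  set X := lx m g p
  set Y := e * ly m g p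
  rcases lt_trichotomy k i with h | h | h
  · have h' : ((k + 1 : ℕ) : ℝ) ≤ i := by exact_mod_cast h
    push_cast at h'
    have hX : 0 ≤ (i : ℝ) - X := by linarith
    refine wedge_aux (X := i - X) (W := Y - rr m i) (δ := j - i) (R := rr m i + rr m j) m1 hX
      ?_ ?_ (by linarith) (by linarith) (by linarith) (by linarith)
    · unfold ln at hc; unfold rr
      nlinarith [mul_nonneg hX (show (0 : ℝ) ≤ 2 * m - (2 * i + 1) by linarith)]
    · unfold ln at b; unfold rr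
      nlinarith [mul_nonneg hX (show (0 : ℝ) ≤ 2 * k + 1 by linarith),
        mul_nonneg (show (0 : ℝ) ≤ i - k by linarith) (show (0 : ℝ) ≤ i - k - 1 by linarith)]
  · subst h; linarith
  · have h' : ((i + 1 : ℕ) : ℝ) ≤ k := by exact_mod_cast h
    push_cast at h'
    have hX : 0 ≤ X - (i + 1) := by linarith
    refine wedge_aux (X := X - (i + 1)) (W := Y - rr m (i + 1)) (δ := i + 1 - j)
      (R := rr m (i + 1) + rr m j) m1 hX
      ?_ ?_ (by linarith) (by linarith) (by linarith) (by linarith)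
    · unfold ln at hc; unfold rr
      nlinarith [mul_nonneg hX (show (0 : ℝ) ≤ 2 * i + 1 by linarith)]
    · unfold ln at b; unfold rr
      nlinarith [mul_nonneg hX (show (0 : ℝ) ≤ 2 * m - (2 * k + 1) by linarith),
        mul_nonneg (show (0 : ℝ) ≤ k - i by linarith) (show (0 : ℝ) ≤ k - i - 1 by linarith)]

lemma TT_sub {m N g : ℕ} (hm : 0 < m) (hg : g < N) {e : ℝ} (he : e = 1 ∨ e = -1) {i j : ℕ}
    (hi : i < m) (hj : j ≤ m) : convexHull ℝ (TT m e g i j) ⊆ PP m N := by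
  intro p hp
  have m1 : (1 : ℝ) ≤ m := by exact_mod_cast hm
  have hi' : ((i + 1 : ℕ) : ℝ) ≤ m := by exact_mod_cast hi
  have hj' : (j : ℝ) ≤ m := by exact_mod_cast hj
  have i0 : (0 : ℝ) ≤ i := Nat.cast_nonneg i
  have j0 : (0 : ℝ) ≤ j := Nat.cast_nonneg j
  push_cast at hi'
  have r1 := rr_ge (m := m) i0 (by linarith)
  have r2 := rr_ge (m := m) (i := i + 1) (by linarith) hi'
  have r3 := rr_ge j0 hj'
  have mm : (0 : ℝ) ≤ (m : ℝ) ^ 2 := by positivity
  have ee : e * e = 1 := by rcases he with rfl | rfl <;> norm_num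
  obtain ⟨j', hj1, hj2⟩ : ∃ j' : ℕ, j' < m ∧ ln m j' j = rr m j := by
    rcases eq_or_lt_of_le hj with h | h
    · obtain ⟨j', rfl⟩ : ∃ j', j = j' + 1 := ⟨j - 1, by omega⟩
      refine ⟨j', by omega, ?_⟩
      unfold ln rr; push_cast; ring
    · exact ⟨j, h, by unfold ln rr; ring⟩
  have hj3 : ((j' + 1 : ℕ) : ℝ) ≤ m := by exact_mod_cast hj1
  have j1 : (0 : ℝ) ≤ j' := Nat.cast_nonneg j'
  push_cast at hj3
  have key : ∀ α β γ : ℝ, 0 ≤ α * j - β * rr m j + γ → 0 ≤ α * (i + 1) + β * rr m (i + 1) + γ →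
      0 ≤ α * i + β * rr m i + γ → 0 ≤ α * lx m g p + β * (e * ly m g p) + γ := by
    intro α β γ a1 a2 a3
    have := hull_nonneg (aff_loc m g α (β * e) γ) (t := TT m e g i j) ?_ hp
    · linarith
    rintro x (rfl | rfl | rfl)
    · rw [lx_pt, ly_pt hm _ g hj]
      have : β * e * (-e * rr m j) = -β * rr m j * (e * e) := by ring
      rw [this, ee]; linarith
    · rw [lx_pt, ly_pt hm _ g (i := i + 1) hi]
      have : β * e * (e * rr m ((i + 1 : ℕ) : ℝ)) = β * rr m ((i + 1 : ℕ) : ℝ) * (e * e) := by ring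
      rw [this, ee]; push_cast; linarith
    · rw [lx_pt, ly_pt hm _ g hi.le]
      have : β * e * (e * rr m i) = β * rr m i * (e * e) := by ring
      rw [this, ee]; linarith
  have k1 := key 1 0 0 (by linarith) (by linarith) (by linarith)
  have k2 := key (-1) 0 m (by linarith) (by linarith) (by linarith)
  have l1 := ln_nonneg (m := m) (X := j) i0 hi' j0 hj'
  have l2 := ln_nonneg (m := m) (X := i + 1) j1 hj3 (by linarith) hi'
  have l3 := ln_nonneg (m := m) (X := i) j1 hj3 i0 (by linarith)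
  have k3 := key (2 * i + 1 - m) (-1) (2 * m ^ 2 - i * (i + 1)) (by unfold ln at l1; linarith)
    (by unfold rr; linarith) (by unfold rr; linarith)
  have k4 := key (2 * j' + 1 - m) 1 (2 * m ^ 2 - j' * (j' + 1)) (by unfold ln at hj2; linarith)
    (by unfold ln at l2; linarith) (by unfold ln at l3; linarith)
  refine mem_of hm hg he i j' (by linarith) (by linarith) ?_ ?_
  · unfold ln; linarith
  · unfold ln; linarith

end Pool.Agent.P.MP_fe41f2_co
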