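import Mathlib
import Pool.Agent.P.MP_fe41f2_co.Block

set_option autoImplicit false

namespace Pool.Agent.P.MP_fe41f2_co

open Set

/-- monotone lattice path from `(0,0)` to `(m,m)` -/
structure IsPath (m : ℕ) (a b : ℕ → ℕ) : Prop where
  a0 : a 0 = 0
  b0 : b 0 = 0
  a1 : a (2 * m) = m
  b1 : b (2 * m) = m
  step : ∀ s < 2 * m, (a (s + 1) = a s + 1 ∧ b (s + 1) = b s) ∨ (a (s + 1) = a s ∧ b (s + 1) = b s + 1)

lemma IsPath.mono {m : ℕ} {a b : ℕ → ℕ} (h : IsPath m a b) {s s' : ℕ} (h1 : s ≤ s')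
    (h2 : s' ≤ 2 * m) : a s ≤ a s' ∧ b s ≤ b s' := by
  induction s', h1 using Nat.le_induction with
  | base => exact ⟨le_rfl, le_rfl⟩
  | succ k hk ih =>
    have := ih (by omega)
    have := h.step k (by omega)
    omega

lemma IsPath.le {m : ℕ} {a b : ℕ → ℕ} (h : IsPath m a b) {s : ℕ} (h2 : s ≤ 2 * m) :
    a s ≤ m ∧ b s ≤ m := by
  have := h.mono h2 le_rfl
  rw [h.a1, h.b1] at this
  exact this

def tri (m : ℕ) (a b : ℕ → ℕ) (g s : ℕ) : Set (ℝ × ℝ) :=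
  {pt m 1 g (a s), pt m 1 g (a (s + 1)), pt m (-1) g (b s), pt m (-1) g (b (s + 1))}

def TP (m N : ℕ) (a b : ℕ → ℕ) : Set (Set (ℝ × ℝ)) :=
  {t | ∃ g < N, ∃ s < 2 * m, t = tri m a b g s}

def VV (m N : ℕ) : Set (ℝ × ℝ) := range (vtx (hgt m (-1)) (hgt m 1) (N * m))

lemma mem_VV (m N : ℕ) (p : ℝ × ℝ) :
    p ∈ VV m N ↔ ∃ k ≤ N * m, p = ch (hgt m 1) k ∨ p = ch (hgt m (-1)) k :=
  range_vtx _ _ _ p

lemma tri_cases {m : ℕ} {a b : ℕ → ℕ} (h : IsPath m a b) (g : ℕ) {s : ℕ} (hs : s < 2 * m) :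
    (a s < m ∧ b s ≤ m ∧ a (s + 1) = a s + 1 ∧ b (s + 1) = b s ∧
      tri m a b g s = TT m 1 g (a s) (b s)) ∨
    (b s < m ∧ a s ≤ m ∧ a (s + 1) = a s ∧ b (s + 1) = b s + 1 ∧
      tri m a b g s = TT m (-1) g (b s) (a s)) := by
  have h1 := h.le (s := s + 1) hs
  rcases h.step s hs with ⟨e1, e2⟩ | ⟨e1, e2⟩
  · left
    refine ⟨by omega, by omega, e1, e2, ?_⟩
    unfold tri TT
    rw [e1, e2]
    ext x; simp only [mem_insert_iff, mem_singleton_iff]; tauto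
  · right
    refine ⟨by omega, by omega, e1, e2, ?_⟩
    unfold tri TT
    rw [e1, e2, neg_neg]
    ext x; simp only [mem_insert_iff, mem_singleton_iff]; tauto

lemma tri_sub {m N : ℕ} (hm : 0 < m) {a b : ℕ → ℕ} (h : IsPath m a b) {g : ℕ} (hg : g < N)
    {s : ℕ} (hs : s < 2 * m) : convexHull ℝ (tri m a b g s) ⊆ PP m N := by
  rcases tri_cases h g hs with ⟨c1, c2, -, -, e⟩ | ⟨c1, c2, -, -, e⟩ <;> rw [e]
  · exact TT_sub hm hg (Or.inl rfl) c1 c2
  · exact TT_sub hm hg (Or.inr rfl) c1 c2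

lemma pt_mem_VV {m N g i : ℕ} (hg : g < N) (hi : i ≤ m) {e : ℝ} (he : e = 1 ∨ e = -1) :
    pt m e g i ∈ VV m N := by
  rw [mem_VV]
  refine ⟨g * m + i, by nlinarith, ?_⟩
  rcases he with rfl | rfl
  · exact Or.inl rfl
  · exact Or.inr rfl

lemma tri_VV {m N : ℕ} {a b : ℕ → ℕ} (h : IsPath m a b) {g : ℕ} (hg : g < N)
    {s : ℕ} (hs : s < 2 * m) : tri m a b g s ⊆ VV m N := by
  have h1 := h.le (s := s + 1) hs
  have h2 := h.le (s := s) hs.le
  rintro x (rfl | rfl | rfl | rfl)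
  · exact pt_mem_VV hg h2.1 (Or.inl rfl)
  · exact pt_mem_VV hg h1.1 (Or.inl rfl)
  · exact pt_mem_VV hg h2.2 (Or.inr rfl)
  · exact pt_mem_VV hg h1.2 (Or.inr rfl)

lemma tri_left {m : ℕ} (hm : 0 < m) {a b : ℕ → ℕ} (h : IsPath m a b) (g : ℕ) {s r : ℕ}
    (hs : s + 1 ≤ r) (hr : r ≤ 2 * m) : ∀ x ∈ tri m a b g s, side m g 1 (a r) (b r) x ≤ 0 := by
  have h1 := h.mono hs hr
  have h2 := h.mono (s := s) (s' := r) (by omega) hr
  have h3 := h.le hr
  have up : ∀ k ≤ a r, side m g 1 (a r) (b r) (pt m 1 g k) ≤ 0 := by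
    intro k hk
    obtain ⟨c, hc, e⟩ := side_same hm g (Or.inl rfl) (k := k) h3.1 h3.2 (by omega)
    have : (k : ℝ) ≤ a r := by exact_mod_cast hk
    rw [e]; nlinarith
  have lo : ∀ k ≤ b r, side m g 1 (a r) (b r) (pt m (-1) g k) ≤ 0 := by
    intro k hk
    obtain ⟨c, hc, e⟩ := side_opp hm g (Or.inl rfl) (k := k) h3.1 h3.2 (by omega)
    have : (k : ℝ) ≤ b r := by exact_mod_cast hk
    rw [e]; nlinarith
  rintro x (rfl | rfl | rfl | rfl)
  exacts [up _ h2.1, up _ h1.1, lo _ h2.2, lo _ h1.2]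

lemma tri_right {m : ℕ} (hm : 0 < m) {a b : ℕ → ℕ} (h : IsPath m a b) (g : ℕ) {s r : ℕ}
    (hr : r ≤ s) (hs : s < 2 * m) : ∀ x ∈ tri m a b g s, 0 ≤ side m g 1 (a r) (b r) x := by
  have h1 := h.mono hr hs.le
  have h2 := h.mono (s := r) (s' := s + 1) (by omega) hs
  have h3 := h.le (s := r) (by omega)
  have h4 := h.le (s := s) hs.le
  have h5 := h.le (s := s + 1) hs
  have up : ∀ k, a r ≤ k → k ≤ m → 0 ≤ side m g 1 (a r) (b r) (pt m 1 g k) := by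
    intro k hk hk'
    obtain ⟨c, hc, e⟩ := side_same hm g (Or.inl rfl) (k := k) h3.1 h3.2 hk'
    have : (a r : ℝ) ≤ k := by exact_mod_cast hk
    rw [e]; nlinarith
  have lo : ∀ k, b r ≤ k → k ≤ m → 0 ≤ side m g 1 (a r) (b r) (pt m (-1) g k) := by
    intro k hk hk'
    obtain ⟨c, hc, e⟩ := side_opp hm g (Or.inl rfl) (k := k) h3.1 h3.2 hk'
    have : (b r : ℝ) ≤ k := by exact_mod_cast hk
    rw [e]; nlinarith
  rintro x (rfl | rfl | rfl | rfl)
  exacts [up _ h1.1 h4.1, up _ h2.1 h5.1, lo _ h1.2 h4.2, lo _ h2.2 h5.2]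

lemma aff_fst (α γ : ℝ) : Aff (fun p => α * p.1 + γ) := by
  intro p q a
  simp
  ring

lemma tri_x {m : ℕ} {a b : ℕ → ℕ} (h : IsPath m a b) (g : ℕ) {s : ℕ} (hs : s < 2 * m) :
    ∀ x ∈ tri m a b g s, (g : ℝ) * m ≤ x.1 ∧ x.1 ≤ g * m + m := by
  have h4 := h.le (s := s) hs.le
  have h5 := h.le (s := s + 1) hs
  have key : ∀ (e : ℝ) (k : ℕ), k ≤ m →
      (g : ℝ) * m ≤ (pt m e g k).1 ∧ (pt m e g k).1 ≤ g * m + m := by
    intro e k hk
    have h1 : (k : ℝ) ≤ m := by exact_mod_cast hk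
    have h2 : (0 : ℝ) ≤ k := Nat.cast_nonneg k
    simp only [pt, ch]
    push_cast
    constructor <;> linarith
  rintro x (rfl | rfl | rfl | rfl)
  exacts [key _ _ h4.1, key _ _ h5.1, key _ _ h4.2, key _ _ h5.2]

lemma hull_x {t : Set (ℝ × ℝ)} {α β : ℝ} (h : ∀ x ∈ t, α ≤ x.1 ∧ x.1 ≤ β) {p : ℝ × ℝ}
    (hp : p ∈ convexHull ℝ t) : α ≤ p.1 ∧ p.1 ≤ β := by
  have h1 := hull_nonneg (aff_fst 1 (-α)) (t := t) (fun x hx => by linarith [(h x hx).1]) hp
  have h2 := hull_nonneg (aff_fst (-1) β) (t := t) (fun x hx => by linarith [(h x hx).2]) hp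
  constructor <;> linarith

lemma tri_disj_lt {m : ℕ} (hm : 0 < m) {a b : ℕ → ℕ} (h : IsPath m a b) {g g' s s' : ℕ}
    (hs : s < 2 * m) (hs' : s' < 2 * m) (hlt : g < g' ∨ (g = g' ∧ s < s')) :
    Disjoint (interior (convexHull ℝ (tri m a b g s))) (interior (convexHull ℝ (tri m a b g' s'))) := by
  rcases hlt with hlt | ⟨rfl, hlt⟩
  · have h1 : ((g + 1 : ℕ) : ℝ) ≤ g' := by exact_mod_cast hlt
    have h2 : (0 : ℝ) ≤ m := Nat.cast_nonneg m
    push_cast at h1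
    refine disj_of_aff (aff_fst 1 (-(g' * m))) ((g' : ℝ) * m + 1, 0) (by simp) ?_ ?_
    · intro x hx
      have := (tri_x h g hs x hx).2
      nlinarith
    · intro x hx
      have := (tri_x h g' hs' x hx).1
      linarith
  · have h3 := h.le (s := s + 1) hs
    obtain ⟨q, hq⟩ : ∃ q, side m g 1 (a (s + 1)) (b (s + 1)) q ≠ 0 := by
      by_cases h0 : a (s + 1) = 0
      · obtain ⟨c, hc, e⟩ := side_same hm g (Or.inl rfl) (k := 1) h3.1 h3.2 hm
        refine ⟨pt m 1 g 1, ?_⟩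
        rw [e, h0]; simpa using hc.ne'
      · obtain ⟨c, hc, e⟩ := side_same hm g (Or.inl rfl) (k := 0) h3.1 h3.2 (by omega)
        refine ⟨pt m 1 g 0, ?_⟩
        rw [e]; simp [h0, hc.ne']
    exact disj_of_aff (side_aff m g 1 _ _) q hq (tri_left hm h g le_rfl hs)
      (tri_right hm h g hlt hs')

lemma disc_ivt (f : ℕ → ℝ) (n : ℕ) (hn : 0 < n) (h0 : 0 ≤ f 0) (h1 : f n ≤ 0) :
    ∃ s < n, 0 ≤ f s ∧ f (s + 1) ≤ 0 := by
  induction n with
  | zero => omega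
  | succ n ih =>
    by_cases h : 0 ≤ f n
    · exact ⟨n, by omega, h, h1⟩
    · have hn' : 0 < n := by
        rcases Nat.eq_zero_or_pos n with h' | h'
        · subst h'; exact absurd h0 h
        · exact h'
      obtain ⟨s, hs, h2⟩ := ih hn' (by linarith)
      exact ⟨s, by omega, h2⟩

lemma cover {m N : ℕ} (hm : 0 < m) (hN : 0 < N) {a b : ℕ → ℕ} (h : IsPath m a b) {p : ℝ × ℝ}
    (hp : p ∈ PP m N) : ∃ g < N, ∃ s < 2 * m, p ∈ convexHull ℝ (tri m a b g s) := by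
  have m0 : (0 : ℝ) < m := by exact_mod_cast hm
  have c1 := hp.1
  have c2 := hp.2.1
  push_cast at c2
  obtain ⟨g, hg, d1, d2⟩ := exists_col hN (x := p.1 / m) (by positivity)
    (by rw [div_le_iff₀ m0]; exact c2)
  rw [le_div_iff₀ m0] at d1
  rw [div_le_iff₀ m0] at d2
  have x0 : 0 ≤ lx m g p := by unfold lx; linarith
  have x1 : lx m g p ≤ m := by unfold lx; linarith
  obtain ⟨s, hs, e1, e2⟩ := disc_ivt (fun s => side m g 1 (a s) (b s) p) (2 * m) (by omega)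
    (by
      simp only [h.a0, h.b0, side, rr]
      simp
      positivity)
    (by
      simp only [h.a1, h.b1, side, rr]
      simp
      nlinarith)
  refine ⟨g, hg, s, hs, ?_⟩
  rcases tri_cases h g hs with ⟨c1, c2, f1, f2, e⟩ | ⟨c1, c2, f1, f2, e⟩ <;> rw [e] <;>
    rw [f1, f2] at e2
  · exact wedge hm hg (Or.inl rfl) c1 c2 hp x0 x1 e1 e2
  · refine wedge hm hg (Or.inr rfl) c1 c2 hp x0 x1 ?_ ?_
    · rw [side_symm]; exact e1
    · rw [side_symm]; exact e2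

lemma vertex_not_interior {m N : ℕ} {s : ℝ × ℝ} (hs : s ∈ VV m N) : s ∉ interior (PP m N) := by
  intro hi
  obtain ⟨k, hk, rfl | rfl⟩ := (mem_VV m N s).1 hs
  · obtain ⟨a, ha, h⟩ := interior_step hi (k, hgt m 1 k + 1)
    have h4 := h.2.2.2
    have e1 : ((1 - a) • ch (hgt m 1) k + a • ((k : ℝ), hgt m 1 k + 1)).1 = k := by
      simp [ch]; ring
    have e2 : ((1 - a) • ch (hgt m 1) k + a • ((k : ℝ), hgt m 1 k + 1)).2 = hgt m 1 k + a := by
      simp [ch]; ring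
    rw [e1, e2, interp_nat _ hk] at h4
    linarith
  · obtain ⟨a, ha, h⟩ := interior_step hi (k, hgt m (-1) k - 1)
    have h4 := h.2.2.1
    have e1 : ((1 - a) • ch (hgt m (-1)) k + a • ((k : ℝ), hgt m (-1) k - 1)).1 = k := by
      simp [ch]; ring
    have e2 : ((1 - a) • ch (hgt m (-1)) k + a • ((k : ℝ), hgt m (-1) k - 1)).2 =
        hgt m (-1) k - a := by
      simp [ch]; ring
    rw [e1, e2, interp_nat _ hk] at h4
    linarith

lemma VV_block {m N g : ℕ} {s : ℝ × ℝ} (hs : s ∈ VV m N) (h1 : (g : ℝ) * m - 1 < s.1)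
    (h2 : s.1 < g * m + m + 1) : ∃ k ≤ m, s = pt m 1 g k ∨ s = pt m (-1) g k := by
  obtain ⟨k, -, hk⟩ := (mem_VV m N s).1 hs
  have e : s.1 = k := by rcases hk with rfl | rfl <;> rfl
  rw [e] at h1 h2
  have a1 : ((g * m : ℕ) : ℝ) < ((k + 1 : ℕ) : ℝ) := by push_cast; linarith
  have a2 : ((k : ℕ) : ℝ) < ((g * m + m + 1 : ℕ) : ℝ) := by push_cast; linarith
  have a3 := Nat.cast_lt.1 a1
  have a4 := Nat.cast_lt.1 a2
  refine ⟨k - g * m, by omega, ?_⟩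
  unfold pt
  rw [show g * m + (k - g * m) = k by omega]
  exact hk

lemma vertex_strict {m N : ℕ} (hm : 0 < m) {a b : ℕ → ℕ} (h : IsPath m a b) (g : ℕ) {s : ℕ}
    (hs : s < 2 * m) {w : ℝ × ℝ} (hw : w ∈ VV m N) (hh : w ∈ convexHull ℝ (tri m a b g s)) :
    w ∈ tri m a b g s := by
  obtain ⟨x1, x2⟩ := hull_x (tri_x h g hs) hh
  have l1 := hull_nonpos (side_aff m g 1 _ _) (tri_left hm h g (s := s) le_rfl hs) hh
  have l2 := hull_nonneg (side_aff m g 1 _ _) (tri_right hm h g (s := s) le_rfl hs) hh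
  have h4 := h.le (s := s) hs.le
  have h5 := h.le (s := s + 1) hs
  have h6 := h.step s hs
  have fin : ∀ (k u v : ℕ) (c c' : ℝ), 0 < c → 0 < c' → ((k : ℝ) - v) * c ≤ 0 →
      0 ≤ ((k : ℝ) - u) * c' → u ≤ k ∧ k ≤ v := by
    intro k u v c c' hc hc' e1 e2
    have f1 : (k : ℝ) ≤ v := by nlinarith
    have f2 : (u : ℝ) ≤ k := by nlinarith
    exact ⟨by exact_mod_cast f2, by exact_mod_cast f1⟩
  obtain ⟨k, hk, rfl | rfl⟩ := VV_block (g := g) hw (by linarith) (by linarith)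
  · obtain ⟨c, hc, e⟩ := side_same hm g (Or.inl rfl) h5.1 h5.2 hk
    obtain ⟨c', hc', e'⟩ := side_same hm g (Or.inl rfl) h4.1 h4.2 hk
    rw [e] at l1
    rw [e'] at l2
    have := fin _ _ _ _ _ hc hc' l1 l2
    have : k = a s ∨ k = a (s + 1) := by omega
    rcases this with rfl | rfl <;> simp [tri]
  · obtain ⟨c, hc, e⟩ := side_opp hm g (Or.inl rfl) h5.1 h5.2 hk
    obtain ⟨c', hc', e'⟩ := side_opp hm g (Or.inl rfl) h4.1 h4.2 hk
    rw [e] at l1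
    rw [e'] at l2
    have := fin _ _ _ _ _ hc hc' l1 l2
    have : k = b s ∨ k = b (s + 1) := by omega
    rcases this with rfl | rfl <;> simp [tri]

theorem isTriangulation {m N : ℕ} (hm : 0 < m) (hN : 0 < N) {a b : ℕ → ℕ} (h : IsPath m a b) :
    IsTriangulation (PP m N) (VV m N) (TP m N a b) := by
  refine ⟨?_, ?_, ?_, ?_⟩
  · rintro t ⟨g, hg, s, hs, rfl⟩
    refine ⟨tri_VV h hg hs, ?_⟩
    rcases tri_cases h g hs with ⟨c1, c2, -, -, e⟩ | ⟨c1, c2, -, -, e⟩ <;> rw [e]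
    · refine ⟨_, _, _, rfl, fun hc => ?_⟩
      have := TT_pos hm g (Or.inl rfl) c1 c2
      rw [det_of_collinear hc] at this
      simp at this
    · refine ⟨_, _, _, rfl, fun hc => ?_⟩
      have := TT_pos hm g (Or.inr rfl) c1 c2
      rw [det_of_collinear hc] at this
      simp at this
  · rintro t ⟨g, hg, s, hs, rfl⟩ t' ⟨g', hg', s', hs', rfl⟩ hne
    by_cases h1 : g < g' ∨ (g = g' ∧ s < s')
    · exact tri_disj_lt hm h hs hs' h1
    · by_cases h2 : g' < g ∨ (g' = g ∧ s' < s)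
      · exact (tri_disj_lt hm h hs' hs h2).symm
      · obtain rfl : g = g' := by omega
        obtain rfl : s = s' := by omega
        exact absurd rfl hne
  · ext p
    simp only [mem_iUnion, exists_prop]
    constructor
    · rintro ⟨t, ⟨g, hg, s, hs, rfl⟩, hp⟩
      exact tri_sub hm h hg hs hp
    · intro hp
      obtain ⟨g, hg, s, hs, hp'⟩ := cover hm hN h hp
      exact ⟨_, ⟨g, hg, s, hs, rfl⟩, hp'⟩
  · rintro t ⟨g, hg, s, hs, rfl⟩ w hw
    exact ⟨fun hi => vertex_not_interior hw (interior_mono (tri_sub hm h hg hs) hi),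
      vertex_strict hm h g hs hw⟩

lemma path1 (m : ℕ) : IsPath m (fun s => min s m) (fun s => s - m) :=
  ⟨by simp, by simp, by omega, by omega, by intro s hs; omega⟩

lemma path2 (m : ℕ) : IsPath m (fun s => s - m) (fun s => min s m) :=
  ⟨by simp, by simp, by omega, by omega, by intro s hs; omega⟩

end Pool.Agent.P.MP_fe41f2_co
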