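import Mathlib
import Pool.Agent.P.MP_fe41f2_co.Tri

set_option autoImplicit false

namespace Pool.Agent.P.MP_fe41f2_co

open Set

lemma seg_graph {A : Set (ℝ × ℝ)} {q q' : ℝ × ℝ} (h : segment ℝ q q' ⊆ A) (hlt : q.1 < q'.1) :
    ∃ σ : ℝ, σ * (q'.1 - q.1) = q'.2 - q.2 ∧
      ∀ x, q.1 ≤ x → x ≤ q'.1 → (x, q.2 + σ * (x - q.1)) ∈ A := by
  have hp : 0 < q'.1 - q.1 := by linarith
  refine ⟨(q'.2 - q.2) / (q'.1 - q.1), by field_simp, fun x h1 h2 => h ?_⟩
  refine ⟨(q'.1 - x) / (q'.1 - q.1), (x - q.1) / (q'.1 - q.1), div_nonneg (by linarith) hp.le,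
    div_nonneg (by linarith) hp.le, by field_simp; ring, ?_⟩
  ext
  · simp; field_simp; ring
  · simp; field_simp; ring

lemma vis {m N : ℕ} (hm : 0 < m) {q q' : ℝ × ℝ} (h : segment ℝ q q' ⊆ PP m N) (g : ℕ)
    (h1 : q.1 ≤ g * m - 1) (h2 : (g : ℝ) * m + 1 ≤ q'.1) : False := by
  have m1 : (1 : ℝ) ≤ m := by exact_mod_cast hm
  have a1 := (h (left_mem_segment ℝ q q')).1
  have a2 := (h (right_mem_segment ℝ q q')).2.1
  push_cast at a2
  have hg : g < N := by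
    have : (g : ℝ) < N := by nlinarith
    exact_mod_cast this
  obtain ⟨g', rfl⟩ : ∃ g', g = g' + 1 := by
    refine ⟨g - 1, ?_⟩
    rcases Nat.eq_zero_or_pos g with h0 | h0
    · subst h0; simp at h1; linarith
    · omega
  obtain ⟨m', rfl⟩ : ∃ m', m = m' + 1 := ⟨m - 1, by omega⟩
  obtain ⟨σ, -, hσ⟩ := seg_graph h (by linarith)
  have b1 := of_mem hm (g := g') (k := m') (by omega) (by omega) (Or.inr rfl)
    (hσ _ h1 (by linarith)) (by simp [lx]; nlinarith) (by simp [lx]; nlinarith)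
  have b2 := of_mem hm (k := 0) hg hm (Or.inr rfl)
    (hσ _ (by linarith) h2) (by simp [lx]) (by simp [lx])
  have b3 := of_mem hm (k := 0) hg hm (Or.inl rfl)
    (hσ (((g' + 1 : ℕ) : ℝ) * ((m' + 1 : ℕ) : ℝ)) (by linarith) (by linarith))
    (by simp [lx]) (by simp [lx])
  simp only [lx, ly, zz, ln] at b1 b2 b3
  push_cast at b1 b2 b3
  have : (0 : ℝ) ≤ m' := Nat.cast_nonneg m'
  nlinarith

lemma nosee {m N g : ℕ} (hm : 0 < m) (hg : g < N) {e : ℝ} (he : e = 1 ∨ e = -1) {k k' : ℕ}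
    (h1 : k + 2 ≤ k') (h2 : k' ≤ m) (h : segment ℝ (pt m e g k) (pt m e g k') ⊆ PP m N) :
    False := by
  have a1 : ((k + 2 : ℕ) : ℝ) ≤ k' := by exact_mod_cast h1
  push_cast at a1
  have x1 : (pt m e g k).1 = g * m + k := by simp [pt, ch]
  have x2 : (pt m e g k').1 = g * m + k' := by simp [pt, ch]
  have y1 : (pt m e g k).2 = zz m g k + e * rr m k := hgt_block hm e g (by omega)
  have y2 : (pt m e g k').2 = zz m g k' + e * rr m k' := hgt_block hm e g h2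
  obtain ⟨σ, hσ1, hσ⟩ := seg_graph h (by linarith)
  have b := of_mem hm (k := k) hg (by omega) he (hσ (g * m + k + 1) (by linarith) (by linarith))
    (by simp only [lx]; linarith) (by simp only [lx]; linarith)
  rw [x1, x2, y1, y2] at hσ1
  simp only [lx, ly, x1, y1] at b
  have e1 : σ = 10 * m ^ 2 * g + e * (k' + k - m) := by
    have hne : (k' : ℝ) - k ≠ 0 := by linarith
    apply mul_right_cancel₀ hne
    unfold zz rr at hσ1
    linear_combination hσ1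
  rw [e1] at b
  unfold zz rr ln at b
  rcases he with rfl | rfl <;> nlinarith

lemma seg_sub {A t : Set (ℝ × ℝ)} (h : convexHull ℝ t ⊆ A) {x y : ℝ × ℝ} (hx : x ∈ t)
    (hy : y ∈ t) : segment ℝ x y ⊆ A :=
  (segment_subset_convexHull hx hy).trans h

/-- all triangles lie in the polygon and use vertices or points of `W` -/
def Inv (m N : ℕ) (W : Set (ℝ × ℝ)) (T : Set (Set (ℝ × ℝ))) : Prop :=
  ∀ t ∈ T, t ⊆ VV m N ∪ W ∧ convexHull ℝ t ⊆ PP m N

/-- no point of `W` is near block `g` -/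
def Clean (m : ℕ) (W : Set (ℝ × ℝ)) (g : ℕ) : Prop :=
  ∀ w ∈ W, w.1 ≤ g * m - 1 ∨ (g : ℝ) * m + m + 1 ≤ w.1

lemma apex {m N g i : ℕ} (hm : 0 < m) (hg : g < N) (hi : i < m) {W : Set (ℝ × ℝ)}
    (hW : Clean m W g) {x : ℝ × ℝ} (hx : x ∈ VV m N ∪ W)
    (h1 : segment ℝ x (pt m 1 g (i + 1)) ⊆ PP m N) (h2 : segment ℝ (pt m 1 g i) x ⊆ PP m N)
    (n1 : x ≠ pt m 1 g (i + 1)) (n2 : x ≠ pt m 1 g i) : ∃ j ≤ m, x = pt m (-1) g j := by
  have i0 : (0 : ℝ) ≤ i := Nat.cast_nonneg i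
  have i1 : ((i + 1 : ℕ) : ℝ) ≤ m := by exact_mod_cast hi
  push_cast at i1
  have a1 : (g : ℝ) * m - 1 < x.1 := by
    by_contra hc
    exact vis hm h1 g (not_lt.1 hc) (by simp [pt, ch])
  have a2 : x.1 < g * m + m + 1 := by
    by_contra hc
    exact vis hm h2 (g + 1) (by simp only [pt, ch]; push_cast; linarith)
      (by push_cast; linarith)
  rcases hx with hx | hx
  · obtain ⟨k, hk, rfl | rfl⟩ := VV_block hx a1 a2
    · exfalso
      have b1 : k ≠ i + 1 := fun e => n1 (by rw [e])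
      have b2 : k ≠ i := fun e => n2 (by rw [e])
      rcases lt_or_gt_of_ne b2 with h | h
      · exact nosee hm hg (Or.inl rfl) (by omega) hi h1
      · exact nosee hm hg (Or.inl rfl) (by omega) hk h2
    · exact ⟨k, hk, rfl⟩
  · rcases hW x hx with h | h <;> linarith

lemma Inv.flip {m N : ℕ} {W : Set (ℝ × ℝ)} {T T' : Set (Set (ℝ × ℝ))} (h : Inv m N W T)
    (hf : Flip T T') : Inv m N W T' := by
  obtain ⟨a, b, c, d, -, -, -, -, -, -, t1, t2, hc, rfl⟩ := hf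
  have s1 := subset_convexHull ℝ ({a, b, c} : Set (ℝ × ℝ))
  have s2 := subset_convexHull ℝ ({a, b, d} : Set (ℝ × ℝ))
  have u := union_subset (h _ t1).2 (h _ t2).2
  rintro t (⟨ht, -⟩ | rfl | rfl)
  · exact h t ht
  · refine ⟨?_, (convexHull_min ?_ hc).trans u⟩
    · rintro x (rfl | rfl | rfl)
      exacts [(h _ t1).1 (by simp), (h _ t1).1 (by simp), (h _ t2).1 (by simp)]
    · rintro x (rfl | rfl | rfl)
      exacts [Or.inl (s1 (by simp)), Or.inl (s1 (by simp)), Or.inr (s2 (by simp))]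
  · refine ⟨?_, (convexHull_min ?_ hc).trans u⟩
    · rintro x (rfl | rfl | rfl)
      exacts [(h _ t1).1 (by simp), (h _ t1).1 (by simp), (h _ t2).1 (by simp)]
    · rintro x (rfl | rfl | rfl)
      exacts [Or.inl (s1 (by simp)), Or.inl (s1 (by simp)), Or.inr (s2 (by simp))]

lemma Inv.insertPoint {m N : ℕ} {W : Set (ℝ × ℝ)} {T T' : Set (Set (ℝ × ℝ))} (h : Inv m N W T)
    {p : ℝ × ℝ} (hp : p ∈ W) (hf : InsertPoint p T T') : Inv m N W T' := by
  obtain ⟨a, b, c, t1, hi, rfl⟩ := hf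
  have s1 := subset_convexHull ℝ ({a, b, c} : Set (ℝ × ℝ))
  have hc := convex_convexHull ℝ ({a, b, c} : Set (ℝ × ℝ))
  have hp' := interior_subset hi
  have key : ∀ x y, x ∈ ({a, b, c} : Set (ℝ × ℝ)) → y ∈ ({a, b, c} : Set (ℝ × ℝ)) →
      ({p, x, y} : Set (ℝ × ℝ)) ⊆ VV m N ∪ W ∧
        convexHull ℝ ({p, x, y} : Set (ℝ × ℝ)) ⊆ PP m N := by
    intro x y hx hy
    refine ⟨?_, (convexHull_min ?_ hc).trans (h _ t1).2⟩
    · rintro z (rfl | rfl | rfl)
      exacts [Or.inr hp, (h _ t1).1 hx, (h _ t1).1 hy]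
    · rintro z (rfl | rfl | rfl)
      exacts [hp', s1 hx, s1 hy]
  rintro t (⟨ht, -⟩ | rfl | rfl | rfl)
  · exact h t ht
  all_goals exact key _ _ (by simp) (by simp)

lemma pt_ne {m : ℕ} (hm : 0 < m) (g i g' j : ℕ) : pt m 1 g i ≠ pt m (-1) g' j :=
  ch_ne (hgt_lt hm) _ _

lemma pt_inj {m g i j : ℕ} {e : ℝ} (h : pt m e g i = pt m e g j) : i = j := by
  have := ch_inj h
  omega

lemma TT_inj {m : ℕ} (hm : 0 < m) {g i j j' : ℕ} (h : TT m 1 g i j = TT m 1 g i j') : j = j' := by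
  have : pt m (-1) g j ∈ TT m 1 g i j' := by rw [← h]; simp [TT]
  rcases this with e | e | e
  · exact pt_inj e
  · exact absurd e.symm (pt_ne hm _ _ _ _)
  · exact absurd e.symm (pt_ne hm _ _ _ _)

lemma no_diag {m g i j j' : ℕ} (hm : 0 < m) (hi : i < m) (hj : j ≤ m) (hj' : j' ≤ m)
    (hc : Convex ℝ (convexHull ℝ ({pt m (-1) g j, pt m (-1) g j', pt m 1 g i} : Set (ℝ × ℝ)) ∪
      convexHull ℝ ({pt m (-1) g j, pt m (-1) g j', pt m 1 g (i + 1)} : Set (ℝ × ℝ)))) : False := by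
  have m0 : (j : ℝ) ≤ m := by exact_mod_cast hj
  have m1 : (j' : ℝ) ≤ m := by exact_mod_cast hj'
  have m2 : (0 : ℝ) ≤ j := Nat.cast_nonneg j
  have m3 : (0 : ℝ) ≤ j' := Nat.cast_nonneg j'
  have hmid := hc (Or.inl (subset_convexHull ℝ _ (show pt m 1 g i ∈ _ by simp)))
    (Or.inr (subset_convexHull ℝ _ (show pt m 1 g (i + 1) ∈ _ by simp)))
    (a := 1 - 1 / 2) (b := 1 / 2) (by norm_num) (by norm_num) (by norm_num)
  rcases hmid with h | h
  · have := hull_nonpos (side_aff m g 1 i m) ?_ h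
    · rw [side_aff] at this
      obtain ⟨c, hc, e⟩ := side_same hm g (Or.inl rfl) (i := i) (j := m) (k := i) hi.le le_rfl hi.le
      obtain ⟨c', hc', e'⟩ := side_same hm g (Or.inl rfl) (i := i) (j := m) (k := i + 1) hi.le
        le_rfl hi
      rw [e, e'] at this
      push_cast at this
      linarith
    · rintro x (rfl | rfl | rfl)
      · obtain ⟨c, hc, e⟩ := side_opp hm g (Or.inl rfl) (i := i) (j := m) hi.le le_rfl hj
        rw [e]; nlinarith
      · obtain ⟨c, hc, e⟩ := side_opp hm g (Or.inl rfl) (i := i) (j := m) hi.le le_rfl hj'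
        rw [e]; nlinarith
      · obtain ⟨c, hc, e⟩ := side_same hm g (Or.inl rfl) (i := i) (j := m) hi.le le_rfl hi.le
        rw [e]; simp
  · have := hull_nonneg (side_aff m g 1 (i + 1) 0) ?_ h
    · rw [side_aff] at this
      obtain ⟨c, hc, e⟩ := side_same hm g (Or.inl rfl) (i := i + 1) (j := 0) (k := i) hi
        (by omega) hi.le
      obtain ⟨c', hc', e'⟩ := side_same hm g (Or.inl rfl) (i := i + 1) (j := 0) (k := i + 1) hi
        (by omega) hi
      rw [e, e'] at this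
      push_cast at this
      linarith
    · rintro x (rfl | rfl | rfl)
      · obtain ⟨c, hc, e⟩ := side_opp hm g (Or.inl rfl) (i := i + 1) (j := 0) hi (by omega) hj
        rw [e]; simp; positivity
      · obtain ⟨c, hc, e⟩ := side_opp hm g (Or.inl rfl) (i := i + 1) (j := 0) hi (by omega) hj'
        rw [e]; simp; positivity
      · obtain ⟨c, hc, e⟩ := side_same hm g (Or.inl rfl) (i := i + 1) (j := 0) hi (by omega) hi
        rw [e]; simp

open Classical in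
/-- sum of the apex indices of the triangles on the upper edge `i` of block `g` -/
noncomputable def psi (m g i : ℕ) (T : Set (Set (ℝ × ℝ))) : ℕ :=
  ∑ j ∈ (Finset.range (m + 1)).filter (fun j => TT m 1 g i j ∈ T), j

lemma psi_mono {m g i : ℕ} {T T' : Set (Set (ℝ × ℝ))}
    (h : ∀ j ≤ m, TT m 1 g i j ∈ T' → TT m 1 g i j ∈ T) : psi m g i T' ≤ psi m g i T := by
  unfold psi
  apply Finset.sum_le_sum_of_subset
  intro j hj
  simp only [Finset.mem_filter, Finset.mem_range] at hj ⊢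
  exact ⟨hj.1, h j (by omega) hj.2⟩

lemma psi_swap {m g i j₀ j₁ : ℕ} {T T' : Set (Set (ℝ × ℝ))} (h1 : j₁ ≤ m)
    (h2 : TT m 1 g i j₁ ∈ T) (h3 : j₀ ≤ j₁ + 1)
    (h : ∀ j ≤ m, TT m 1 g i j ∈ T' → j = j₀ ∨ (TT m 1 g i j ∈ T ∧ j ≠ j₁)) :
    psi m g i T' ≤ psi m g i T + 1 := by
  classical
  unfold psi
  set A := (Finset.range (m + 1)).filter (fun j => TT m 1 g i j ∈ T) with hA
  have a1 : j₁ ∈ A := by simp only [hA, Finset.mem_filter, Finset.mem_range]; exact ⟨by omega, h2⟩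
  have a2 := Finset.add_sum_erase A (fun j => j) a1
  have a3 : (Finset.range (m + 1)).filter (fun j => TT m 1 g i j ∈ T') ⊆
      {j₀} ∪ A.erase j₁ := by
    intro j hj
    simp only [hA, Finset.mem_filter, Finset.mem_range, Finset.mem_union, Finset.mem_singleton,
      Finset.mem_erase] at hj ⊢
    rcases h j (by omega) hj.2 with e | e
    · exact Or.inl e
    · exact Or.inr ⟨e.2, hj.1, e.1⟩
  have a4 := Finset.sum_le_sum_of_subset (f := fun j => j) a3
  have a5 := Finset.sum_union_inter (s₁ := {j₀}) (s₂ := A.erase j₁) (f := fun j : ℕ => j)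
  simp only [Finset.sum_singleton] at a5
  have e1 : (∑ j ∈ (Finset.range (m + 1)).filter (fun j => TT m 1 g i j ∈ T'), j) ≤
      ∑ j ∈ {j₀} ∪ A.erase j₁, j := by convert a4
  omega

lemma core {m N g i : ℕ} (hm : 0 < m) (hg : g < N) (hi : i < m) {W : Set (ℝ × ℝ)}
    (hW : Clean m W g) {T : Set (Set (ℝ × ℝ))} (h : Inv m N W T) {a b c : ℝ × ℝ} {j : ℕ}
    (hj : j ≤ m) (ab : a ≠ b) (bc : b ≠ c) (bd : b ≠ pt m (-1) g j)
    (t1 : ({a, b, c} : Set (ℝ × ℝ)) ∈ T) (t2 : ({a, b, pt m (-1) g j} : Set (ℝ × ℝ)) ∈ T)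
    (hac : (a = pt m 1 g i ∧ c = pt m 1 g (i + 1)) ∨ (a = pt m 1 g (i + 1) ∧ c = pt m 1 g i)) :
    psi m g i ((T \ {{a, b, c}, {a, b, pt m (-1) g j}}) ∪
      {{a, c, pt m (-1) g j}, {b, c, pt m (-1) g j}}) ≤ psi m g i T + 1 := by
  have v1 : pt m 1 g i ∈ ({a, b, c} : Set (ℝ × ℝ)) := by
    rcases hac with ⟨rfl, rfl⟩ | ⟨rfl, rfl⟩ <;> simp
  have v2 : pt m 1 g (i + 1) ∈ ({a, b, c} : Set (ℝ × ℝ)) := by
    rcases hac with ⟨rfl, rfl⟩ | ⟨rfl, rfl⟩ <;> simp
  obtain ⟨j', hj', rfl⟩ := apex hm hg hi hW (x := b) ((h _ t1).1 (by simp))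
    (seg_sub (h _ t1).2 (by simp) v2) (seg_sub (h _ t1).2 v1 (by simp))
    (by rcases hac with ⟨rfl, rfl⟩ | ⟨rfl, rfl⟩; exacts [bc, ab.symm])
    (by rcases hac with ⟨rfl, rfl⟩ | ⟨rfl, rfl⟩; exacts [ab.symm, bc])
  have e1 : ∀ k, ({a, pt m (-1) g k, c} : Set (ℝ × ℝ)) = TT m 1 g i k := by
    intro k
    unfold TT
    ext x
    simp only [mem_insert_iff, mem_singleton_iff]
    rcases hac with ⟨rfl, rfl⟩ | ⟨rfl, rfl⟩ <;> tauto
  have e2 : ({a, c, pt m (-1) g j} : Set (ℝ × ℝ)) = TT m 1 g i j := by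
    rw [← e1]; ext x; simp only [mem_insert_iff, mem_singleton_iff]; tauto
  refine psi_swap (j₀ := j) hj' (by rw [← e1]; exact t1) ?_ ?_
  · by_contra hc
    exact nosee hm hg (Or.inr rfl) (k := j') (k' := j) (by omega) hj
      (seg_sub (h _ t2).2 (by simp) (by simp))
  · rintro k hk (⟨h1, h2⟩ | h1 | h1)
    · refine Or.inr ⟨h1, ?_⟩
      rintro rfl
      exact h2 (Or.inl (e1 _).symm)
    · rw [e2] at h1
      exact Or.inl (TT_inj hm h1)
    · exfalso
      have ha : a ∈ TT m 1 g i k := by rw [← e1]; simp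
      rw [h1] at ha
      have hne : pt m 1 g i ≠ pt m 1 g (i + 1) := fun e => by have := pt_inj e; omega
      rcases hac with ⟨rfl, rfl⟩ | ⟨rfl, rfl⟩
      · rcases ha with e | e | e
        exacts [pt_ne hm _ _ _ _ e, hne e, pt_ne hm _ _ _ _ e]
      · rcases ha with e | e | e
        exacts [pt_ne hm _ _ _ _ e, hne e.symm, pt_ne hm _ _ _ _ e]

lemma core2 {m N g i : ℕ} (hm : 0 < m) (hg : g < N) (hi : i < m) {W : Set (ℝ × ℝ)}
    (hW : Clean m W g) {T : Set (Set (ℝ × ℝ))} (h : Inv m N W T) {a b c d : ℝ × ℝ} {j : ℕ}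
    (hj : j ≤ m) (ab : a ≠ b) (ac : a ≠ c) (ad : a ≠ d) (bc : b ≠ c) (bd : b ≠ d) (cd : c ≠ d)
    (t1 : ({a, b, c} : Set (ℝ × ℝ)) ∈ T) (t2 : ({a, b, d} : Set (ℝ × ℝ)) ∈ T)
    (hc : Convex ℝ (convexHull ℝ ({a, b, c} : Set (ℝ × ℝ)) ∪
      convexHull ℝ ({a, b, d} : Set (ℝ × ℝ))))
    (e : ({a, c, d} : Set (ℝ × ℝ)) = TT m 1 g i j) :
    psi m g i ((T \ {{a, b, c}, {a, b, d}}) ∪ {{a, c, d}, {b, c, d}}) ≤ psi m g i T + 1 := by
  have ha : a ∈ TT m 1 g i j := by rw [← e]; simp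
  have hc' : c ∈ TT m 1 g i j := by rw [← e]; simp
  have hd : d ∈ TT m 1 g i j := by rw [← e]; simp
  have sw : (T \ {{a, b, c}, {a, b, d}}) ∪ {{a, c, d}, {b, c, d}} =
      (T \ {{a, b, d}, {a, b, c}}) ∪ {{a, d, c}, {b, d, c}} := by
    rw [Set.pair_comm ({a, b, c} : Set (ℝ × ℝ)), Set.pair_comm c d]
  have hI := h.flip ⟨a, b, c, d, ab, ac, ad, bc, bd, cd, t1, t2, hc, rfl⟩
  have hb := hI {b, c, d} (Or.inr (by simp))
  simp only [TT, mem_insert_iff, mem_singleton_iff] at ha hc' hd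
  rcases ha with rfl | rfl | rfl <;> rcases hc' with rfl | rfl | rfl <;>
    rcases hd with rfl | rfl | rfl <;>
    first
    | exact absurd rfl ac
    | exact absurd rfl ad
    | exact absurd rfl cd
    | skip
  · exfalso
    obtain ⟨j', hj', rfl⟩ := apex hm hg hi hW (x := b) ((h _ t1).1 (by simp))
      (seg_sub hb.2 (by simp) (by simp)) (seg_sub hb.2 (by simp) (by simp)) bc bd
    rw [union_comm] at hc
    exact no_diag hm hi hj hj' hc
  · exfalso
    obtain ⟨j', hj', rfl⟩ := apex hm hg hi hW (x := b) ((h _ t1).1 (by simp))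
      (seg_sub hb.2 (by simp) (by simp)) (seg_sub hb.2 (by simp) (by simp)) bd bc
    exact no_diag hm hi hj hj' hc
  · rw [sw]; exact core hm hg hi hW h hj ab bd bc t2 t1 (Or.inr ⟨rfl, rfl⟩)
  · exact core hm hg hi hW h hj ab bc bd t1 t2 (Or.inr ⟨rfl, rfl⟩)
  · rw [sw]; exact core hm hg hi hW h hj ab bd bc t2 t1 (Or.inl ⟨rfl, rfl⟩)
  · exact core hm hg hi hW h hj ab bc bd t1 t2 (Or.inl ⟨rfl, rfl⟩)

lemma psi_flip {m N : ℕ} (hm : 0 < m) {W : Set (ℝ × ℝ)} {T T' : Set (Set (ℝ × ℝ))}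
    (h : Inv m N W T) (hf : Flip T T') : ∃ F : Finset (ℝ × ℝ), F.card ≤ 4 ∧
      ∀ g < N, ∀ i < m, Clean m W g → psi m g i T' ≤ psi m g i T + 1 ∧
        (pt m 1 g i ∉ F → psi m g i T' ≤ psi m g i T) := by
  classical
  obtain ⟨a, b, c, d, ab, ac, ad, bc, bd, cd, t1, t2, hc, rfl⟩ := hf
  refine ⟨{a, b, c, d}, Finset.card_le_four, fun g hg i hi hW => ?_⟩
  by_cases h1 : ∃ j ≤ m, ({a, c, d} : Set (ℝ × ℝ)) = TT m 1 g i j
  · obtain ⟨j, hj, e⟩ := h1
    refine ⟨core2 hm hg hi hW h hj ab ac ad bc bd cd t1 t2 hc e, fun hn => absurd ?_ hn⟩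
    have : pt m 1 g i ∈ ({a, c, d} : Set (ℝ × ℝ)) := by rw [e]; simp [TT]
    simp only [mem_insert_iff, mem_singleton_iff, Finset.mem_insert, Finset.mem_singleton] at this ⊢
    tauto
  by_cases h2 : ∃ j ≤ m, ({b, c, d} : Set (ℝ × ℝ)) = TT m 1 g i j
  · obtain ⟨j, hj, e⟩ := h2
    have s1 : ({a, b, c} : Set (ℝ × ℝ)) = {b, a, c} := Set.insert_comm _ _ _
    have s2 : ({a, b, d} : Set (ℝ × ℝ)) = {b, a, d} := Set.insert_comm _ _ _
    rw [s1] at t1 hc
    rw [s2] at t2 hc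
    refine ⟨?_, fun hn => absurd ?_ hn⟩
    · rw [s1, s2, Set.pair_comm ({a, c, d} : Set (ℝ × ℝ))]
      exact core2 hm hg hi hW h hj ab.symm bc bd ac ad cd t1 t2 hc e
    · have : pt m 1 g i ∈ ({b, c, d} : Set (ℝ × ℝ)) := by rw [e]; simp [TT]
      simp only [mem_insert_iff, mem_singleton_iff, Finset.mem_insert,
        Finset.mem_singleton] at this ⊢
      tauto
  have : psi m g i ((T \ {{a, b, c}, {a, b, d}}) ∪ {{a, c, d}, {b, c, d}}) ≤ psi m g i T := by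
    apply psi_mono
    rintro j hj (⟨h3, -⟩ | h3 | h3)
    · exact h3
    · exact absurd ⟨j, hj, h3.symm⟩ h1
    · exact absurd ⟨j, hj, h3.symm⟩ h2
  exact ⟨by omega, fun _ => this⟩

lemma TT_x {m g i j : ℕ} (hi : i < m) (hj : j ≤ m) :
    ∀ x ∈ TT m 1 g i j, (g : ℝ) * m ≤ x.1 ∧ x.1 ≤ g * m + m := by
  have key : ∀ (e : ℝ) (k : ℕ), k ≤ m →
      (g : ℝ) * m ≤ (pt m e g k).1 ∧ (pt m e g k).1 ≤ g * m + m := by
    intro e k hk
    have h1 : (k : ℝ) ≤ m := by exact_mod_cast hk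
    have h2 : (0 : ℝ) ≤ k := Nat.cast_nonneg k
    simp only [pt, ch]
    push_cast
    constructor <;> linarith
  rintro x (rfl | rfl | rfl)
  exacts [key _ _ hj, key _ _ hi, key _ _ hi.le]

lemma psi_insert {m g i : ℕ} (hi : i < m) {W : Set (ℝ × ℝ)} (hW : Clean m W g)
    {T T' : Set (Set (ℝ × ℝ))} {p : ℝ × ℝ} (hp : p ∈ W) (hf : InsertPoint p T T') :
    psi m g i T' = psi m g i T := by
  obtain ⟨a, b, c, t1, hin, rfl⟩ := hf
  have hx : ∀ j ≤ m, p ∉ convexHull ℝ (TT m 1 g i j) := by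
    intro j hj hc
    have := hull_x (TT_x hi hj) hc
    rcases hW p hp with h | h <;> linarith [this.1, this.2]
  apply le_antisymm <;> apply psi_mono
  · rintro j hj (⟨h3, -⟩ | h3 | h3 | h3)
    · exact h3
    all_goals exact absurd (subset_convexHull ℝ _ (by rw [h3]; simp)) (hx j hj)
  · intro j hj h3
    refine Or.inl ⟨h3, fun h4 => hx j hj ?_⟩
    rw [mem_singleton_iff.1 h4]
    exact interior_subset hin

lemma psi_T1 {m : ℕ} (hm : 0 < m) (N g : ℕ) {i : ℕ} (hi : i < m) :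
    psi m g i (TP m N (fun s => min s m) (fun s => s - m)) = 0 := by
  classical
  unfold psi
  apply Finset.sum_eq_zero
  intro j hj
  obtain ⟨-, g', -, s, hs, e⟩ := Finset.mem_filter.1 hj
  have u : ∀ k, pt m 1 g k ∈ TT m 1 g i j →
      g * m + k = g' * m + min s m ∨ g * m + k = g' * m + min (s + 1) m := by
    intro k hk
    rw [e] at hk
    rcases hk with h | h | h | h
    exacts [Or.inl (ch_inj h), Or.inr (ch_inj h), absurd h (pt_ne hm _ _ _ _),
      absurd h (pt_ne hm _ _ _ _)]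
  have u1 := u i (by simp [TT])
  have u2 := u (i + 1) (by simp [TT])
  have hs' : s < m ∧ g * m + i = g' * m + s := by omega
  have hg : g = g' := by
    have a1 : (g * m + i) / m = g := by
      rw [add_comm, Nat.add_mul_div_right _ _ hm, Nat.div_eq_of_lt hi, zero_add]
    have a2 : (g' * m + s) / m = g' := by
      rw [add_comm, Nat.add_mul_div_right _ _ hm, Nat.div_eq_of_lt hs'.1, zero_add]
    rw [← a1, hs'.2, a2]
  subst hg
  have l : pt m (-1) g j ∈ TT m 1 g i j := by simp [TT]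
  rw [e] at l
  rcases l with h | h | h | h
  · exact absurd h.symm (pt_ne hm _ _ _ _)
  · exact absurd h.symm (pt_ne hm _ _ _ _)
  · have : j = s - m := pt_inj h
    omega
  · have : j = s + 1 - m := pt_inj h
    omega

lemma psi_T2 {m N g i : ℕ} (hg : g < N) (hi : i < m) :
    m ≤ psi m g i (TP m N (fun s => s - m) (fun s => min s m)) := by
  unfold psi
  apply Finset.single_le_sum (f := fun j => j) (fun _ _ => Nat.zero_le _)
  simp only [Finset.mem_filter, Finset.mem_range]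
  refine ⟨by omega, g, hg, m + i, by omega, ?_⟩
  rcases tri_cases (path2 m) g (s := m + i) (by omega) with ⟨-, -, -, -, e⟩ | ⟨c, -⟩
  · rw [e, show m + i - m = i by omega, show min (m + i) m = m by omega]
  · omega

end Pool.Agent.P.MP_fe41f2_co
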