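import Mathlib
import Pool.Agent.P.MP_fe41f2_co.Lower

set_option autoImplicit false

namespace Pool.Agent.P.MP_fe41f2_co.G2

open Set

/-- both chains rise -/
structure Rise (B A : ℕ → ℝ) (n : ℕ) : Prop where
  pos : 0 < n
  lt : ∀ k, B k < A k
  mA : ∀ k k', k ≤ k' → k' ≤ n → A k ≤ A k'
  mB : ∀ k k', k ≤ k' → k' ≤ n → B k ≤ B k'

lemma interp_ge_of {f : ℕ → ℝ} {n : ℕ} (hn : 0 < n) (hf : ∀ k k', k ≤ k' → k' ≤ n → f k ≤ f k')
    {k : ℕ} {x : ℝ} (h1 : (k : ℝ) ≤ x) (h2 : x ≤ n) : f k ≤ interp f n x := by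
  have k0 : (0 : ℝ) ≤ k := Nat.cast_nonneg k
  obtain ⟨c, hc, c1, c2⟩ := exists_col hn (by linarith) h2
  rw [interp_eq f hc c1 c2]
  have m1 := hf c (c + 1) (by omega) hc
  by_cases h : k ≤ c
  · have := hf k c h hc.le
    nlinarith
  · have e1 : ((c + 1 : ℕ) : ℝ) ≤ k := by exact_mod_cast (by omega : c + 1 ≤ k)
    push_cast at e1
    have e2 : x = c + 1 := by linarith
    have e3 : (k : ℝ) = ((c + 1 : ℕ) : ℝ) := by push_cast; linarith
    have e4 : k = c + 1 := by exact_mod_cast e3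
    rw [e2, e4]; linarith

lemma interp_le_of {f : ℕ → ℝ} {n : ℕ} (hn : 0 < n) (hf : ∀ k k', k ≤ k' → k' ≤ n → f k ≤ f k')
    {k : ℕ} (hk : k ≤ n) {x : ℝ} (h1 : 0 ≤ x) (h2 : x ≤ k) : interp f n x ≤ f k := by
  have k0 : (k : ℝ) ≤ n := by exact_mod_cast hk
  obtain ⟨c, hc, c1, c2⟩ := exists_col hn h1 (by linarith)
  rw [interp_eq f hc c1 c2]
  have m1 := hf c (c + 1) (by omega) hc
  by_cases h : c + 1 ≤ k
  · have := hf (c + 1) k h hk
    nlinarith
  · have e1 : (k : ℝ) ≤ c := by exact_mod_cast (by omega : k ≤ c)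
    have e2 : x = c := by linarith
    have e3 : (k : ℝ) = c := by linarith
    have e4 : k = c := by exact_mod_cast e3
    rw [e2, e4]; linarith

lemma interp_mono {f : ℕ → ℝ} {n : ℕ} (hn : 0 < n) (hf : ∀ k k', k ≤ k' → k' ≤ n → f k ≤ f k')
    {x y : ℝ} (h0 : 0 ≤ x) (h1 : x ≤ y) (h2 : y ≤ n) : interp f n x ≤ interp f n y := by
  obtain ⟨c, hc, c1, c2⟩ := exists_col hn h0 (by linarith)
  by_cases h : y ≤ c + 1
  · rw [interp_eq f hc c1 c2, interp_eq f hc (by linarith) h]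
    have m1 := hf c (c + 1) (by omega) hc
    nlinarith
  · have a1 := interp_le_of hn hf (k := c + 1) hc h0 (by push_cast; linarith)
    have a2 := interp_ge_of hn hf (k := c + 1) (x := y) (by push_cast; linarith) h2
    linarith

variable {A B : ℕ → ℝ} {n : ℕ}

/-- side of the cross edge from upper vertex `a` to lower vertex `b` -/
def sd (B A : ℕ → ℝ) (a b : ℕ) (p : ℝ × ℝ) : ℝ :=
  ((b : ℝ) - a) * (p.2 - A a) + (A a - B b) * (p.1 - a)

lemma sd_aff (a b : ℕ) : Aff (sd B A a b) := by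
  intro p q c
  simp [sd]
  ring

lemma sd_low (a b : ℕ) (p : ℝ × ℝ) :
    sd B A a b p = ((b : ℝ) - a) * (p.2 - B b) + (A a - B b) * (p.1 - b) := by
  unfold sd; ring

lemma sd_ge {a b : ℕ} (hab : a ≤ b) (h : B b < A a) {p : ℝ × ℝ}
    (hp : (A a ≤ p.2 ∧ (a : ℝ) ≤ p.1) ∨ (B b ≤ p.2 ∧ (b : ℝ) ≤ p.1)) : 0 ≤ sd B A a b p := by
  have e : (a : ℝ) ≤ b := by exact_mod_cast hab
  rcases hp with ⟨h1, h2⟩ | ⟨h1, h2⟩
  · unfold sd
    exact add_nonneg (mul_nonneg (by linarith) (by linarith)) (mul_nonneg (by linarith) (by linarith))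
  · rw [sd_low]
    exact add_nonneg (mul_nonneg (by linarith) (by linarith)) (mul_nonneg (by linarith) (by linarith))

lemma sd_gt {a b : ℕ} (hab : a ≤ b) (h : B b < A a) {p : ℝ × ℝ}
    (hp : (A a ≤ p.2 ∧ (a : ℝ) < p.1) ∨ (B b ≤ p.2 ∧ (b : ℝ) < p.1)) : 0 < sd B A a b p := by
  have e : (a : ℝ) ≤ b := by exact_mod_cast hab
  rcases hp with ⟨h1, h2⟩ | ⟨h1, h2⟩
  · unfold sd
    exact add_pos_of_nonneg_of_pos (mul_nonneg (by linarith) (by linarith))
      (mul_pos (by linarith) (by linarith))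
  · rw [sd_low]
    exact add_pos_of_nonneg_of_pos (mul_nonneg (by linarith) (by linarith))
      (mul_pos (by linarith) (by linarith))

lemma sd_le {a b : ℕ} (hab : a ≤ b) (h : B b < A a) {p : ℝ × ℝ}
    (hp : (p.2 ≤ A a ∧ p.1 ≤ (a : ℝ)) ∨ (p.2 ≤ B b ∧ p.1 ≤ (b : ℝ))) : sd B A a b p ≤ 0 := by
  have e : (a : ℝ) ≤ b := by exact_mod_cast hab
  rcases hp with ⟨h1, h2⟩ | ⟨h1, h2⟩
  · unfold sd
    exact add_nonpos (mul_nonpos_of_nonneg_of_nonpos (by linarith) (by linarith))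
      (mul_nonpos_of_nonneg_of_nonpos (by linarith) (by linarith))
  · rw [sd_low]
    exact add_nonpos (mul_nonpos_of_nonneg_of_nonpos (by linarith) (by linarith))
      (mul_nonpos_of_nonneg_of_nonpos (by linarith) (by linarith))

lemma sd_lt {a b : ℕ} (hab : a ≤ b) (h : B b < A a) {p : ℝ × ℝ}
    (hp : (p.2 ≤ A a ∧ p.1 < (a : ℝ)) ∨ (p.2 ≤ B b ∧ p.1 < (b : ℝ))) : sd B A a b p < 0 := by
  have e : (a : ℝ) ≤ b := by exact_mod_cast hab
  rcases hp with ⟨h1, h2⟩ | ⟨h1, h2⟩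
  · unfold sd
    exact add_neg_of_nonpos_of_neg (mul_nonpos_of_nonneg_of_nonpos (by linarith) (by linarith))
      (mul_neg_of_pos_of_neg (by linarith) (by linarith))
  · rw [sd_low]
    exact add_neg_of_nonpos_of_neg (mul_nonpos_of_nonneg_of_nonpos (by linarith) (by linarith))
      (mul_neg_of_pos_of_neg (by linarith) (by linarith))

/-- a path all of whose cross edges descend to the right -/
structure Down (B A : ℕ → ℝ) (n : ℕ) (a b : ℕ → ℕ) : Prop extends IsPath n a b where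
  ab : ∀ s ≤ 2 * n, a s ≤ b s
  ht : ∀ s ≤ 2 * n, B (b s) < A (a s)

def tr (B A : ℕ → ℝ) (a b : ℕ → ℕ) (s : ℕ) : Set (ℝ × ℝ) :=
  {ch A (a s), ch A (a (s + 1)), ch B (b s), ch B (b (s + 1))}

def TQ (B A : ℕ → ℝ) (n : ℕ) (a b : ℕ → ℕ) : Set (Set (ℝ × ℝ)) := {t | ∃ s < 2 * n, t = tr B A a b s}

variable {a b : ℕ → ℕ}

lemma tr_cases (h : IsPath n a b) {s : ℕ} (hs : s < 2 * n) :
    (a (s + 1) = a s + 1 ∧ b (s + 1) = b s ∧
      tr B A a b s = {ch A (a s), ch B (b s), ch A (a s + 1)}) ∨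
    (a (s + 1) = a s ∧ b (s + 1) = b s + 1 ∧
      tr B A a b s = {ch A (a s), ch B (b s), ch B (b s + 1)}) := by
  rcases h.step s hs with ⟨e1, e2⟩ | ⟨e1, e2⟩
  · left
    refine ⟨e1, e2, ?_⟩
    unfold tr
    rw [e1, e2]
    ext x; simp only [mem_insert_iff, mem_singleton_iff]; tauto
  · right
    refine ⟨e1, e2, ?_⟩
    unfold tr
    rw [e1, e2]
    ext x; simp only [mem_insert_iff, mem_singleton_iff]; tauto

lemma tr_left (R : Rise B A n) (h : Down B A n a b) {s r : ℕ} (hs : s + 1 ≤ r) (hr : r ≤ 2 * n) :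
    ∀ x ∈ tr B A a b s, sd B A (a r) (b r) x ≤ 0 := by
  have h1 := h.toIsPath.mono hs hr
  have h2 := h.toIsPath.mono (s := s) (s' := r) (by omega) hr
  have h3 := h.toIsPath.le hr
  have up : ∀ k ≤ a r, sd B A (a r) (b r) (ch A k) ≤ 0 := fun k hk =>
    sd_le (h.ab r hr) (h.ht r hr) (Or.inl ⟨R.mA _ _ hk h3.1, by simpa [ch] using hk⟩)
  have lo : ∀ k ≤ b r, sd B A (a r) (b r) (ch B k) ≤ 0 := fun k hk =>
    sd_le (h.ab r hr) (h.ht r hr) (Or.inr ⟨R.mB _ _ hk h3.2, by simpa [ch] using hk⟩)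
  rintro x (rfl | rfl | rfl | rfl)
  exacts [up _ h2.1, up _ h1.1, lo _ h2.2, lo _ h1.2]

lemma tr_right (R : Rise B A n) (h : Down B A n a b) {s r : ℕ} (hr : r ≤ s) (hs : s < 2 * n) :
    ∀ x ∈ tr B A a b s, 0 ≤ sd B A (a r) (b r) x := by
  have h1 := h.toIsPath.mono hr hs.le
  have h2 := h.toIsPath.mono (s := r) (s' := s + 1) (by omega) hs
  have h4 := h.toIsPath.le (s := s) hs.le
  have h5 := h.toIsPath.le (s := s + 1) hs
  have hr' : r ≤ 2 * n := by omega
  have up : ∀ k, a r ≤ k → k ≤ n → 0 ≤ sd B A (a r) (b r) (ch A k) := fun k hk hk' =>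
    sd_ge (h.ab r hr') (h.ht r hr') (Or.inl ⟨R.mA _ _ hk hk', by simpa [ch] using hk⟩)
  have lo : ∀ k, b r ≤ k → k ≤ n → 0 ≤ sd B A (a r) (b r) (ch B k) := fun k hk hk' =>
    sd_ge (h.ab r hr') (h.ht r hr') (Or.inr ⟨R.mB _ _ hk hk', by simpa [ch] using hk⟩)
  rintro x (rfl | rfl | rfl | rfl)
  exacts [up _ h1.1 h4.1, up _ h2.1 h5.1, lo _ h1.2 h4.2, lo _ h2.2 h5.2]

lemma aff_gen (α β γ : ℝ) : Aff (fun p => α * p.1 + β * p.2 + γ) := by
  intro p q a
  simp
  ring

lemma tr_sub (R : Rise B A n) (h : Down B A n a b) {s : ℕ} (hs : s < 2 * n) :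
    convexHull ℝ (tr B A a b s) ⊆ strip B A n := by
  intro p hp
  have h4 := h.toIsPath.le (s := s) hs.le
  have h5 := h.toIsPath.le (s := s + 1) hs
  have h6 := h.toIsPath.mono (s := s) (s' := s + 1) (by omega) hs
  have q1 := h.ab s hs.le
  have q2 := h.ab (s + 1) hs
  have q3 := h.ht s hs.le
  have q4 := h.ht (s + 1) hs
  have q5 := R.mA _ _ h6.1 h5.1
  have q6 := R.mB _ _ h6.2 h5.2
  have c1 : (a s : ℝ) ≤ b s := by exact_mod_cast q1
  have c2 : (a (s + 1) : ℝ) ≤ b (s + 1) := by exact_mod_cast q2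
  have c3 : (a s : ℝ) ≤ a (s + 1) := by exact_mod_cast h6.1
  have c4 : (b s : ℝ) ≤ b (s + 1) := by exact_mod_cast h6.2
  have c5 : (b (s + 1) : ℝ) ≤ n := by exact_mod_cast h5.2
  have c6 : (0 : ℝ) ≤ a s := Nat.cast_nonneg _
  obtain ⟨x1, x2⟩ := hull_x (α := a s) (β := b (s + 1)) (t := tr B A a b s) (by
    rintro x (rfl | rfl | rfl | rfl) <;> simp only [ch] <;> constructor <;> linarith) hp
  have y1 := hull_nonneg (aff_gen 0 (-1) (A (a (s + 1)))) (t := tr B A a b s) (by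
    rintro x (rfl | rfl | rfl | rfl) <;> simp only [ch] <;> linarith) hp
  have y2 := hull_nonneg (aff_gen 0 1 (-B (b s))) (t := tr B A a b s) (by
    rintro x (rfl | rfl | rfl | rfl) <;> simp only [ch] <;> linarith) hp
  refine ⟨by linarith, by linarith, ?_, ?_⟩
  · by_cases hx : p.1 ≤ b s
    · have := interp_le_of R.pos R.mB h4.2 (x := p.1) (by linarith) hx
      linarith
    · rcases tr_cases (A := A) (B := B) h.toIsPath hs with ⟨-, e2, -⟩ | ⟨e1, e2, e⟩
      · rw [e2] at x2; exact absurd x2 hx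
      · rw [e2] at x2 q6 h5
        push_cast at x2
        rw [interp_eq B (k := b s) (by omega) (by linarith) x2]
        rw [e] at hp
        have := hull_nonneg (aff_gen (-(B (b s + 1) - B (b s))) 1
          (-B (b s) + b s * (B (b s + 1) - B (b s)))) (by
            rintro x (rfl | rfl | rfl) <;> simp only [ch]
            · nlinarith
            · linarith
            · push_cast; linarith) hp
        linarith
  · by_cases hx : (a (s + 1) : ℝ) ≤ p.1
    · have := interp_ge_of R.pos R.mA (x := p.1) hx (by linarith)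
      linarith
    · rcases tr_cases (A := A) (B := B) h.toIsPath hs with ⟨e1, e2, e⟩ | ⟨e1, -, -⟩
      · rw [e1] at hx q5 h5
        push_cast at hx
        rw [interp_eq A (k := a s) (by omega) x1 (by linarith)]
        rw [e] at hp
        have := hull_nonneg (aff_gen (A (a s + 1) - A (a s)) (-1)
          (A (a s) - a s * (A (a s + 1) - A (a s)))) (by
            rintro x (rfl | rfl | rfl) <;> simp only [ch]
            · linarith
            · nlinarith
            · push_cast; linarith) hp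
        linarith
      · rw [e1] at hx; exact absurd x1 hx

lemma det_sd (a b : ℕ) (p : ℝ × ℝ) : det3 (ch A a) (ch B b) p = sd B A a b p := by
  unfold det3 sd ch; ring

lemma det_sd' (a b : ℕ) (p : ℝ × ℝ) : det3 (ch B b) (ch A a) p = -sd B A a b p := by
  unfold det3 sd ch; ring

lemma tr_pos (R : Rise B A n) (h : Down B A n a b) {s : ℕ} (hs : s ≤ 2 * n) :
    (a s + 1 ≤ n → 0 < det3 (ch A (a s)) (ch B (b s)) (ch A (a s + 1))) ∧
    (b s + 1 ≤ n → 0 < det3 (ch A (a s)) (ch B (b s)) (ch B (b s + 1))) := by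
  refine ⟨fun h1 => ?_, fun h1 => ?_⟩ <;> rw [det_sd]
  · exact sd_gt (h.ab s hs) (h.ht s hs) (Or.inl ⟨R.mA _ _ (by omega) h1, by simp [ch]⟩)
  · exact sd_gt (h.ab s hs) (h.ht s hs) (Or.inr ⟨R.mB _ _ (by omega) h1, by simp [ch]⟩)

lemma tr_cover (R : Rise B A n) (h : Down B A n a b) {p : ℝ × ℝ} (hp : p ∈ strip B A n) :
    ∃ s < 2 * n, p ∈ convexHull ℝ (tr B A a b s) := by
  obtain ⟨p0, p1, p2, p3⟩ := hp
  have hn := R.pos
  obtain ⟨s, hs, e1, e2⟩ := disc_ivt (fun s => sd B A (a s) (b s) p) (2 * n) (by omega)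
    (by
      simp only [h.a0, h.b0, sd]
      have := R.lt 0
      simp only [Nat.cast_zero, sub_zero, zero_mul, zero_add]
      exact mul_nonneg (by linarith) p0)
    (by
      simp only [h.a1, h.b1, sd]
      have := R.lt n
      nlinarith)
  refine ⟨s, hs, ?_⟩
  have h4 := h.toIsPath.le (s := s) hs.le
  have h5 := h.toIsPath.le (s := s + 1) hs
  have q1 := h.ab s hs.le
  have q2 := h.ab (s + 1) hs
  have q3 := h.ht s hs.le
  have q4 := h.ht (s + 1) hs
  rcases tr_cases (A := A) (B := B) h.toIsPath hs with ⟨f1, f2, e⟩ | ⟨f1, f2, e⟩ <;> rw [e] <;>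
    rw [f1, f2] at e2 q2 q4 h5
  · have m1 := R.mA (a s) (a s + 1) (by omega) h5.1
    refine mem_hull_of_det 1 (by simpa using (tr_pos R h hs.le).1 h5.1)
      (by rw [det_sd]; linarith) (by rw [det_sd']; linarith) ?_
    have : p.2 ≤ A (a s) + (p.1 - a s) * (A (a s + 1) - A (a s)) := by
      by_cases x1 : p.1 < a s
      · have := interp_le_of hn R.mA h4.1 p0 x1.le
        exact absurd e1 (not_le.2 (sd_lt q1 q3 (Or.inl ⟨by linarith, x1⟩)))
      by_cases x2 : p.1 ≤ a s + 1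
      · rwa [interp_eq A (k := a s) (by omega) (by linarith) x2] at p3
      · by_contra hc
        have : A (a s + 1) ≤ p.2 := by nlinarith
        exact absurd e2 (not_le.2 (sd_gt q2 q4 (Or.inl ⟨this, by push_cast; linarith⟩)))
    unfold det3 ch
    push_cast
    linarith
  · have m1 := R.mB (b s) (b s + 1) (by omega) h5.2
    refine mem_hull_of_det 1 (by simpa using (tr_pos R h hs.le).2 h5.2)
      (by rw [det_sd]; linarith) ?_ (by rw [det_sd']; linarith)
    have : B (b s) + (p.1 - b s) * (B (b s + 1) - B (b s)) ≤ p.2 := by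
      by_cases x1 : (b s : ℝ) + 1 < p.1
      · have := interp_ge_of hn R.mB (k := b s + 1) (x := p.1) (by push_cast; linarith) p1
        exact absurd e2 (not_le.2 (sd_gt q2 q4 (Or.inr ⟨by linarith, by push_cast; linarith⟩)))
      by_cases x2 : (b s : ℝ) ≤ p.1
      · rwa [interp_eq B (k := b s) (by omega) x2 (by linarith)] at p2
      · by_contra hc
        have : p.2 ≤ B (b s) := by nlinarith
        exact absurd e1 (not_le.2 (sd_lt q1 q3 (Or.inr ⟨this, by linarith⟩)))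
    unfold det3 ch
    push_cast
    linarith

lemma vtx_not_interior {w : ℝ × ℝ} (hw : w ∈ range (vtx B A n)) : w ∉ interior (strip B A n) := by
  intro hi
  obtain ⟨k, hk, rfl | rfl⟩ := (range_vtx B A n w).1 hw
  · obtain ⟨a, ha, h⟩ := interior_step hi (k, A k + 1)
    have h4 := h.2.2.2
    have e1 : ((1 - a) • ch A k + a • ((k : ℝ), A k + 1)).1 = k := by simp [ch]; ring
    have e2 : ((1 - a) • ch A k + a • ((k : ℝ), A k + 1)).2 = A k + a := by simp [ch]; ring
    rw [e1, e2, interp_nat _ hk] at h4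
    linarith
  · obtain ⟨a, ha, h⟩ := interior_step hi (k, B k - 1)
    have h4 := h.2.2.1
    have e1 : ((1 - a) • ch B k + a • ((k : ℝ), B k - 1)).1 = k := by simp [ch]; ring
    have e2 : ((1 - a) • ch B k + a • ((k : ℝ), B k - 1)).2 = B k - a := by simp [ch]; ring
    rw [e1, e2, interp_nat _ hk] at h4
    linarith

lemma vtx_strict (R : Rise B A n) (h : Down B A n a b) {s : ℕ} (hs : s < 2 * n) {w : ℝ × ℝ}
    (hw : w ∈ range (vtx B A n)) (hh : w ∈ convexHull ℝ (tr B A a b s)) : w ∈ tr B A a b s := by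
  have l1 := hull_nonpos (sd_aff _ _) (tr_left R h (s := s) le_rfl hs) hh
  have l2 := hull_nonneg (sd_aff _ _) (tr_right R h (s := s) le_rfl hs) hh
  have h4 := h.toIsPath.le (s := s) hs.le
  have h6 := h.step s hs
  obtain ⟨k, hk, rfl | rfl⟩ := (range_vtx B A n w).1 hw
  · have a1 : a s ≤ k := by
      by_contra hc
      exact absurd l2 (not_le.2 (sd_lt (h.ab s hs.le) (h.ht s hs.le)
        (Or.inl ⟨R.mA _ _ (by omega) h4.1, by simpa [ch] using hc⟩)))
    have a2 : k ≤ a (s + 1) := by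
      by_contra hc
      exact absurd l1 (not_le.2 (sd_gt (h.ab (s + 1) hs) (h.ht (s + 1) hs)
        (Or.inl ⟨R.mA _ _ (by omega) hk, by simpa [ch] using hc⟩)))
    have : k = a s ∨ k = a (s + 1) := by omega
    rcases this with rfl | rfl <;> simp [tr]
  · have a1 : b s ≤ k := by
      by_contra hc
      exact absurd l2 (not_le.2 (sd_lt (h.ab s hs.le) (h.ht s hs.le)
        (Or.inr ⟨R.mB _ _ (by omega) h4.2, by simpa [ch] using hc⟩)))
    have a2 : k ≤ b (s + 1) := by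
      by_contra hc
      exact absurd l1 (not_le.2 (sd_gt (h.ab (s + 1) hs) (h.ht (s + 1) hs)
        (Or.inr ⟨R.mB _ _ (by omega) hk, by simpa [ch] using hc⟩)))
    have : k = b s ∨ k = b (s + 1) := by omega
    rcases this with rfl | rfl <;> simp [tr]

lemma tr_VV (h : IsPath n a b) {s : ℕ} (hs : s < 2 * n) : tr B A a b s ⊆ range (vtx B A n) := by
  have h1 := h.le (s := s + 1) hs
  have h2 := h.le (s := s) hs.le
  rintro x (rfl | rfl | rfl | rfl) <;> rw [range_vtx]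
  exacts [⟨_, h2.1, Or.inl rfl⟩, ⟨_, h1.1, Or.inl rfl⟩, ⟨_, h2.2, Or.inr rfl⟩, ⟨_, h1.2, Or.inr rfl⟩]

lemma tr_disj (R : Rise B A n) (h : Down B A n a b) {s s' : ℕ} (hlt : s < s') (hs' : s' < 2 * n) :
    Disjoint (interior (convexHull ℝ (tr B A a b s))) (interior (convexHull ℝ (tr B A a b s'))) :=
  disj_of_aff (sd_aff (a (s + 1)) (b (s + 1))) ((a (s + 1) : ℝ) + 1, A (a (s + 1)))
    (sd_gt (h.ab _ (by omega)) (h.ht _ (by omega)) (Or.inl ⟨le_rfl, by simp⟩)).ne'
    (tr_left R h le_rfl (by omega)) (tr_right R h hlt hs')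

theorem isTri (R : Rise B A n) (h : Down B A n a b) :
    IsTriangulation (strip B A n) (range (vtx B A n)) (TQ B A n a b) := by
  refine ⟨?_, ?_, ?_, ?_⟩
  · rintro t ⟨s, hs, rfl⟩
    refine ⟨tr_VV h.toIsPath hs, ?_⟩
    have h5 := h.toIsPath.le (s := s + 1) hs
    rcases tr_cases (A := A) (B := B) h.toIsPath hs with ⟨f1, -, e⟩ | ⟨-, f2, e⟩ <;> rw [e]
    · exact ⟨_, _, _, rfl, fun hc => ((tr_pos R h hs.le).1 (by omega)).ne' (det_of_collinear hc)⟩
    · exact ⟨_, _, _, rfl, fun hc => ((tr_pos R h hs.le).2 (by omega)).ne' (det_of_collinear hc)⟩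
  · rintro t ⟨s, hs, rfl⟩ t' ⟨s', hs', rfl⟩ hne
    rcases lt_trichotomy s s' with h1 | rfl | h1
    · exact tr_disj R h h1 hs'
    · exact absurd rfl hne
    · exact (tr_disj R h h1 hs).symm
  · ext p
    simp only [mem_iUnion, exists_prop]
    constructor
    · rintro ⟨t, ⟨s, hs, rfl⟩, hp⟩
      exact tr_sub R h hs hp
    · intro hp
      obtain ⟨s, hs, hp'⟩ := tr_cover R h hp
      exact ⟨_, ⟨s, hs, rfl⟩, hp'⟩
  · rintro t ⟨s, hs, rfl⟩ w hw
    exact ⟨fun hi => vtx_not_interior hw (interior_mono (tr_sub R h hs) hi), vtx_strict R h hs hw⟩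

/-- the path whose upper edge `k` has apex `φ k` -/
def walk (n : ℕ) (φ : ℕ → ℕ) : ℕ → ℕ × ℕ
  | 0 => (0, 0)
  | s + 1 => if (walk n φ s).1 < n ∧ φ (walk n φ s).1 ≤ (walk n φ s).2
      then ((walk n φ s).1 + 1, (walk n φ s).2) else ((walk n φ s).1, (walk n φ s).2 + 1)

theorem exists_tri (R : Rise B A n) (φ : ℕ → ℕ) (hm : ∀ k k', k ≤ k' → k' < n → φ k ≤ φ k')
    (h1 : ∀ k < n, k + 1 ≤ φ k ∧ φ k ≤ n ∧ B (φ k) < A k) :
    ∃ T, IsTriangulation (strip B A n) (range (vtx B A n)) T ∧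
      ∀ k < n, ∀ c, ({ch B c, ch A (k + 1), ch A k} : Set (ℝ × ℝ)) ∈ T ↔ c = φ k := by
  set a : ℕ → ℕ := fun s => (walk n φ s).1 with ha
  set b : ℕ → ℕ := fun s => (walk n φ s).2 with hb
  have st : ∀ s, (a s < n ∧ φ (a s) ≤ b s ∧ a (s + 1) = a s + 1 ∧ b (s + 1) = b s) ∨
      (¬ (a s < n ∧ φ (a s) ≤ b s) ∧ a (s + 1) = a s ∧ b (s + 1) = b s + 1) := by
    intro s
    by_cases h : (walk n φ s).1 < n ∧ φ (walk n φ s).1 ≤ (walk n φ s).2
    · exact Or.inl ⟨h.1, h.2, by simp only [ha, walk, if_pos h], by simp only [hb, walk, if_pos h]⟩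
    · exact Or.inr ⟨h, by simp only [ha, walk, if_neg h], by simp only [hb, walk, if_neg h]⟩
  have inv : ∀ s ≤ 2 * n, a s + b s = s ∧ a s ≤ b s ∧ b s ≤ n ∧ (a s < n → b s ≤ φ (a s)) := by
    intro s
    induction s with
    | zero => intro _; simp [ha, hb, walk]
    | succ s ih =>
      intro hs
      obtain ⟨i1, i2, i3, i4⟩ := ih (by omega)
      rcases st s with ⟨c1, c2, c3, c4⟩ | ⟨c1, c3, c4⟩
      · have := h1 _ c1
        refine ⟨by omega, by omega, by omega, fun h => ?_⟩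
        have := hm (a s) (a (s + 1)) (by omega) h
        have := i4 c1
        omega
      · have c5 : a s < n := by omega
        have := h1 _ c5
        refine ⟨by omega, by omega, by omega, fun _ => ?_⟩
        rw [c3]; omega
  have hP : IsPath n a b := by
    have := inv _ le_rfl
    refine ⟨rfl, rfl, by omega, by omega, fun s _ => ?_⟩
    rcases st s with h | h
    · exact Or.inl h.2.2
    · exact Or.inr h.2
  have hD : Down B A n a b := by
    refine ⟨hP, fun s hs => (inv s hs).2.1, fun s hs => ?_⟩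
    obtain ⟨i1, i2, i3, i4⟩ := inv s hs
    by_cases c : a s < n
    · exact (R.mB _ _ (i4 c) (h1 _ c).2.1).trans_lt (h1 _ c).2.2
    · have e : a s = n := by omega
      rw [e]
      exact (R.mB _ _ i3 le_rfl).trans_lt (R.lt n)
  refine ⟨_, isTri R hD, fun k hk c => ⟨?_, ?_⟩⟩
  · rintro ⟨s, hs, e⟩
    have u : ∀ l, ch A l ∈ ({ch B c, ch A (k + 1), ch A k} : Set (ℝ × ℝ)) →
        l = a s ∨ l = a (s + 1) := by
      intro l hl
      rw [e] at hl
      rcases hl with h | h | h | h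
      exacts [Or.inl (ch_inj h), Or.inr (ch_inj h), absurd h (ch_ne R.lt _ _),
        absurd h (ch_ne R.lt _ _)]
    have u1 := u k (by simp)
    have u2 := u (k + 1) (by simp)
    have l : ch B c ∈ ({ch B c, ch A (k + 1), ch A k} : Set (ℝ × ℝ)) := by simp
    rw [e] at l
    have l' : c = b s ∨ c = b (s + 1) := by
      rcases l with h | h | h | h
      exacts [absurd h.symm (ch_ne R.lt _ _), absurd h.symm (ch_ne R.lt _ _), Or.inl (ch_inj h),
        Or.inr (ch_inj h)]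
    obtain ⟨-, -, -, i4⟩ := inv s hs.le
    rcases st s with ⟨c1, c2, c3, c4⟩ | ⟨-, c3, c4⟩
    · have e2 : a s = k := by omega
      have := i4 c1
      rw [e2] at this c2
      omega
    · omega
  · rintro rfl
    have hex : ∃ s, k < a s := ⟨2 * n, by rw [hP.a1]; exact hk⟩
    have s1 := Nat.find_spec hex
    have s2 : Nat.find hex ≤ 2 * n := Nat.find_min' hex (by rw [hP.a1]; exact hk)
    obtain ⟨s, hs⟩ : ∃ s, Nat.find hex = s + 1 := by
      refine ⟨Nat.find hex - 1, ?_⟩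
      have : Nat.find hex ≠ 0 := fun h => by rw [h, hP.a0] at s1; omega
      omega
    have s3 := Nat.find_min hex (m := s) (by omega)
    rw [hs] at s1 s2
    obtain ⟨-, -, -, i4⟩ := inv s (by omega)
    rcases st s with ⟨c1, c2, c3, c4⟩ | ⟨-, c3, c4⟩
    · have e2 : a s = k := by omega
      have e3 : b s = φ k := by
        have := i4 c1
        rw [e2] at this c2
        omega
      refine ⟨s, by omega, ?_⟩
      unfold tr
      rw [c3, c4, e2, e3]
      ext x; simp only [mem_insert_iff, mem_singleton_iff]; tauto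
    · omega

end Pool.Agent.P.MP_fe41f2_co.G2
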