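import Mathlib
import Pool.Agent.P.MP_fe41f2_co.G2Tri

set_option autoImplicit false

namespace Pool.Agent.P.MP_fe41f2_co.G2

open Set

/-- two staircases: `N` reflex steps with `M` edges on each chain, joined by convex fillers -/
structure Stair (B A : ℕ → ℝ) (M N K : ℕ) (S : ℝ) : Prop extends Rise B A (2 * K) where
  hK : K = N * (M + 1)
  big : 16 * (K : ℝ) ^ 2 ≤ S
  up : ∀ g < N, ∀ i ≤ M, A (g * (M + 1) + i) = S * (g + 1) + 1 + (i : ℝ) ^ 2
  lo : ∀ g < N, ∀ j ≤ M, B (K + 1 + g * (M + 1) + j) = S * (g + 1) - 1 - ((M : ℝ) - j) ^ 2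
  fB : ∀ k ≤ K, B k = (k : ℝ) ^ 2
  fA : ∀ k, K ≤ k → k ≤ 2 * K → A k = S * (N + 1) - (2 * K - (k : ℝ)) ^ 2
  ncA : ∀ k, k + 2 ≤ 2 * K → A k + A (k + 2) ≠ 2 * A (k + 1)
  ncB : ∀ k, k + 2 ≤ 2 * K → B k + B (k + 2) ≠ 2 * B (k + 1)

noncomputable def hA (M N : ℕ) (S : ℝ) (k : ℕ) : ℝ :=
  if k < N * (M + 1) then S * ((k / (M + 1) : ℕ) + 1) + 1 + ((k % (M + 1) : ℕ) : ℝ) ^ 2
  else S * (N + 1) - ((2 * (N * (M + 1)) - k : ℕ) : ℝ) ^ 2

lemma blk_lt {M N g i : ℕ} (hg : g < N) (hi : i ≤ M) : g * (M + 1) + i < N * (M + 1) := by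
  have := Nat.mul_le_mul_right (M + 1) (show g + 1 ≤ N from hg)
  rw [add_mul] at this
  omega

lemma hA_up {M N g i : ℕ} (S : ℝ) (hg : g < N) (hi : i ≤ M) :
    hA M N S (g * (M + 1) + i) = S * (g + 1) + 1 + (i : ℝ) ^ 2 := by
  have e1 : (g * (M + 1) + i) / (M + 1) = g := by
    rw [add_comm, Nat.add_mul_div_right _ _ (by omega), Nat.div_eq_of_lt (by omega), zero_add]
  have e2 : (g * (M + 1) + i) % (M + 1) = i := by
    rw [add_comm, Nat.add_mul_mod_self_right, Nat.mod_eq_of_lt (by omega)]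
  rw [hA, if_pos (blk_lt hg hi), e1, e2]

lemma hA_fill {M N k : ℕ} (S : ℝ) (h1 : N * (M + 1) ≤ k) (h2 : k ≤ 2 * (N * (M + 1))) :
    hA M N S k = S * (N + 1) - (2 * ((N * (M + 1) : ℕ) : ℝ) - k) ^ 2 := by
  rw [hA, if_neg (by omega), Nat.cast_sub h2]
  push_cast
  ring

lemma blk_of_lt {M N k : ℕ} (h : k < N * (M + 1)) : ∃ g < N, ∃ i ≤ M, k = g * (M + 1) + i :=
  ⟨k / (M + 1), (Nat.div_lt_iff_lt_mul (by omega)).2 h, k % (M + 1),
    Nat.le_of_lt_succ (Nat.mod_lt _ (by omega)), (Nat.div_add_mod' k (M + 1)).symm⟩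

lemma hA_step {M N K : ℕ} {S : ℝ} (hK : K = N * (M + 1)) (hS : 16 * (K : ℝ) ^ 2 ≤ S) {k : ℕ}
    (hk : k < 2 * K) :
    (k < K ∧ k % (M + 1) < M ∧ hA M N S (k + 1) - hA M N S k = 2 * ((k % (M + 1) : ℕ) : ℝ) + 1) ∨
    (k < K ∧ k % (M + 1) = M ∧ 8 * (K : ℝ) ^ 2 ≤ hA M N S (k + 1) - hA M N S k) ∨
    (K ≤ k ∧ hA M N S (k + 1) - hA M N S k = 2 * (2 * (K : ℝ) - k) - 1) := by
  by_cases h : k < K
  · obtain ⟨g, hg, i, hi, rfl⟩ := blk_of_lt (hK ▸ h)
    have e2 : (g * (M + 1) + i) % (M + 1) = i := by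
      rw [add_comm, Nat.add_mul_mod_self_right, Nat.mod_eq_of_lt (by omega)]
    rw [e2, hA_up S hg hi]
    by_cases h1 : i < M
    · refine Or.inl ⟨h, h1, ?_⟩
      rw [add_assoc, hA_up S hg h1]
      push_cast
      ring
    · obtain rfl : i = M := by omega
      refine Or.inr (Or.inl ⟨h, rfl, ?_⟩)
      have c1 : ((i + 1 : ℕ) : ℝ) ≤ K := by exact_mod_cast (by omega : i + 1 ≤ K)
      have c0 : (0 : ℝ) ≤ i := Nat.cast_nonneg i
      push_cast at c1
      have e : g * (i + 1) + i + 1 = (g + 1) * (i + 1) + 0 := by ring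
      by_cases h2 : g + 1 < N
      · rw [e, hA_up S h2 (Nat.zero_le _)]
        push_cast
        nlinarith
      · obtain rfl : N = g + 1 := by omega
        rw [e, hA_fill S (by omega) (by omega), add_zero, ← hK]
        push_cast
        nlinarith
  · refine Or.inr (Or.inr ⟨by omega, ?_⟩)
    rw [hA_fill S (by omega) (by omega), hA_fill S (by omega) (by omega), ← hK]
    push_cast
    ring

theorem exists_stair {M N : ℕ} (hM : 0 < M) (hN : 0 < N) :
    ∃ (B A : ℕ → ℝ) (S : ℝ), Stair B A M N (N * (M + 1)) S := by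
  set K := N * (M + 1) with hK
  set S : ℝ := 16 * (K : ℝ) ^ 2 with hS
  have K1 : M + 1 ≤ K := Nat.le_mul_of_pos_left _ hN
  have K2 : ((M + 1 : ℕ) : ℝ) ≤ K := by exact_mod_cast K1
  have M1 : (1 : ℝ) ≤ M := by exact_mod_cast hM
  push_cast at K2
  have st := fun k (hk : k < 2 * K) => hA_step (S := S) hK le_rfl hk
  have mA : ∀ k k', k ≤ k' → k' ≤ 2 * K → hA M N S k ≤ hA M N S k' := by
    intro k k' h1 h2
    induction k', h1 using Nat.le_induction with
    | base => exact le_rfl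
    | succ l hl ih =>
      have := ih (by omega)
      have c : ((l + 1 : ℕ) : ℝ) ≤ ((2 * K : ℕ) : ℝ) := by exact_mod_cast h2
      push_cast at c
      rcases st l h2 with ⟨-, -, e⟩ | ⟨-, -, e⟩ | ⟨-, e⟩
      · have : (0 : ℝ) ≤ ((l % (M + 1) : ℕ) : ℝ) := Nat.cast_nonneg _
        linarith
      · nlinarith
      · linarith
  have nc : ∀ k, k + 2 ≤ 2 * K → hA M N S k + hA M N S (k + 2) ≠ 2 * hA M N S (k + 1) := by
    intro k hk e
    have r1 : ∀ l, ((l % (M + 1) : ℕ) : ℝ) ≤ M := fun l => by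
      exact_mod_cast Nat.le_of_lt_succ (Nat.mod_lt l (by omega))
    have r2 : (k + 1) % (M + 1) = (k % (M + 1) + 1) % (M + 1) := (Nat.mod_add_mod _ _ _).symm
    have r3 : K % (M + 1) = 0 := Nat.mul_mod_left _ _
    have k0 : (0 : ℝ) ≤ k := Nat.cast_nonneg k
    have e3 : k + 1 + 1 = k + 2 := rfl
    rcases st k (by omega) with ⟨a1, a2, a3⟩ | ⟨a1, a2, a3⟩ | ⟨a1, a3⟩ <;>
      rcases st (k + 1) (by omega) with ⟨b1, b2, b3⟩ | ⟨b1, b2, b3⟩ | ⟨b1, b3⟩ <;> rw [e3] at b3
    · rw [r2, Nat.mod_eq_of_lt (by omega)] at b3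
      push_cast at b3
      linarith
    · nlinarith [r1 k]
    · rw [Nat.mod_eq_of_lt (a := k % (M + 1) + 1) (by omega), show k + 1 = K by omega] at r2
      omega
    · nlinarith [r1 (k + 1)]
    · rw [a2, Nat.mod_self] at r2
      omega
    · push_cast at b3
      nlinarith
    · omega
    · omega
    · push_cast at b3
      linarith
  have A0 : hA M N S 0 = S + 1 := by simpa using hA_up (M := M) (g := 0) (i := 0) S hN (by omega)
  have AK : hA M N S K = S * (N + 1) - (K : ℝ) ^ 2 := by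
    rw [hA_fill S le_rfl (by omega), ← hK]; ring
  refine ⟨fun k => S * (N + 1) - hA M N S (2 * K - k), hA M N S, S,
    ⟨by omega, fun k => ?_, mA, fun k k' h1 h2 => ?_⟩, rfl, le_rfl, fun g hg i hi => hA_up S hg hi,
    fun g hg j hj => ?_, fun k hk => ?_, fun k h1 h2 => hA_fill S h1 h2, nc, fun k hk e => ?_⟩
  · by_cases h1 : k ≤ K
    · have a1 := mA 0 k (by omega) (by omega)
      have a2 := mA K (2 * K - k) (by omega) (by omega)
      nlinarith
    · have a1 := mA 0 (2 * K - k) (by omega) (by omega)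
      by_cases h2 : k ≤ 2 * K
      · have a2 := mA K k (by omega) h2
        nlinarith
      · have : hA M N S k = S * (N + 1) := by
          rw [hA, if_neg (by omega), show 2 * (N * (M + 1)) - k = 0 by omega]; simp
        nlinarith
  · have := mA (2 * K - k') (2 * K - k) (by omega) (by omega)
    linarith
  · obtain ⟨d, rfl⟩ : ∃ d, N = g + 1 + d := ⟨N - (g + 1), by omega⟩
    have e : 2 * K - (K + 1 + g * (M + 1) + j) = d * (M + 1) + (M - j) := by
      have : K = g * (M + 1) + (M + 1) + d * (M + 1) := by rw [hK]; ring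
      omega
    simp only [e]
    rw [hA_up S (by omega) (by omega), Nat.cast_sub hj]
    push_cast
    ring
  · rw [hA_fill S (by omega) (by omega), Nat.cast_sub (by omega), ← hK]
    push_cast
    ring
  · apply nc (2 * K - (k + 2)) (by omega)
    rw [show 2 * K - (k + 2) + 2 = 2 * K - k by omega,
      show 2 * K - (k + 2) + 1 = 2 * K - (k + 1) by omega]
    linarith

theorem simple' {L U : ℕ → ℝ} (h : ∀ k, L k < U k) {K : ℕ} (hK : 0 < K)
    (hU : ∀ k, k + 2 ≤ K → U k + U (k + 2) ≠ 2 * U (k + 1))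
    (hL : ∀ k, k + 2 ≤ K → L k + L (k + 2) ≠ 2 * L (k + 1)) :
    IsSimplePolygon (2 * K + 2) (vtx L U K) := by
  refine ⟨by omega, vtx_inj h K, ?_, ?_⟩
  · intro i hc
    have hd := det_of_collinear hc
    have e : i + 2 = i + 1 + 1 := by ring
    rw [e] at hd
    rcases edge_cases L U K i with ⟨k, hk, v1, w1, a1, a2⟩ | ⟨v1, w1, a1, a2⟩ |
        ⟨k, hk, v1, w1, a1, a2⟩ | ⟨v1, w1, a1, a2⟩ <;>
      rcases edge_cases L U K (i + 1) with ⟨k', hk', v2, -, -, b2⟩ | ⟨v2, -, -, b2⟩ |
        ⟨k', hk', v2, -, -, b2⟩ | ⟨v2, -, -, b2⟩ <;>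
      first
      | omega
      | rw [a1, a2, b2] at hd
    · obtain rfl : k' = k + 1 := by omega
      apply hU k (by omega)
      simp [det3, ch] at hd
      have e2 : k + 1 + 1 = k + 2 := rfl
      rw [e2] at hd
      linarith
    · obtain rfl : K = k + 1 := by omega
      have := h (k + 1)
      simp [det3, ch] at hd
      linarith
    · obtain rfl : K = k' + 1 := by omega
      have := h (k' + 1)
      simp [det3, ch] at hd
      linarith
    · obtain rfl : k = k' + 1 := by omega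
      apply hL k' (by omega)
      simp [det3, ch] at hd
      have e2 : k' + 1 + 1 = k' + 2 := rfl
      rw [e2] at hd
      linarith
    · obtain rfl : k = 0 := by omega
      have := h 0
      simp [det3, ch] at hd
      linarith
    · obtain rfl : k' = 0 := by omega
      have := h 0
      simp [det3, ch] at hd
      linarith
  · rintro i j hij p ⟨hi, hj⟩
    exact ⟨seg_one_side h hK i j hij p hi hj, seg_one_side h hK j i hij.symm p hj hi⟩

variable {A B : ℕ → ℝ} {M N K : ℕ} {S : ℝ}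

lemma int_mul (a b : ℕ) : 0 ≤ ((a : ℝ) - b) * ((a : ℝ) - b - 1) := by
  rcases le_or_gt a b with h | h
  · have : (a : ℝ) ≤ b := by exact_mod_cast h
    nlinarith
  · have : ((b + 1 : ℕ) : ℝ) ≤ a := by exact_mod_cast h
    push_cast at this
    nlinarith

/-- the left half is seen from the lower vertex `K`, the right half from the upper vertex `K` -/
theorem guards (H : Stair B A M N K S) {x : ℝ × ℝ} (hx : x ∈ strip B A (2 * K)) :
    segment ℝ (ch B K) x ⊆ strip B A (2 * K) ∨ segment ℝ (ch A K) x ⊆ strip B A (2 * K) := by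
  obtain ⟨x0, x1, x2, x3⟩ := hx
  have hn := H.pos
  have K0 : 0 < K := by omega
  have K1 : (1 : ℝ) ≤ K := by exact_mod_cast K0
  have hb := H.big
  have N0 : 0 < N := Nat.pos_of_ne_zero fun h => by have := H.hK; rw [h] at this; omega
  push_cast at x1
  rcases le_total x.1 K with hl | hl
  · left
    rintro _ ⟨a, b, ha, hb', hab, rfl⟩
    obtain rfl : a = 1 - b := by linarith
    have e1 : ((1 - b) • ch B K + b • x).1 = (1 - b) * K + b * x.1 := by simp [ch]
    have e2 : ((1 - b) • ch B K + b • x).2 = (1 - b) * B K + b * x.2 := by simp [ch]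
    have t1 : x.1 ≤ (1 - b) * K + b * x.1 := by nlinarith
    have t2 : (1 - b) * K + b * x.1 ≤ K := by nlinarith
    refine ⟨by rw [e1]; linarith, by rw [e1]; push_cast; linarith, ?_, ?_⟩ <;> rw [e1, e2]
    · obtain ⟨c, hc, c1, c2⟩ := exists_col K0 (x := (1 - b) * K + b * x.1) (by linarith) t2
      obtain ⟨d, hd, d1, d2⟩ := exists_col K0 x0 hl
      rw [interp_eq B (k := c) (by omega) c1 c2, H.fB c hc.le, H.fB (c + 1) hc, H.fB K le_rfl]
      rw [interp_eq B (k := d) (by omega) d1 d2, H.fB d hd.le, H.fB (d + 1) hd] at x2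
      push_cast at x2 ⊢
      have i1 := int_mul K c
      have i2 : (c : ℝ) ^ 2 + (x.1 - c) * ((c + 1) ^ 2 - c ^ 2) ≤ x.2 := by
        have j1 := mul_nonneg (sub_nonneg.2 d2) (int_mul d c)
        have j2 := int_mul (d + 1) c
        push_cast at j2
        have j3 := mul_nonneg (sub_nonneg.2 d1) j2
        nlinarith
      nlinarith [mul_nonneg ha i1, mul_nonneg hb' (sub_nonneg.2 i2)]
    · have a1 := interp_mono hn H.mA x0 t1 (by push_cast; linarith)
      have a2 := interp_ge_of hn H.mA (k := 0) (x := (1 - b) * K + b * x.1)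
        (by push_cast; linarith) (by push_cast; linarith)
      have a3 := H.up 0 N0 0 (by omega)
      simp only [zero_mul, add_zero, Nat.cast_zero, zero_add, mul_one] at a3
      have a4 : B K ≤ A 0 := by rw [H.fB K le_rfl, a3]; nlinarith
      nlinarith [mul_nonneg ha (sub_nonneg.2 (a4.trans a2)),
        mul_nonneg hb' (sub_nonneg.2 (x3.trans a1))]
  · right
    rintro _ ⟨a, b, ha, hb', hab, rfl⟩
    obtain rfl : a = 1 - b := by linarith
    have e1 : ((1 - b) • ch A K + b • x).1 = (1 - b) * K + b * x.1 := by simp [ch]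
    have e2 : ((1 - b) • ch A K + b • x).2 = (1 - b) * A K + b * x.2 := by simp [ch]
    have t1 : (1 - b) * K + b * x.1 ≤ x.1 := by nlinarith
    have t2 : (K : ℝ) ≤ (1 - b) * K + b * x.1 := by nlinarith
    refine ⟨by rw [e1]; linarith, by rw [e1]; push_cast; linarith, ?_, ?_⟩ <;> rw [e1, e2]
    · have a1 := interp_mono hn H.mB (x := (1 - b) * K + b * x.1) (by linarith) t1
        (by push_cast; linarith)
      have a2 := interp_le_of hn H.mB (k := 2 * K) le_rfl (x := (1 - b) * K + b * x.1)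
        (by linarith) (by push_cast; linarith)
      obtain ⟨g, rfl⟩ : ∃ g, N = g + 1 := ⟨N - 1, by omega⟩
      have a3 := H.lo g (by omega) M le_rfl
      have e : K + 1 + g * (M + 1) + M = 2 * K := by
        have := H.hK
        rw [add_mul] at this
        omega
      rw [e] at a3
      have a4 : B (2 * K) ≤ A K := by
        rw [H.fA K le_rfl (by omega), a3]
        push_cast
        nlinarith
      nlinarith [mul_nonneg ha (sub_nonneg.2 (a2.trans a4)),
        mul_nonneg hb' (sub_nonneg.2 (a1.trans x2))]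
    · obtain ⟨c, hc, c1, c2⟩ := exists_col K0 (x := (1 - b) * K + b * x.1 - K) (by linarith)
        (by linarith)
      obtain ⟨d, hd, d1, d2⟩ := exists_col K0 (x := x.1 - K) (by linarith) (by linarith)
      rw [interp_eq A (k := K + c) (by omega) (by push_cast; linarith) (by push_cast; linarith),
        H.fA (K + c) (by omega) (by omega), H.fA (K + c + 1) (by omega) (by omega),
        H.fA K le_rfl (by omega)]
      rw [interp_eq A (k := K + d) (by omega) (by push_cast; linarith) (by push_cast; linarith),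
        H.fA (K + d) (by omega) (by omega), H.fA (K + d + 1) (by omega) (by omega)] at x3
      push_cast at x3 ⊢
      have i1 := int_mul 0 c
      push_cast at i1
      have i2 : x.2 ≤ S * (N + 1) - (K - (c : ℝ)) ^ 2 + (x.1 - (K + c)) * (2 * (K - c) - 1) := by
        have j1 := mul_nonneg (sub_nonneg.2 d2) (int_mul d c)
        have j2 := int_mul (d + 1) c
        push_cast at j2
        have j3 := mul_nonneg (sub_nonneg.2 d1) j2
        nlinarith
      nlinarith [mul_nonneg ha i1, mul_nonneg hb' (sub_nonneg.2 i2)]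

end Pool.Agent.P.MP_fe41f2_co.G2
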