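import Mathlib
import Pool.Agent.P.MP_fe41f2_co.G2Geo

set_option autoImplicit false

namespace Pool.Agent.P.MP_fe41f2_co.G2

open Set

/-- all triangles lie in `P` and have their vertices in `V` -/
def Inv2 (P V : Set (ℝ × ℝ)) (T : Set (Set (ℝ × ℝ))) : Prop :=
  ∀ t ∈ T, t ⊆ V ∧ convexHull ℝ t ⊆ P

lemma Inv2.flip {P V : Set (ℝ × ℝ)} {T T' : Set (Set (ℝ × ℝ))} (h : Inv2 P V T)
    (hf : Flip T T') : Inv2 P V T' := by
  obtain ⟨a, b, c, d, -, -, -, -, -, -, t1, t2, hc, rfl⟩ := hf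
  have s1 := subset_convexHull ℝ ({a, b, c} : Set (ℝ × ℝ))
  have s2 := subset_convexHull ℝ ({a, b, d} : Set (ℝ × ℝ))
  have u := union_subset (h _ t1).2 (h _ t2).2
  rintro t (⟨ht, -⟩ | rfl | rfl)
  · exact h t ht
  · refine ⟨?_, (convexHull_min ?_ hc).trans u⟩
    · rintro x (rfl | rfl | rfl)
      exacts [(h _ t1).1 (by simp), (h _ t1).1 (by simp), (h _ t2).1 (by simp)]
    · rintro x (rfl | rfl | rfl)
      exacts [Or.inl (s1 (by simp)), Or.inl (s1 (by simp)), Or.inr (s2 (by simp))]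
  · refine ⟨?_, (convexHull_min ?_ hc).trans u⟩
    · rintro x (rfl | rfl | rfl)
      exacts [(h _ t1).1 (by simp), (h _ t1).1 (by simp), (h _ t2).1 (by simp)]
    · rintro x (rfl | rfl | rfl)
      exacts [Or.inl (s1 (by simp)), Or.inl (s1 (by simp)), Or.inr (s2 (by simp))]

lemma Inv2.insertPoint {P V : Set (ℝ × ℝ)} {T T' : Set (Set (ℝ × ℝ))} (h : Inv2 P V T)
    {p : ℝ × ℝ} (hp : p ∈ V) (hf : InsertPoint p T T') : Inv2 P V T' := by
  obtain ⟨a, b, c, t1, hi, rfl⟩ := hf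
  have s1 := subset_convexHull ℝ ({a, b, c} : Set (ℝ × ℝ))
  have hc := convex_convexHull ℝ ({a, b, c} : Set (ℝ × ℝ))
  have hp' := interior_subset hi
  have key : ∀ x y, x ∈ ({a, b, c} : Set (ℝ × ℝ)) → y ∈ ({a, b, c} : Set (ℝ × ℝ)) →
      ({p, x, y} : Set (ℝ × ℝ)) ⊆ V ∧ convexHull ℝ ({p, x, y} : Set (ℝ × ℝ)) ⊆ P := by
    intro x y hx hy
    refine ⟨?_, (convexHull_min ?_ hc).trans (h _ t1).2⟩
    · rintro z (rfl | rfl | rfl)
      exacts [hp, (h _ t1).1 hx, (h _ t1).1 hy]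
    · rintro z (rfl | rfl | rfl)
      exacts [hp', s1 hx, s1 hy]
  rintro t (⟨ht, -⟩ | rfl | rfl | rfl)
  · exact h t ht
  all_goals exact key _ _ (by simp) (by simp)

open Classical in
/-- sum of the indices `j ≤ M` with `τ j` present -/
noncomputable def ps (τ : ℕ → Set (ℝ × ℝ)) (M : ℕ) (T : Set (Set (ℝ × ℝ))) : ℕ :=
  ∑ j ∈ (Finset.range (M + 1)).filter (fun j => τ j ∈ T), j

lemma ps_mono {τ : ℕ → Set (ℝ × ℝ)} {M : ℕ} {T T' : Set (Set (ℝ × ℝ))}
    (h : ∀ j ≤ M, τ j ∈ T' → j = 0 ∨ τ j ∈ T) : ps τ M T' ≤ ps τ M T := by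
  classical
  unfold ps
  rw [Finset.sum_filter, Finset.sum_filter]
  refine Finset.sum_le_sum fun j hj => ?_
  by_cases h1 : τ j ∈ T'
  · rcases h j (Nat.le_of_lt_succ (Finset.mem_range.1 hj)) h1 with rfl | h2
    · simp
    · simp [h1, h2]
  · simp [h1]

lemma ps_swap {τ : ℕ → Set (ℝ × ℝ)} {M j₀ j₁ : ℕ} {T T' : Set (Set (ℝ × ℝ))} (h1 : j₁ ≤ M)
    (h2 : τ j₁ ∈ T) (h3 : j₀ ≤ j₁ + 1)
    (h : ∀ j ≤ M, τ j ∈ T' → j = j₀ ∨ (τ j ∈ T ∧ j ≠ j₁)) : ps τ M T' ≤ ps τ M T + 1 := by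
  classical
  unfold ps
  set E := (Finset.range (M + 1)).filter (fun j => τ j ∈ T) with hA
  have a1 : j₁ ∈ E := by simp only [hA, Finset.mem_filter, Finset.mem_range]; exact ⟨by omega, h2⟩
  have a2 := Finset.add_sum_erase E (fun j => j) a1
  have a3 : (Finset.range (M + 1)).filter (fun j => τ j ∈ T') ⊆ {j₀} ∪ E.erase j₁ := by
    intro j hj
    simp only [hA, Finset.mem_filter, Finset.mem_range, Finset.mem_union, Finset.mem_singleton,
      Finset.mem_erase] at hj ⊢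
    rcases h j (by omega) hj.2 with e | e
    · exact Or.inl e
    · exact Or.inr ⟨e.2, hj.1, e.1⟩
  have a4 := Finset.sum_le_sum_of_subset (f := fun j => j) a3
  have a5 := Finset.sum_union_inter (s₁ := {j₀}) (s₂ := E.erase j₁) (f := fun j : ℕ => j)
  simp only [Finset.sum_singleton] at a5
  have e1 : (∑ j ∈ (Finset.range (M + 1)).filter (fun j => τ j ∈ T'), j) ≤
      ∑ j ∈ {j₀} ∪ E.erase j₁, j := by convert a4
  omega

variable {A B : ℕ → ℝ} {M N K : ℕ} {S : ℝ}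

def uu (A : ℕ → ℝ) (M g i : ℕ) : ℝ × ℝ := ch A (g * (M + 1) + i)

def ll (B : ℕ → ℝ) (M K g j : ℕ) : ℝ × ℝ := ch B (K + 1 + g * (M + 1) + j)

/-- the point is below or above the slab of step `g` -/
def Off (S : ℝ) (g : ℕ) (x : ℝ × ℝ) : Prop := x.2 ≤ S * (g + 1) - S / 2 ∨ S * (g + 1) + S / 2 ≤ x.2

lemma Stair.nums (H : Stair B A M N K S) {g : ℕ} (hg : g < N) :
    g * (M + 1) + M < K ∧ (M : ℝ) + 1 ≤ K ∧ (0 : ℝ) ≤ M ∧ 16 * (K : ℝ) ^ 2 ≤ S := by
  have h1 : g * (M + 1) + M < K := H.hK ▸ blk_lt hg le_rfl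
  refine ⟨h1, ?_, Nat.cast_nonneg _, H.big⟩
  exact_mod_cast (by omega : M + 1 ≤ K)

lemma vtx_zone (H : Stair B A M N K S) {g : ℕ} (hg : g < N) {x : ℝ × ℝ}
    (hx : x ∈ range (vtx B A (2 * K))) :
    Off S g x ∨ (∃ i ≤ M, x = uu A M g i) ∨ ∃ j ≤ M, x = ll B M K g j := by
  obtain ⟨n1, n2, n3, n4⟩ := H.nums hg
  have e1 : (g + 1) * (M + 1) = g * (M + 1) + M + 1 := by ring
  obtain ⟨k, hk, rfl | rfl⟩ := (range_vtx B A _ x).1 hx
  · by_cases h1 : k < g * (M + 1)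
    · obtain ⟨g, rfl⟩ : ∃ g', g = g' + 1 := ⟨g - 1, by
        rcases g with _ | g
        · omega
        · rfl⟩
      have e2 : (g + 1) * (M + 1) = g * (M + 1) + M + 1 := by ring
      have a1 := H.mA k (g * (M + 1) + M) (by omega) (by omega)
      rw [H.up g (by omega) M le_rfl] at a1
      refine Or.inl (Or.inl ?_)
      simp only [ch]
      push_cast
      nlinarith
    by_cases h2 : k ≤ g * (M + 1) + M
    · exact Or.inr (Or.inl ⟨k - g * (M + 1), by omega, by unfold uu; congr 1; omega⟩)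
    refine Or.inl (Or.inr ?_)
    simp only [ch]
    by_cases h3 : g + 1 < N
    · have a1 := H.mA ((g + 1) * (M + 1) + 0) k (by omega) hk
      rw [H.up (g + 1) h3 0 (by omega)] at a1
      push_cast at a1
      nlinarith
    · obtain rfl : N = g + 1 := by omega
      have a1 := H.mA K k (by have := H.hK; omega) hk
      rw [H.fA K le_rfl (by omega)] at a1
      push_cast at a1
      nlinarith
  · by_cases h1 : k < K + 1 + g * (M + 1)
    · refine Or.inl (Or.inl ?_)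
      simp only [ch]
      rcases g with _ | g
      · have a1 := H.mB k K (by omega) (by omega)
        rw [H.fB K le_rfl] at a1
        push_cast
        nlinarith
      · have e2 : (g + 1) * (M + 1) = g * (M + 1) + M + 1 := by ring
        have a1 := H.mB k (K + 1 + g * (M + 1) + M) (by omega) (by omega)
        rw [H.lo g (by omega) M le_rfl] at a1
        push_cast
        nlinarith
    by_cases h2 : k ≤ K + 1 + g * (M + 1) + M
    · exact Or.inr (Or.inr ⟨k - (K + 1 + g * (M + 1)), by omega, by unfold ll; congr 1; omega⟩)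
    refine Or.inl (Or.inr ?_)
    simp only [ch]
    have h3 : g + 1 < N := by
      by_contra hc
      obtain rfl : N = g + 1 := by omega
      have := H.hK
      omega
    have a1 := H.mB (K + 1 + (g + 1) * (M + 1) + 0) k (by omega) hk
    rw [H.lo (g + 1) h3 0 (by omega)] at a1
    push_cast at a1
    nlinarith

lemma at_col {n k : ℕ} (hk : k ≤ n) {x y : ℝ} (hx : x = k) (h : (x, y) ∈ strip B A n) :
    B k ≤ y ∧ y ≤ A k := by
  obtain ⟨-, -, h1, h2⟩ := h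
  simp only [hx] at h1 h2
  rw [interp_nat _ hk] at h1 h2
  exact ⟨h1, h2⟩

lemma nosee_up (H : Stair B A M N K S) {g : ℕ} (hg : g < N) {k k' : ℕ} (h1 : k + 2 ≤ k')
    (h2 : k' ≤ M) (h : segment ℝ (uu A M g k) (uu A M g k') ⊆ strip B A (2 * K)) : False := by
  obtain ⟨n1, -⟩ := H.nums hg
  have a1 : ((k + 2 : ℕ) : ℝ) ≤ k' := by exact_mod_cast h1
  push_cast at a1
  obtain ⟨σ, hσ1, hσ⟩ := seg_graph h (by simp only [uu, ch]; push_cast; linarith)
  have b := (at_col (k := g * (M + 1) + (k + 1)) (by omega) rfl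
    (hσ _ (by simp only [uu, ch]; push_cast; linarith)
      (by simp only [uu, ch]; push_cast; linarith))).2
  simp only [uu, ch] at hσ1 b
  rw [H.up g hg k (by omega), H.up g hg k' h2] at hσ1
  rw [H.up g hg k (by omega), H.up g hg (k + 1) (by omega)] at b
  push_cast at hσ1 b
  have e1 : σ = k' + k := by
    have hne : (k' : ℝ) - k ≠ 0 := by linarith
    apply mul_right_cancel₀ hne
    linear_combination hσ1
  rw [e1] at b
  nlinarith

lemma nosee_lo (H : Stair B A M N K S) {g : ℕ} (hg : g < N) {k k' : ℕ} (h1 : k + 2 ≤ k')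
    (h2 : k' ≤ M) (h : segment ℝ (ll B M K g k) (ll B M K g k') ⊆ strip B A (2 * K)) : False := by
  obtain ⟨n1, -⟩ := H.nums hg
  have a1 : ((k + 2 : ℕ) : ℝ) ≤ k' := by exact_mod_cast h1
  push_cast at a1
  obtain ⟨σ, hσ1, hσ⟩ := seg_graph h (by simp only [ll, ch]; push_cast; linarith)
  have b := (at_col (k := K + 1 + g * (M + 1) + (k + 1)) (by omega) rfl
    (hσ _ (by simp only [ll, ch]; push_cast; linarith)
      (by simp only [ll, ch]; push_cast; linarith))).1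
  simp only [ll, ch] at hσ1 b
  rw [H.lo g hg k (by omega), H.lo g hg k' h2] at hσ1
  rw [H.lo g hg k (by omega), H.lo g hg (k + 1) (by omega)] at b
  push_cast at hσ1 b
  have e1 : σ = 2 * M - k' - k := by
    have hne : (k' : ℝ) - k ≠ 0 := by linarith
    apply mul_right_cancel₀ hne
    linear_combination hσ1
  rw [e1] at b
  nlinarith

lemma nosee_high (H : Stair B A M N K S) {g i : ℕ} (hg : g < N) (hi : i < M) {x : ℝ × ℝ}
    (hx : S * (g + 1) + S / 2 ≤ x.2) (h : segment ℝ (uu A M g i) x ⊆ strip B A (2 * K)) :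
    False := by
  obtain ⟨n1, n2, n3, n4⟩ := H.nums hg
  obtain ⟨x0, x1, -, x3⟩ := h (right_mem_segment ℝ _ _)
  have i1 : ((i + 1 : ℕ) : ℝ) ≤ M := by exact_mod_cast hi
  have i0 : (0 : ℝ) ≤ i := Nat.cast_nonneg i
  have g0 : (0 : ℝ) ≤ g := Nat.cast_nonneg g
  push_cast at i1 x1
  have x4 : (g : ℝ) * (M + 1) + M < x.1 := by
    by_contra hc
    have := interp_le_of H.pos H.mA (k := g * (M + 1) + M) (by omega) x0 (by push_cast; linarith)
    rw [H.up g hg M le_rfl] at this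
    nlinarith
  obtain ⟨σ, hσ1, hσ⟩ := seg_graph h (by simp only [uu, ch]; push_cast; linarith)
  have b := (at_col (k := g * (M + 1) + (i + 1)) (by omega) rfl
    (hσ _ (by simp only [uu, ch]; push_cast; linarith) (by push_cast; linarith))).2
  simp only [uu, ch] at hσ1 b
  rw [H.up g hg i hi.le] at hσ1
  rw [H.up g hg i hi.le, H.up g hg (i + 1) hi] at b
  push_cast at hσ1 b
  have s1 : σ ≤ 2 * K := by nlinarith
  have s2 : σ * (x.1 - (g * (M + 1) + i)) ≤ 2 * K * (x.1 - (g * (M + 1) + i)) :=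
    mul_le_mul_of_nonneg_right s1 (by linarith)
  have s3 : 0 ≤ (g : ℝ) * (M + 1) := by positivity
  have s4 : 2 * (K : ℝ) * (x.1 - (g * (M + 1) + i)) ≤ 2 * K * (2 * K) :=
    mul_le_mul_of_nonneg_left (by linarith) (by linarith)
  nlinarith

lemma nosee_low (H : Stair B A M N K S) {g j : ℕ} (hg : g < N) (hj : j + 1 ≤ M) {x : ℝ × ℝ}
    (hx : x.2 ≤ S * (g + 1) - S / 2) (h : segment ℝ x (ll B M K g (j + 1)) ⊆ strip B A (2 * K)) :
    False := by
  obtain ⟨n1, n2, n3, n4⟩ := H.nums hg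
  obtain ⟨x0, x1, x2, -⟩ := h (left_mem_segment ℝ _ _)
  have i1 : ((j + 1 : ℕ) : ℝ) ≤ M := by exact_mod_cast hj
  have i0 : (0 : ℝ) ≤ j := Nat.cast_nonneg j
  have n5 : ((g * (M + 1) + M + 1 : ℕ) : ℝ) ≤ K := by exact_mod_cast n1
  push_cast at i1 n5
  have x4 : x.1 < K + 1 + (g : ℝ) * (M + 1) := by
    by_contra hc
    have := interp_ge_of H.pos H.mB (k := K + 1 + g * (M + 1) + 0) (x := x.1)
      (by push_cast; linarith) x1
    rw [H.lo g hg 0 (by omega)] at this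
    push_cast at this
    nlinarith
  obtain ⟨σ, hσ1, hσ⟩ := seg_graph h (by simp only [ll, ch]; push_cast; linarith)
  have b := (at_col (k := K + 1 + g * (M + 1) + j) (by omega) rfl
    (hσ _ (by push_cast; linarith) (by simp only [ll, ch]; push_cast; linarith))).1
  simp only [ll, ch] at hσ1 b
  rw [H.lo g hg (j + 1) hj] at hσ1
  rw [H.lo g hg j (by omega)] at b
  push_cast at hσ1 b
  have s1 : σ ≤ 2 * K := by nlinarith
  have s2 : σ * (K + 1 + g * (M + 1) + (j + 1) - x.1) ≤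
      2 * K * (K + 1 + g * (M + 1) + (j + 1) - x.1) := mul_le_mul_of_nonneg_right s1 (by linarith)
  have s4 : 2 * (K : ℝ) * (K + 1 + g * (M + 1) + (j + 1) - x.1) ≤ 2 * K * (2 * K) :=
    mul_le_mul_of_nonneg_left (by linarith) (by linarith)
  have s5 : ((M : ℝ) - (j + 1)) ^ 2 ≤ K ^ 2 := by nlinarith
  nlinarith

lemma uu_inj {g i g' j : ℕ} (h : uu A M g i = uu A M g' j) : g * (M + 1) + i = g' * (M + 1) + j :=
  ch_inj h

lemma uu_ne (H : Stair B A M N K S) (g i g' j : ℕ) : uu A M g i ≠ ll B M K g' j := ch_ne H.lt _ _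

lemma apex2 (H : Stair B A M N K S) {g i : ℕ} (hg : g < N) (hi : i < M) {W : Set (ℝ × ℝ)}
    (hW : ∀ w ∈ W, Off S g w) {x : ℝ × ℝ} (hx : x ∈ range (vtx B A (2 * K)) ∪ W)
    (h1 : segment ℝ x (uu A M g (i + 1)) ⊆ strip B A (2 * K))
    (h2 : segment ℝ (uu A M g i) x ⊆ strip B A (2 * K))
    (n1 : x ≠ uu A M g (i + 1)) (n2 : x ≠ uu A M g i) :
    (∃ j ≤ M, x = ll B M K g j) ∨ x.2 ≤ S * (g + 1) - S / 2 := by
  have off : Off S g x → x.2 ≤ S * (g + 1) - S / 2 := fun h =>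
    h.resolve_right fun h' => nosee_high H hg hi h' h2
  rcases hx with hx | hx
  · rcases vtx_zone H hg hx with h | ⟨k, hk, rfl⟩ | h
    · exact Or.inr (off h)
    · exfalso
      have b1 : k ≠ i + 1 := fun e => n1 (by rw [e])
      have b2 : k ≠ i := fun e => n2 (by rw [e])
      rcases lt_or_gt_of_ne b2 with h | h
      · exact nosee_up H hg (by omega) hi h1
      · exact nosee_up H hg (by omega) hk h2
    · exact Or.inl h
  · exact Or.inr (off (hW x hx))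

lemma under (H : Stair B A M N K S) {g i : ℕ} (hg : g < N) (hi : i < M) {x : ℝ × ℝ}
    (hP : x ∈ strip B A (2 * K))
    (hx : (∃ j ≤ M, x = ll B M K g j) ∨ x.2 ≤ S * (g + 1) - S / 2) :
    x.2 + 1 ≤ S * (g + 1) + 1 + (i : ℝ) ^ 2 + (x.1 - (g * (M + 1) + i)) * (2 * i + 1) := by
  obtain ⟨n1, n2, n3, n4⟩ := H.nums hg
  have i1 : ((i + 1 : ℕ) : ℝ) ≤ M := by exact_mod_cast hi
  have i0 : (0 : ℝ) ≤ i := Nat.cast_nonneg i
  have n5 : ((g * (M + 1) + M + 1 : ℕ) : ℝ) ≤ K := by exact_mod_cast n1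
  push_cast at i1 n5
  rcases hx with ⟨j, hj, rfl⟩ | hx
  · simp only [ll, ch]
    rw [H.lo g hg j hj]
    push_cast
    have j0 : (0 : ℝ) ≤ j := Nat.cast_nonneg j
    have : 0 ≤ ((K : ℝ) + 1 + g * (M + 1) + j - (g * (M + 1) + i)) * (2 * i + 1) :=
      mul_nonneg (by linarith) (by linarith)
    nlinarith [sq_nonneg ((M : ℝ) - j)]
  · have x0 := hP.1
    have a1 : 0 ≤ (x.1 - (g * (M + 1) + i) + K) * (2 * i + 1) := mul_nonneg (by linarith) (by linarith)
    have a2 : (K : ℝ) * (2 * i + 1) ≤ K * (2 * K) :=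
      mul_le_mul_of_nonneg_left (by linarith) (by linarith)
    nlinarith

lemma no_diag2 (H : Stair B A M N K S) {g i : ℕ} (hg : g < N) (hi : i < M) {x y : ℝ × ℝ}
    (hx : x ∈ strip B A (2 * K)) (hy : y ∈ strip B A (2 * K))
    (hx' : (∃ j ≤ M, x = ll B M K g j) ∨ x.2 ≤ S * (g + 1) - S / 2)
    (hy' : (∃ j ≤ M, y = ll B M K g j) ∨ y.2 ≤ S * (g + 1) - S / 2)
    (hc : Convex ℝ (convexHull ℝ ({x, y, uu A M g i} : Set (ℝ × ℝ)) ∪
      convexHull ℝ ({x, y, uu A M g (i + 1)} : Set (ℝ × ℝ)))) : False := by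
  obtain ⟨n1, n2, n3, n4⟩ := H.nums hg
  have u1 := under H hg hi hx hx'
  have u2 := under H hg hi hy hy'
  obtain ⟨x0, x1, -⟩ := hx
  obtain ⟨y0, y1, -⟩ := hy
  have i1 : ((i + 1 : ℕ) : ℝ) ≤ M := by exact_mod_cast hi
  have i0 : (0 : ℝ) ≤ i := Nat.cast_nonneg i
  have n5 : ((g * (M + 1) + M + 1 : ℕ) : ℝ) ≤ K := by exact_mod_cast n1
  have n6 : 0 ≤ (g : ℝ) * (M + 1) := by positivity
  push_cast at i1 n5 x1 y1
  have hmid := hc (Or.inl (subset_convexHull ℝ _ (show uu A M g i ∈ _ by simp)))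
    (Or.inr (subset_convexHull ℝ _ (show uu A M g (i + 1) ∈ _ by simp)))
    (a := 1 - 1 / 2) (b := 1 / 2) (by norm_num) (by norm_num) (by norm_num)
  have e1 : uu A M g i = ((g : ℝ) * (M + 1) + i, S * (g + 1) + 1 + (i : ℝ) ^ 2) := by
    simp only [uu, ch, H.up g hg i hi.le]; push_cast; rfl
  have e2 : uu A M g (i + 1) =
      ((g : ℝ) * (M + 1) + i + 1, S * (g + 1) + 1 + ((i : ℝ) + 1) ^ 2) := by
    simp only [uu, ch, H.up g hg (i + 1) hi]; push_cast; rw [add_assoc ((g : ℝ) * (M + 1))]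
  set c : ℝ := g * (M + 1) + i with hcdef
  have k1 := mul_nonneg (show (0 : ℝ) ≤ 2 * K by linarith) (sub_nonneg.2 u1)
  have k2 := mul_nonneg (show (0 : ℝ) ≤ 2 * K by linarith) (sub_nonneg.2 u2)
  rcases hmid with h | h
  · have := hull_nonneg (aff_gen (2 * K * (2 * i + 1) - 1) (-(2 * K))
      (2 * K * (S * (g + 1) + 1 + (i : ℝ) ^ 2 - c * (2 * i + 1)) + c)) ?_ h
    · rw [e1, e2] at this
      simp only [Prod.fst_add, Prod.snd_add, Prod.smul_mk, smul_eq_mul] at this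
      nlinarith
    · rintro z (rfl | rfl | rfl)
      · nlinarith
      · nlinarith
      · rw [e1]; simp only; nlinarith
  · have := hull_nonneg (aff_gen (2 * K * (2 * i + 1) + 1) (-(2 * K))
      (2 * K * (S * (g + 1) + 1 + (i : ℝ) ^ 2 - c * (2 * i + 1)) - c - 1)) ?_ h
    · rw [e1, e2] at this
      simp only [Prod.fst_add, Prod.snd_add, Prod.smul_mk, smul_eq_mul] at this
      nlinarith
    · rintro z (rfl | rfl | rfl)
      · nlinarith
      · nlinarith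
      · rw [e2]; simp only; nlinarith

/-- the triangle on upper edge `i` of step `g` with apex `j` on the lower step `g` -/
def TG (B A : ℕ → ℝ) (M K g i j : ℕ) : Set (ℝ × ℝ) := {ll B M K g j, uu A M g (i + 1), uu A M g i}

lemma TG_inj (H : Stair B A M N K S) {g i j j' : ℕ} (h : TG B A M K g i j = TG B A M K g i j') :
    j = j' := by
  have : ll B M K g j ∈ TG B A M K g i j' := by rw [← h]; simp [TG]
  rcases this with e | e | e
  · have := ch_inj e; omega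
  · exact absurd e.symm (uu_ne H _ _ _ _)
  · exact absurd e.symm (uu_ne H _ _ _ _)

lemma core3 (H : Stair B A M N K S) {g i : ℕ} (hg : g < N) (hi : i < M) {W : Set (ℝ × ℝ)}
    (hW : ∀ w ∈ W, Off S g w) {T : Set (Set (ℝ × ℝ))}
    (h : Inv2 (strip B A (2 * K)) (range (vtx B A (2 * K)) ∪ W) T) {a b c : ℝ × ℝ} {j : ℕ}
    (hj : j ≤ M) (ab : a ≠ b) (bc : b ≠ c) (t1 : ({a, b, c} : Set (ℝ × ℝ)) ∈ T)
    (t2 : ({a, b, ll B M K g j} : Set (ℝ × ℝ)) ∈ T)
    (hac : (a = uu A M g i ∧ c = uu A M g (i + 1)) ∨ (a = uu A M g (i + 1) ∧ c = uu A M g i)) :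
    ps (TG B A M K g i) M ((T \ {{a, b, c}, {a, b, ll B M K g j}}) ∪
      {{a, c, ll B M K g j}, {b, c, ll B M K g j}}) ≤ ps (TG B A M K g i) M T + 1 := by
  have v1 : uu A M g i ∈ ({a, b, c} : Set (ℝ × ℝ)) := by
    rcases hac with ⟨rfl, rfl⟩ | ⟨rfl, rfl⟩ <;> simp
  have v2 : uu A M g (i + 1) ∈ ({a, b, c} : Set (ℝ × ℝ)) := by
    rcases hac with ⟨rfl, rfl⟩ | ⟨rfl, rfl⟩ <;> simp
  have e1 : ∀ k, ({a, ll B M K g k, c} : Set (ℝ × ℝ)) = TG B A M K g i k := by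
    intro k
    unfold TG
    ext x
    simp only [mem_insert_iff, mem_singleton_iff]
    rcases hac with ⟨rfl, rfl⟩ | ⟨rfl, rfl⟩ <;> tauto
  have e2 : ({a, c, ll B M K g j} : Set (ℝ × ℝ)) = TG B A M K g i j := by
    rw [← e1]; ext x; simp only [mem_insert_iff, mem_singleton_iff]; tauto
  have ne3 : ∀ k, TG B A M K g i k ≠ {b, c, ll B M K g j} := by
    intro k h1
    have ha : a ∈ TG B A M K g i k := by rw [← e1]; simp
    rw [h1] at ha
    have hne : uu A M g i ≠ uu A M g (i + 1) := fun e => by have := uu_inj e; omega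
    rcases ha with e | e | e
    · exact ab e
    · rcases hac with ⟨rfl, rfl⟩ | ⟨rfl, rfl⟩
      exacts [hne e, hne e.symm]
    · rcases hac with ⟨rfl, rfl⟩ | ⟨rfl, rfl⟩ <;> exact uu_ne H _ _ _ _ e
  have sb : segment ℝ b (ll B M K g j) ⊆ strip B A (2 * K) :=
    seg_sub (h _ t2).2 (by simp) (by simp)
  rcases apex2 H hg hi hW (x := b) ((h _ t1).1 (by simp))
    (seg_sub (h _ t1).2 (by simp) v2) (seg_sub (h _ t1).2 v1 (by simp))
    (by rcases hac with ⟨rfl, rfl⟩ | ⟨rfl, rfl⟩; exacts [bc, ab.symm])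
    (by rcases hac with ⟨rfl, rfl⟩ | ⟨rfl, rfl⟩; exacts [ab.symm, bc]) with ⟨j', hj', rfl⟩ | hb
  · refine ps_swap (j₀ := j) hj' (by rw [← e1]; exact t1) ?_ ?_
    · by_contra hc
      exact nosee_lo H hg (k := j') (k' := j) (by omega) hj sb
    · rintro k hk (⟨h1, h2⟩ | h1 | h1)
      · refine Or.inr ⟨h1, ?_⟩
        rintro rfl
        exact h2 (Or.inl (e1 _).symm)
      · rw [e2] at h1
        exact Or.inl (TG_inj H h1)
      · exact absurd h1 (ne3 k)
  · obtain rfl : j = 0 := by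
      rcases j with _ | j
      · rfl
      · exact (nosee_low H hg hj hb sb).elim
    refine le_trans (ps_mono ?_) (Nat.le_succ _)
    rintro k hk (⟨h1, -⟩ | h1 | h1)
    · exact Or.inr h1
    · rw [e2] at h1
      exact Or.inl (TG_inj H h1)
    · exact absurd h1 (ne3 k)

lemma core4 (H : Stair B A M N K S) {g i : ℕ} (hg : g < N) (hi : i < M) {W : Set (ℝ × ℝ)}
    (hW : ∀ w ∈ W, Off S g w) {T : Set (Set (ℝ × ℝ))}
    (h : Inv2 (strip B A (2 * K)) (range (vtx B A (2 * K)) ∪ W) T) {a b c d : ℝ × ℝ} {j : ℕ}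
    (hj : j ≤ M) (ab : a ≠ b) (ac : a ≠ c) (ad : a ≠ d) (bc : b ≠ c) (bd : b ≠ d) (cd : c ≠ d)
    (t1 : ({a, b, c} : Set (ℝ × ℝ)) ∈ T) (t2 : ({a, b, d} : Set (ℝ × ℝ)) ∈ T)
    (hc : Convex ℝ (convexHull ℝ ({a, b, c} : Set (ℝ × ℝ)) ∪
      convexHull ℝ ({a, b, d} : Set (ℝ × ℝ))))
    (e : ({a, c, d} : Set (ℝ × ℝ)) = TG B A M K g i j) :
    ps (TG B A M K g i) M ((T \ {{a, b, c}, {a, b, d}}) ∪ {{a, c, d}, {b, c, d}}) ≤
      ps (TG B A M K g i) M T + 1 := by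
  have ha : a ∈ TG B A M K g i j := by rw [← e]; simp
  have hc' : c ∈ TG B A M K g i j := by rw [← e]; simp
  have hd : d ∈ TG B A M K g i j := by rw [← e]; simp
  have sw : (T \ {{a, b, c}, {a, b, d}}) ∪ {{a, c, d}, {b, c, d}} =
      (T \ {{a, b, d}, {a, b, c}}) ∪ {{a, d, c}, {b, d, c}} := by
    rw [Set.pair_comm ({a, b, c} : Set (ℝ × ℝ)), Set.pair_comm c d]
  have hI := h.flip ⟨a, b, c, d, ab, ac, ad, bc, bd, cd, t1, t2, hc, rfl⟩
  have hb := hI {b, c, d} (Or.inr (by simp))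
  have pa : a ∈ strip B A (2 * K) := (h _ t1).2 (subset_convexHull ℝ _ (by simp))
  have pb : b ∈ strip B A (2 * K) := (h _ t1).2 (subset_convexHull ℝ _ (by simp))
  simp only [TG, mem_insert_iff, mem_singleton_iff] at ha hc' hd
  rcases ha with rfl | rfl | rfl <;> rcases hc' with rfl | rfl | rfl <;>
    rcases hd with rfl | rfl | rfl <;>
    first
    | exact absurd rfl ac
    | exact absurd rfl ad
    | exact absurd rfl cd
    | skip
  · exfalso
    have := apex2 H hg hi hW (x := b) ((h _ t1).1 (by simp))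
      (seg_sub hb.2 (by simp) (by simp)) (seg_sub hb.2 (by simp) (by simp)) bc bd
    rw [union_comm] at hc
    exact no_diag2 H hg hi pa pb (Or.inl ⟨j, hj, rfl⟩) this hc
  · exfalso
    have := apex2 H hg hi hW (x := b) ((h _ t1).1 (by simp))
      (seg_sub hb.2 (by simp) (by simp)) (seg_sub hb.2 (by simp) (by simp)) bd bc
    exact no_diag2 H hg hi pa pb (Or.inl ⟨j, hj, rfl⟩) this hc
  · rw [sw]; exact core3 H hg hi hW h hj ab bd t2 t1 (Or.inr ⟨rfl, rfl⟩)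
  · exact core3 H hg hi hW h hj ab bc t1 t2 (Or.inr ⟨rfl, rfl⟩)
  · rw [sw]; exact core3 H hg hi hW h hj ab bd t2 t1 (Or.inl ⟨rfl, rfl⟩)
  · exact core3 H hg hi hW h hj ab bc t1 t2 (Or.inl ⟨rfl, rfl⟩)

lemma ps_flip (H : Stair B A M N K S) {W : Set (ℝ × ℝ)} {T T' : Set (Set (ℝ × ℝ))}
    (h : Inv2 (strip B A (2 * K)) (range (vtx B A (2 * K)) ∪ W) T) (hf : Flip T T') :
    ∃ F : Finset (ℝ × ℝ), F.card ≤ 4 ∧ ∀ g < N, ∀ i < M, (∀ w ∈ W, Off S g w) →
      ps (TG B A M K g i) M T' ≤ ps (TG B A M K g i) M T + 1 ∧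
        (uu A M g i ∉ F → ps (TG B A M K g i) M T' ≤ ps (TG B A M K g i) M T) := by
  classical
  obtain ⟨a, b, c, d, ab, ac, ad, bc, bd, cd, t1, t2, hc, rfl⟩ := hf
  refine ⟨{a, b, c, d}, Finset.card_le_four, fun g hg i hi hW => ?_⟩
  by_cases h1 : ∃ j ≤ M, ({a, c, d} : Set (ℝ × ℝ)) = TG B A M K g i j
  · obtain ⟨j, hj, e⟩ := h1
    refine ⟨core4 H hg hi hW h hj ab ac ad bc bd cd t1 t2 hc e, fun hn => absurd ?_ hn⟩
    have : uu A M g i ∈ ({a, c, d} : Set (ℝ × ℝ)) := by rw [e]; simp [TG]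
    simp only [mem_insert_iff, mem_singleton_iff, Finset.mem_insert, Finset.mem_singleton] at this ⊢
    tauto
  by_cases h2 : ∃ j ≤ M, ({b, c, d} : Set (ℝ × ℝ)) = TG B A M K g i j
  · obtain ⟨j, hj, e⟩ := h2
    have s1 : ({a, b, c} : Set (ℝ × ℝ)) = {b, a, c} := Set.insert_comm _ _ _
    have s2 : ({a, b, d} : Set (ℝ × ℝ)) = {b, a, d} := Set.insert_comm _ _ _
    rw [s1] at t1 hc
    rw [s2] at t2 hc
    refine ⟨?_, fun hn => absurd ?_ hn⟩
    · rw [s1, s2, Set.pair_comm ({a, c, d} : Set (ℝ × ℝ))]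
      exact core4 H hg hi hW h hj ab.symm bc bd ac ad cd t1 t2 hc e
    · have : uu A M g i ∈ ({b, c, d} : Set (ℝ × ℝ)) := by rw [e]; simp [TG]
      simp only [mem_insert_iff, mem_singleton_iff, Finset.mem_insert,
        Finset.mem_singleton] at this ⊢
      tauto
  have : ps (TG B A M K g i) M ((T \ {{a, b, c}, {a, b, d}}) ∪ {{a, c, d}, {b, c, d}}) ≤
      ps (TG B A M K g i) M T := by
    apply ps_mono
    rintro j hj (⟨h3, -⟩ | h3 | h3)
    · exact Or.inr h3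
    · exact absurd ⟨j, hj, h3.symm⟩ h1
    · exact absurd ⟨j, hj, h3.symm⟩ h2
  exact ⟨by omega, fun _ => this⟩

lemma ps_insert (H : Stair B A M N K S) {g i : ℕ} (hg : g < N) (hi : i < M)
    {T T' : Set (Set (ℝ × ℝ))} {p : ℝ × ℝ} (hp : Off S g p) (hf : InsertPoint p T T') :
    ps (TG B A M K g i) M T' = ps (TG B A M K g i) M T := by
  obtain ⟨a, b, c, t1, hin, rfl⟩ := hf
  obtain ⟨n1, n2, n3, n4⟩ := H.nums hg
  have i1 : ((i + 1 : ℕ) : ℝ) ≤ M := by exact_mod_cast hi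
  have i0 : (0 : ℝ) ≤ i := Nat.cast_nonneg i
  have hx : ∀ j ≤ M, p ∉ convexHull ℝ (TG B A M K g i j) := by
    intro j hj hc
    have j1 : (j : ℝ) ≤ M := by exact_mod_cast hj
    have j0 : (0 : ℝ) ≤ j := Nat.cast_nonneg j
    have key : ∀ x ∈ TG B A M K g i j,
        S * (g + 1) - S / 4 ≤ x.2 ∧ x.2 ≤ S * (g + 1) + S / 4 := by
      rintro x (rfl | rfl | rfl) <;> simp only [uu, ll, ch]
      · rw [H.lo g hg j hj]; constructor <;> nlinarith
      · rw [H.up g hg (i + 1) hi]; constructor <;> nlinarith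
      · rw [H.up g hg i hi.le]; push_cast at i1; constructor <;> nlinarith
    have y1 := hull_nonneg (aff_gen 0 1 (-(S * (g + 1) - S / 4))) (t := TG B A M K g i j)
      (fun x hx => by linarith [(key x hx).1]) hc
    have y2 := hull_nonneg (aff_gen 0 (-1) (S * (g + 1) + S / 4)) (t := TG B A M K g i j)
      (fun x hx => by linarith [(key x hx).2]) hc
    rcases hp with h | h <;> nlinarith
  apply le_antisymm <;> apply ps_mono
  · rintro j hj (⟨h3, -⟩ | h3 | h3 | h3)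
    · exact Or.inr h3
    all_goals exact absurd (subset_convexHull ℝ _ (by rw [h3]; simp)) (hx j hj)
  · intro j hj h3
    refine Or.inr (Or.inl ⟨h3, fun h4 => hx j hj ?_⟩)
    rw [mem_singleton_iff.1 h4]
    exact interior_subset hin

end Pool.Agent.P.MP_fe41f2_co.G2
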