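import Mathlib
import Pool.Agent.P.MP_fe41f2_co.G2Low

set_option autoImplicit false

namespace Pool.Agent.P.MP_fe41f2_co.G2

open Set

variable {A B : ℕ → ℝ} {M N K : ℕ} {S : ℝ}

open Classical in
noncomputable def cl (N : ℕ) (S : ℝ) (W : Set (ℝ × ℝ)) : Finset ℕ :=
  (Finset.range N).filter fun g => ∀ w ∈ W, Off S g w

lemma mem_cl {W : Set (ℝ × ℝ)} {g : ℕ} : g ∈ cl N S W ↔ g < N ∧ ∀ w ∈ W, Off S g w := by
  simp [cl]

noncomputable def ph (B A : ℕ → ℝ) (M N K : ℕ) (S : ℝ) (W : Set (ℝ × ℝ))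
    (T : Set (Set (ℝ × ℝ))) : ℕ :=
  ∑ x ∈ cl N S W ×ˢ Finset.range M, ps (TG B A M K x.1 x.2) M T

lemma ph_flip (H : Stair B A M N K S) {W : Set (ℝ × ℝ)} {T T' : Set (Set (ℝ × ℝ))}
    (h : Inv2 (strip B A (2 * K)) (range (vtx B A (2 * K)) ∪ W) T) (hf : Flip T T') :
    ph B A M N K S W T' ≤ ph B A M N K S W T + 4 := by
  classical
  obtain ⟨F, hF, H'⟩ := ps_flip H h hf
  have h1 : ph B A M N K S W T' ≤ ∑ x ∈ cl N S W ×ˢ Finset.range M,
      (ps (TG B A M K x.1 x.2) M T + if uu A M x.1 x.2 ∈ F then 1 else 0) := by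
    apply Finset.sum_le_sum
    intro x hx
    obtain ⟨a1, a2⟩ := Finset.mem_product.1 hx
    obtain ⟨b1, b2⟩ := H' _ (mem_cl.1 a1).1 _ (Finset.mem_range.1 a2) (mem_cl.1 a1).2
    split_ifs with hc
    · exact b1
    · exact b2 hc
  rw [Finset.sum_add_distrib, ← Finset.card_filter] at h1
  have h2 : ((cl N S W ×ˢ Finset.range M).filter (fun x => uu A M x.1 x.2 ∈ F)).card ≤ F.card := by
    apply Finset.card_le_card_of_injOn (fun x => uu A M x.1 x.2)
    · intro x hx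
      exact (Finset.mem_filter.1 hx).2
    · rintro ⟨g, i⟩ hx ⟨g', i'⟩ hx' e
      have e1 : g * (M + 1) + i = g' * (M + 1) + i' := uu_inj e
      have a1 : i < M := Finset.mem_range.1 (Finset.mem_product.1 (Finset.mem_filter.1 hx).1).2
      have a2 : i' < M := Finset.mem_range.1 (Finset.mem_product.1 (Finset.mem_filter.1 hx').1).2
      rcases lt_trichotomy g g' with h | rfl | h
      · have := blk_lt (M := M) h a1.le; omega
      · rw [show i = i' by omega]
      · have := blk_lt (M := M) h a2.le; omega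
  unfold ph at h1 ⊢
  omega

lemma ph_seq (H : Stair B A M N K S) {W : Set (ℝ × ℝ)} {T T' : Set (Set (ℝ × ℝ))} {F : ℕ}
    (h : Inv2 (strip B A (2 * K)) (range (vtx B A (2 * K)) ∪ W) T) (hf : FlipSeq F T T') :
    ph B A M N K S W T' ≤ ph B A M N K S W T + 4 * F := by
  obtain ⟨f, rfl, rfl, H'⟩ := hf
  have : ∀ i ≤ F, Inv2 (strip B A (2 * K)) (range (vtx B A (2 * K)) ∪ W) (f i) ∧
      ph B A M N K S W (f i) ≤ ph B A M N K S W (f 0) + 4 * i := by
    intro i hi
    induction i with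
    | zero => exact ⟨h, by omega⟩
    | succ i ih =>
      obtain ⟨a1, a2⟩ := ih (by omega)
      have := ph_flip H a1 (H' i hi)
      exact ⟨a1.flip (H' i hi), by omega⟩
  exact (this F le_rfl).2

lemma ph_ins (H : Stair B A M N K S) {j : ℕ} {p : ℕ → ℝ × ℝ} {f : ℕ → Set (Set (ℝ × ℝ))}
    (h : IsTriangulation (strip B A (2 * K)) (range (vtx B A (2 * K))) (f 0))
    (H' : ∀ i < j, InsertPoint (p i) (f i) (f (i + 1))) :
    Inv2 (strip B A (2 * K)) (range (vtx B A (2 * K)) ∪ p '' Iio j) (f j) ∧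
      ph B A M N K S (p '' Iio j) (f j) = ph B A M N K S (p '' Iio j) (f 0) := by
  have : ∀ i ≤ j, Inv2 (strip B A (2 * K)) (range (vtx B A (2 * K)) ∪ p '' Iio j) (f i) ∧
      ph B A M N K S (p '' Iio j) (f i) = ph B A M N K S (p '' Iio j) (f 0) := by
    intro i hi
    induction i with
    | zero =>
      refine ⟨fun t ht => ⟨(h.1 t ht).1.trans subset_union_left, ?_⟩, rfl⟩
      rw [← h.2.2.1]
      exact subset_biUnion_of_mem (u := fun t => convexHull ℝ t) ht
    | succ i ih =>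
      obtain ⟨a1, a2⟩ := ih (by omega)
      have hp : p i ∈ p '' Iio j := ⟨i, hi, rfl⟩
      refine ⟨a1.insertPoint (Or.inr hp) (H' i hi), ?_⟩
      rw [← a2]
      apply Finset.sum_congr rfl
      intro x hx
      obtain ⟨b1, b2⟩ := Finset.mem_product.1 hx
      exact ps_insert H (mem_cl.1 b1).1 (Finset.mem_range.1 b2) ((mem_cl.1 b1).2 _ hp) (H' i hi)
  exact this j le_rfl

lemma cl_card (hS : 0 < S) (N j : ℕ) (p : ℕ → ℝ × ℝ) : N ≤ (cl N S (p '' Iio j)).card + j := by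
  classical
  have h1 : Finset.range N ⊆ cl N S (p '' Iio j) ∪
      (Finset.range j).image fun i => ⌊(p i).2 / S - 1 / 2⌋₊ := by
    intro g hg
    by_cases hc : ∀ w ∈ p '' Iio j, Off S g w
    · exact Finset.mem_union_left _ (mem_cl.2 ⟨Finset.mem_range.1 hg, hc⟩)
    · apply Finset.mem_union_right
      unfold Off at hc
      push Not at hc
      obtain ⟨w, ⟨i, hi, rfl⟩, a1, a2⟩ := hc
      refine Finset.mem_image.2 ⟨i, Finset.mem_range.2 hi, ?_⟩
      have b1 : (g : ℝ) + 1 / 2 < (p i).2 / S := by rw [lt_div_iff₀ hS]; linarith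
      have b2 : (p i).2 / S < g + 3 / 2 := by rw [div_lt_iff₀ hS]; linarith
      have g0 : (0 : ℝ) ≤ g := Nat.cast_nonneg g
      exact (Nat.floor_eq_iff (by linarith)).2 ⟨by linarith, by linarith⟩
  have h2 := Finset.card_le_card h1
  have h3 := Finset.card_union_le (cl N S (p '' Iio j))
    ((Finset.range j).image fun i => ⌊(p i).2 / S - 1 / 2⌋₊)
  have h4 := Finset.card_image_le (s := Finset.range j) (f := fun i => ⌊(p i).2 / S - 1 / 2⌋₊)
  rw [Finset.card_range] at h2 h4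
  omega

lemma tri_of (H : Stair B A M N K S) {e : ℕ} (he : e ≤ M) :
    ∃ T, IsTriangulation (strip B A (2 * K)) (range (vtx B A (2 * K))) T ∧
      ∀ g < N, ∀ i < M, ∀ j, TG B A M K g i j ∈ T ↔ j = e := by
  have hK := H.hK
  have dv : ∀ g i, i ≤ M → (g * (M + 1) + i) / (M + 1) = g := fun g i hi => by
    rw [add_comm, Nat.add_mul_div_right _ _ (by omega), Nat.div_eq_of_lt (by omega), zero_add]
  refine (exists_tri H.toRise
    (fun k => if k < K then K + 1 + k / (M + 1) * (M + 1) + e else 2 * K) ?_ ?_).imp ?_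
  rotate_left 2
  · rintro T ⟨hT, hφ⟩
    refine ⟨hT, fun g hg i hi j => ?_⟩
    have h1 : g * (M + 1) + i < K := hK ▸ blk_lt hg hi.le
    have := hφ (g * (M + 1) + i) (by omega) (K + 1 + g * (M + 1) + j)
    simp only [if_pos h1, dv g i hi.le] at this
    exact this.trans (by omega)
  · intro k k' h1 _
    by_cases a1 : k < K
    · by_cases a2 : k' < K
      · have := Nat.mul_le_mul_right (M + 1) (Nat.div_le_div_right (c := M + 1) h1)
        simp only [a1, a2, if_true]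
        omega
      · obtain ⟨g, hg, i, hi, rfl⟩ := blk_of_lt (hK ▸ a1)
        have := blk_lt (M := M) hg he
        simp only [a1, a2, if_true, if_false, dv g i hi]
        omega
    · have a2 : ¬ k' < K := by omega
      simp only [a1, a2, if_false, le_refl]
  · intro k hk
    by_cases a1 : k < K
    · obtain ⟨g, hg, i, hi, rfl⟩ := blk_of_lt (hK ▸ a1)
      have := blk_lt (M := M) hg he
      simp only [a1, if_true, dv g i hi]
      refine ⟨by omega, by omega, ?_⟩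
      rw [H.lo g hg e he, H.up g hg i hi]
      nlinarith [sq_nonneg ((M : ℝ) - e), sq_nonneg (i : ℝ)]
    · simp only [a1, if_false]
      refine ⟨by omega, le_rfl, ?_⟩
      obtain ⟨g, rfl⟩ : ∃ g, N = g + 1 := ⟨N - 1, by
        rcases N with _ | N
        · have := H.pos; omega
        · rfl⟩
      obtain ⟨n1, n2, n3, n4⟩ := H.nums (g := g) (by omega)
      have a3 := H.lo g (by omega) M le_rfl
      rw [show K + 1 + g * (M + 1) + M = 2 * K by rw [add_mul] at hK; omega] at a3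
      have a4 := H.mA K k (by omega) hk.le
      rw [H.fA K le_rfl (by omega)] at a4
      rw [a3]
      push_cast at a4
      nlinarith

theorem lower2 (H : Stair B A M N K S) : ∃ T₁ T₂,
    IsTriangulation (strip B A (2 * K)) (range (vtx B A (2 * K))) T₁ ∧
    IsTriangulation (strip B A (2 * K)) (range (vtx B A (2 * K))) T₂ ∧
    ∀ j T₁' T₂', InsertSeq j T₁ T₂ T₁' T₂' → ∀ F, FlipSeq F T₁' T₂' →
      N * (M * M) ≤ 4 * F + j * (M * M) := by
  classical
  obtain ⟨T₁, t1, s1⟩ := tri_of H (Nat.zero_le M)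
  obtain ⟨T₂, t2, s2⟩ := tri_of H le_rfl
  refine ⟨T₁, T₂, t1, t2, ?_⟩
  rintro j _ _ ⟨p, f₁, f₂, rfl, rfl, rfl, rfl, H'⟩ F hF
  obtain ⟨a1, a2⟩ := ph_ins H t1 fun i hi => (H' i hi).1
  obtain ⟨-, b2⟩ := ph_ins H t2 fun i hi => (H' i hi).2
  have c1 := ph_seq H a1 hF
  have c2 : ph B A M N K S (p '' Iio j) (f₁ 0) = 0 := by
    refine Finset.sum_eq_zero fun x hx => Finset.sum_eq_zero fun l hl => ?_
    obtain ⟨b1, b2⟩ := Finset.mem_product.1 hx
    exact (s1 _ (mem_cl.1 b1).1 _ (Finset.mem_range.1 b2) l).1 (Finset.mem_filter.1 hl).2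
  have c3 : (cl N S (p '' Iio j) ×ˢ Finset.range M).card * M ≤
      ph B A M N K S (p '' Iio j) (f₂ 0) := by
    rw [← smul_eq_mul]
    refine Finset.card_nsmul_le_sum _ _ _ fun x hx => ?_
    obtain ⟨b1, b2⟩ := Finset.mem_product.1 hx
    unfold ps
    apply Finset.single_le_sum (f := fun j => j) (fun _ _ => Nat.zero_le _)
    simp only [Finset.mem_filter, Finset.mem_range]
    exact ⟨by omega, (s2 _ (mem_cl.1 b1).1 _ (Finset.mem_range.1 b2) M).2 rfl⟩
  have K1 : (1 : ℝ) ≤ K := by exact_mod_cast (by have := H.pos; omega : 1 ≤ K)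
  have c4 := Nat.mul_le_mul_right (M * M) (cl_card (S := S) (by nlinarith [H.big]) N j p)
  rw [Finset.card_product, Finset.card_range, mul_assoc] at c3
  rw [add_mul] at c4
  omega

theorem main2 (k : ℕ → ℕ)
    (hk : (fun n => (k n : ℝ)) =o[Filter.atTop] (fun n : ℕ => (n : ℝ))) (C : ℝ) (n₀ : ℕ) :
    ∃ n ≥ n₀, ∃ (v : ZMod n → ℝ × ℝ) (T₁ T₂ : Set (Set (ℝ × ℝ))),
      IsSimplePolygon n v ∧
      (∃ i j, ∀ x ∈ region n v, segment ℝ (v i) x ⊆ region n v ∨ segment ℝ (v j) x ⊆ region n v) ∧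
      IsTriangulation (region n v) (range v) T₁ ∧ IsTriangulation (region n v) (range v) T₂ ∧
      ∀ j ≤ k n, ∀ T₁' T₂', InsertSeq j T₁ T₂ T₁' T₂' →
        ∀ F : ℕ, FlipSeq F T₁' T₂' → C * n < F := by
  obtain ⟨M, hM, hC⟩ : ∃ M : ℕ, 0 < M ∧ 96 * C < M := by
    obtain ⟨m, h⟩ := exists_nat_gt (96 * C)
    exact ⟨m + 1, by omega, by push_cast; linarith⟩
  have m1 : (1 : ℝ) ≤ M := by exact_mod_cast hM
  obtain ⟨n₁, hn₁⟩ := Filter.eventually_atTop.1 (hk.def (c := 1 / (24 * M)) (by positivity))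
  set N := n₀ + n₁ + 1 with hN
  have N0 : 0 < N := by omega
  obtain ⟨B, A, S, H⟩ := exists_stair hM N0
  set K := N * (M + 1) with hK
  have hK1 : N ≤ K := Nat.le_mul_of_pos_right N (by omega)
  have hreg := region_eq H.lt H.pos
  obtain ⟨T₁, T₂, t1, t2, low⟩ := lower2 H
  refine ⟨2 * (2 * K) + 2, by omega, vtx B A (2 * K), T₁, T₂, simple' H.lt H.pos H.ncA H.ncB,
    ?_, by rwa [hreg], by rwa [hreg], ?_⟩
  · obtain ⟨i, hi⟩ := (range_vtx B A (2 * K) (ch B K)).2 ⟨K, by omega, Or.inr rfl⟩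
    obtain ⟨j, hj⟩ := (range_vtx B A (2 * K) (ch A K)).2 ⟨K, by omega, Or.inl rfl⟩
    refine ⟨i, j, ?_⟩
    rw [hreg, hi, hj]
    exact fun x hx => guards H hx
  intro j hj T₁' T₂' hI F hF
  have h1 := low j _ _ hI F hF
  have h2 := hn₁ (2 * (2 * K) + 2) (by omega)
  rw [Real.norm_natCast, Real.norm_natCast] at h2
  have h3 : (j : ℝ) ≤ k (2 * (2 * K) + 2) := by exact_mod_cast hj
  have h4 : (1 : ℝ) ≤ N := by exact_mod_cast N0
  have h5 : (N : ℝ) * (M * M) ≤ 4 * F + j * (M * M) := by exact_mod_cast h1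
  have h6 : ((2 * (2 * K) + 2 : ℕ) : ℝ) = 4 * (N * (M + 1)) + 2 := by rw [hK]; push_cast; ring
  rw [h6] at h2 ⊢
  have h7 : (j : ℝ) * (24 * M) ≤ 4 * (N * (M + 1)) + 2 := by
    have := h3.trans h2
    rw [one_div, inv_mul_eq_div, le_div_iff₀ (by positivity)] at this
    exact this
  have h8 : (1 : ℝ) ≤ N * M := by nlinarith
  have h9 : 4 * ((N : ℝ) * (M + 1)) + 2 ≤ 12 * (N * M) := by nlinarith
  have h10 : (j : ℝ) * (M * M) ≤ N * (M * M) / 2 := by
    have := mul_le_mul_of_nonneg_right (h7.trans h9) (show (0 : ℝ) ≤ M by linarith)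
    nlinarith
  have h11 : C * (4 * (N * (M + 1)) + 2) < M / 96 * (4 * (N * (M + 1)) + 2) :=
    mul_lt_mul_of_pos_right (by linarith) (by positivity)
  have h12 : (M : ℝ) / 96 * (4 * (N * (M + 1)) + 2) ≤ M / 96 * (12 * (N * M)) :=
    mul_le_mul_of_nonneg_left h9 (by positivity)
  nlinarith

end Pool.Agent.P.MP_fe41f2_co.G2
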