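import Mathlib
import Pool.Agent.P.MP_fe41f2_co.Lower

set_option autoImplicit false

namespace Pool.Agent.P.MP_fe41f2_co

open Set

open Classical in
noncomputable def cols (m N : ℕ) (W : Set (ℝ × ℝ)) : Finset ℕ :=
  (Finset.range (N * m)).filter (fun k => Clean m W (k / m))

noncomputable def phi (m N : ℕ) (W : Set (ℝ × ℝ)) (T : Set (Set (ℝ × ℝ))) : ℕ :=
  ∑ k ∈ cols m N W, psi m (k / m) (k % m) T

lemma mem_cols {m N k : ℕ} (hm : 0 < m) {W : Set (ℝ × ℝ)} (hk : k ∈ cols m N W) :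
    k / m < N ∧ k % m < m ∧ Clean m W (k / m) := by
  classical
  obtain ⟨h1, h2⟩ := Finset.mem_filter.1 hk
  exact ⟨(Nat.div_lt_iff_lt_mul hm).2 (Finset.mem_range.1 h1), Nat.mod_lt k hm, h2⟩

lemma phi_flip {m N : ℕ} (hm : 0 < m) {W : Set (ℝ × ℝ)} {T T' : Set (Set (ℝ × ℝ))}
    (h : Inv m N W T) (hf : Flip T T') : phi m N W T' ≤ phi m N W T + 4 := by
  classical
  obtain ⟨F, hF, H⟩ := psi_flip hm h hf
  have e : ∀ k, pt m 1 (k / m) (k % m) = ch (hgt m 1) k := by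
    intro k; unfold pt; rw [Nat.div_add_mod']
  have h1 : phi m N W T' ≤
      ∑ k ∈ cols m N W, (psi m (k / m) (k % m) T + if ch (hgt m 1) k ∈ F then 1 else 0) := by
    apply Finset.sum_le_sum
    intro k hk
    obtain ⟨a1, a2, a3⟩ := mem_cols hm hk
    obtain ⟨b1, b2⟩ := H _ a1 _ a2 a3
    rw [e] at b2
    split_ifs with hc
    · exact b1
    · exact b2 hc
  rw [Finset.sum_add_distrib, ← Finset.card_filter] at h1
  have h2 : ((cols m N W).filter (fun k => ch (hgt m 1) k ∈ F)).card ≤ F.card := by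
    apply Finset.card_le_card_of_injOn (ch (hgt m 1))
    · intro k hk
      exact (Finset.mem_filter.1 hk).2
    · intro k _ k' _ hkk
      exact ch_inj hkk
  unfold phi at h1 ⊢
  omega

lemma phi_seq {m N : ℕ} (hm : 0 < m) {W : Set (ℝ × ℝ)} {T T' : Set (Set (ℝ × ℝ))} {F : ℕ}
    (h : Inv m N W T) (hf : FlipSeq F T T') : phi m N W T' ≤ phi m N W T + 4 * F := by
  obtain ⟨f, rfl, rfl, H⟩ := hf
  have : ∀ i ≤ F, Inv m N W (f i) ∧ phi m N W (f i) ≤ phi m N W (f 0) + 4 * i := by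
    intro i hi
    induction i with
    | zero => exact ⟨h, by omega⟩
    | succ i ih =>
      obtain ⟨a1, a2⟩ := ih (by omega)
      have := phi_flip hm a1 (H i hi)
      exact ⟨a1.flip (H i hi), by omega⟩
  exact (this F le_rfl).2

lemma phi_ins {m N : ℕ} (hm : 0 < m) {j : ℕ} {p : ℕ → ℝ × ℝ} {f : ℕ → Set (Set (ℝ × ℝ))}
    (h : Inv m N (p '' Iio j) (f 0)) (H : ∀ i < j, InsertPoint (p i) (f i) (f (i + 1))) :
    Inv m N (p '' Iio j) (f j) ∧ phi m N (p '' Iio j) (f j) = phi m N (p '' Iio j) (f 0) := by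
  have : ∀ i ≤ j, Inv m N (p '' Iio j) (f i) ∧
      phi m N (p '' Iio j) (f i) = phi m N (p '' Iio j) (f 0) := by
    intro i hi
    induction i with
    | zero => exact ⟨h, rfl⟩
    | succ i ih =>
      obtain ⟨a1, a2⟩ := ih (by omega)
      have hp : p i ∈ p '' Iio j := ⟨i, hi, rfl⟩
      refine ⟨a1.insertPoint hp (H i hi), ?_⟩
      rw [← a2]
      apply Finset.sum_congr rfl
      intro k hk
      obtain ⟨b1, b2, b3⟩ := mem_cols hm hk
      exact psi_insert b2 b3 hp (H i hi)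
  exact this j le_rfl

lemma inv_TP {m N : ℕ} (hm : 0 < m) {a b : ℕ → ℕ} (h : IsPath m a b) (W : Set (ℝ × ℝ)) :
    Inv m N W (TP m N a b) := by
  rintro t ⟨g, hg, s, hs, rfl⟩
  exact ⟨(tri_VV h hg hs).trans subset_union_left, tri_sub hm h hg hs⟩

lemma cols_card {m : ℕ} (hm : 0 < m) (N j : ℕ) (p : ℕ → ℝ × ℝ) :
    N * m ≤ (cols m N (p '' Iio j)).card + j * (2 * m + 1) := by
  classical
  have h1 : Finset.range (N * m) ⊆ cols m N (p '' Iio j) ∪
      (Finset.range j).biUnion (fun i => Finset.Icc (⌊(p i).1⌋₊ - m) (⌊(p i).1⌋₊ + m)) := by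
    intro k hk
    by_cases hc : Clean m (p '' Iio j) (k / m)
    · exact Finset.mem_union_left _ (Finset.mem_filter.2 ⟨hk, hc⟩)
    · apply Finset.mem_union_right
      unfold Clean at hc
      push Not at hc
      obtain ⟨w, ⟨i, hi, rfl⟩, a1, a2⟩ := hc
      refine Finset.mem_biUnion.2 ⟨i, Finset.mem_range.2 hi, ?_⟩
      have b1 : ⌊(p i).1⌋₊ < k / m * m + m + 1 :=
        (Nat.floor_lt' (by omega)).2 (by push_cast; exact a2)
      have b2 := Nat.lt_floor_add_one (p i).1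
      have b3 : ((k / m * m : ℕ) : ℝ) < ((⌊(p i).1⌋₊ + 2 : ℕ) : ℝ) := by push_cast; linarith
      have b4 := Nat.cast_lt.1 b3
      have b5 := Nat.div_add_mod' k m
      have b6 := Nat.mod_lt k hm
      rw [Finset.mem_Icc]
      omega
  have h2 := Finset.card_le_card h1
  have h3 := Finset.card_union_le (cols m N (p '' Iio j))
    ((Finset.range j).biUnion (fun i => Finset.Icc (⌊(p i).1⌋₊ - m) (⌊(p i).1⌋₊ + m)))
  have h4 := Finset.card_biUnion_le_card_mul (Finset.range j)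
    (fun i => Finset.Icc (⌊(p i).1⌋₊ - m) (⌊(p i).1⌋₊ + m)) (2 * m + 1)
    (by intro i _; rw [Nat.card_Icc]; omega)
  rw [Finset.card_range] at h2 h4
  omega

theorem lower {m : ℕ} (hm : 0 < m) (N j F : ℕ) {T₁ T₂ : Set (Set (ℝ × ℝ))}
    (hI : InsertSeq j (TP m N (fun s => min s m) (fun s => s - m))
      (TP m N (fun s => s - m) (fun s => min s m)) T₁ T₂) (hF : FlipSeq F T₁ T₂) :
    m * (N * m) ≤ 4 * F + m * (j * (2 * m + 1)) := by
  obtain ⟨p, f₁, f₂, e1, e2, rfl, rfl, H⟩ := hI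
  obtain ⟨a1, a2⟩ := phi_ins (N := N) hm (j := j) (p := p) (f := f₁)
    (by rw [e1]; exact inv_TP hm (path1 m) _) (fun i hi => (H i hi).1)
  obtain ⟨-, b2⟩ := phi_ins (N := N) hm (j := j) (p := p) (f := f₂)
    (by rw [e2]; exact inv_TP hm (path2 m) _) (fun i hi => (H i hi).2)
  have c1 := phi_seq hm a1 hF
  have c2 : phi m N (p '' Iio j) (f₁ 0) = 0 := by
    rw [e1]
    apply Finset.sum_eq_zero
    intro k hk
    exact psi_T1 hm N _ (mem_cols hm hk).2.1
  have c3 : (cols m N (p '' Iio j)).card * m ≤ phi m N (p '' Iio j) (f₂ 0) := by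
    rw [e2, ← smul_eq_mul]
    apply Finset.card_nsmul_le_sum
    intro k hk
    exact psi_T2 (mem_cols hm hk).1 (mem_cols hm hk).2.1
  have c4 := Nat.mul_le_mul_left m (cols_card hm N j p)
  rw [mul_add, mul_comm m (Finset.card _)] at c4
  omega

theorem main (k : ℕ → ℕ)
    (hk : (fun n => (k n : ℝ)) =o[Filter.atTop] (fun n : ℕ => (n : ℝ))) (C : ℝ) (n₀ : ℕ) :
    ∃ n ≥ n₀, ∃ (v : ZMod n → ℝ × ℝ) (T₁ T₂ : Set (Set (ℝ × ℝ))),
      IsSimplePolygon n v ∧ IsTriangulation (region n v) (range v) T₁ ∧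
      IsTriangulation (region n v) (range v) T₂ ∧
      ∀ j ≤ k n, ∀ T₁' T₂', InsertSeq j T₁ T₂ T₁' T₂' →
        ∀ F : ℕ, FlipSeq F T₁' T₂' → C * n < F := by
  obtain ⟨m, hm, hC⟩ : ∃ m : ℕ, 0 < m ∧ 32 * C < m := by
    obtain ⟨m, h⟩ := exists_nat_gt (32 * C)
    exact ⟨m + 1, by omega, by push_cast; linarith⟩
  have m1 : (1 : ℝ) ≤ m := by exact_mod_cast hm
  obtain ⟨n₁, hn₁⟩ := Filter.eventually_atTop.1
    (hk.def (c := 1 / (8 * (2 * m + 1))) (by positivity))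
  set N := n₀ + n₁ + 1 with hN
  have N0 : 0 < N := by omega
  have hK : N ≤ N * m := Nat.le_mul_of_pos_right N hm
  have hreg := region_eq (hgt_lt hm) (K := N * m) (by omega)
  refine ⟨2 * (N * m) + 2, by omega, vtx (hgt m (-1)) (hgt m 1) (N * m),
    TP m N (fun s => min s m) (fun s => s - m), TP m N (fun s => s - m) (fun s => min s m),
    simple (hgt_lt hm) (by omega) (hgt_second hm (Or.inl rfl)) (hgt_second hm (Or.inr rfl)),
    ?_, ?_, ?_⟩
  · rw [hreg]; exact isTriangulation hm N0 (path1 m)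
  · rw [hreg]; exact isTriangulation hm N0 (path2 m)
  intro j hj T₁' T₂' hI F hF
  have h1 := lower hm N j F hI hF
  have h2 := hn₁ (2 * (N * m) + 2) (by omega)
  rw [Real.norm_natCast, Real.norm_natCast] at h2
  have h3 : (j : ℝ) ≤ k (2 * (N * m) + 2) := by exact_mod_cast hj
  have h4 : (1 : ℝ) ≤ ((N * m : ℕ) : ℝ) := by exact_mod_cast (show 1 ≤ N * m by omega)
  have h5 : (m : ℝ) * ((N * m : ℕ) : ℝ) ≤ 4 * F + m * (j * (2 * m + 1)) := by exact_mod_cast h1
  have h6 : ((2 * (N * m) + 2 : ℕ) : ℝ) = 2 * ((N * m : ℕ) : ℝ) + 2 := by push_cast; ring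
  rw [h6] at h2 ⊢
  generalize ((N * m : ℕ) : ℝ) = K at *
  have h7 : (j : ℝ) * (8 * (2 * m + 1)) ≤ 2 * K + 2 := by
    have := h3.trans h2
    rw [one_div, inv_mul_eq_div, le_div_iff₀ (by positivity)] at this
    exact this
  have h8 : (m : ℝ) * (j * (2 * m + 1)) ≤ m * (K / 2) :=
    mul_le_mul_of_nonneg_left (by linarith) (by linarith)
  have h9 : C * (2 * K + 2) < m / 32 * (2 * K + 2) :=
    mul_lt_mul_of_pos_right (by linarith) (by linarith)
  nlinarith

end Pool.Agent.P.MP_fe41f2_co
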