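import Mathlib
import Pool.Agent.P.MP_fe41f2_co.G2Main

set_option autoImplicit false

namespace Pool.Agent.P.MP_fe41f2_co.Orth

open Set

/-- strictly increasing up to `n` -/
def Inc (n : ℕ) (f : ℕ → ℝ) : Prop := ∀ s t, s < t → t ≤ n → f s < f t

lemma Inc.le {n : ℕ} {f : ℕ → ℝ} (h : Inc n f) {s t : ℕ} (h1 : s ≤ t) (h2 : t ≤ n) :
    f s ≤ f t := by
  rcases h1.eq_or_lt with rfl | h1
  · exact le_rfl
  · exact (h s t h1 h2).le

lemma Inc.lt_of {n : ℕ} {f : ℕ → ℝ} (h : Inc n f) {s t : ℕ} (h2 : s ≤ n) (h1 : f s < f t) :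
    s < t := by
  by_contra hc
  exact absurd h1 (not_lt.2 (h.le (by omega) h2))

lemma Inc.le_of {n : ℕ} {f : ℕ → ℝ} (h : Inc n f) {s t : ℕ} (h2 : s ≤ n) (h1 : f s ≤ f t) :
    s ≤ t := by
  by_contra hc
  exact absurd h1 (not_le.2 (h t s (by omega) h2))

/-- data of an orthogonal polygon bounded by two staircases -/
structure St (μ : ℕ) (p r a b : ℕ → ℝ) : Prop where
  hp : Inc (μ + 1) p
  hr : Inc (μ + 1) r
  ha : Inc μ a
  hb : Inc μ b
  p0 : p 0 = r 0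
  pm : p (μ + 1) = r (μ + 1)
  sep : p μ < r 1
  lo : b 0 < a 0
  hi : b μ < a μ

/-- vertex `k` of a staircase -/
def stp (p a : ℕ → ℝ) (k : ℕ) : ℝ × ℝ := (p ((k + 1) / 2), a (k / 2))

/-- a box without the open quadrants at the reflex corners -/
def PP (μ : ℕ) (p r a b : ℕ → ℝ) : Set (ℝ × ℝ) :=
  {w | p 0 ≤ w.1 ∧ w.1 ≤ p (μ + 1) ∧ b 0 ≤ w.2 ∧ w.2 ≤ a μ ∧
    (∀ t ≤ μ, p (t + 1) ≤ w.1 ∨ w.2 ≤ a t) ∧ ∀ t ≤ μ, w.1 ≤ r t ∨ b t ≤ w.2}

def vx (U L : ℕ → ℝ × ℝ) (K : ℕ) (i : ZMod (2 * K + 2)) : ℝ × ℝ :=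
  if i.val ≤ K then U i.val else L (2 * K + 1 - i.val)

lemma vx_cases (U L : ℕ → ℝ × ℝ) (K : ℕ) (i : ZMod (2 * K + 2)) :
    (∃ k < K, i.val = k ∧ (i + 1).val = k + 1 ∧ vx U L K i = U k ∧ vx U L K (i + 1) = U (k + 1)) ∨
    (i.val = K ∧ (i + 1).val = K + 1 ∧ vx U L K i = U K ∧ vx U L K (i + 1) = L K) ∨
    (∃ k < K, i.val = 2 * K - k ∧ (i + 1).val = 2 * K + 1 - k ∧ vx U L K i = L (k + 1) ∧
        vx U L K (i + 1) = L k) ∨
    (i.val = 2 * K + 1 ∧ (i + 1).val = 0 ∧ vx U L K i = L 0 ∧ vx U L K (i + 1) = U 0) := by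
  have h1 := val_succ i
  have h2 : i.val < 2 * K + 2 := ZMod.val_lt i
  unfold vx
  rcases lt_trichotomy i.val K with h | h | h
  · left
    have e : (i + 1).val = i.val + 1 := by rw [h1, Nat.mod_eq_of_lt (by omega)]
    refine ⟨i.val, h, rfl, e, by rw [if_pos h.le], by rw [e, if_pos (by omega)]⟩
  · right; left
    have e : (i + 1).val = K + 1 := by rw [h1, Nat.mod_eq_of_lt (by omega), h]
    refine ⟨h, e, by rw [if_pos h.le, h], ?_⟩
    rw [e, if_neg (by omega)]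
    congr 1; omega
  · right; right
    by_cases h' : i.val = 2 * K + 1
    · right
      have e : (i + 1).val = 0 := by rw [h1, h']; simp
      refine ⟨h', e, ?_, by rw [e, if_pos (by omega)]⟩
      rw [if_neg (by omega), h']; simp
    · left
      have e : (i + 1).val = i.val + 1 := by rw [h1, Nat.mod_eq_of_lt (by omega)]
      refine ⟨2 * K - i.val, by omega, by omega, by omega, ?_, ?_⟩
      · rw [if_neg (by omega)]; congr 1; omega
      · rw [e, if_neg (by omega)]; congr 1; omega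

lemma range_vx (U L : ℕ → ℝ × ℝ) (K : ℕ) (w : ℝ × ℝ) :
    w ∈ range (vx U L K) ↔ ∃ k ≤ K, w = U k ∨ w = L k := by
  constructor
  · rintro ⟨i, rfl⟩
    rcases vx_cases U L K i with ⟨k, hk, -, -, h, -⟩ | ⟨-, -, h, -⟩ | ⟨k, hk, -, -, h, -⟩ |
      ⟨-, -, h, -⟩
    · exact ⟨k, hk.le, Or.inl h⟩
    · exact ⟨K, le_rfl, Or.inl h⟩
    · exact ⟨k + 1, hk, Or.inr h⟩
    · exact ⟨0, by omega, Or.inr h⟩
  · rintro ⟨k, hk, rfl | rfl⟩
    · obtain ⟨i, hi⟩ := exists_val (K := K) k (by omega)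
      exact ⟨i, by unfold vx; rw [if_pos (by omega), hi]⟩
    · obtain ⟨i, hi⟩ := exists_val (K := K) (2 * K + 1 - k) (by omega)
      refine ⟨i, ?_⟩
      unfold vx
      rw [if_neg (by omega), hi]
      congr 1; omega

lemma seg_box {A B w : ℝ × ℝ} (h1 : A.1 ≤ B.1) (h2 : A.2 ≤ B.2) (hw : w ∈ segment ℝ A B) :
    A.1 ≤ w.1 ∧ w.1 ≤ B.1 ∧ A.2 ≤ w.2 ∧ w.2 ≤ B.2 := by
  obtain ⟨s, t, hs, ht, hst, rfl⟩ := hw
  obtain rfl : s = 1 - t := by linarith
  simp only [Prod.fst_add, Prod.snd_add, Prod.smul_fst, Prod.smul_snd, smul_eq_mul]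
  refine ⟨?_, ?_, ?_, ?_⟩ <;> nlinarith

lemma box_seg {A B w : ℝ × ℝ} (hx : A.1 = B.1 ∨ A.2 = B.2) (h1 : A.1 ≤ w.1) (h2 : w.1 ≤ B.1)
    (h3 : A.2 ≤ w.2) (h4 : w.2 ≤ B.2) : w ∈ segment ℝ A B := by
  rcases hx with e | e
  · have : w.2 ∈ segment ℝ A.2 B.2 := by rw [segment_eq_Icc (h3.trans h4)]; exact ⟨h3, h4⟩
    obtain ⟨s, t, hs, ht, hst, e2⟩ := this
    refine ⟨s, t, hs, ht, hst, Prod.ext ?_ (by simpa using e2)⟩
    obtain rfl : s = 1 - t := by linarith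
    have : w.1 = A.1 := by linarith
    simp only [Prod.fst_add, Prod.smul_fst, smul_eq_mul]
    rw [this, ← e]; ring
  · have : w.1 ∈ segment ℝ A.1 B.1 := by rw [segment_eq_Icc (h1.trans h2)]; exact ⟨h1, h2⟩
    obtain ⟨s, t, hs, ht, hst, e2⟩ := this
    refine ⟨s, t, hs, ht, hst, Prod.ext (by simpa using e2) ?_⟩
    obtain rfl : s = 1 - t := by linarith
    have : w.2 = A.2 := by linarith
    simp only [Prod.snd_add, Prod.smul_snd, smul_eq_mul]
    rw [this, ← e]; ring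

variable {μ : ℕ} {p r a b : ℕ → ℝ}

lemma stp_le (hp : Inc (μ + 1) p) (ha : Inc μ a) {k k' : ℕ} (h : k ≤ k') (h' : k' ≤ 2 * μ + 1) :
    (stp p a k).1 ≤ (stp p a k').1 ∧ (stp p a k).2 ≤ (stp p a k').2 :=
  ⟨hp.le (by omega) (by omega), ha.le (by omega) (by omega)⟩

lemma stp_lt (hp : Inc (μ + 1) p) (ha : Inc μ a) {k k' : ℕ} (h : k < k') (h' : k' ≤ 2 * μ + 1) :
    (stp p a k).1 < (stp p a k').1 ∨
      ((stp p a k).2 < (stp p a k').2 ∧ 0 < k ∧ k' < 2 * μ + 1) := by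
  by_cases h1 : (k + 1) / 2 < (k' + 1) / 2
  · exact Or.inl (hp _ _ h1 (by omega))
  · exact Or.inr ⟨ha _ _ (by omega) (by omega), by omega, by omega⟩

lemma stp_inj (hp : Inc (μ + 1) p) (ha : Inc μ a) {k k' : ℕ} (h : k ≤ 2 * μ + 1)
    (h' : k' ≤ 2 * μ + 1) (e : stp p a k = stp p a k') : k = k' := by
  rcases lt_trichotomy k k' with h1 | h1 | h1
  · rcases stp_lt hp ha h1 h' with c | ⟨c, -⟩ <;> rw [e] at c <;> exact absurd c (lt_irrefl _)
  · exact h1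
  · rcases stp_lt hp ha h1 h with c | ⟨c, -⟩ <;> rw [e] at c <;> exact absurd c (lt_irrefl _)

lemma stp_axis (p a : ℕ → ℝ) (k : ℕ) :
    (stp p a k).1 = (stp p a (k + 1)).1 ∨ (stp p a k).2 = (stp p a (k + 1)).2 := by
  rcases Nat.even_or_odd' k with ⟨t, rfl | rfl⟩
  · right; simp only [stp]; congr 1; omega
  · left; simp only [stp]; congr 1; omega

/-- an upper edge and a lower edge are disjoint -/
lemma St.ul (H : St μ p r a b) {k k' : ℕ} (hk : k ≤ 2 * μ + 1) (hk' : k' ≤ 2 * μ + 1)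
    {w : ℝ × ℝ} (h1 : w.1 ≤ p ((k + 2) / 2)) (h2 : a (k / 2) ≤ w.2) (h3 : r ((k' + 1) / 2) ≤ w.1)
    (h4 : w.2 ≤ b ((k' + 1) / 2)) (h5 : (k' + 1) / 2 ≤ μ) : False := by
  by_cases c1 : k' = 0
  · subst c1
    have := H.ha.le (Nat.zero_le (k / 2)) (by omega)
    have := H.lo
    simp only [zero_add, Nat.reduceDiv] at h4
    linarith
  by_cases c2 : k / 2 = μ
  · rw [c2] at h2
    have := H.hb.le h5 le_rfl
    have := H.hi
    linarith
  · have := H.hp.le (s := (k + 2) / 2) (t := μ) (by omega) (by omega)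
    have := H.hr.le (s := 1) (t := (k' + 1) / 2) (by omega) (by omega)
    have := H.sep
    linarith

lemma St.ne (H : St μ p r a b) {k k' : ℕ} (hk : k ≤ 2 * μ + 1) (hk' : k' ≤ 2 * μ + 1) :
    stp p a k ≠ stp r b k' := by
  intro e
  have e1 : p ((k + 1) / 2) = r ((k' + 1) / 2) := congrArg Prod.fst e
  have e2 : a (k / 2) = b (k' / 2) := congrArg Prod.snd e
  by_cases c1 : k' / 2 = 0
  · rw [c1] at e2
    have := H.ha.le (Nat.zero_le (k / 2)) (by omega)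
    have := H.lo
    linarith
  by_cases c2 : k / 2 = μ
  · rw [c2] at e2
    have := H.hb.le (s := k' / 2) (by omega) le_rfl
    have := H.hi
    linarith
  · have := H.hp.le (s := (k + 1) / 2) (t := μ) (by omega) (by omega)
    have := H.hr.le (s := 1) (t := (k' + 1) / 2) (by omega) (by omega)
    have := H.sep
    linarith

lemma St.inj (H : St μ p r a b) : Function.Injective (vx (stp p a) (stp r b) (2 * μ + 1)) := by
  intro i j e
  apply ZMod.val_injective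
  have h1 : i.val < 2 * (2 * μ + 1) + 2 := ZMod.val_lt i
  have h2 : j.val < 2 * (2 * μ + 1) + 2 := ZMod.val_lt j
  unfold vx at e
  split_ifs at e with c d d
  · exact stp_inj H.hp H.ha c d e
  · exact absurd e (H.ne c (by omega))
  · exact absurd e.symm (H.ne d (by omega))
  · have := stp_inj H.hr H.hb (by omega) (by omega) e
    omega

lemma St.walls (H : St μ p r a b) :
    (stp r b 0).1 = (stp p a 0).1 ∧ (stp r b 0).2 < (stp p a 0).2 ∧
    (stp r b (2 * μ + 1)).1 = (stp p a (2 * μ + 1)).1 ∧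
    (stp r b (2 * μ + 1)).2 < (stp p a (2 * μ + 1)).2 := by
  have e1 : (2 * μ + 1 + 1) / 2 = μ + 1 := by omega
  have e2 : (2 * μ + 1) / 2 = μ := by omega
  simp only [stp, e1, e2]
  exact ⟨H.p0.symm, H.lo, H.pm.symm, H.hi⟩

/-- every edge lies in the box of its end points -/
lemma St.edge (H : St μ p r a b) (i : ZMod (2 * (2 * μ + 1) + 2)) {w : ℝ × ℝ}
    (hw : w ∈ segment ℝ (vx (stp p a) (stp r b) (2 * μ + 1) i)
      (vx (stp p a) (stp r b) (2 * μ + 1) (i + 1))) :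
    (∃ k < 2 * μ + 1, i.val = k ∧ vx (stp p a) (stp r b) (2 * μ + 1) i = stp p a k ∧
      vx (stp p a) (stp r b) (2 * μ + 1) (i + 1) = stp p a (k + 1) ∧
      p ((k + 1) / 2) ≤ w.1 ∧ w.1 ≤ p ((k + 2) / 2) ∧ a (k / 2) ≤ w.2 ∧ w.2 ≤ a ((k + 1) / 2)) ∨
    (i.val = 2 * μ + 1 ∧ vx (stp p a) (stp r b) (2 * μ + 1) i = (p (μ + 1), a μ) ∧
      vx (stp p a) (stp r b) (2 * μ + 1) (i + 1) = (r (μ + 1), b μ) ∧
      w.1 = p (μ + 1) ∧ b μ ≤ w.2 ∧ w.2 ≤ a μ) ∨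
    (∃ k < 2 * μ + 1, i.val = 2 * (2 * μ + 1) - k ∧
      vx (stp p a) (stp r b) (2 * μ + 1) i = stp r b (k + 1) ∧
      vx (stp p a) (stp r b) (2 * μ + 1) (i + 1) = stp r b k ∧
      r ((k + 1) / 2) ≤ w.1 ∧ w.1 ≤ r ((k + 2) / 2) ∧ b (k / 2) ≤ w.2 ∧ w.2 ≤ b ((k + 1) / 2)) ∨
    (i.val = 2 * (2 * μ + 1) + 1 ∧ vx (stp p a) (stp r b) (2 * μ + 1) i = (r 0, b 0) ∧
      vx (stp p a) (stp r b) (2 * μ + 1) (i + 1) = (p 0, a 0) ∧
      w.1 = p 0 ∧ b 0 ≤ w.2 ∧ w.2 ≤ a 0) := by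
  obtain ⟨w1, w2, w3, w4⟩ := H.walls
  have e1 : (2 * μ + 1 + 1) / 2 = μ + 1 := by omega
  have e2 : (2 * μ + 1) / 2 = μ := by omega
  rcases vx_cases (stp p a) (stp r b) (2 * μ + 1) i with ⟨k, hk, v1, -, a1, a2⟩ | ⟨v1, -, a1, a2⟩ |
    ⟨k, hk, v1, -, a1, a2⟩ | ⟨v1, -, a1, a2⟩ <;> rw [a1, a2] at hw ⊢
  · have := stp_le H.hp H.ha (k := k) (k' := k + 1) (by omega) hk
    exact Or.inl ⟨k, hk, v1, rfl, rfl, seg_box this.1 this.2 hw⟩
  · rw [segment_symm] at hw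
    obtain ⟨c1, c2, c3, c4⟩ := seg_box w3.le w4.le hw
    simp only [stp, e1, e2] at c1 c2 c3 c4 ⊢
    exact Or.inr (Or.inl ⟨v1, trivial, trivial, by linarith [H.pm], c3, c4⟩)
  · have := stp_le H.hr H.hb (k := k) (k' := k + 1) (by omega) hk
    rw [segment_symm] at hw
    exact Or.inr (Or.inr (Or.inl ⟨k, hk, v1, rfl, rfl, seg_box this.1 this.2 hw⟩))
  · obtain ⟨c1, c2, c3, c4⟩ := seg_box w1.le w2.le hw
    simp only [stp, zero_add, Nat.reduceDiv] at c1 c2 c3 c4 ⊢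
    exact Or.inr (Or.inr (Or.inr ⟨v1, trivial, trivial, by linarith [H.p0], c3, c4⟩))

lemma same_chain (hp : Inc (μ + 1) p) (ha : Inc μ a) {k k' : ℕ} (hk : k < 2 * μ + 1)
    (hk' : k' < 2 * μ + 1) (hne : k ≠ k') {w : ℝ × ℝ}
    (c1 : p ((k + 1) / 2) ≤ w.1) (c2 : w.1 ≤ p ((k + 2) / 2)) (c3 : a (k / 2) ≤ w.2)
    (c4 : w.2 ≤ a ((k + 1) / 2)) (d1 : p ((k' + 1) / 2) ≤ w.1) (d2 : w.1 ≤ p ((k' + 2) / 2))
    (d3 : a (k' / 2) ≤ w.2) (d4 : w.2 ≤ a ((k' + 1) / 2)) :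
    w = stp p a k ∨ w = stp p a (k + 1) := by
  rcases lt_or_gt_of_ne hne with h | h
  · have h1 := hp.le (s := (k + 2) / 2) (t := (k' + 1) / 2) (by omega) (by omega)
    have h2 := ha.le (s := (k + 1) / 2) (t := k' / 2) (by omega) (by omega)
    exact Or.inr (Prod.ext (le_antisymm c2 (h1.trans d1)) (le_antisymm c4 (h2.trans d3)))
  · have h1 := hp.le (s := (k' + 2) / 2) (t := (k + 1) / 2) (by omega) (by omega)
    have h2 := ha.le (s := (k' + 1) / 2) (t := k / 2) (by omega) (by omega)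
    exact Or.inl (Prod.ext (le_antisymm (d2.trans h1) c1) (le_antisymm (d4.trans h2) c3))

lemma St.one_side (H : St μ p r a b) (i j : ZMod (2 * (2 * μ + 1) + 2)) (hij : i ≠ j) {w : ℝ × ℝ}
    (hi : w ∈ segment ℝ (vx (stp p a) (stp r b) (2 * μ + 1) i)
      (vx (stp p a) (stp r b) (2 * μ + 1) (i + 1)))
    (hj : w ∈ segment ℝ (vx (stp p a) (stp r b) (2 * μ + 1) j)
      (vx (stp p a) (stp r b) (2 * μ + 1) (j + 1))) :
    w = vx (stp p a) (stp r b) (2 * μ + 1) i ∨ w = vx (stp p a) (stp r b) (2 * μ + 1) (i + 1) := by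
  have hv : i.val ≠ j.val := fun e => hij (ZMod.val_injective _ e)
  have q0 := H.p0
  have qm := H.pm
  have q1 := H.hp 0 (μ + 1) (by omega) le_rfl
  rcases H.edge i hi with ⟨k, hk, v1, a1, a2, c1, c2, c3, c4⟩ | ⟨v1, a1, a2, c1, c2, c3⟩ |
      ⟨k, hk, v1, a1, a2, c1, c2, c3, c4⟩ | ⟨v1, a1, a2, c1, c2, c3⟩ <;>
    rcases H.edge j hj with ⟨k', hk', v2, -, -, d1, d2, d3, d4⟩ | ⟨v2, -, -, d1, d2, d3⟩ |
      ⟨k', hk', v2, -, -, d1, d2, d3, d4⟩ | ⟨v2, -, -, d1, d2, d3⟩ <;> rw [a1, a2]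
  · exact same_chain H.hp H.ha hk hk' (by omega) c1 c2 c3 c4 d1 d2 d3 d4
  · have := H.hp.le_of (s := μ + 1) (t := (k + 2) / 2) le_rfl (d1 ▸ c2)
    obtain rfl : k = 2 * μ := by omega
    refine Or.inr (Prod.ext ?_ ?_) <;> simp only [stp]
    · rw [d1]; congr 1; omega
    · rw [show (2 * μ + 1) / 2 = μ by omega]
      rw [show 2 * μ / 2 = μ by omega] at c3
      linarith
  · exact (H.ul hk.le hk'.le c2 c3 d1 d4 (by omega)).elim
  · have h1 := H.hp.le (Nat.zero_le ((k + 1) / 2)) (by omega)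
    have h2 := H.ha.le (Nat.zero_le (k / 2)) (by omega)
    exact Or.inl (Prod.ext (le_antisymm (by simp only [stp]; linarith) c1)
      (le_antisymm (by simp only [stp]; linarith) c3))
  · have := H.hp.le_of (s := μ + 1) (t := (k' + 2) / 2) le_rfl (c1 ▸ d2)
    rw [show k' / 2 = μ by omega] at d3
    exact Or.inl (Prod.ext c1 (le_antisymm c3 d3))
  · omega
  · have h2 := H.hb.le (s := (k' + 1) / 2) (by omega) le_rfl
    exact Or.inr (Prod.ext (c1.trans qm) (le_antisymm (d4.trans h2) c2))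
  · linarith
  · exact (H.ul hk'.le hk.le d2 d3 c1 c4 (by omega)).elim
  · have h1 := H.hr.le (s := (k + 2) / 2) (by omega) le_rfl
    have h2 := H.hb.le (s := (k + 1) / 2) (by omega) le_rfl
    exact Or.inl (Prod.ext (le_antisymm c2 (by simp only [stp]; linarith))
      (le_antisymm c4 (by simp only [stp]; linarith)))
  · exact (same_chain H.hr H.hb hk hk' (by omega) c1 c2 c3 c4 d1 d2 d3 d4).symm
  · have := H.hr.le_of (s := (k + 1) / 2) (t := 0) (by omega) (by linarith)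
    obtain rfl : k = 0 := by omega
    simp only [zero_add, Nat.reduceDiv] at c4
    exact Or.inr (Prod.ext (d1.trans q0) (le_antisymm c4 d2))
  · have h2 := H.ha.le (Nat.zero_le (k' / 2)) (by omega)
    exact Or.inr (Prod.ext c1 (le_antisymm c3 (h2.trans d3)))
  · linarith
  · have := H.hr.le_of (s := (k' + 1) / 2) (t := 0) (by omega) (by linarith)
    obtain rfl : k' = 0 := by omega
    simp only [zero_add, Nat.reduceDiv] at d4
    exact Or.inl (Prod.ext (c1.trans q0) (le_antisymm d4 c2))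
  · omega

lemma stp_det (hp : Inc (μ + 1) p) (ha : Inc μ a) {k : ℕ} (hk : k + 2 ≤ 2 * μ + 1) :
    det3 (stp p a k) (stp p a (k + 1)) (stp p a (k + 2)) ≠ 0 := by
  rcases Nat.even_or_odd' k with ⟨t, rfl | rfl⟩
  · have h1 := hp t (t + 1) (by omega) (by omega)
    have h2 := ha t (t + 1) (by omega) (by omega)
    simp only [det3, stp, show (2 * t + 1) / 2 = t by omega, show 2 * t / 2 = t by omega,
      show (2 * t + 1 + 1) / 2 = t + 1 by omega, show (2 * t + 2 + 1) / 2 = t + 1 by omega]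
    nlinarith [mul_pos (sub_pos.2 h1) (sub_pos.2 h2)]
  · have h1 := hp (t + 1) (t + 2) (by omega) (by omega)
    have h2 := ha t (t + 1) (by omega) (by omega)
    simp only [det3, stp, show (2 * t + 1) / 2 = t by omega,
      show (2 * t + 1 + 1) / 2 = t + 1 by omega, show (2 * t + 1 + 1 + 1) / 2 = t + 1 by omega,
      show (2 * t + 1 + 2 + 1) / 2 = t + 2 by omega]
    nlinarith [mul_pos (sub_pos.2 h1) (sub_pos.2 h2)]

theorem St.simple (H : St μ p r a b) :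
    IsSimplePolygon (2 * (2 * μ + 1) + 2) (vx (stp p a) (stp r b) (2 * μ + 1)) := by
  refine ⟨by omega, H.inj, ?_, ?_⟩
  · intro i hc
    have hd := det_of_collinear hc
    have e : i + 2 = i + 1 + 1 := by ring
    rw [e] at hd
    have q0 := H.p0
    have qm := H.pm
    have e1 : (2 * μ + 1 + 1) / 2 = μ + 1 := by omega
    have e2 : (2 * μ + 1) / 2 = μ := by omega
    have e3 : 2 * μ / 2 = μ := by omega
    rcases vx_cases (stp p a) (stp r b) (2 * μ + 1) i with ⟨k, hk, v1, w1, a1, a2⟩ |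
        ⟨v1, w1, a1, a2⟩ | ⟨k, hk, v1, w1, a1, a2⟩ | ⟨v1, w1, a1, a2⟩ <;>
      rcases vx_cases (stp p a) (stp r b) (2 * μ + 1) (i + 1) with ⟨k', hk', v2, -, -, b2⟩ |
        ⟨v2, -, -, b2⟩ | ⟨k', hk', v2, -, -, b2⟩ | ⟨v2, -, -, b2⟩ <;>
      first
      | omega
      | rw [a1, a2, b2] at hd
    · obtain rfl : k' = k + 1 := by omega
      exact stp_det H.hp H.ha (by omega) hd
    · obtain rfl : k = 2 * μ := by omega
      simp only [det3, stp, e1, e2, e3] at hd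
      nlinarith [mul_pos (sub_pos.2 (H.hp μ (μ + 1) (by omega) le_rfl)) (sub_pos.2 H.hi)]
    · obtain rfl : k' = 2 * μ := by omega
      simp only [det3, stp, e1, e2, e3, ← qm] at hd
      have := H.hr μ (μ + 1) (by omega) le_rfl
      nlinarith [mul_pos (sub_pos.2 (qm ▸ this)) (sub_pos.2 H.hi)]
    · obtain rfl : k = k' + 1 := by omega
      apply stp_det H.hr H.hb (k := k') (by omega)
      unfold det3 at hd ⊢
      linear_combination -hd
    · obtain rfl : k = 0 := by omega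
      simp only [det3, stp, zero_add, Nat.reduceAdd, Nat.reduceDiv, q0] at hd
      nlinarith [mul_pos (sub_pos.2 (H.hr 0 1 (by omega) (by omega))) (sub_pos.2 H.lo)]
    · obtain rfl : k' = 0 := by omega
      simp only [det3, stp, zero_add, Nat.reduceAdd, Nat.reduceDiv, ← q0] at hd
      nlinarith [mul_pos (sub_pos.2 (H.hp 0 1 (by omega) (by omega))) (sub_pos.2 H.lo)]
  · rintro i j hij w ⟨hi, hj⟩
    exact ⟨H.one_side i j hij hi hj, H.one_side j i hij.symm hj hi⟩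

theorem St.orth (H : St μ p r a b) (i : ZMod (2 * (2 * μ + 1) + 2)) :
    (vx (stp p a) (stp r b) (2 * μ + 1) i).1 = (vx (stp p a) (stp r b) (2 * μ + 1) (i + 1)).1 ∨
    (vx (stp p a) (stp r b) (2 * μ + 1) i).2 = (vx (stp p a) (stp r b) (2 * μ + 1) (i + 1)).2 := by
  obtain ⟨w1, w2, w3, w4⟩ := H.walls
  rcases vx_cases (stp p a) (stp r b) (2 * μ + 1) i with ⟨k, -, -, -, a1, a2⟩ | ⟨-, -, a1, a2⟩ |
    ⟨k, -, -, -, a1, a2⟩ | ⟨-, -, a1, a2⟩ <;> rw [a1, a2]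
  · exact stp_axis p a k
  · exact Or.inl w3.symm
  · exact (stp_axis r b k).imp Eq.symm Eq.symm
  · exact Or.inl w1

end Pool.Agent.P.MP_fe41f2_co.Orth
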