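import Mathlib
import Pool.Agent.P.MP_fe41f2_co.OrA

set_option autoImplicit false

namespace Pool.Agent.P.MP_fe41f2_co.Orth

open Set

variable {μ : ℕ} {p r a b : ℕ → ℝ}

lemma St.box (H : St μ p r a b) {w : ℝ × ℝ} {k k' l l' : ℕ} (hk : k ≤ 2 * μ + 1)
    (hk' : k' ≤ 2 * μ + 1) (hl : l ≤ 2 * μ + 1) (hl' : l' ≤ 2 * μ + 1) (e1 : k' ≤ k + 1)
    (e2 : l' ≤ l + 1) (h1 : (stp p a k).1 ≤ w.1) (h2 : w.2 ≤ (stp p a k').2)
    (h3 : w.1 ≤ (stp r b l').1) (h4 : (stp r b l).2 ≤ w.2) : w ∈ PP μ p r a b := by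
  simp only [stp] at h1 h2 h3 h4
  refine ⟨(H.hp.le (Nat.zero_le _) (by omega)).trans h1, ?_,
    (H.hb.le (Nat.zero_le _) (by omega)).trans h4, h2.trans (H.ha.le (by omega) le_rfl),
    fun t ht => ?_, fun t ht => ?_⟩
  · rw [H.pm]; exact h3.trans (H.hr.le (by omega) le_rfl)
  · by_cases c : 2 * t + 1 ≤ k
    · exact Or.inl ((H.hp.le (by omega) (by omega)).trans h1)
    · exact Or.inr (h2.trans (H.ha.le (by omega) ht))
  · by_cases c : 2 * t ≤ l
    · exact Or.inr ((H.hb.le (by omega) (by omega)).trans h4)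
    · exact Or.inl (h3.trans (H.hr.le (by omega) (by omega)))

lemma St.curve_sub (H : St μ p r a b) :
    curve (2 * (2 * μ + 1) + 2) (vx (stp p a) (stp r b) (2 * μ + 1)) ⊆ PP μ p r a b := by
  intro w hw
  obtain ⟨i, hi⟩ := mem_iUnion.1 hw
  have e1 : (2 * μ + 1 + 1) / 2 = μ + 1 := by omega
  have e2 : (2 * μ + 1) / 2 = μ := by omega
  have e3 : 2 * μ / 2 = μ := by omega
  have q0 := H.p0
  have qm := H.pm
  have q1 := H.sep
  have q2 := H.lo
  have q3 := H.hi
  rcases H.edge i hi with ⟨k, hk, -, -, -, c1, c2, c3, c4⟩ | ⟨-, -, -, c1, c2, c3⟩ |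
      ⟨k, hk, -, -, -, c1, c2, c3, c4⟩ | ⟨-, -, -, c1, c2, c3⟩
  · by_cases c : k = 2 * μ
    · subst c
      refine H.box (k := 2 * μ) (k' := 2 * μ + 1) (l := 2 * μ + 1) (l' := 2 * μ + 1) (by omega)
        le_rfl le_rfl le_rfl le_rfl (by omega) c1 c4 ?_ ?_ <;> simp only [stp, e1, e2]
      · rw [show (2 * μ + 2) / 2 = μ + 1 by omega] at c2; linarith
      · rw [e3] at c3; linarith
    · have h1 := H.hp.le (s := (k + 2) / 2) (t := μ) (by omega) (by omega)
      have h2 := H.ha.le (Nat.zero_le (k / 2)) (by omega)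
      refine H.box (k := k) (k' := k + 1) (l := 0) (l' := 1) (by omega) (by omega) (by omega)
        (by omega) le_rfl le_rfl c1 c4 ?_ ?_ <;>
        simp only [stp, Nat.reduceAdd, Nat.reduceDiv] <;> linarith
  · refine H.box (k := 2 * μ + 1) (k' := 2 * μ + 1) (l := 2 * μ + 1) (l' := 2 * μ + 1) le_rfl
      le_rfl le_rfl le_rfl (by omega) (by omega) ?_ ?_ ?_ ?_ <;> simp only [stp, e1, e2] <;> linarith
  · by_cases c : k = 0
    · subst c
      simp only [zero_add, Nat.reduceDiv] at c1 c2 c3 c4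
      refine H.box (k := 0) (k' := 0) (l := 0) (l' := 1) (by omega) (by omega) (by omega)
        (by omega) (by omega) le_rfl ?_ ?_ ?_ ?_ <;>
        simp only [stp, zero_add, Nat.reduceAdd, Nat.reduceDiv] <;> linarith
    · have h1 := H.hr.le (s := 1) (t := (k + 1) / 2) (by omega) (by omega)
      have h2 := H.hb.le (s := (k + 1) / 2) (t := μ) (by omega) le_rfl
      refine H.box (k := 2 * μ) (k' := 2 * μ) (l := k) (l' := k + 1) (by omega) (by omega)
        (by omega) (by omega) (by omega) le_rfl ?_ ?_ c2 c3 <;> simp only [stp, e2, e3] <;> linarith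
  · refine H.box (k := 0) (k' := 0) (l := 0) (l' := 0) (by omega) (by omega) (by omega)
      (by omega) (by omega) (by omega) ?_ ?_ ?_ ?_ <;>
      simp only [stp, zero_add, Nat.reduceDiv] <;> linarith

lemma St.mem_up (_H : St μ p r a b) {k : ℕ} (hk : k < 2 * μ + 1) {w : ℝ × ℝ}
    (h1 : (stp p a k).1 ≤ w.1) (h2 : w.1 ≤ (stp p a (k + 1)).1) (h3 : (stp p a k).2 ≤ w.2)
    (h4 : w.2 ≤ (stp p a (k + 1)).2) :
    w ∈ curve (2 * (2 * μ + 1) + 2) (vx (stp p a) (stp r b) (2 * μ + 1)) := by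
  obtain ⟨i, hi⟩ := exists_val (K := 2 * μ + 1) k (by omega)
  refine mem_iUnion.2 ⟨i, ?_⟩
  rcases vx_cases (stp p a) (stp r b) (2 * μ + 1) i with ⟨k', hk', v1, -, a1, a2⟩ |
    ⟨v1, -, a1, a2⟩ | ⟨k', hk', v1, -, a1, a2⟩ | ⟨v1, -, a1, a2⟩ <;> try omega
  obtain rfl : k' = k := by omega
  rw [a1, a2]
  exact box_seg (stp_axis p a k') h1 h2 h3 h4

lemma St.mem_lo (_H : St μ p r a b) {k : ℕ} (hk : k < 2 * μ + 1) {w : ℝ × ℝ}
    (h1 : (stp r b k).1 ≤ w.1) (h2 : w.1 ≤ (stp r b (k + 1)).1) (h3 : (stp r b k).2 ≤ w.2)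
    (h4 : w.2 ≤ (stp r b (k + 1)).2) :
    w ∈ curve (2 * (2 * μ + 1) + 2) (vx (stp p a) (stp r b) (2 * μ + 1)) := by
  obtain ⟨i, hi⟩ := exists_val (K := 2 * μ + 1) (2 * (2 * μ + 1) - k) (by omega)
  refine mem_iUnion.2 ⟨i, ?_⟩
  rcases vx_cases (stp p a) (stp r b) (2 * μ + 1) i with ⟨k', hk', v1, -, a1, a2⟩ |
    ⟨v1, -, a1, a2⟩ | ⟨k', hk', v1, -, a1, a2⟩ | ⟨v1, -, a1, a2⟩ <;> try omega
  obtain rfl : k' = k := by omega
  rw [a1, a2, segment_symm]
  exact box_seg (stp_axis r b k') h1 h2 h3 h4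

lemma St.mem_left (H : St μ p r a b) {w : ℝ × ℝ} (h1 : w.1 = p 0) (h3 : b 0 ≤ w.2)
    (h4 : w.2 ≤ a 0) : w ∈ curve (2 * (2 * μ + 1) + 2) (vx (stp p a) (stp r b) (2 * μ + 1)) := by
  obtain ⟨i, hi⟩ := exists_val (K := 2 * μ + 1) (2 * (2 * μ + 1) + 1) (by omega)
  refine mem_iUnion.2 ⟨i, ?_⟩
  rcases vx_cases (stp p a) (stp r b) (2 * μ + 1) i with ⟨k', hk', v1, -, a1, a2⟩ |
    ⟨v1, -, a1, a2⟩ | ⟨k', hk', v1, -, a1, a2⟩ | ⟨v1, -, a1, a2⟩ <;> try omega
  rw [a1, a2]
  exact box_seg (Or.inl H.walls.1) (h1.trans H.p0).ge h1.le h3 h4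

lemma St.mem_right (H : St μ p r a b) {w : ℝ × ℝ} (h1 : w.1 = p (μ + 1)) (h3 : b μ ≤ w.2)
    (h4 : w.2 ≤ a μ) : w ∈ curve (2 * (2 * μ + 1) + 2) (vx (stp p a) (stp r b) (2 * μ + 1)) := by
  obtain ⟨i, hi⟩ := exists_val (K := 2 * μ + 1) (2 * μ + 1) (by omega)
  refine mem_iUnion.2 ⟨i, ?_⟩
  rcases vx_cases (stp p a) (stp r b) (2 * μ + 1) i with ⟨k', hk', v1, -, a1, a2⟩ |
    ⟨v1, -, a1, a2⟩ | ⟨k', hk', v1, -, a1, a2⟩ | ⟨v1, -, a1, a2⟩ <;> try omega
  rw [a1, a2, segment_symm]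
  have e1 : (2 * μ + 1 + 1) / 2 = μ + 1 := by omega
  have e2 : (2 * μ + 1) / 2 = μ := by omega
  refine box_seg (Or.inl H.walls.2.2.1) ?_ ?_ ?_ ?_ <;> simp only [stp, e1, e2] <;>
    linarith [H.pm]

/-- the points of `PP` at which all constraints are strict -/
def PO (μ : ℕ) (p r a b : ℕ → ℝ) : Set (ℝ × ℝ) :=
  {w | p 0 < w.1 ∧ w.1 < p (μ + 1) ∧ (∀ t ≤ μ, p (t + 1) < w.1 ∨ w.2 < a t) ∧
    ∀ t ≤ μ, w.1 < r t ∨ b t < w.2}

lemma St.strict (H : St μ p r a b) {w : ℝ × ℝ} (hw : w ∈ PP μ p r a b)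
    (hc : w ∉ curve (2 * (2 * μ + 1) + 2) (vx (stp p a) (stp r b) (2 * μ + 1))) :
    w ∈ PO μ p r a b := by
  obtain ⟨c1, c2, c3, c4, c5, c6⟩ := hw
  have x0 : p 0 < w.1 := by
    refine lt_of_le_of_ne c1 fun e => hc (H.mem_left e.symm c3 ?_)
    exact (c5 0 (by omega)).resolve_left (not_le.2 (e ▸ H.hp 0 1 (by omega) (by omega)))
  have x1 : w.1 < p (μ + 1) := by
    refine lt_of_le_of_ne c2 fun e => hc (H.mem_right e ?_ c4)
    refine (c6 μ le_rfl).resolve_left (not_le.2 ?_)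
    rw [e, H.pm]; exact H.hr _ _ (by omega) le_rfl
  refine ⟨x0, x1, fun t ht => ?_, fun t ht => ?_⟩ <;> by_contra hn <;> push Not at hn <;>
    obtain ⟨n1, n2⟩ := hn <;> apply hc
  · rcases n1.eq_or_lt with e | e
    · have h1 : t + 1 < μ + 1 := H.hp.lt_of (by omega) (e ▸ x1)
      have h2 := (c5 (t + 1) (by omega)).resolve_left
        (not_le.2 (e ▸ H.hp (t + 1) (t + 1 + 1) (by omega) (by omega)))
      refine H.mem_up (k := 2 * t + 1) (by omega) ?_ ?_ ?_ ?_ <;>
        simp only [stp, show (2 * t + 1) / 2 = t by omega,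
          show (2 * t + 1 + 1) / 2 = t + 1 by omega,
          show (2 * t + 1 + 1 + 1) / 2 = t + 1 by omega] <;> linarith
    · have h1 := (c5 t ht).resolve_left (not_le.2 e)
      have h2 : p t ≤ w.1 := by
        rcases t with _ | t
        · exact c1
        · exact (c5 t (by omega)).resolve_right
            (not_le.2 ((H.ha t (t + 1) (by omega) ht).trans_le n2))
      refine H.mem_up (k := 2 * t) (by omega) ?_ ?_ ?_ ?_ <;>
        simp only [stp, show (2 * t + 1) / 2 = t by omega, show 2 * t / 2 = t by omega,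
          show (2 * t + 1 + 1) / 2 = t + 1 by omega] <;> linarith
  · rcases n1.eq_or_lt with e | e
    · have h1 : 0 < t := H.hr.lt_of (by omega) (by rw [← H.p0, e]; exact x0)
      obtain ⟨t, rfl⟩ : ∃ s, t = s + 1 := ⟨t - 1, by omega⟩
      have h2 := (c6 t (by omega)).resolve_left
        (not_le.2 (e ▸ H.hr t (t + 1) (by omega) (by omega)))
      refine H.mem_lo (k := 2 * t + 1) (by omega) ?_ ?_ ?_ ?_ <;>
        simp only [stp, show (2 * t + 1) / 2 = t by omega,
          show (2 * t + 1 + 1) / 2 = t + 1 by omega,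
          show (2 * t + 1 + 1 + 1) / 2 = t + 1 by omega] <;> linarith
    · have h1 := (c6 t ht).resolve_left (not_le.2 e)
      have h2 : w.1 ≤ r (t + 1) := by
        rcases ht.eq_or_lt with rfl | h
        · exact H.pm ▸ c2
        · exact (c6 (t + 1) h).resolve_right
            (not_le.2 (n2.trans_lt (H.hb t (t + 1) (by omega) h)))
      refine H.mem_lo (k := 2 * t) (by omega) ?_ ?_ ?_ ?_ <;>
        simp only [stp, show (2 * t + 1) / 2 = t by omega, show 2 * t / 2 = t by omega,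
          show (2 * t + 1 + 1) / 2 = t + 1 by omega] <;> linarith

lemma PP_closed (μ : ℕ) (p r a b : ℕ → ℝ) : IsClosed (PP μ p r a b) := by
  have h1 : IsClosed {w : ℝ × ℝ | ∀ t ≤ μ, p (t + 1) ≤ w.1 ∨ w.2 ≤ a t} := by
    simp only [ofPred_forall]
    exact isClosed_iInter fun t => isClosed_iInter fun _ =>
      (isClosed_le continuous_const continuous_fst).union
        (isClosed_le continuous_snd continuous_const)
  have h2 : IsClosed {w : ℝ × ℝ | ∀ t ≤ μ, w.1 ≤ r t ∨ b t ≤ w.2} := by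
    simp only [ofPred_forall]
    exact isClosed_iInter fun t => isClosed_iInter fun _ =>
      (isClosed_le continuous_fst continuous_const).union
        (isClosed_le continuous_const continuous_snd)
  exact (isClosed_le continuous_const continuous_fst).inter
    ((isClosed_le continuous_fst continuous_const).inter
      ((isClosed_le continuous_const continuous_snd).inter
        ((isClosed_le continuous_snd continuous_const).inter (h1.inter h2))))

lemma PO_open (μ : ℕ) (p r a b : ℕ → ℝ) : IsOpen (PO μ p r a b) := by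
  have h1 : IsOpen {w : ℝ × ℝ | ∀ t ≤ μ, p (t + 1) < w.1 ∨ w.2 < a t} := by
    simp only [ofPred_forall]
    exact (Set.finite_Iic μ).isOpen_biInter fun t _ =>
      (isOpen_lt continuous_const continuous_fst).union (isOpen_lt continuous_snd continuous_const)
  have h2 : IsOpen {w : ℝ × ℝ | ∀ t ≤ μ, w.1 < r t ∨ b t < w.2} := by
    simp only [ofPred_forall]
    exact (Set.finite_Iic μ).isOpen_biInter fun t _ =>
      (isOpen_lt continuous_fst continuous_const).union (isOpen_lt continuous_const continuous_snd)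
  exact (isOpen_lt continuous_const continuous_fst).inter
    ((isOpen_lt continuous_fst continuous_const).inter (h1.inter h2))

lemma ray2 (F : Set (ℝ × ℝ)) (w : ℝ × ℝ) (e : ℝ) (he : e = 1 ∨ e = -1)
    (hr : ∀ t : ℝ, 0 ≤ t → (w.1 - e * t, w.2 + e * t) ∈ F) :
    ¬ Bornology.IsBounded (connectedComponentIn F w) := by
  intro hb
  have hc : IsPreconnected ((fun t : ℝ => (w.1 - e * t, w.2 + e * t)) '' Ici 0) :=
    isPreconnected_Ici.image _ (by fun_prop)
  have hs : (fun t : ℝ => (w.1 - e * t, w.2 + e * t)) '' Ici 0 ⊆ connectedComponentIn F w := by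
    apply hc.subset_connectedComponentIn
    · exact ⟨0, by simp, by simp⟩
    · rintro q ⟨t, ht, rfl⟩; exact hr t ht
  obtain ⟨R, hR⟩ := (hb.subset hs).exists_norm_le
  have h1 := hR _ ⟨|R| + |w.2| + 1, by simp only [mem_Ici]; positivity, rfl⟩
  have h2 := (norm_snd_le _).trans h1
  simp only [Real.norm_eq_abs] at h2
  have h3 := le_abs_self R
  have h4 := le_abs_self w.2
  have h5 := neg_abs_le w.2
  rw [abs_le] at h2
  rcases he with rfl | rfl <;> linarith [h2.1, h2.2]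

theorem St.region_eq (H : St μ p r a b) :
    region (2 * (2 * μ + 1) + 2) (vx (stp p a) (stp r b) (2 * μ + 1)) = PP μ p r a b := by
  ext w
  unfold region
  simp only [mem_union, mem_ofPred_eq]
  constructor
  · rintro (hw | ⟨-, hw⟩)
    · exact H.curve_sub hw
    · by_contra hn
      by_cases h3 : p 0 ≤ w.1 ∧ w.2 ≤ a μ ∧ ∀ t ≤ μ, p (t + 1) ≤ w.1 ∨ w.2 ≤ a t
      · refine ray2 _ w (-1) (Or.inr rfl) ?_ hw
        intro s hs hc
        obtain ⟨-, c2, c3, -, -, c6⟩ := H.curve_sub hc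
        simp only at c2 c3 c6
        exact hn ⟨h3.1, by linarith, by linarith, h3.2.1, h3.2.2,
          fun t ht => (c6 t ht).imp (fun h => by linarith) (fun h => by linarith)⟩
      · refine ray2 _ w 1 (Or.inl rfl) ?_ hw
        intro s hs hc
        obtain ⟨c1, -, -, c4, c5, -⟩ := H.curve_sub hc
        simp only at c1 c4 c5
        exact h3 ⟨by linarith, by linarith,
          fun t ht => (c5 t ht).imp (fun h => by linarith) (fun h => by linarith)⟩
  · intro hw
    by_cases hc : w ∈ curve (2 * (2 * μ + 1) + 2) (vx (stp p a) (stp r b) (2 * μ + 1))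
    · exact Or.inl hc
    have hb : Bornology.IsBounded (PP μ p r a b) :=
      ((Metric.isBounded_Icc (p 0) (p (μ + 1))).prod (Metric.isBounded_Icc (b 0) (a μ))).subset
        fun q hq => ⟨⟨hq.1, hq.2.1⟩, hq.2.2.1, hq.2.2.2.1⟩
    have hIs : PO μ p r a b ⊆ PP μ p r a b := by
      rintro q ⟨c1, c2, c3, c4⟩
      refine ⟨c1.le, c2.le, ?_, ?_, fun t ht => (c3 t ht).imp le_of_lt le_of_lt,
        fun t ht => (c4 t ht).imp le_of_lt le_of_lt⟩
      · exact ((c4 0 (by omega)).resolve_left (not_lt.2 (H.p0 ▸ c1.le))).le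
      · exact ((c3 μ le_rfl).resolve_left (not_lt.2 c2.le)).le
    refine Or.inr ⟨hc, hb.subset (subset_trans ?_ hIs)⟩
    refine IsPreconnected.subset_left_of_subset_union (PO_open μ p r a b)
      (PP_closed μ p r a b).isOpen_compl (disjoint_compl_right.mono_left hIs) ?_
      ⟨w, mem_connectedComponentIn hc, H.strict hw hc⟩ isPreconnected_connectedComponentIn
    intro q hq
    have hq' := connectedComponentIn_subset _ _ hq
    by_cases hs : q ∈ PP μ p r a b
    · exact Or.inl (H.strict hs hq')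
    · exact Or.inr hs

/-- the left part is seen from lower vertex `1`, the right part from upper vertex `2μ` -/
theorem St.guards (H : St μ p r a b) {x : ℝ × ℝ} (hx : x ∈ PP μ p r a b) :
    segment ℝ (stp r b 1) x ⊆ PP μ p r a b ∨ segment ℝ (stp p a (2 * μ)) x ⊆ PP μ p r a b := by
  obtain ⟨c1, c2, c3, c4, c5, c6⟩ := hx
  rcases le_total x.1 (r 1) with h | h
  · left
    rintro _ ⟨s, t, hs, ht, hst, rfl⟩
    obtain rfl : s = 1 - t := by linarith
    have e1 : ((1 - t) • stp r b 1 + t • x).1 = (1 - t) * r 1 + t * x.1 := by simp [stp]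
    have e2 : ((1 - t) • stp r b 1 + t • x).2 = (1 - t) * b 0 + t * x.2 := by simp [stp]
    have h1 := H.hr.le (s := 1) (t := μ + 1) (by omega) le_rfl
    have x1 : x.1 ≤ (1 - t) * r 1 + t * x.1 := by nlinarith
    have x2 : (1 - t) * r 1 + t * x.1 ≤ r 1 := by nlinarith
    have y1 : b 0 ≤ (1 - t) * b 0 + t * x.2 := by nlinarith
    have y2 : (1 - t) * b 0 + t * x.2 ≤ x.2 := by nlinarith
    simp only [PP, mem_ofPred_eq, e1, e2]
    refine ⟨by linarith, by linarith [H.pm], y1, by linarith,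
      fun u hu => (c5 u hu).imp (fun h => by linarith) (fun h => by linarith), fun u hu => ?_⟩
    rcases u with _ | u
    · exact Or.inr y1
    · exact Or.inl (x2.trans (H.hr.le (by omega) (by omega)))
  · right
    rintro _ ⟨s, t, hs, ht, hst, rfl⟩
    obtain rfl : s = 1 - t := by linarith
    have e1 : ((1 - t) • stp p a (2 * μ) + t • x).1 = (1 - t) * p μ + t * x.1 := by
      simp [stp, show (2 * μ + 1) / 2 = μ by omega]
    have e2 : ((1 - t) • stp p a (2 * μ) + t • x).2 = (1 - t) * a μ + t * x.2 := by simp [stp]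
    have h0 := H.sep
    have h1 := H.hp.le (s := 0) (t := μ) (by omega) (by omega)
    have x1 : p μ ≤ (1 - t) * p μ + t * x.1 := by nlinarith
    have x2 : (1 - t) * p μ + t * x.1 ≤ x.1 := by nlinarith
    have y1 : x.2 ≤ (1 - t) * a μ + t * x.2 := by nlinarith
    have y2 : (1 - t) * a μ + t * x.2 ≤ a μ := by nlinarith
    simp only [PP, mem_ofPred_eq, e1, e2]
    refine ⟨by linarith, by linarith, by linarith, y2, fun u hu => ?_,
      fun u hu => (c6 u hu).imp (fun h => by linarith) (fun h => by linarith)⟩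
    rcases hu.eq_or_lt with rfl | hu
    · exact Or.inr y2
    · exact Or.inl ((H.hp.le (by omega) (by omega)).trans x1)

end Pool.Agent.P.MP_fe41f2_co.Orth
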