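import Mathlib
import Pool.Agent.P.MP_fe41f2_co.OrB

set_option autoImplicit false

namespace Pool.Agent.P.MP_fe41f2_co.Orth

open Set G2

lemma d_aff (A B : ℝ × ℝ) : Aff (det3 A B) := by
  intro x y c
  simp [det3]
  ring

lemma d_swap (A B w : ℝ × ℝ) : det3 B A w = -det3 A B w := by unfold det3; ring

lemma d_base {A B E : ℝ × ℝ} (hE : E = A ∨ E = B) (w : ℝ × ℝ) :
    det3 A B w = (B.1 - A.1) * (w.2 - E.2) + (A.2 - B.2) * (w.1 - E.1) := by
  rcases hE with rfl | rfl <;> unfold det3 <;> ring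

lemma d_gt {A B E w : ℝ × ℝ} (hx : A.1 ≤ B.1) (hy : B.2 < A.2) (hE : E = A ∨ E = B)
    (h1 : E.1 ≤ w.1) (h2 : E.2 ≤ w.2) (h3 : E.1 < w.1 ∨ (E.2 < w.2 ∧ A.1 < B.1)) :
    0 < det3 A B w := by
  rw [d_base hE]
  have e1 := mul_nonneg (sub_nonneg.2 hx) (sub_nonneg.2 h2)
  have e2 := mul_nonneg (sub_nonneg.2 hy.le) (sub_nonneg.2 h1)
  rcases h3 with h | ⟨h, h'⟩
  · have := mul_pos (sub_pos.2 hy) (sub_pos.2 h); linarith
  · have := mul_pos (sub_pos.2 h') (sub_pos.2 h); linarith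

lemma d_lt {A B E w : ℝ × ℝ} (hx : A.1 ≤ B.1) (hy : B.2 < A.2) (hE : E = A ∨ E = B)
    (h1 : w.1 ≤ E.1) (h2 : w.2 ≤ E.2) (h3 : w.1 < E.1 ∨ (w.2 < E.2 ∧ A.1 < B.1)) :
    det3 A B w < 0 := by
  rw [d_base hE]
  have e1 := mul_nonneg (sub_nonneg.2 hx) (sub_nonneg.2 h2)
  have e2 := mul_nonneg (sub_nonneg.2 hy.le) (sub_nonneg.2 h1)
  rcases h3 with h | ⟨h, h'⟩
  · have := mul_pos (sub_pos.2 hy) (sub_pos.2 h); linarith
  · have := mul_pos (sub_pos.2 h') (sub_pos.2 h); linarith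

lemma d_self {A B E : ℝ × ℝ} (hE : E = A ∨ E = B) : det3 A B E = 0 := by
  rw [d_base hE]; ring

variable {μ : ℕ} {p r a b : ℕ → ℝ}

/-- the segment from upper vertex `k` to lower vertex `l` goes down and to the right -/
structure Rung (μ : ℕ) (a b : ℕ → ℝ) (k l : ℕ) : Prop where
  hk : k ≤ 2 * μ + 1
  hl : l ≤ 2 * μ + 1
  z0 : l = 0 → k = 0
  zK : k = 2 * μ + 1 → l = 2 * μ + 1
  hy : b (l / 2) < a (k / 2)

lemma St.rs (H : St μ p r a b) {k l : ℕ} (h0 : 0 < l) (hl : l ≤ 2 * μ + 1) (h1 : k < 2 * μ + 1) :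
    (stp p a k).1 < (stp r b l).1 :=
  (H.hp.le (t := μ) (by omega) (by omega)).trans_lt
    (H.sep.trans_le (H.hr.le (by omega) (by omega)))

lemma St.rx (H : St μ p r a b) {k l : ℕ} (R : Rung μ a b k l) :
    (stp p a k).1 ≤ (stp r b l).1 := by
  by_cases c0 : l = 0
  · rw [R.z0 c0, c0]; exact H.walls.1.ge
  by_cases c1 : k = 2 * μ + 1
  · rw [R.zK c1, c1]; exact H.walls.2.2.1.ge
  · exact (H.rs (by omega) R.hl (by have := R.hk; omega)).le

lemma St.gtU (H : St μ p r a b) {k l : ℕ} (R : Rung μ a b k l) {j : ℕ} (h : k < j)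
    (hj : j ≤ 2 * μ + 1) : 0 < det3 (stp p a k) (stp r b l) (stp p a j) := by
  have := stp_le H.hp H.ha h.le hj
  refine d_gt (H.rx R) R.hy (Or.inl rfl) this.1 this.2 ((stp_lt H.hp H.ha h hj).imp id ?_)
  rintro ⟨c1, c2, c3⟩
  exact ⟨c1, H.rs (by have := R.z0; omega) R.hl (by omega)⟩

lemma St.gtL (H : St μ p r a b) {k l : ℕ} (R : Rung μ a b k l) {j : ℕ} (h : l < j)
    (hj : j ≤ 2 * μ + 1) : 0 < det3 (stp p a k) (stp r b l) (stp r b j) := by
  have := stp_le H.hr H.hb h.le hj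
  refine d_gt (H.rx R) R.hy (Or.inr rfl) this.1 this.2 ((stp_lt H.hr H.hb h hj).imp id ?_)
  rintro ⟨c1, c2, c3⟩
  exact ⟨c1, H.rs c2 R.hl (by have := R.zK; have := R.hk; omega)⟩

lemma St.ltU (H : St μ p r a b) {k l : ℕ} (R : Rung μ a b k l) {j : ℕ} (h : j < k) :
    det3 (stp p a k) (stp r b l) (stp p a j) < 0 := by
  have := stp_le H.hp H.ha h.le R.hk
  refine d_lt (H.rx R) R.hy (Or.inl rfl) this.1 this.2 ((stp_lt H.hp H.ha h R.hk).imp id ?_)
  rintro ⟨c1, c2, c3⟩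
  exact ⟨c1, H.rs (by have := R.z0; omega) R.hl c3⟩

lemma St.ltL (H : St μ p r a b) {k l : ℕ} (R : Rung μ a b k l) {j : ℕ} (h : j < l) :
    det3 (stp p a k) (stp r b l) (stp r b j) < 0 := by
  have := stp_le H.hr H.hb h.le R.hl
  refine d_lt (H.rx R) R.hy (Or.inr rfl) this.1 this.2 ((stp_lt H.hr H.hb h R.hl).imp id ?_)
  rintro ⟨c1, c2, c3⟩
  exact ⟨c1, H.rs (by omega) R.hl (by have := R.zK; have := R.hk; omega)⟩

/-- a monotone path of rungs -/
structure Dn (μ : ℕ) (a b : ℕ → ℝ) (α β : ℕ → ℕ) : Prop extends IsPath (2 * μ + 1) α β where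
  rg : ∀ s ≤ 2 * (2 * μ + 1), Rung μ a b (α s) (β s)

def t4 (U L : ℕ → ℝ × ℝ) (α β : ℕ → ℕ) (s : ℕ) : Set (ℝ × ℝ) :=
  {U (α s), U (α (s + 1)), L (β s), L (β (s + 1))}

variable {α β : ℕ → ℕ}

lemma t4_cases (U L : ℕ → ℝ × ℝ) {n : ℕ} (h : IsPath n α β) {s : ℕ} (hs : s < 2 * n) :
    (α (s + 1) = α s + 1 ∧ β (s + 1) = β s ∧
      t4 U L α β s = {U (α s), L (β s), U (α s + 1)}) ∨
    (α (s + 1) = α s ∧ β (s + 1) = β s + 1 ∧
      t4 U L α β s = {U (α s), L (β s), L (β s + 1)}) := by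
  rcases h.step s hs with ⟨e1, e2⟩ | ⟨e1, e2⟩
  · left
    refine ⟨e1, e2, ?_⟩
    unfold t4
    rw [e1, e2]
    ext x; simp only [mem_insert_iff, mem_singleton_iff]; tauto
  · right
    refine ⟨e1, e2, ?_⟩
    unfold t4
    rw [e1, e2]
    ext x; simp only [mem_insert_iff, mem_singleton_iff]; tauto

lemma St.left (H : St μ p r a b) (h : Dn μ a b α β) {s u : ℕ} (hs : s + 1 ≤ u)
    (hu : u ≤ 2 * (2 * μ + 1)) :
    ∀ x ∈ t4 (stp p a) (stp r b) α β s, det3 (stp p a (α u)) (stp r b (β u)) x ≤ 0 := by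
  have h1 := h.toIsPath.mono hs hu
  have h2 := h.toIsPath.mono (s := s) (s' := u) (by omega) hu
  have up : ∀ k ≤ α u, det3 (stp p a (α u)) (stp r b (β u)) (stp p a k) ≤ 0 := fun k hk => by
    rcases hk.eq_or_lt with rfl | hk
    exacts [(d_self (Or.inl rfl)).le, (H.ltU (h.rg u hu) hk).le]
  have lo : ∀ k ≤ β u, det3 (stp p a (α u)) (stp r b (β u)) (stp r b k) ≤ 0 := fun k hk => by
    rcases hk.eq_or_lt with rfl | hk
    exacts [(d_self (Or.inr rfl)).le, (H.ltL (h.rg u hu) hk).le]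
  rintro x (rfl | rfl | rfl | rfl)
  exacts [up _ h2.1, up _ h1.1, lo _ h2.2, lo _ h1.2]

lemma St.right (H : St μ p r a b) (h : Dn μ a b α β) {s u : ℕ} (hu : u ≤ s)
    (hs : s < 2 * (2 * μ + 1)) :
    ∀ x ∈ t4 (stp p a) (stp r b) α β s, 0 ≤ det3 (stp p a (α u)) (stp r b (β u)) x := by
  have h1 := h.toIsPath.mono hu hs.le
  have h2 := h.toIsPath.mono (s := u) (s' := s + 1) (by omega) hs
  have h4 := h.toIsPath.le (s := s) hs.le
  have h5 := h.toIsPath.le (s := s + 1) hs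
  have R := h.rg u (by omega)
  have up : ∀ k, α u ≤ k → k ≤ 2 * μ + 1 →
      0 ≤ det3 (stp p a (α u)) (stp r b (β u)) (stp p a k) := fun k hk hk' => by
    rcases hk.eq_or_lt with rfl | hk
    exacts [(d_self (Or.inl rfl)).ge, (H.gtU R hk hk').le]
  have lo : ∀ k, β u ≤ k → k ≤ 2 * μ + 1 →
      0 ≤ det3 (stp p a (α u)) (stp r b (β u)) (stp r b k) := fun k hk hk' => by
    rcases hk.eq_or_lt with rfl | hk
    exacts [(d_self (Or.inr rfl)).ge, (H.gtL R hk hk').le]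
  rintro x (rfl | rfl | rfl | rfl)
  exacts [up _ h1.1 h4.1, up _ h2.1 h5.1, lo _ h1.2 h4.2, lo _ h2.2 h5.2]

lemma St.t4_sub (H : St μ p r a b) (h : Dn μ a b α β) {s : ℕ} (hs : s < 2 * (2 * μ + 1)) :
    convexHull ℝ (t4 (stp p a) (stp r b) α β s) ⊆ PP μ p r a b := by
  intro w hw
  have R := h.rg s hs.le
  have R' := h.rg (s + 1) hs
  have h6 := h.toIsPath.mono (s := s) (s' := s + 1) (by omega) hs
  have h7 := h.step s hs
  obtain ⟨u1, u2⟩ := stp_le H.hp H.ha h6.1 R'.hk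
  obtain ⟨l1, l2⟩ := stp_le H.hr H.hb h6.2 R'.hl
  have x1 := H.rx R
  have x2 := H.rx R'
  have y1 : (stp r b (β s)).2 < (stp p a (α s)).2 := R.hy
  have y2 : (stp r b (β (s + 1))).2 < (stp p a (α (s + 1))).2 := R'.hy
  obtain ⟨c1, c2⟩ := hull_x (α := (stp p a (α s)).1) (β := (stp r b (β (s + 1))).1) (by
    rintro x (rfl | rfl | rfl | rfl) <;> constructor <;> linarith) hw
  have c3 := hull_nonneg (aff_gen 0 (-1) (stp p a (α (s + 1))).2) (by
    rintro x (rfl | rfl | rfl | rfl) <;> linarith) hw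
  have c4 := hull_nonneg (aff_gen 0 1 (-(stp r b (β s)).2)) (by
    rintro x (rfl | rfl | rfl | rfl) <;> linarith) hw
  exact H.box R.hk R'.hk R.hl R'.hl (by omega) (by omega) c1 (by linarith) c2 (by linarith)

lemma St.cover (H : St μ p r a b) (h : Dn μ a b α β) {w : ℝ × ℝ} (hw : w ∈ PP μ p r a b) :
    ∃ s < 2 * (2 * μ + 1), w ∈ convexHull ℝ (t4 (stp p a) (stp r b) α β s) := by
  obtain ⟨c1, c2, c3, c4, c5, c6⟩ := hw
  obtain ⟨w1, w2, w3, w4⟩ := H.walls
  obtain ⟨s, hs, e1, e2⟩ := disc_ivt (fun s => det3 (stp p a (α s)) (stp r b (β s)) w)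
    (2 * (2 * μ + 1)) (by omega)
    (by
      simp only [h.a0, h.b0]
      rw [d_base (Or.inl rfl), w1, sub_self, zero_mul, zero_add]
      exact mul_nonneg (sub_nonneg.2 w2.le) (sub_nonneg.2 c1))
    (by
      simp only [h.a1, h.b1]
      rw [d_base (Or.inl rfl), w3, sub_self, zero_mul, zero_add]
      refine mul_nonpos_of_nonneg_of_nonpos (sub_nonneg.2 w4.le) (sub_nonpos.2 ?_)
      simpa only [stp, show (2 * μ + 1 + 1) / 2 = μ + 1 by omega] using c2)
  refine ⟨s, hs, ?_⟩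
  have R := h.rg s hs.le
  have R' := h.rg (s + 1) hs
  rcases t4_cases (stp p a) (stp r b) h.toIsPath hs with ⟨f1, f2, e⟩ | ⟨f1, f2, e⟩ <;> rw [e] <;>
    rw [f1, f2] at e2 R'
  · refine mem_hull_of_det 1 (by simpa using H.gtU R (lt_add_one _) R'.hk)
      (by linarith) (by rw [d_swap]; linarith) ?_
    have hk := R'.hk
    rcases Nat.even_or_odd' (α s) with ⟨t, e3 | e3⟩ <;> rw [e3] at R R' e1 e2 hk ⊢
    · have q1 : (2 * t + 1) / 2 = t := by omega
      have q2 : (2 * t + 1 + 1) / 2 = t + 1 := by omega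
      have q3 : 2 * t / 2 = t := by omega
      have : w.2 ≤ a t := by
        by_contra hc
        have t1 : t < μ := H.ha.lt_of (by omega) ((not_le.1 hc).trans_le c4)
        have := (c5 t t1.le).resolve_right hc
        refine absurd e2 (not_le.2 (d_gt (H.rx R') R'.hy (Or.inl rfl) ?_ ?_ (Or.inr ⟨?_,
          H.rs (by have := R'.z0; omega) R'.hl (by omega)⟩))) <;> simp only [stp, q1, q2] <;>
          linarith
      simp only [det3, stp, q1, q2, q3]
      nlinarith [mul_nonneg (sub_nonneg.2 this)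
        (sub_nonneg.2 (H.hp.le (s := t) (t := t + 1) (by omega) (by omega)))]
    · have q1 : (2 * t + 1) / 2 = t := by omega
      have q2 : (2 * t + 1 + 1) / 2 = t + 1 := by omega
      have q3 : (2 * t + 1 + 1 + 1) / 2 = t + 1 := by omega
      have : p (t + 1) ≤ w.1 := by
        by_contra hc
        have := (c5 t (by omega)).resolve_left hc
        refine absurd e1 (not_le.2 (d_lt (H.rx R) R.hy (Or.inl rfl) ?_ ?_ (Or.inl ?_))) <;>
          simp only [stp, q1, q2] <;> linarith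
      simp only [det3, stp, q1, q2, q3]
      nlinarith [mul_nonneg (sub_nonneg.2 this)
        (sub_nonneg.2 (H.ha.le (s := t) (t := t + 1) (by omega) (by omega)))]
  · refine mem_hull_of_det 1 (by simpa using H.gtL R (lt_add_one _) R'.hl)
      (by linarith) ?_ (by rw [d_swap]; linarith)
    have hl := R'.hl
    rcases Nat.even_or_odd' (β s) with ⟨t, e3 | e3⟩ <;> rw [e3] at R R' e1 e2 hl ⊢
    · have q1 : (2 * t + 1) / 2 = t := by omega
      have q2 : (2 * t + 1 + 1) / 2 = t + 1 := by omega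
      have q3 : 2 * t / 2 = t := by omega
      have : b t ≤ w.2 := by
        by_contra hc
        have t1 : 0 < t := H.hb.lt_of (by omega) (c3.trans_lt (not_le.1 hc))
        have := (c6 t (by omega)).resolve_right hc
        refine absurd e1 (not_le.2 (d_lt (H.rx R) R.hy (Or.inr rfl) ?_ ?_ (Or.inr ⟨?_,
          H.rs (by omega) R.hl (by have := R.zK; have := R.hk; omega)⟩))) <;>
          simp only [stp, q1, q3] <;> linarith
      simp only [det3, stp, q1, q2, q3]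
      nlinarith [mul_nonneg (sub_nonneg.2 this)
        (sub_nonneg.2 (H.hr.le (s := t) (t := t + 1) (by omega) (by omega)))]
    · have q1 : (2 * t + 1) / 2 = t := by omega
      have q2 : (2 * t + 1 + 1) / 2 = t + 1 := by omega
      have q3 : (2 * t + 1 + 1 + 1) / 2 = t + 1 := by omega
      have : w.1 ≤ r (t + 1) := by
        by_contra hc
        have := (c6 (t + 1) (by omega)).resolve_left hc
        refine absurd e2 (not_le.2 (d_gt (H.rx R') R'.hy (Or.inr rfl) ?_ ?_ (Or.inl ?_))) <;>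
          simp only [stp, q2, q3] <;> linarith
      simp only [det3, stp, q1, q2, q3]
      nlinarith [mul_nonneg (sub_nonneg.2 this)
        (sub_nonneg.2 (H.hb.le (s := t) (t := t + 1) (by omega) (by omega)))]

lemma St.not_int (H : St μ p r a b) {w : ℝ × ℝ}
    (hw : w ∈ range (vx (stp p a) (stp r b) (2 * μ + 1))) : w ∉ interior (PP μ p r a b) := by
  intro hi
  obtain ⟨k, hk, rfl | rfl⟩ := (range_vx _ _ _ w).1 hw
  · obtain ⟨c, hc, h⟩ := interior_step hi (p ((k + 1) / 2) - 1, a (k / 2) + 1)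
    have h4 := h.2.2.2.2.1 (k / 2) (by omega)
    have e1 : ((1 - c) • stp p a k + c • (p ((k + 1) / 2) - 1, a (k / 2) + 1)).1 =
        p ((k + 1) / 2) - c := by simp [stp]; ring
    have e2 : ((1 - c) • stp p a k + c • (p ((k + 1) / 2) - 1, a (k / 2) + 1)).2 =
        a (k / 2) + c := by simp [stp]; ring
    rw [e1, e2] at h4
    have := H.hp.le (s := (k + 1) / 2) (t := k / 2 + 1) (by omega) (by omega)
    rcases h4 with h4 | h4 <;> linarith
  · obtain ⟨c, hc, h⟩ := interior_step hi (r ((k + 1) / 2) + 1, b (k / 2) - 1)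
    have h4 := h.2.2.2.2.2 (k / 2) (by omega)
    have e1 : ((1 - c) • stp r b k + c • (r ((k + 1) / 2) + 1, b (k / 2) - 1)).1 =
        r ((k + 1) / 2) + c := by simp [stp]; ring
    have e2 : ((1 - c) • stp r b k + c • (r ((k + 1) / 2) + 1, b (k / 2) - 1)).2 =
        b (k / 2) - c := by simp [stp]; ring
    rw [e1, e2] at h4
    have := H.hr.le (s := k / 2) (t := (k + 1) / 2) (by omega) (by omega)
    rcases h4 with h4 | h4 <;> linarith

lemma St.vstrict (H : St μ p r a b) (h : Dn μ a b α β) {s : ℕ} (hs : s < 2 * (2 * μ + 1))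
    {w : ℝ × ℝ} (hw : w ∈ range (vx (stp p a) (stp r b) (2 * μ + 1)))
    (hh : w ∈ convexHull ℝ (t4 (stp p a) (stp r b) α β s)) : w ∈ t4 (stp p a) (stp r b) α β s := by
  have l1 := hull_nonpos (d_aff _ _) (H.left h (s := s) le_rfl hs) hh
  have l2 := hull_nonneg (d_aff _ _) (H.right h (s := s) le_rfl hs) hh
  have h6 := h.step s hs
  have R := h.rg s hs.le
  have R' := h.rg (s + 1) hs
  obtain ⟨k, hk, rfl | rfl⟩ := (range_vx _ _ _ w).1 hw
  · have a1 : α s ≤ k := not_lt.1 fun hc => absurd l2 (not_le.2 (H.ltU R hc))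
    have a2 : k ≤ α (s + 1) := not_lt.1 fun hc => absurd l1 (not_le.2 (H.gtU R' hc hk))
    have : k = α s ∨ k = α (s + 1) := by omega
    rcases this with rfl | rfl <;> simp [t4]
  · have a1 : β s ≤ k := not_lt.1 fun hc => absurd l2 (not_le.2 (H.ltL R hc))
    have a2 : k ≤ β (s + 1) := not_lt.1 fun hc => absurd l1 (not_le.2 (H.gtL R' hc hk))
    have : k = β s ∨ k = β (s + 1) := by omega
    rcases this with rfl | rfl <;> simp [t4]

lemma St.disj (H : St μ p r a b) (h : Dn μ a b α β) {s s' : ℕ} (hlt : s < s')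
    (hs' : s' < 2 * (2 * μ + 1)) :
    Disjoint (interior (convexHull ℝ (t4 (stp p a) (stp r b) α β s)))
      (interior (convexHull ℝ (t4 (stp p a) (stp r b) α β s'))) :=
  disj_of_aff (d_aff (stp p a (α (s + 1))) (stp r b (β (s + 1))))
    ((stp p a (α (s + 1))).1 + 1, (stp p a (α (s + 1))).2)
    (ne_of_gt (d_gt (H.rx (h.rg (s + 1) (by omega))) (h.rg (s + 1) (by omega)).hy (Or.inl rfl)
      (by simp) (by simp) (Or.inl (by simp))))
    (H.left h le_rfl (by omega)) (H.right h hlt hs')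

theorem St.isTri (H : St μ p r a b) (h : Dn μ a b α β) :
    IsTriangulation (PP μ p r a b) (range (vx (stp p a) (stp r b) (2 * μ + 1)))
      {t | ∃ s < 2 * (2 * μ + 1), t = t4 (stp p a) (stp r b) α β s} := by
  refine ⟨?_, ?_, ?_, ?_⟩
  · rintro t ⟨s, hs, rfl⟩
    have h1 := h.toIsPath.le (s := s + 1) hs
    have h2 := h.toIsPath.le (s := s) hs.le
    refine ⟨?_, ?_⟩
    · rintro x (rfl | rfl | rfl | rfl) <;> rw [range_vx]
      exacts [⟨_, h2.1, Or.inl rfl⟩, ⟨_, h1.1, Or.inl rfl⟩, ⟨_, h2.2, Or.inr rfl⟩,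
        ⟨_, h1.2, Or.inr rfl⟩]
    · rcases t4_cases (stp p a) (stp r b) h.toIsPath hs with ⟨f1, -, e⟩ | ⟨-, f2, e⟩ <;> rw [e]
      · exact ⟨_, _, _, rfl, fun hc =>
          (H.gtU (h.rg s hs.le) (lt_add_one _) (by omega)).ne' (det_of_collinear hc)⟩
      · exact ⟨_, _, _, rfl, fun hc =>
          (H.gtL (h.rg s hs.le) (lt_add_one _) (by omega)).ne' (det_of_collinear hc)⟩
  · rintro t ⟨s, hs, rfl⟩ t' ⟨s', hs', rfl⟩ hne
    rcases lt_trichotomy s s' with h1 | rfl | h1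
    · exact H.disj h h1 hs'
    · exact absurd rfl hne
    · exact (H.disj h h1 hs).symm
  · ext w
    simp only [mem_iUnion, exists_prop]
    constructor
    · rintro ⟨t, ⟨s, hs, rfl⟩, hw⟩
      exact H.t4_sub h hs hw
    · intro hw
      obtain ⟨s, hs, hw'⟩ := H.cover h hw
      exact ⟨_, ⟨s, hs, rfl⟩, hw'⟩
  · rintro t ⟨s, hs, rfl⟩ w hw
    exact ⟨fun hi => H.not_int hw (interior_mono (H.t4_sub h hs) hi), H.vstrict h hs hw⟩

theorem St.exists_tri (H : St μ p r a b) (φ : ℕ → ℕ)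
    (hm : ∀ k k', k ≤ k' → k' ≤ 2 * μ → φ k ≤ φ k') (h0 : 1 ≤ φ 0) (hK : φ (2 * μ) = 2 * μ + 1)
    (h1 : ∀ k ≤ 2 * μ, b (φ k / 2) < a (k / 2)) :
    ∃ T, IsTriangulation (PP μ p r a b) (range (vx (stp p a) (stp r b) (2 * μ + 1))) T ∧
      ∀ k ≤ 2 * μ, (∃ t ∈ T, stp p a k ∈ t ∧ stp r b (φ k) ∈ t) ∧
        ∀ c ≤ 2 * μ + 1, ∀ t ∈ T, stp p a k ∈ t → stp r b c ∈ t → c ≤ φ k := by
  set n := 2 * μ + 1 with hn
  set α : ℕ → ℕ := fun s => (walk n φ s).1 with hα
  set β : ℕ → ℕ := fun s => (walk n φ s).2 with hβ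
  have st : ∀ s, (α s < n ∧ φ (α s) ≤ β s ∧ α (s + 1) = α s + 1 ∧ β (s + 1) = β s) ∨
      (¬ (α s < n ∧ φ (α s) ≤ β s) ∧ α (s + 1) = α s ∧ β (s + 1) = β s + 1) := by
    intro s
    by_cases h : (walk n φ s).1 < n ∧ φ (walk n φ s).1 ≤ (walk n φ s).2
    · exact Or.inl ⟨h.1, h.2, by simp only [hα, walk, if_pos h], by simp only [hβ, walk, if_pos h]⟩
    · exact Or.inr ⟨h, by simp only [hα, walk, if_neg h], by simp only [hβ, walk, if_neg h]⟩
  have top : ∀ k < n, φ k ≤ n := fun k hk => by have := hm k (2 * μ) (by omega) le_rfl; omega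
  have inv : ∀ s ≤ 2 * n, α s + β s = s ∧ α s ≤ n ∧ β s ≤ n ∧ (α s < n → β s ≤ φ (α s)) ∧
      (β s = 0 → α s = 0) ∧ (α s = n → β s = n) := by
    intro s
    induction s with
    | zero => intro _; simp [hα, hβ, walk, hn]
    | succ s ih =>
      intro hs
      obtain ⟨i1, i2, i3, i4, i5, i6⟩ := ih (by omega)
      rcases st s with ⟨c1, c2, c3, c4⟩ | ⟨c1, c3, c4⟩
      · have := hm 0 (α s) (by omega) (by omega)
        refine ⟨by omega, by omega, by omega, fun h => ?_, by omega, fun h => ?_⟩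
        · have := hm (α s) (α (s + 1)) (by omega) (by omega)
          have := i4 c1
          omega
        · rw [show α s = 2 * μ by omega] at c2
          omega
      · have c5 : α s < n := by omega
        have := top _ c5
        refine ⟨by omega, by omega, by omega, fun _ => ?_, by omega, by omega⟩
        rw [c3]; omega
  have hP : IsPath n α β := by
    have := inv _ le_rfl
    refine ⟨rfl, rfl, by omega, by omega, fun s _ => ?_⟩
    rcases st s with h | h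
    · exact Or.inl h.2.2
    · exact Or.inr h.2
  have hD : Dn μ a b α β := by
    refine ⟨hP, fun s hs => ?_⟩
    obtain ⟨i1, i2, i3, i4, i5, i6⟩ := inv s hs
    refine ⟨i2, i3, i5, i6, ?_⟩
    by_cases c : α s < n
    · have := top _ c
      have := i4 c
      exact (H.hb.le (by omega) (by omega)).trans_lt (h1 _ (by omega))
    · rw [show α s / 2 = μ by omega, show β s / 2 = μ by omega]
      exact H.hi
  refine ⟨_, H.isTri hD, fun k hk => ⟨?_, ?_⟩⟩
  · have hex : ∃ s, k < α s := ⟨2 * n, by rw [hP.a1]; omega⟩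
    have s1 := Nat.find_spec hex
    have s2 : Nat.find hex ≤ 2 * n := Nat.find_min' hex (by rw [hP.a1]; omega)
    obtain ⟨s, hs⟩ : ∃ s, Nat.find hex = s + 1 := by
      refine ⟨Nat.find hex - 1, ?_⟩
      have : Nat.find hex ≠ 0 := fun h => by rw [h, hP.a0] at s1; omega
      omega
    have s3 := Nat.find_min hex (m := s) (by omega)
    rw [hs] at s1 s2
    obtain ⟨-, -, -, i4, -⟩ := inv s (by omega)
    rcases st s with ⟨c1, c2, c3, c4⟩ | ⟨-, c3, c4⟩
    · have e2 : α s = k := by omega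
      have e3 : β s = φ k := by
        have := i4 c1
        rw [e2] at this c2
        omega
      exact ⟨_, ⟨s, by omega, rfl⟩, Or.inl (by rw [e2]), Or.inr (Or.inr (Or.inl (by rw [e3])))⟩
    · omega
  · rintro c hc t ⟨s, hs, rfl⟩ hu hl
    obtain ⟨-, i2, i3, i4, -⟩ := inv s hs.le
    obtain ⟨-, j2, j3, j4, -⟩ := inv (s + 1) hs
    have u : k = α s ∨ k = α (s + 1) := by
      rcases hu with h | h | h | h
      exacts [Or.inl (stp_inj H.hp H.ha (by omega) i2 h), Or.inr (stp_inj H.hp H.ha (by omega) j2 h),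
        absurd h (H.ne (by omega) i3), absurd h (H.ne (by omega) j3)]
    have l : c = β s ∨ c = β (s + 1) := by
      rcases hl with h | h | h | h
      exacts [absurd h.symm (H.ne i2 hc), absurd h.symm (H.ne j2 hc),
        Or.inl (stp_inj H.hr H.hb hc i3 h), Or.inr (stp_inj H.hr H.hb hc j3 h)]
    rcases u with rfl | rfl
    · have := i4 (by omega)
      rcases st s with ⟨-, -, -, c4⟩ | ⟨-, c3, c4⟩
      · omega
      · rw [c3] at j4
        have := j4 (by omega)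
        omega
    · have := j4 (by omega)
      rcases st s with ⟨-, -, -, c4⟩ | ⟨-, -, c4⟩ <;> omega

end Pool.Agent.P.MP_fe41f2_co.Orth
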