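import Mathlib
import Pool.Agent.P.MP_fe41f2_co.OrC

set_option autoImplicit false

namespace Pool.Agent.P.MP_fe41f2_co.Orth

open Set G2

lemma med {A B C D : ℝ} (hB : 0 < B) (hC : 0 < C) (h : A * D < C * B) :
    ∃ s t : ℝ, 0 ≤ s ∧ 0 ≤ t ∧ s + t = 1 ∧ A * s < B * t ∧ D * t < C * s := by
  by_cases hD : D < 0
  · exact ⟨0, 1, le_rfl, zero_le_one, by ring, by linarith, by linarith⟩
  by_cases hA : A < 0
  · exact ⟨1, 0, zero_le_one, le_rfl, by ring, by linarith, by linarith⟩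
  have hs : 0 < B + D + (A + C) := by linarith
  refine ⟨(B + D) / (B + D + (A + C)), (A + C) / (B + D + (A + C)),
    div_nonneg (by linarith) hs.le, div_nonneg (by linarith) hs.le, by field_simp, ?_, ?_⟩ <;>
    rw [← mul_div_assoc, ← mul_div_assoc] <;> apply div_lt_div_of_pos_right _ hs <;> nlinarith

variable {μ : ℕ} {p r a b : ℕ → ℝ}

lemma blockL {x y : ℝ × ℝ} (h : segment ℝ x y ⊆ PP μ p r a b) {t : ℕ} (ht : t ≤ μ)
    (h1 : r t < y.1) (h2 : x.2 < b t)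
    (h3 : (r t - x.1) * (y.2 - b t) < (b t - x.2) * (y.1 - r t)) : False := by
  obtain ⟨s, u, hs, hu, hsu, e1, e2⟩ := med (sub_pos.2 h1) (sub_pos.2 h2) h3
  have := (h ⟨s, u, hs, hu, hsu, rfl⟩).2.2.2.2.2 t ht
  simp only [Prod.fst_add, Prod.snd_add, Prod.smul_fst, Prod.smul_snd, smul_eq_mul] at this
  obtain rfl : s = 1 - u := by linarith
  rcases this with c | c <;> nlinarith

lemma blockU {x y : ℝ × ℝ} (h : segment ℝ x y ⊆ PP μ p r a b) {t : ℕ} (ht : t ≤ μ)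
    (h1 : a t < y.2) (h2 : x.1 < p (t + 1))
    (h3 : (a t - x.2) * (y.1 - p (t + 1)) < (p (t + 1) - x.1) * (y.2 - a t)) : False := by
  obtain ⟨s, u, hs, hu, hsu, e1, e2⟩ := med (sub_pos.2 h1) (sub_pos.2 h2) h3
  have := (h ⟨s, u, hs, hu, hsu, rfl⟩).2.2.2.2.1 t ht
  simp only [Prod.fst_add, Prod.snd_add, Prod.smul_fst, Prod.smul_snd, smul_eq_mul] at this
  obtain rfl : s = 1 - u := by linarith
  rcases this with c | c <;> nlinarith

/-- `N` pairs of staircases, one pair in each horizontal slab -/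
structure Ort (M N μ : ℕ) (S : ℝ) (p r a b : ℕ → ℝ) : Prop extends St μ p r a b where
  hμ : μ = N * (M + 1)
  big : 16 * (2 * (μ : ℝ) + 2) * ((M : ℝ) ^ 2 + 1) ≤ S
  px : ∀ t ≤ μ, p t = t
  pX : p (μ + 1) = 2 * μ + 1
  rx' : ∀ t, r (t + 1) = μ + t + 1
  up : ∀ g, ∀ i ≤ M, a (g * (M + 1) + i) = S * (g + 1) + 1 + (i : ℝ) ^ 2
  b0 : b 0 = -1
  dn : ∀ g, ∀ j ≤ M, b (g * (M + 1) + j + 1) = S * (g + 1) - 1 - ((M : ℝ) - j) ^ 2

lemma blk (M k : ℕ) : ∃ g, ∃ i ≤ M, k = g * (M + 1) + i :=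
  ⟨k / (M + 1), k % (M + 1), Nat.le_of_lt_succ (Nat.mod_lt _ (by omega)),
    (Nat.div_add_mod' k (M + 1)).symm⟩

lemma lex {M g g' i i' : ℕ} (hi' : i' ≤ M) (h : g * (M + 1) + i < g' * (M + 1) + i') :
    g < g' ∨ (g = g' ∧ i < i') := by
  rcases lt_trichotomy g g' with c | rfl | c
  · exact Or.inl c
  · exact Or.inr ⟨rfl, by omega⟩
  · have := blk_lt (M := M) c hi'; omega

theorem exists_ort (M N : ℕ) : ∃ (S : ℝ) (p r a b : ℕ → ℝ), Ort M N (N * (M + 1)) S p r a b := by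
  set μ := N * (M + 1) with hμ
  set S : ℝ := 16 * (2 * (μ : ℝ) + 2) * ((M : ℝ) ^ 2 + 1) with hS
  have m0 : (0 : ℝ) ≤ μ := Nat.cast_nonneg μ
  have M0 : (0 : ℝ) ≤ M := Nat.cast_nonneg M
  have S1 : 2 * ((M : ℝ) ^ 2 + 1) ≤ S := by nlinarith [sq_nonneg (M : ℝ)]
  have dv : ∀ g i, i ≤ M → (g * (M + 1) + i) / (M + 1) = g ∧ (g * (M + 1) + i) % (M + 1) = i :=
    fun g i hi => ⟨by
      rw [add_comm, Nat.add_mul_div_right _ _ (by omega), Nat.div_eq_of_lt (by omega), zero_add],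
      by rw [add_comm, Nat.add_mul_mod_self_right, Nat.mod_eq_of_lt (by omega)]⟩
  obtain ⟨a, up⟩ : ∃ a : ℕ → ℝ, ∀ g, ∀ i ≤ M,
      a (g * (M + 1) + i) = S * (g + 1) + 1 + (i : ℝ) ^ 2 :=
    ⟨fun k => S * ((k / (M + 1) : ℕ) + 1) + 1 + ((k % (M + 1) : ℕ) : ℝ) ^ 2, fun g i hi => by
      simp only [(dv g i hi).1, (dv g i hi).2]⟩
  obtain ⟨b, b0, dn⟩ : ∃ b : ℕ → ℝ, b 0 = -1 ∧ ∀ g, ∀ j ≤ M,
      b (g * (M + 1) + j + 1) = S * (g + 1) - 1 - ((M : ℝ) - j) ^ 2 :=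
    ⟨fun k => if k = 0 then -1 else S * (((k - 1) / (M + 1) : ℕ) + 1) - 1 -
      ((M : ℝ) - ((k - 1) % (M + 1) : ℕ)) ^ 2, by simp, fun g j hj => by
      simp only [Nat.add_sub_cancel, (dv g j hj).1, (dv g j hj).2, Nat.add_eq_zero_iff,
        one_ne_zero, and_false, if_false]⟩
  have sq : ∀ j ≤ M, ((M : ℝ) - j) ^ 2 ≤ (M : ℝ) ^ 2 ∧ (j : ℝ) ^ 2 ≤ (M : ℝ) ^ 2 := fun j hj => by
    have : (j : ℝ) ≤ M := by exact_mod_cast hj
    have : (0 : ℝ) ≤ j := Nat.cast_nonneg j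
    constructor <;> nlinarith
  have gap : ∀ g g' : ℕ, g < g' → S * (g + 1) + S ≤ S * (g' + 1) := fun g g' h => by
    have : ((g + 1 : ℕ) : ℝ) ≤ g' := by exact_mod_cast h
    push_cast at this
    nlinarith [sq_nonneg (M : ℝ)]
  have ia : Inc μ a := by
    intro s t h _
    obtain ⟨g, i, hi, rfl⟩ := blk M s
    obtain ⟨g', i', hi', rfl⟩ := blk M t
    rw [up g i hi, up g' i' hi']
    rcases lex hi' h with c | ⟨rfl, c⟩
    · nlinarith [gap g g' c, (sq i hi).2, sq_nonneg (i' : ℝ)]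
    · have : (i : ℝ) < i' := by exact_mod_cast c
      have : (0 : ℝ) ≤ i := Nat.cast_nonneg i
      nlinarith
  have ib : Inc μ b := by
    intro s t h _
    obtain ⟨t, rfl⟩ : ∃ u, t = u + 1 := ⟨t - 1, by omega⟩
    obtain ⟨g', j', hj', rfl⟩ := blk M t
    rw [dn g' j' hj']
    rcases s with _ | s
    · have : (0 : ℝ) ≤ g' := Nat.cast_nonneg g'
      rw [b0]
      nlinarith [(sq j' hj').1, sq_nonneg (M : ℝ)]
    · obtain ⟨g, j, hj, rfl⟩ := blk M s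
      rw [dn g j hj]
      rcases lex hj' (Nat.lt_of_succ_lt_succ h) with c | ⟨rfl, c⟩
      · nlinarith [gap g g' c, (sq j' hj').1, sq_nonneg ((M : ℝ) - j)]
      · have : (j : ℝ) < j' := by exact_mod_cast c
        have : (j' : ℝ) ≤ M := by exact_mod_cast hj'
        nlinarith
  have a0 : a 0 = S + 1 := by simpa using up 0 0 (by omega)
  have aμ : a μ = S * (N + 1) + 1 := by simpa using up N 0 (by omega)
  refine ⟨S, fun t => if t ≤ μ then t else 2 * μ + 1, fun t => if t = 0 then 0 else μ + t, a, b,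
    ⟨?_, ?_, ia, ib, by simp, ?_, by simp, ?_, ?_⟩, rfl, le_rfl, fun t ht => if_pos ht, by simp,
    fun t => by simp [add_assoc], up, b0, dn⟩
  · intro s t h ht
    have : (s : ℝ) < t := by exact_mod_cast h
    have : (s : ℝ) ≤ μ := by exact_mod_cast (by omega : s ≤ μ)
    simp only [if_pos (show s ≤ μ by omega)]
    split_ifs <;> linarith
  · intro s t h ht
    have : (s : ℝ) < t := by exact_mod_cast h
    have : (0 : ℝ) ≤ s := Nat.cast_nonneg s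
    simp only [if_neg (show t ≠ 0 by omega)]
    split_ifs <;> linarith
  · simp; ring
  · rw [a0, b0]; nlinarith [sq_nonneg (M : ℝ)]
  · rw [aμ]
    rcases N with _ | N
    · rw [show μ = 0 by simp [hμ], b0]; push_cast; nlinarith [sq_nonneg (M : ℝ)]
    · rw [show μ = N * (M + 1) + M + 1 by rw [hμ]; ring, dn N M le_rfl]
      push_cast
      nlinarith [sq_nonneg (M : ℝ)]

variable {M N : ℕ} {S : ℝ}

/-- upper vertex `e` of slab `g` -/
def uE (p a : ℕ → ℝ) (M g e : ℕ) : ℝ × ℝ := stp p a (2 * (g * (M + 1)) + e)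

/-- lower vertex `j` of slab `g` -/
def zJ (r b : ℕ → ℝ) (M g j : ℕ) : ℝ × ℝ := stp r b (2 * (g * (M + 1)) + 2 + j)

lemma Ort.uE_eq (H : Ort M N μ S p r a b) {g e : ℕ} (hg : g < N) (he : e ≤ 2 * M + 1) :
    uE p a M g e = ((g * (M + 1) : ℕ) + (((e + 1) / 2 : ℕ) : ℝ),
      S * (g + 1) + 1 + ((e / 2 : ℕ) : ℝ) ^ 2) := by
  have h1 : g * (M + 1) + M < μ := H.hμ ▸ blk_lt hg le_rfl
  simp only [uE, stp]
  rw [show (2 * (g * (M + 1)) + e + 1) / 2 = g * (M + 1) + (e + 1) / 2 by omega,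
    show (2 * (g * (M + 1)) + e) / 2 = g * (M + 1) + e / 2 by omega, H.px _ (by omega),
    H.up g _ (by omega), Nat.cast_add]

lemma Ort.zJ_eq (H : Ort M N μ S p r a b) {g j : ℕ} (hj : j ≤ 2 * M + 1) :
    zJ r b M g j = (μ + (g * (M + 1) : ℕ) + (((j + 1) / 2 : ℕ) : ℝ) + 1,
      S * (g + 1) - 1 - ((M : ℝ) - (j / 2 : ℕ)) ^ 2) := by
  simp only [zJ, stp]
  rw [show (2 * (g * (M + 1)) + 2 + j + 1) / 2 = g * (M + 1) + (j + 1) / 2 + 1 by omega,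
    show (2 * (g * (M + 1)) + 2 + j) / 2 = g * (M + 1) + j / 2 + 1 by omega, H.rx',
    H.dn g _ (by omega), Nat.cast_add, add_assoc (μ : ℝ) _ ((((j + 1) / 2 : ℕ) : ℝ))]

lemma Ort.nums (H : Ort M N μ S p r a b) :
    (0 : ℝ) ≤ μ ∧ (0 : ℝ) ≤ M ∧ 32 * ((M : ℝ) ^ 2 + 1) ≤ S ∧ p 0 = 0 := by
  have m0 : (0 : ℝ) ≤ μ := Nat.cast_nonneg μ
  refine ⟨m0, Nat.cast_nonneg M, ?_, by simpa using H.px 0 (by omega)⟩
  nlinarith [H.big, sq_nonneg (M : ℝ)]

lemma same_slab {g g' : ℕ} {y : ℝ} (hS : 0 < S) (h : ¬ (y ≤ S * (g + 1) - S / 2 ∨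
    S * (g + 1) + S / 2 ≤ y)) (h1 : S * g' - S / 2 ≤ y) (h2 : y ≤ S * g' + S / 2) : g' = g + 1 := by
  push Not at h
  have a1 : (g' : ℝ) < ((g + 2 : ℕ) : ℝ) := by
    push_cast
    by_contra hc
    nlinarith [h.2]
  have a2 : (g : ℝ) < g' := by
    by_contra hc
    nlinarith [h.1]
  have := Nat.cast_lt.1 a1
  have := Nat.cast_lt.1 a2
  omega

lemma Ort.zone (H : Ort M N μ S p r a b) {g : ℕ} {x : ℝ × ℝ}
    (hx : x ∈ range (vx (stp p a) (stp r b) (2 * μ + 1))) (ho : ¬ Off S g x) :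
    (∃ e ≤ 2 * M + 1, x = uE p a M g e) ∨ ∃ j ≤ 2 * M + 1, x = zJ r b M g j := by
  obtain ⟨-, n2, n3, -⟩ := H.nums
  have hS : 0 < S := by nlinarith [sq_nonneg (M : ℝ)]
  obtain ⟨k, hk, rfl | rfl⟩ := (range_vx _ _ _ x).1 hx
  · obtain ⟨g', i, hi, e⟩ := blk M (k / 2)
    have i1 : (i : ℝ) ≤ M := by exact_mod_cast hi
    have i0 : (0 : ℝ) ≤ i := Nat.cast_nonneg i
    have e2 : (stp p a k).2 = S * (g' + 1) + 1 + (i : ℝ) ^ 2 := by
      simp only [stp]; rw [e, H.up g' i hi]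
    have := same_slab (g' := g' + 1) hS ho (by rw [e2]; push_cast; nlinarith)
      (by rw [e2]; push_cast; nlinarith)
    obtain rfl : g' = g := by omega
    exact Or.inl ⟨k - 2 * (g' * (M + 1)), by omega, by unfold uE; congr 1; omega⟩
  · by_cases c : k / 2 = 0
    · have e2 : (stp r b k).2 = -1 := by simp only [stp]; rw [c, H.b0]
      have := same_slab (g' := 0) hS ho (by rw [e2]; push_cast; nlinarith)
        (by rw [e2]; push_cast; nlinarith)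
      omega
    obtain ⟨g', j, hj, e⟩ := blk M (k / 2 - 1)
    have i1 : (j : ℝ) ≤ M := by exact_mod_cast hj
    have i0 : (0 : ℝ) ≤ j := Nat.cast_nonneg j
    have e2 : (stp r b k).2 = S * (g' + 1) - 1 - ((M : ℝ) - j) ^ 2 := by
      simp only [stp]; rw [show k / 2 = g' * (M + 1) + j + 1 by omega, H.dn g' j hj]
    have := same_slab (g' := g' + 1) hS ho (by rw [e2]; push_cast; nlinarith)
      (by rw [e2]; push_cast; nlinarith [sq_nonneg ((M : ℝ) - j)])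
    obtain rfl : g' = g := by omega
    exact Or.inr ⟨k - (2 * (g' * (M + 1)) + 2), by omega, by unfold zJ; congr 1; omega⟩

/-- a point that sees a reflex upper vertex and a lower vertex of slab `g` lies in the slab -/
lemma Ort.slab (H : Ort M N μ S p r a b) {g i j : ℕ} (hg : g < N) (hi : i < M) (hj : 1 ≤ j)
    (hj' : j ≤ 2 * M + 1) {x : ℝ × ℝ} (h1 : segment ℝ (uE p a M g (2 * i + 1)) x ⊆ PP μ p r a b)
    (h2 : segment ℝ x (zJ r b M g j) ⊆ PP μ p r a b) : ¬ Off S g x := by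
  obtain ⟨n1, n2, n3, n4⟩ := H.nums
  have hb := H.big
  have hG : g * (M + 1) + M < μ := H.hμ ▸ blk_lt hg le_rfl
  obtain ⟨x0, x1, -⟩ := h2 (left_mem_segment ℝ _ _)
  rw [n4] at x0
  rw [H.pX] at x1
  have G0 : (0 : ℝ) ≤ (g * (M + 1) : ℕ) := Nat.cast_nonneg _
  have G1 : ((g * (M + 1) : ℕ) : ℝ) ≤ μ := by exact_mod_cast (by omega : g * (M + 1) ≤ μ)
  rintro (h | h)
  · have j1 : (1 : ℝ) ≤ ((j + 1) / 2 : ℕ) := by exact_mod_cast (by omega : 1 ≤ (j + 1) / 2)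
    have j2 : ((j / 2 : ℕ) : ℝ) ≤ M := by exact_mod_cast (by omega : j / 2 ≤ M)
    have j3 : (0 : ℝ) ≤ (j / 2 : ℕ) := Nat.cast_nonneg _
    have e := H.dn g 0 (by omega)
    rw [add_zero] at e
    refine blockL h2 (t := g * (M + 1) + 1) (by omega) ?_ ?_ ?_ <;>
      simp only [H.zJ_eq hj', H.rx', e]
    · linarith
    · push_cast; nlinarith
    · generalize ((g * (M + 1) : ℕ) : ℝ) = G at *
      generalize (((j + 1) / 2 : ℕ) : ℝ) = s at *
      generalize ((j / 2 : ℕ) : ℝ) = t at *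
      have d1 : 0 ≤ (M : ℝ) ^ 2 - (M - t) ^ 2 := by nlinarith
      have d2 : (μ + G + 1 - x.1) * ((M : ℝ) ^ 2 - (M - t) ^ 2) ≤ (2 * μ + 2) * (M : ℝ) ^ 2 :=
        mul_le_mul (by linarith) (by nlinarith) d1 (by linarith)
      have d3 : S / 4 * 1 ≤ (S * (g + 1) - 1 - (M : ℝ) ^ 2 - x.2) * s :=
        mul_le_mul (by nlinarith) j1 zero_le_one (by nlinarith)
      push_cast
      nlinarith
  · have i1 : ((i + 1 : ℕ) : ℝ) ≤ M := by exact_mod_cast hi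
    have i0 : (0 : ℝ) ≤ i := Nat.cast_nonneg i
    push_cast at i1
    have e := H.px (g * (M + 1) + M + 1) hG
    rw [Nat.cast_add, Nat.cast_add, Nat.cast_one] at e
    refine blockU h1 (t := g * (M + 1) + M) hG.le ?_ ?_ ?_ <;>
      simp only [H.uE_eq hg (show 2 * i + 1 ≤ 2 * M + 1 by omega), H.up g M le_rfl, e,
        show (2 * i + 1 + 1) / 2 = i + 1 by omega, show (2 * i + 1) / 2 = i by omega,
        Nat.cast_add i 1, Nat.cast_one]
    · nlinarith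
    · linarith
    · generalize ((g * (M + 1) : ℕ) : ℝ) = G at *
      have d1 : 0 ≤ (M : ℝ) ^ 2 - (i : ℝ) ^ 2 := by nlinarith
      have d2 : (x.1 - (G + M + 1)) * ((M : ℝ) ^ 2 - (i : ℝ) ^ 2) ≤ (2 * μ + 2) * (M : ℝ) ^ 2 :=
        mul_le_mul (by linarith) (by nlinarith) d1 (by linarith)
      have d3 : 1 * (S / 4) ≤ ((M : ℝ) - i) * (x.2 - (S * (g + 1) + 1 + (M : ℝ) ^ 2)) :=
        mul_le_mul (by linarith) (by nlinarith) (by nlinarith) (by linarith)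
      nlinarith

lemma Ort.nosee (H : Ort M N μ S p r a b) {g j j' : ℕ} (hg : g < N) (hj : j ≤ 2 * M + 1)
    (h3 : j' + 3 ≤ j) (h : segment ℝ (zJ r b M g j') (zJ r b M g j) ⊆ PP μ p r a b) : False := by
  have hG : g * (M + 1) + M < μ := H.hμ ▸ blk_lt hg le_rfl
  have e := H.dn g (j' / 2 + 1) (by omega)
  have e' := H.rx' (g * (M + 1) + (j' / 2 + 1))
  rw [Nat.cast_add] at e'
  have a1 : ((j' / 2 + 1 : ℕ) : ℝ) ≤ M := by exact_mod_cast (by omega : j' / 2 + 1 ≤ M)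
  have a2 : ((j' / 2 + 1 + 1 : ℕ) : ℝ) ≤ ((j + 1) / 2 : ℕ) := by
    exact_mod_cast (by omega : j' / 2 + 1 + 1 ≤ (j + 1) / 2)
  have a3 : ((j' / 2 + 1 : ℕ) : ℝ) ≤ (j / 2 : ℕ) := by
    exact_mod_cast (by omega : j' / 2 + 1 ≤ j / 2)
  have a4 : ((j / 2 : ℕ) : ℝ) ≤ ((j + 1) / 2 : ℕ) := by
    exact_mod_cast (by omega : j / 2 ≤ (j + 1) / 2)
  have a5 : ((j / 2 : ℕ) : ℝ) ≤ M := by exact_mod_cast (by omega : j / 2 ≤ M)
  have a6 : ((j' / 2 : ℕ) : ℝ) ≤ ((j' + 1) / 2 : ℕ) := by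
    exact_mod_cast (by omega : j' / 2 ≤ (j' + 1) / 2)
  refine blockL h (t := g * (M + 1) + (j' / 2 + 1) + 1) (by omega) ?_ ?_ ?_ <;>
    simp only [H.zJ_eq hj, H.zJ_eq (show j' ≤ 2 * M + 1 by omega), e, e'] <;>
    rw [Nat.cast_add, Nat.cast_one] at a2 <;>
    rw [Nat.cast_add (j' / 2) 1, Nat.cast_one] at a1 a2 a3 ⊢ <;>
    generalize ((g * (M + 1) : ℕ) : ℝ) = G at * <;>
    generalize (((j + 1) / 2 : ℕ) : ℝ) = s at * <;>
    generalize ((j / 2 : ℕ) : ℝ) = t at * <;>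
    generalize (((j' + 1) / 2 : ℕ) : ℝ) = s' at * <;>
    generalize ((j' / 2 : ℕ) : ℝ) = t' at *
  · linarith
  · nlinarith
  · have d0 : 0 ≤ (t - (t' + 1)) * (2 * M - t - (t' + 1)) := mul_nonneg (by linarith) (by linarith)
    have d1 : (t - (t' + 1)) * (2 * M - t - (t' + 1)) ≤ (s - (t' + 1)) * (2 * M - 2 * t' - 2) :=
      mul_le_mul (by linarith) (by linarith) (by linarith) (by linarith)
    have d2 : (t' + 1 - s') * ((t - (t' + 1)) * (2 * M - t - (t' + 1))) ≤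
        1 * ((t - (t' + 1)) * (2 * M - t - (t' + 1))) :=
      mul_le_mul_of_nonneg_right (by linarith) d0
    nlinarith

lemma Ort.cross (H : Ort M N μ S p r a b) {g i e e' : ℕ} (hg : g < N) (he : e < 2 * i + 1)
    (h1 : 2 * i + 1 < e') (h2 : e' ≤ 2 * M + 1)
    (h : segment ℝ (uE p a M g e) (uE p a M g e') ⊆ PP μ p r a b) : False := by
  have hG : g * (M + 1) + M < μ := H.hμ ▸ blk_lt hg le_rfl
  have q := H.px (g * (M + 1) + i + 1) (by omega)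
  rw [Nat.cast_add, Nat.cast_add, Nat.cast_one] at q
  have a1 : (((e + 1) / 2 : ℕ) : ℝ) ≤ i := by exact_mod_cast (by omega : (e + 1) / 2 ≤ i)
  have a2 : (((e + 1) / 2 : ℕ) : ℝ) ≤ ((e / 2 + 1 : ℕ) : ℝ) := by
    exact_mod_cast (by omega : (e + 1) / 2 ≤ e / 2 + 1)
  have a3 : ((e / 2 : ℕ) : ℝ) ≤ i := by exact_mod_cast (by omega : e / 2 ≤ i)
  have a4 : (0 : ℝ) ≤ (e / 2 : ℕ) := Nat.cast_nonneg _
  have a5 : ((i + 1 : ℕ) : ℝ) ≤ (e' / 2 : ℕ) := by exact_mod_cast (by omega : i + 1 ≤ e' / 2)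
  have a6 : (((e' + 1) / 2 : ℕ) : ℝ) ≤ ((e' / 2 + 1 : ℕ) : ℝ) := by
    exact_mod_cast (by omega : (e' + 1) / 2 ≤ e' / 2 + 1)
  rw [Nat.cast_add, Nat.cast_one] at a2 a5 a6
  refine blockU h (t := g * (M + 1) + i) (by omega) ?_ ?_ ?_ <;>
    simp only [H.uE_eq hg h2, H.uE_eq hg (show e ≤ 2 * M + 1 by omega), q,
      H.up g i (by omega)] <;>
    generalize ((g * (M + 1) : ℕ) : ℝ) = G at * <;>
    generalize (((e + 1) / 2 : ℕ) : ℝ) = s at * <;>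
    generalize ((e / 2 : ℕ) : ℝ) = t at * <;>
    generalize (((e' + 1) / 2 : ℕ) : ℝ) = s' at * <;>
    generalize ((e' / 2 : ℕ) : ℝ) = t' at *
  · nlinarith
  · linarith
  · have d0 : 0 ≤ (i - t) * (i + t) := mul_nonneg (by linarith) (by linarith)
    have d1 : (i - t) * (i + t) ≤ (i + 1 - s) * (2 * i) :=
      mul_le_mul (by linarith) (by linarith) (by linarith) (by linarith)
    have d2 : (i - t) * (i + t) * (s' - (i + 1)) ≤ (i - t) * (i + t) * (t' - i) :=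
      mul_le_mul_of_nonneg_left (by linarith) d0
    have d3 : (i - t) * (i + t) * (t' - i) ≤ (i + 1 - s) * (2 * i) * (t' - i) :=
      mul_le_mul_of_nonneg_right d1 (by linarith)
    have d4 : 0 < (i + 1 - s) * (t' - i) * (t' - i) :=
      mul_pos (mul_pos (by linarith) (by linarith)) (by linarith)
    nlinarith

/-- two points on one side of the segment `u z` do not span a convex quadrilateral with it -/
lemma one_sided {u z x y : ℝ × ℝ} (hx : u.1 < z.1) (hy : z.2 < u.2)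
    (h : (x.1 ≤ u.1 - 1 ∧ x.2 ≤ u.2 ∧ y.1 ≤ u.1 - 1 ∧ y.2 ≤ u.2) ∨
      (u.1 ≤ x.1 ∧ u.2 + 1 ≤ x.2 ∧ u.1 ≤ y.1 ∧ u.2 + 1 ≤ y.2))
    (hc : Convex ℝ (convexHull ℝ ({x, y, u} : Set (ℝ × ℝ)) ∪
      convexHull ℝ ({x, y, z} : Set (ℝ × ℝ)))) : False := by
  have hm := hc (Or.inl (subset_convexHull ℝ _ (by simp : u ∈ ({x, y, u} : Set (ℝ × ℝ)))))
    (Or.inr (subset_convexHull ℝ _ (by simp : z ∈ ({x, y, z} : Set (ℝ × ℝ)))))
    (show (0 : ℝ) ≤ 1 / 2 by norm_num) (show (0 : ℝ) ≤ 1 / 2 by norm_num) (by norm_num)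
  have e1 : ((1 / 2 : ℝ) • u + (1 / 2 : ℝ) • z).1 = (u.1 + z.1) / 2 := by simp; ring
  have e2 : ((1 / 2 : ℝ) • u + (1 / 2 : ℝ) • z).2 = (u.2 + z.2) / 2 := by simp; ring
  rcases h with ⟨c1, c2, c3, c4⟩ | ⟨c1, c2, c3, c4⟩ <;> rcases hm with hm | hm
  · have := hull_nonneg (aff_gen (-1) 0 u.1) (by
      rintro w (rfl | rfl | rfl) <;> linarith) hm
    rw [e1] at this
    linarith
  · have := hull_nonpos (d_aff (u.1 - 1, u.2) z) (by
      rintro w (rfl | rfl | rfl) <;> simp only [det3] <;> nlinarith) hm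
    simp only [det3, e1, e2] at this
    nlinarith
  · have := hull_nonneg (aff_gen 0 1 (-u.2)) (by
      rintro w (rfl | rfl | rfl) <;> linarith) hm
    rw [e2] at this
    linarith
  · have := hull_nonneg (d_aff (u.1, u.2 + 1) z) (by
      rintro w (rfl | rfl | rfl) <;> simp only [det3] <;> nlinarith) hm
    simp only [det3, e1, e2] at this
    nlinarith

theorem Ort.key (H : Ort M N μ S p r a b) {g i j : ℕ} (hg : g < N) (hi : i < M)
    (hj : j ≤ 2 * M + 1) {W : Set (ℝ × ℝ)} (hW : ∀ w ∈ W, Off S g w) {T : Set (Set (ℝ × ℝ))}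
    (h : Inv2 (PP μ p r a b) (range (vx (stp p a) (stp r b) (2 * μ + 1)) ∪ W) T) {x y : ℝ × ℝ}
    (hx : x ≠ uE p a M g (2 * i + 1)) (hy : y ≠ uE p a M g (2 * i + 1))
    (t1 : ({x, y, uE p a M g (2 * i + 1)} : Set (ℝ × ℝ)) ∈ T)
    (t2 : ({x, y, zJ r b M g j} : Set (ℝ × ℝ)) ∈ T)
    (hc : Convex ℝ (convexHull ℝ ({x, y, uE p a M g (2 * i + 1)} : Set (ℝ × ℝ)) ∪
      convexHull ℝ ({x, y, zJ r b M g j} : Set (ℝ × ℝ)))) :
    j ≤ 2 ∨ ∃ j' ≤ 2 * M + 1, j ≤ j' + 2 ∧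
      zJ r b M g j' ∈ ({x, y, uE p a M g (2 * i + 1)} : Set (ℝ × ℝ)) := by
  by_contra hn
  push Not at hn
  obtain ⟨n1, n2⟩ := hn
  have cls : ∀ w, w = x ∨ w = y → ∃ e ≤ 2 * M + 1, w = uE p a M g e := by
    intro w hw
    have m1 : w ∈ ({x, y, uE p a M g (2 * i + 1)} : Set (ℝ × ℝ)) := by
      rcases hw with rfl | rfl <;> simp
    have m2 : w ∈ ({x, y, zJ r b M g j} : Set (ℝ × ℝ)) := by rcases hw with rfl | rfl <;> simp
    have s2 := seg_sub (h _ t2).2 m2 (show zJ r b M g j ∈ _ by simp)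
    have ho := H.slab hg hi (by omega) hj (seg_sub (h _ t1).2 (by simp) m1) s2
    rcases H.zone (((h _ t1).1 m1).resolve_right fun c => ho (hW w c)) ho with c | ⟨j', hj', rfl⟩
    · exact c
    · by_cases c : j ≤ j' + 2
      · exact absurd m1 (n2 j' hj' c)
      · exact (H.nosee hg hj (by omega) s2).elim
  obtain ⟨e, he, rfl⟩ := cls x (Or.inl rfl)
  obtain ⟨e', he', rfl⟩ := cls y (Or.inr rfl)
  have ne : e ≠ 2 * i + 1 := fun c => hx (by rw [c])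
  have ne' : e' ≠ 2 * i + 1 := fun c => hy (by rw [c])
  have sxy := seg_sub (h _ t1).2 (show uE p a M g e ∈ _ by simp) (show uE p a M g e' ∈ _ by simp)
  have eu := H.uE_eq hg (show 2 * i + 1 ≤ 2 * M + 1 by omega)
  rw [show (2 * i + 1 + 1) / 2 = i + 1 by omega, show (2 * i + 1) / 2 = i by omega,
    Nat.cast_add i 1, Nat.cast_one] at eu
  have i0 : (0 : ℝ) ≤ i := Nat.cast_nonneg i
  have lo : ∀ d, d < 2 * i + 1 → (uE p a M g d).1 ≤ (uE p a M g (2 * i + 1)).1 - 1 ∧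
      (uE p a M g d).2 ≤ (uE p a M g (2 * i + 1)).2 := fun d hd => by
    have a1 : (((d + 1) / 2 : ℕ) : ℝ) ≤ i := by exact_mod_cast (by omega : (d + 1) / 2 ≤ i)
    have a3 : ((d / 2 : ℕ) : ℝ) ≤ i := by exact_mod_cast (by omega : d / 2 ≤ i)
    have a4 : (0 : ℝ) ≤ (d / 2 : ℕ) := Nat.cast_nonneg _
    rw [eu, H.uE_eq hg (by omega)]
    constructor <;> simp only <;> nlinarith
  have up : ∀ d, 2 * i + 1 < d → d ≤ 2 * M + 1 →
      (uE p a M g (2 * i + 1)).1 ≤ (uE p a M g d).1 ∧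
      (uE p a M g (2 * i + 1)).2 + 1 ≤ (uE p a M g d).2 := fun d hd hd' => by
    have a1 : ((i + 1 : ℕ) : ℝ) ≤ ((d + 1) / 2 : ℕ) := by
      exact_mod_cast (by omega : i + 1 ≤ (d + 1) / 2)
    have a3 : ((i + 1 : ℕ) : ℝ) ≤ (d / 2 : ℕ) := by exact_mod_cast (by omega : i + 1 ≤ d / 2)
    rw [Nat.cast_add, Nat.cast_one] at a1 a3
    rw [eu, H.uE_eq hg hd']
    constructor <;> simp only <;> nlinarith
  have hG : g * (M + 1) + M < μ := H.hμ ▸ blk_lt hg le_rfl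
  have q1 : (uE p a M g (2 * i + 1)).1 < (zJ r b M g j).1 :=
    H.toSt.rs (by omega) (by omega) (by omega)
  have q2 : (zJ r b M g j).2 < (uE p a M g (2 * i + 1)).2 := by
    rw [eu, H.zJ_eq hj]
    simp only
    nlinarith [sq_nonneg ((M : ℝ) - (j / 2 : ℕ)), sq_nonneg (i : ℝ)]
  rcases lt_or_gt_of_ne ne with c | c <;> rcases lt_or_gt_of_ne ne' with c' | c'
  · exact one_sided q1 q2 (Or.inl ⟨(lo e c).1, (lo e c).2, (lo e' c').1, (lo e' c').2⟩) hc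
  · exact H.cross hg c c' he' sxy
  · exact H.cross hg c' c he (by rwa [segment_symm])
  · exact one_sided q1 q2
      (Or.inr ⟨(up e c he).1, (up e c he).2, (up e' c' he').1, (up e' c' he').2⟩) hc

end Pool.Agent.P.MP_fe41f2_co.Orth
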