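import Mathlib
import Pool.Agent.P.MP_fe41f2_co.OrD

set_option autoImplicit false

namespace Pool.Agent.P.MP_fe41f2_co.Orth

open Set G2

/-- `u` and `z` are corners of one triangle of `T` -/
def Nb (T : Set (Set (ℝ × ℝ))) (u z : ℝ × ℝ) : Prop := ∃ t ∈ T, u ∈ t ∧ z ∈ t

open Classical in
/-- the largest `j ≤ J` with `z j` next to `u` -/
noncomputable def top (u : ℝ × ℝ) (z : ℕ → ℝ × ℝ) (J : ℕ) (T : Set (Set (ℝ × ℝ))) : ℕ :=
  ((Finset.range (J + 1)).filter fun j => Nb T u (z j)).sup id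

lemma le_top {u : ℝ × ℝ} {z : ℕ → ℝ × ℝ} {J j : ℕ} {T : Set (Set (ℝ × ℝ))} (hj : j ≤ J)
    (h : Nb T u (z j)) : j ≤ top u z J T := by
  classical
  exact Finset.le_sup (f := id) (Finset.mem_filter.2 ⟨Finset.mem_range.2 (by omega), h⟩)

lemma top_le {u : ℝ × ℝ} {z : ℕ → ℝ × ℝ} {J c : ℕ} {T : Set (Set (ℝ × ℝ))}
    (h : ∀ j ≤ J, Nb T u (z j) → j ≤ c) : top u z J T ≤ c := by
  classical
  exact Finset.sup_le fun j hj => h j
    (Nat.le_of_lt_succ (Finset.mem_range.1 (Finset.mem_filter.1 hj).1)) (Finset.mem_filter.1 hj).2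

lemma nb_insert {T T' : Set (Set (ℝ × ℝ))} {w u z : ℝ × ℝ} (hf : InsertPoint w T T')
    (hu : u ≠ w) (hz : z ≠ w) : Nb T' u z ↔ Nb T u z := by
  obtain ⟨x, y, v, t1, -, rfl⟩ := hf
  constructor
  · rintro ⟨t, ⟨ht, -⟩ | rfl | rfl | rfl, h1, h2⟩
    · exact ⟨t, ht, h1, h2⟩
    all_goals
      refine ⟨_, t1, ?_, ?_⟩ <;> simp only [mem_insert_iff, mem_singleton_iff] at h1 h2 ⊢ <;> tauto
  · rintro ⟨t, ht, h1, h2⟩
    by_cases c : t = {x, y, v}
    · subst c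
      have m1 : ({w, x, y} : Set (ℝ × ℝ)) ∈ (T \ {{x, y, v}}) ∪ {{w, x, y}, {w, y, v}, {w, v, x}} :=
        Or.inr (by simp)
      have m2 : ({w, y, v} : Set (ℝ × ℝ)) ∈ (T \ {{x, y, v}}) ∪ {{w, x, y}, {w, y, v}, {w, v, x}} :=
        Or.inr (by simp)
      have m3 : ({w, v, x} : Set (ℝ × ℝ)) ∈ (T \ {{x, y, v}}) ∪ {{w, x, y}, {w, y, v}, {w, v, x}} :=
        Or.inr (by simp)
      rcases h1 with rfl | rfl | rfl <;> rcases h2 with rfl | rfl | rfl <;>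
        first
        | (refine ⟨_, m1, ?_, ?_⟩ <;> solve | simp)
        | (refine ⟨_, m2, ?_, ?_⟩ <;> solve | simp)
        | (refine ⟨_, m3, ?_, ?_⟩ <;> solve | simp)
    · exact ⟨t, Or.inl ⟨ht, c⟩, h1, h2⟩

lemma nb_flip {T : Set (Set (ℝ × ℝ))} {x y c d u z : ℝ × ℝ}
    (t1 : ({x, y, c} : Set (ℝ × ℝ)) ∈ T) (t2 : ({x, y, d} : Set (ℝ × ℝ)) ∈ T)
    (h : Nb ((T \ {{x, y, c}, {x, y, d}}) ∪ {{x, c, d}, {y, c, d}}) u z) :
    Nb T u z ∨ (u = c ∧ z = d) ∨ (u = d ∧ z = c) := by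
  obtain ⟨t, ⟨ht, -⟩ | rfl | rfl, h1, h2⟩ := h
  · exact Or.inl ⟨t, ht, h1, h2⟩
  all_goals
    rcases h1 with rfl | rfl | rfl <;> rcases h2 with rfl | rfl | rfl <;>
      first
      | (refine Or.inl ⟨_, t1, ?_, ?_⟩ <;> solve | simp)
      | (refine Or.inl ⟨_, t2, ?_, ?_⟩ <;> solve | simp)
      | exact Or.inr (Or.inl ⟨rfl, rfl⟩)
      | exact Or.inr (Or.inr ⟨rfl, rfl⟩)

variable {M N μ : ℕ} {S : ℝ} {p r a b : ℕ → ℝ}

/-- the potential of reflex vertex `i` of slab `g` -/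
noncomputable def pot (p r a b : ℕ → ℝ) (M g i : ℕ) (T : Set (Set (ℝ × ℝ))) : ℕ :=
  top (uE p a M g (2 * i + 1)) (zJ r b M g) (2 * M + 1) T

lemma Ort.pot_flip (H : Ort M N μ S p r a b) {W : Set (ℝ × ℝ)} {T T' : Set (Set (ℝ × ℝ))}
    (h : Inv2 (PP μ p r a b) (range (vx (stp p a) (stp r b) (2 * μ + 1)) ∪ W) T)
    (hf : Flip T T') :
    ∃ F : Finset (ℝ × ℝ), F.card ≤ 2 ∧ ∀ g < N, ∀ i < M, (∀ w ∈ W, Off S g w) →
      pot p r a b M g i T' ≤ pot p r a b M g i T +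
        if uE p a M g (2 * i + 1) ∈ F then 2 else 0 := by
  classical
  obtain ⟨x, y, c, d, -, xc, xd, yc, yd, -, t1, t2, hc, rfl⟩ := hf
  refine ⟨{c, d}, Finset.card_le_two, fun g hg i hi hW => top_le fun j hj hn => ?_⟩
  have fin : ∀ {t}, t ∈ T → uE p a M g (2 * i + 1) ∈ t →
      (j ≤ 2 ∨ ∃ j' ≤ 2 * M + 1, j ≤ j' + 2 ∧ zJ r b M g j' ∈ t) →
      j ≤ pot p r a b M g i T + 2 := by
    rintro t ht hu (h1 | ⟨j', h1, h2, h3⟩)
    · omega
    · exact h2.trans (Nat.add_le_add_right (le_top h1 ⟨t, ht, hu, h3⟩) 2)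
  rcases nb_flip t1 t2 hn with h1 | ⟨rfl, rfl⟩ | ⟨rfl, rfl⟩
  · exact (le_top hj h1).trans (Nat.le_add_right _ _)
  · rw [if_pos (by simp)]
    exact fin t1 (by simp) (H.key hg hi hj hW h xc yc t1 t2 hc)
  · rw [if_pos (by simp)]
    exact fin t2 (by simp) (H.key hg hi hj hW h xd yd t2 t1 (by rwa [union_comm]))

noncomputable def tot (p r a b : ℕ → ℝ) (M N : ℕ) (S : ℝ) (W : Set (ℝ × ℝ))
    (T : Set (Set (ℝ × ℝ))) : ℕ :=
  ∑ x ∈ cl N S W ×ˢ Finset.range M, pot p r a b M x.1 x.2 T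

lemma Ort.tot_flip (H : Ort M N μ S p r a b) {W : Set (ℝ × ℝ)} {T T' : Set (Set (ℝ × ℝ))}
    (h : Inv2 (PP μ p r a b) (range (vx (stp p a) (stp r b) (2 * μ + 1)) ∪ W) T)
    (hf : Flip T T') : tot p r a b M N S W T' ≤ tot p r a b M N S W T + 4 := by
  classical
  obtain ⟨F, hF, H'⟩ := H.pot_flip h hf
  have h1 : tot p r a b M N S W T' ≤ ∑ x ∈ cl N S W ×ˢ Finset.range M,
      (pot p r a b M x.1 x.2 T + if uE p a M x.1 (2 * x.2 + 1) ∈ F then 2 else 0) := by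
    apply Finset.sum_le_sum
    intro x hx
    obtain ⟨a1, a2⟩ := Finset.mem_product.1 hx
    exact H' _ (mem_cl.1 a1).1 _ (Finset.mem_range.1 a2) (mem_cl.1 a1).2
  rw [Finset.sum_add_distrib, ← Finset.sum_filter, Finset.sum_const, smul_eq_mul] at h1
  have h2 : ((cl N S W ×ˢ Finset.range M).filter
      (fun x => uE p a M x.1 (2 * x.2 + 1) ∈ F)).card ≤ F.card := by
    apply Finset.card_le_card_of_injOn (fun x => uE p a M x.1 (2 * x.2 + 1))
    · intro x hx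
      exact (Finset.mem_filter.1 hx).2
    · rintro ⟨g, i⟩ hx ⟨g', i'⟩ hx' e
      obtain ⟨a0, a1⟩ := Finset.mem_product.1 (Finset.mem_filter.1 hx).1
      obtain ⟨b0, b1⟩ := Finset.mem_product.1 (Finset.mem_filter.1 hx').1
      have a2 : i < M := Finset.mem_range.1 a1
      have b2 : i' < M := Finset.mem_range.1 b1
      have a3 : g * (M + 1) + M < μ := H.hμ ▸ blk_lt (mem_cl.1 a0).1 le_rfl
      have b3 : g' * (M + 1) + M < μ := H.hμ ▸ blk_lt (mem_cl.1 b0).1 le_rfl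
      have e1 : 2 * (g * (M + 1)) + (2 * i + 1) = 2 * (g' * (M + 1)) + (2 * i' + 1) :=
        stp_inj H.hp H.ha (by omega) (by omega) e
      rcases lt_trichotomy g g' with h | rfl | h
      · have := blk_lt (M := M) h a2.le; omega
      · rw [show i = i' by omega]
      · have := blk_lt (M := M) h b2.le; omega
  unfold tot at h1 ⊢
  omega

lemma Ort.tot_seq (H : Ort M N μ S p r a b) {W : Set (ℝ × ℝ)} {T T' : Set (Set (ℝ × ℝ))} {F : ℕ}
    (h : Inv2 (PP μ p r a b) (range (vx (stp p a) (stp r b) (2 * μ + 1)) ∪ W) T)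
    (hf : FlipSeq F T T') : tot p r a b M N S W T' ≤ tot p r a b M N S W T + 4 * F := by
  obtain ⟨f, rfl, rfl, H'⟩ := hf
  have : ∀ i ≤ F, Inv2 (PP μ p r a b) (range (vx (stp p a) (stp r b) (2 * μ + 1)) ∪ W) (f i) ∧
      tot p r a b M N S W (f i) ≤ tot p r a b M N S W (f 0) + 4 * i := by
    intro i hi
    induction i with
    | zero => exact ⟨h, by omega⟩
    | succ i ih =>
      obtain ⟨a1, a2⟩ := ih (by omega)
      have := H.tot_flip a1 (H' i hi)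
      exact ⟨a1.flip (H' i hi), by omega⟩
  exact (this F le_rfl).2

lemma Ort.pot_insert (H : Ort M N μ S p r a b) {g i : ℕ} (hg : g < N) (hi : i < M)
    {T T' : Set (Set (ℝ × ℝ))} {w : ℝ × ℝ} (hw : Off S g w) (hf : InsertPoint w T T') :
    pot p r a b M g i T' = pot p r a b M g i T := by
  obtain ⟨-, n2, n3, -⟩ := H.nums
  have hu : uE p a M g (2 * i + 1) ≠ w := by
    rintro rfl
    have a1 : (i : ℝ) ≤ M := by exact_mod_cast hi.le
    have a0 : (0 : ℝ) ≤ i := Nat.cast_nonneg i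
    rw [H.uE_eq hg (by omega), show (2 * i + 1) / 2 = i by omega] at hw
    rcases hw with h | h <;> simp only at h <;> nlinarith
  have hz : ∀ j ≤ 2 * M + 1, zJ r b M g j ≠ w := by
    rintro j hj rfl
    have a1 : ((j / 2 : ℕ) : ℝ) ≤ M := by exact_mod_cast (by omega : j / 2 ≤ M)
    have a0 : (0 : ℝ) ≤ (j / 2 : ℕ) := Nat.cast_nonneg _
    rw [H.zJ_eq hj] at hw
    rcases hw with h | h <;> simp only at h <;> nlinarith [sq_nonneg ((M : ℝ) - (j / 2 : ℕ))]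
  exact le_antisymm (top_le fun j hj h => le_top hj ((nb_insert hf hu (hz j hj)).1 h))
    (top_le fun j hj h => le_top hj ((nb_insert hf hu (hz j hj)).2 h))

lemma Ort.tot_ins (H : Ort M N μ S p r a b) {j : ℕ} {q : ℕ → ℝ × ℝ} {f : ℕ → Set (Set (ℝ × ℝ))}
    (h : IsTriangulation (PP μ p r a b) (range (vx (stp p a) (stp r b) (2 * μ + 1))) (f 0))
    (H' : ∀ i < j, InsertPoint (q i) (f i) (f (i + 1))) :
    Inv2 (PP μ p r a b) (range (vx (stp p a) (stp r b) (2 * μ + 1)) ∪ q '' Iio j) (f j) ∧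
      tot p r a b M N S (q '' Iio j) (f j) = tot p r a b M N S (q '' Iio j) (f 0) := by
  have : ∀ i ≤ j,
      Inv2 (PP μ p r a b) (range (vx (stp p a) (stp r b) (2 * μ + 1)) ∪ q '' Iio j) (f i) ∧
      tot p r a b M N S (q '' Iio j) (f i) = tot p r a b M N S (q '' Iio j) (f 0) := by
    intro i hi
    induction i with
    | zero =>
      refine ⟨fun t ht => ⟨(h.1 t ht).1.trans subset_union_left, ?_⟩, rfl⟩
      rw [← h.2.2.1]
      exact subset_biUnion_of_mem (u := fun t => convexHull ℝ t) ht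
    | succ i ih =>
      obtain ⟨a1, a2⟩ := ih (by omega)
      have hp : q i ∈ q '' Iio j := ⟨i, hi, rfl⟩
      refine ⟨a1.insertPoint (Or.inr hp) (H' i hi), ?_⟩
      rw [← a2]
      apply Finset.sum_congr rfl
      intro x hx
      obtain ⟨b1, b2⟩ := Finset.mem_product.1 hx
      exact H.pot_insert (mem_cl.1 b1).1 (Finset.mem_range.1 b2) ((mem_cl.1 b1).2 _ hp) (H' i hi)
  exact this j le_rfl

theorem Ort.lower (H : Ort M N μ S p r a b) : ∃ T₁ T₂,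
    IsTriangulation (PP μ p r a b) (range (vx (stp p a) (stp r b) (2 * μ + 1))) T₁ ∧
    IsTriangulation (PP μ p r a b) (range (vx (stp p a) (stp r b) (2 * μ + 1))) T₂ ∧
    ∀ j T₁' T₂', InsertSeq j T₁ T₂ T₁' T₂' → ∀ F, FlipSeq F T₁' T₂' →
      N * (M * (2 * M + 1)) ≤ 4 * F + j * (M * (2 * M + 1)) := by
  classical
  obtain ⟨-, n2, n3, -⟩ := H.nums
  have hμ := H.hμ
  have dv : ∀ g e, e ≤ 2 * M + 1 → (2 * (g * (M + 1)) + e) / 2 / (M + 1) = g := fun g e he => by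
    rw [show (2 * (g * (M + 1)) + e) / 2 = e / 2 + g * (M + 1) by omega,
      Nat.add_mul_div_right _ _ (by omega), Nat.div_eq_of_lt (by omega), zero_add]
  obtain ⟨T₁, t1, s1⟩ := H.toSt.exists_tri (fun k => if k < 2 * μ then 1 else 2 * μ + 1)
    (fun k k' h1 _ => by split_ifs <;> omega) (by split_ifs <;> omega) (by simp)
    (fun k hk => by
      split_ifs with c
      · exact H.toSt.lo.trans_le (H.ha.le (by omega) (by omega))
      · rw [show (2 * μ + 1) / 2 = μ by omega, show k / 2 = μ by omega]; exact H.hi)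
  obtain ⟨T₂, t2, s2⟩ := H.toSt.exists_tri
    (fun k => min (2 * (k / 2 / (M + 1) * (M + 1)) + 2 + (2 * M + 1)) (2 * μ + 1))
    (fun k k' h1 _ => by
      have := Nat.mul_le_mul_right (M + 1)
        (Nat.div_le_div_right (c := M + 1) (Nat.div_le_div_right (c := 2) h1))
      omega) (by omega)
    (by
      have := dv N 0 (by omega)
      rw [add_zero, ← hμ] at this
      rw [this]
      omega)
    (fun k hk => by
      by_cases c : k / 2 = μ
      · rw [c]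
        exact (H.hb.le (by omega) le_rfl).trans_lt H.hi
      · obtain ⟨g, hg, i, hi, e⟩ := blk_of_lt (hμ ▸ (by omega : k / 2 < μ))
        have e2 : k / 2 / (M + 1) = g := by
          have := dv g (k - 2 * (g * (M + 1))) (by omega)
          rwa [show 2 * (g * (M + 1)) + (k - 2 * (g * (M + 1))) = k by omega] at this
        have := blk_lt (M := M) hg le_rfl
        rw [e2, show min (2 * (g * (M + 1)) + 2 + (2 * M + 1)) (2 * μ + 1) / 2 =
          g * (M + 1) + M + 1 by omega, H.dn g M le_rfl, e, H.up g i hi]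
        nlinarith [sq_nonneg (i : ℝ)])
  refine ⟨T₁, T₂, t1, t2, ?_⟩
  rintro j _ _ ⟨q, f₁, f₂, rfl, rfl, rfl, rfl, H'⟩ F hF
  obtain ⟨a1, a2⟩ := H.tot_ins t1 fun i hi => (H' i hi).1
  obtain ⟨-, b2⟩ := H.tot_ins t2 fun i hi => (H' i hi).2
  have c1 := H.tot_seq a1 hF
  have c2 : tot p r a b M N S (q '' Iio j) (f₁ 0) = 0 := by
    refine Finset.sum_eq_zero fun x hx => Nat.le_zero.1 (top_le ?_)
    rintro l hl ⟨t, ht, h1, h2⟩
    obtain ⟨b1, b2⟩ := Finset.mem_product.1 hx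
    have e1 := blk_lt (M := M) (mem_cl.1 b1).1 le_rfl
    have e2 := Finset.mem_range.1 b2
    have := (s1 _ (by omega)).2 _ (by omega) t ht h1 h2
    rw [if_pos (by omega)] at this
    omega
  have c3 : (cl N S (q '' Iio j) ×ˢ Finset.range M).card * (2 * M + 1) ≤
      tot p r a b M N S (q '' Iio j) (f₂ 0) := by
    rw [← smul_eq_mul]
    refine Finset.card_nsmul_le_sum _ _ _ fun x hx => le_top le_rfl ?_
    obtain ⟨b1, b2⟩ := Finset.mem_product.1 hx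
    have e1 := blk_lt (M := M) (mem_cl.1 b1).1 le_rfl
    have e2 := Finset.mem_range.1 b2
    have := (s2 (2 * (x.1 * (M + 1)) + (2 * x.2 + 1)) (by omega)).1
    rwa [dv _ _ (by omega), min_eq_left (by omega)] at this
  have c4 := Nat.mul_le_mul_right (M * (2 * M + 1))
    (cl_card (S := S) (by nlinarith [sq_nonneg (M : ℝ)]) N j q)
  rw [Finset.card_product, Finset.card_range, mul_assoc] at c3
  rw [add_mul] at c4
  omega

/-- the family: `4N(M+1)+4` vertices, at least `(N-j)M(2M+1)/4` flips after `j` insertions -/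
theorem family (M N : ℕ) :
    ∃ (v : ZMod (2 * (2 * (N * (M + 1)) + 1) + 2) → ℝ × ℝ) (T₁ T₂ : Set (Set (ℝ × ℝ))),
      IsSimplePolygon _ v ∧ (∀ i, (v i).1 = (v (i + 1)).1 ∨ (v i).2 = (v (i + 1)).2) ∧
      (∃ i j, ∀ x ∈ region _ v, segment ℝ (v i) x ⊆ region _ v ∨ segment ℝ (v j) x ⊆ region _ v) ∧
      IsTriangulation (region _ v) (range v) T₁ ∧ IsTriangulation (region _ v) (range v) T₂ ∧
      ∀ j T₁' T₂', InsertSeq j T₁ T₂ T₁' T₂' → ∀ F, FlipSeq F T₁' T₂' →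
        N * (M * (2 * M + 1)) ≤ 4 * F + j * (M * (2 * M + 1)) := by
  obtain ⟨S, p, r, a, b, H⟩ := exists_ort M N
  have hreg := H.toSt.region_eq
  obtain ⟨T₁, T₂, t1, t2, low⟩ := H.lower
  refine ⟨vx (stp p a) (stp r b) _, T₁, T₂, H.toSt.simple, H.toSt.orth, ?_, by rwa [hreg],
    by rwa [hreg], low⟩
  obtain ⟨i, hi⟩ := (range_vx (stp p a) (stp r b) (2 * (N * (M + 1)) + 1) (stp r b 1)).2
    ⟨1, by omega, Or.inr rfl⟩
  obtain ⟨j, hj⟩ := (range_vx (stp p a) (stp r b) (2 * (N * (M + 1)) + 1)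
    (stp p a (2 * (N * (M + 1))))).2 ⟨_, by omega, Or.inl rfl⟩
  refine ⟨i, j, ?_⟩
  rw [hreg, hi, hj]
  exact fun x hx => H.toSt.guards hx

theorem main3 (k : ℕ → ℕ)
    (hk : (fun n => (k n : ℝ)) =o[Filter.atTop] (fun n : ℕ => (n : ℝ))) (C : ℝ) (n₀ : ℕ) :
    ∃ n ≥ n₀, ∃ (v : ZMod n → ℝ × ℝ) (T₁ T₂ : Set (Set (ℝ × ℝ))),
      IsSimplePolygon n v ∧ (∀ i, (v i).1 = (v (i + 1)).1 ∨ (v i).2 = (v (i + 1)).2) ∧
      (∃ i j, ∀ x ∈ region n v, segment ℝ (v i) x ⊆ region n v ∨ segment ℝ (v j) x ⊆ region n v) ∧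
      IsTriangulation (region n v) (range v) T₁ ∧ IsTriangulation (region n v) (range v) T₂ ∧
      ∀ j ≤ k n, ∀ T₁' T₂', InsertSeq j T₁ T₂ T₁' T₂' →
        ∀ F : ℕ, FlipSeq F T₁' T₂' → C * n < F := by
  obtain ⟨M, hM, hC⟩ : ∃ M : ℕ, 0 < M ∧ 96 * C < M := by
    obtain ⟨m, h⟩ := exists_nat_gt (96 * C)
    exact ⟨m + 1, by omega, by push_cast; linarith⟩
  have m1 : (1 : ℝ) ≤ M := by exact_mod_cast hM
  obtain ⟨n₁, hn₁⟩ := Filter.eventually_atTop.1 (hk.def (c := 1 / (24 * M)) (by positivity))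
  set N := n₀ + n₁ + 1 with hN
  have N0 : 0 < N := by omega
  have hK1 : N ≤ N * (M + 1) := Nat.le_mul_of_pos_right N (by omega)
  obtain ⟨v, T₁, T₂, h1, h2, h3, h4, h5, low⟩ := family M N
  refine ⟨_, by omega, v, T₁, T₂, h1, h2, h3, h4, h5, ?_⟩
  intro j hj T₁' T₂' hI F hF
  have g1 := low j _ _ hI F hF
  have g2 := hn₁ (2 * (2 * (N * (M + 1)) + 1) + 2) (by omega)
  rw [Real.norm_natCast, Real.norm_natCast] at g2
  have g3 : (j : ℝ) ≤ k (2 * (2 * (N * (M + 1)) + 1) + 2) := by exact_mod_cast hj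
  have g4 : (1 : ℝ) ≤ N := by exact_mod_cast N0
  have g5 : (N : ℝ) * (M * (2 * M + 1)) ≤ 4 * F + j * (M * (2 * M + 1)) := by exact_mod_cast g1
  have g6 : ((2 * (2 * (N * (M + 1)) + 1) + 2 : ℕ) : ℝ) = 4 * (N * (M + 1)) + 4 := by
    push_cast; ring
  rw [g6] at g2 ⊢
  have g7 : (j : ℝ) * (24 * M) ≤ 4 * (N * (M + 1)) + 4 := by
    have := g3.trans g2
    rw [one_div, inv_mul_eq_div, le_div_iff₀ (by positivity)] at this
    exact this
  have g8 : (1 : ℝ) ≤ N * M := by nlinarith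
  have g9 : 4 * ((N : ℝ) * (M + 1)) + 4 ≤ 12 * (N * M) := by nlinarith
  have g10 : (j : ℝ) * (M * (2 * M + 1)) ≤ N * (M * (2 * M + 1)) / 2 := by
    have := mul_le_mul_of_nonneg_right (g7.trans g9) (show (0 : ℝ) ≤ 2 * M + 1 by linarith)
    nlinarith
  have g11 : C * (4 * (N * (M + 1)) + 4) < M / 96 * (4 * (N * (M + 1)) + 4) :=
    mul_lt_mul_of_pos_right (by linarith) (by positivity)
  have g12 : (M : ℝ) / 96 * (4 * (N * (M + 1)) + 4) ≤ M / 96 * (12 * (N * M)) :=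
    mul_le_mul_of_nonneg_left g9 (by positivity)
  nlinarith [mul_nonneg (show (0 : ℝ) ≤ N * M by linarith) (show (0 : ℝ) ≤ M by linarith)]

end Pool.Agent.P.MP_fe41f2_co.Orth
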