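import Mathlib
import Pool.Agent.P.MP_fe41f2_co.OrE

set_option autoImplicit false

namespace Pool.Agent.P.MP_fe41f2_co.Orth

open Set G2

lemma aff_convex {f : ℝ × ℝ → ℝ} (hf : Aff f) : Convex ℝ {x | 0 ≤ f x} := by
  intro x hx y hy s t hs ht hst
  obtain rfl : s = 1 - t := by linarith
  simp only [mem_ofPred_eq] at hx hy ⊢
  rw [hf]
  exact add_nonneg (mul_nonneg hs hx) (mul_nonneg ht hy)

lemma quad_convex {x y c d : ℝ × ℝ} (h1 : 0 < det3 c y x) (h2 : 0 < det3 c y d)
    (h3 : 0 < det3 x y d) (h4 : 0 < det3 c d x) :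
    Convex ℝ (convexHull ℝ ({x, y, c} : Set (ℝ × ℝ)) ∪ convexHull ℝ ({x, y, d} : Set (ℝ × ℝ))) := by
  have hQ := ((aff_convex (d_aff c y)).inter (aff_convex (d_aff y d))).inter
    ((aff_convex (d_aff d x)).inter (aff_convex (d_aff x c)))
  convert hQ using 1
  apply Subset.antisymm
  · apply union_subset <;> refine convexHull_min ?_ hQ <;> rintro w (rfl | rfl | rfl) <;>
      simp only [mem_inter_iff, mem_ofPred_eq, det3] at h1 h2 h3 h4 ⊢ <;>
      refine ⟨⟨?_, ?_⟩, ?_, ?_⟩ <;> linarith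
  · rintro w ⟨⟨c1, c2⟩, c3, c4⟩
    simp only [mem_ofPred_eq] at c1 c2 c3 c4
    rcases le_total 0 (det3 x y w) with h | h
    · exact Or.inr (mem_hull_of_det 1 (by linarith) (by linarith) (by linarith) (by linarith))
    · refine Or.inl (mem_hull_of_det (-1) ?_ (by linarith) ?_ ?_) <;>
        simp only [det3] at h1 c1 c4 ⊢ <;> linarith

lemma mem_tri {x y v : ℝ × ℝ} {l₁ l₂ l₃ : ℝ} (h1 : 0 ≤ l₁) (h2 : 0 ≤ l₂) (h3 : 0 ≤ l₃)
    (h : l₁ + l₂ + l₃ = 1) : l₁ • x + l₂ • y + l₃ • v ∈ convexHull ℝ ({x, y, v} : Set (ℝ × ℝ)) := by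
  have := (convex_convexHull ℝ ({x, y, v} : Set (ℝ × ℝ))).sum_mem (t := Finset.univ)
    (w := ![l₁, l₂, l₃]) (z := ![x, y, v])
    (fun i _ => by fin_cases i <;> simpa) (by simpa [Fin.sum_univ_three] using h)
    (fun i _ => subset_convexHull ℝ _ (by fin_cases i <;> simp))
  simpa [Fin.sum_univ_three] using this

lemma of_mem_tri {x y v z : ℝ × ℝ} (h : z ∈ convexHull ℝ ({x, y, v} : Set (ℝ × ℝ))) :
    ∃ l₁ l₂ l₃ : ℝ, 0 ≤ l₁ ∧ 0 ≤ l₂ ∧ 0 ≤ l₃ ∧ l₁ + l₂ + l₃ = 1 ∧ z = l₁ • x + l₂ • y + l₃ • v := by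
  rw [convexHull_insert (by simp), convexHull_pair, mem_convexJoin] at h
  obtain ⟨_, rfl, _, ⟨s, t, hs, ht, hst, rfl⟩, u, u', hu, hu', huu, rfl⟩ := h
  refine ⟨u, u' * s, u' * t, hu, mul_nonneg hu' hs, mul_nonneg hu' ht, ?_, ?_⟩
  · rw [add_assoc, ← mul_add, hst, mul_one, huu]
  · simp only [smul_add, smul_smul, add_assoc]

lemma cut {x y v : ℝ × ℝ} {l₁ l₂ l₃ m₁ m₂ m₃ : ℝ} (h1 : 0 ≤ l₁) (hl : l₁ + l₂ + l₃ = 1)
    (g1 : 0 < m₁) (g2 : 0 < m₂) (g3 : 0 < m₃) (hm : m₁ + m₂ + m₃ = 1)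
    (c2 : l₁ / m₁ ≤ l₂ / m₂) (c3 : l₁ / m₁ ≤ l₃ / m₃) :
    l₁ • x + l₂ • y + l₃ • v ∈
      convexHull ℝ ({m₁ • x + m₂ • y + m₃ • v, y, v} : Set (ℝ × ℝ)) := by
  rw [le_div_iff₀ g2] at c2
  rw [le_div_iff₀ g3] at c3
  have e : l₁ / m₁ * m₁ = l₁ := div_mul_cancel₀ _ g1.ne'
  have := mem_tri (x := m₁ • x + m₂ • y + m₃ • v) (y := y) (v := v) (div_nonneg h1 g1.le)
    (sub_nonneg.2 c2) (sub_nonneg.2 c3) (by linear_combination hl - l₁ / m₁ * hm + e)
  convert this using 1
  ext <;> simp only [Prod.fst_add, Prod.snd_add, Prod.smul_fst, Prod.smul_snd, smul_eq_mul]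
  · linear_combination (-x.1) * e
  · linear_combination (-x.2) * e

lemma tri_split {x y v w z : ℝ × ℝ} (hw : w ∈ interior (convexHull ℝ ({x, y, v} : Set (ℝ × ℝ))))
    (hz : z ∈ convexHull ℝ ({x, y, v} : Set (ℝ × ℝ))) :
    z ∈ convexHull ℝ ({w, x, y} : Set (ℝ × ℝ)) ∨ z ∈ convexHull ℝ ({w, y, v} : Set (ℝ × ℝ)) ∨
      z ∈ convexHull ℝ ({w, v, x} : Set (ℝ × ℝ)) := by
  obtain ⟨c, hc, h⟩ := interior_step hw ((2 : ℝ) • w - (1 / 3 : ℝ) • (x + y + v))
  obtain ⟨k₁, k₂, k₃, a1, a2, a3, a4, a5⟩ := of_mem_tri h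
  obtain ⟨l₁, l₂, l₃, b1, b2, b3, b4, rfl⟩ := of_mem_tri hz
  have c1 : 0 < 1 + c := by linarith
  obtain ⟨m₁, m₂, m₃, g1, g2, g3, hm, rfl⟩ : ∃ m₁ m₂ m₃ : ℝ, 0 < m₁ ∧ 0 < m₂ ∧ 0 < m₃ ∧
      m₁ + m₂ + m₃ = 1 ∧ w = m₁ • x + m₂ • y + m₃ • v := by
    refine ⟨(k₁ + c / 3) / (1 + c), (k₂ + c / 3) / (1 + c), (k₃ + c / 3) / (1 + c),
      by positivity, by positivity, by positivity, by field_simp; linarith, ?_⟩
    have e1 := congrArg Prod.fst a5
    have e2 := congrArg Prod.snd a5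
    simp only [Prod.fst_add, Prod.snd_add, Prod.fst_sub, Prod.snd_sub, Prod.smul_fst,
      Prod.smul_snd, smul_eq_mul] at e1 e2
    ext <;> simp only [Prod.fst_add, Prod.snd_add, Prod.smul_fst, Prod.smul_snd, smul_eq_mul] <;>
      field_simp <;> linarith
  have k1 : l₁ / m₁ ≤ l₂ / m₂ → l₁ / m₁ ≤ l₃ / m₃ → _ := cut (x := x) (y := y) (v := v) b1 b4 g1 g2 g3 hm
  have k2 : l₂ / m₂ ≤ l₃ / m₃ → l₂ / m₂ ≤ l₁ / m₁ → _ :=
    cut (x := y) (y := v) (v := x) b2 (by linarith) g2 g3 g1 (by linarith)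
  have k3 : l₃ / m₃ ≤ l₁ / m₁ → l₃ / m₃ ≤ l₂ / m₂ → _ :=
    cut (x := v) (y := x) (v := y) b3 (by linarith) g3 g1 g2 (by linarith)
  rw [show l₂ • y + l₃ • v + l₁ • x = l₁ • x + l₂ • y + l₃ • v by abel,
    show m₂ • y + m₃ • v + m₁ • x = m₁ • x + m₂ • y + m₃ • v by abel] at k2
  rw [show l₃ • v + l₁ • x + l₂ • y = l₁ • x + l₂ • y + l₃ • v by abel,
    show m₃ • v + m₁ • x + m₂ • y = m₁ • x + m₂ • y + m₃ • v by abel] at k3
  rcases le_total (l₁ / m₁) (l₂ / m₂) with p1 | p1 <;>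
    rcases le_total (l₂ / m₂) (l₃ / m₃) with p2 | p2 <;>
    rcases le_total (l₃ / m₃) (l₁ / m₁) with p3 | p3 <;>
    first
    | exact Or.inr (Or.inl (k1 p1 (p1.trans p2)))
    | exact Or.inr (Or.inl (k1 p1 p3))
    | exact Or.inr (Or.inr (k2 p2 p1))
    | exact Or.inl (k3 p3 p2)
    | exact Or.inl (k3 (p2.trans p1) p2)

lemma inv_remove {P V : Set (ℝ × ℝ)} {T T' : Set (Set (ℝ × ℝ))} {w : ℝ × ℝ} (h : Inv2 P V T)
    (hf : InsertPoint w T' T) : Inv2 P V T' := by
  obtain ⟨x, y, v, -, hi, rfl⟩ := hf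
  intro t ht
  by_cases c : t = {x, y, v}
  · subst c
    have m1 := h {w, x, y} (Or.inr (by simp))
    have m2 := h {w, y, v} (Or.inr (by simp))
    have m3 := h {w, v, x} (Or.inr (by simp))
    refine ⟨?_, fun z hz => ?_⟩
    · rintro z (rfl | rfl | rfl)
      exacts [m1.1 (by simp), m1.1 (by simp), m2.1 (by simp)]
    · rcases tri_split hi hz with e | e | e
      exacts [m1.2 e, m2.2 e, m3.2 e]
  · exact h t (Or.inl ⟨ht, c⟩)

variable {M N μ : ℕ} {S : ℝ} {p r a b : ℕ → ℝ} {α β : ℕ → ℕ}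

/-- the triangles of a path of rungs -/
def TT4 (μ : ℕ) (p r a b : ℕ → ℝ) (α β : ℕ → ℕ) : Set (Set (ℝ × ℝ)) :=
  {t | ∃ s < 2 * (2 * μ + 1), t = t4 (stp p a) (stp r b) α β s}

lemma path_sum {n : ℕ} (h : IsPath n α β) {s : ℕ} (hs : s ≤ 2 * n) : α s + β s = s := by
  induction s with
  | zero => rw [h.a0, h.b0]
  | succ s ih =>
    have := ih (by omega)
    have := h.step s hs
    omega

lemma St.t4_ne (H : St μ p r a b) (h : Dn μ a b α β) {s s' : ℕ} (hlt : s < s')
    (hs' : s' < 2 * (2 * μ + 1)) :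
    t4 (stp p a) (stp r b) α β s ≠ t4 (stp p a) (stp r b) α β s' := by
  intro e
  have l := H.left h (s := s) (u := s + 1) le_rfl (by omega)
  have m := h.toIsPath.mono (s := s + 1) (s' := s') hlt hs'.le
  have R := h.rg (s + 1) (by omega)
  have R' := h.rg (s' + 1) hs'
  rw [e] at l
  rcases h.step s' hs' with ⟨e1, -⟩ | ⟨-, e2⟩
  · exact absurd (l _ (Or.inr (Or.inl rfl))) (not_le.2 (H.gtU R (by omega) R'.hk))
  · exact absurd (l _ (Or.inr (Or.inr (Or.inr rfl)))) (not_le.2 (H.gtL R (by omega) R'.hl))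

lemma St.flip_step (H : St μ p r a b) (h : Dn μ a b α β) {s : ℕ} (hs : s + 2 ≤ 2 * (2 * μ + 1))
    (e1 : α (s + 1) = α s + 1) (e2 : α (s + 2) = α (s + 1)) (R : Rung μ a b (α s) (β s + 1)) :
    Dn μ a b (Function.update α (s + 1) (α s)) (Function.update β (s + 1) (β s + 1)) ∧
      Flip (TT4 μ p r a b α β)
        (TT4 μ p r a b (Function.update α (s + 1) (α s)) (Function.update β (s + 1) (β s + 1))) := by
  have q0 := path_sum h.toIsPath (s := s) (by omega)
  have q1 := path_sum h.toIsPath (s := s + 1) (by omega)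
  have q2 := path_sum h.toIsPath (s := s + 2) hs
  have f1 : β (s + 1) = β s := by omega
  have f2 : β (s + 2) = β s + 1 := by omega
  have R0 := h.rg s (by omega)
  have R1 := h.rg (s + 1) (by omega)
  rw [e1, f1] at R1
  refine ⟨⟨⟨?_, ?_, ?_, ?_, fun u hu => ?_⟩, fun u hu => ?_⟩, ?_⟩
  · rw [Function.update_of_ne (by omega)]; exact h.a0
  · rw [Function.update_of_ne (by omega)]; exact h.b0
  · rw [Function.update_of_ne (by omega)]; exact h.a1
  · rw [Function.update_of_ne (by omega)]; exact h.b1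
  · by_cases c : u = s
    · subst c
      simp [Function.update_of_ne]
    by_cases c' : u = s + 1
    · subst c'
      left
      rw [Function.update_of_ne (show s + 1 + 1 ≠ s + 1 by omega),
        Function.update_of_ne (show s + 1 + 1 ≠ s + 1 by omega), Function.update_self,
        Function.update_self]
      exact ⟨e2.trans e1, f2⟩
    · rw [Function.update_of_ne c', Function.update_of_ne c', Function.update_of_ne (by omega),
        Function.update_of_ne (by omega)]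
      exact h.step u hu
  · by_cases c' : u = s + 1
    · subst c'
      rwa [Function.update_self, Function.update_self]
    · rw [Function.update_of_ne c', Function.update_of_ne c']
      exact h.rg u hu
  have o1 : t4 (stp p a) (stp r b) α β s = {stp p a (α s + 1), stp r b (β s), stp p a (α s)} := by
    unfold t4
    rw [e1, f1]
    ext x; simp only [mem_insert_iff, mem_singleton_iff]; tauto
  have o2 : t4 (stp p a) (stp r b) α β (s + 1) =
      {stp p a (α s + 1), stp r b (β s), stp r b (β s + 1)} := by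
    unfold t4
    rw [e2, e1, f1, f2]
    ext x; simp only [mem_insert_iff, mem_singleton_iff]; tauto
  have n1 : t4 (stp p a) (stp r b) (Function.update α (s + 1) (α s))
      (Function.update β (s + 1) (β s + 1)) s =
      {stp r b (β s), stp p a (α s), stp r b (β s + 1)} := by
    unfold t4
    rw [Function.update_self, Function.update_self, Function.update_of_ne (by omega),
      Function.update_of_ne (by omega)]
    ext x; simp only [mem_insert_iff, mem_singleton_iff]; tauto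
  have n2 : t4 (stp p a) (stp r b) (Function.update α (s + 1) (α s))
      (Function.update β (s + 1) (β s + 1)) (s + 1) =
      {stp p a (α s + 1), stp p a (α s), stp r b (β s + 1)} := by
    unfold t4
    rw [Function.update_self, Function.update_self, Function.update_of_ne (by omega),
      Function.update_of_ne (by omega), e2, e1, f2]
    ext x; simp only [mem_insert_iff, mem_singleton_iff]; tauto
  have n3 : ∀ u, u ≠ s → u ≠ s + 1 → t4 (stp p a) (stp r b) (Function.update α (s + 1) (α s))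
      (Function.update β (s + 1) (β s + 1)) u = t4 (stp p a) (stp r b) α β u := fun u c c' => by
    unfold t4
    rw [Function.update_of_ne c', Function.update_of_ne c', Function.update_of_ne (by omega),
      Function.update_of_ne (by omega)]
  have ne : ∀ u u', u < 2 * (2 * μ + 1) → u' < 2 * (2 * μ + 1) → u ≠ u' →
      t4 (stp p a) (stp r b) α β u ≠ t4 (stp p a) (stp r b) α β u' := fun u u' c c' hne => by
    rcases lt_or_gt_of_ne hne with d | d
    exacts [H.t4_ne h d c', (H.t4_ne h d c).symm]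
  refine ⟨stp p a (α s + 1), stp r b (β s), stp p a (α s), stp r b (β s + 1), H.ne R1.hk R1.hl,
    fun e => ?_, H.ne R1.hk R.hl, (H.ne R0.hk R0.hl).symm, fun e => ?_, H.ne R.hk R.hl,
    ⟨s, by omega, o1.symm⟩, ⟨s + 1, by omega, o2.symm⟩,
    quad_convex (H.gtU R0 (lt_add_one _) R1.hk) (H.gtL R0 (lt_add_one _) R.hl)
      (H.gtL R1 (lt_add_one _) R.hl) (H.gtU R (lt_add_one _) R1.hk), ?_⟩
  · have := stp_inj H.hp H.ha R1.hk R0.hk e; omega
  · have := stp_inj H.hr H.hb R0.hl R.hl e; omega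
  rw [← o1, ← o2, ← n1, ← n2]
  ext t
  constructor
  · rintro ⟨u, hu, rfl⟩
    by_cases c : u = s
    · exact Or.inr (Or.inr (by rw [c]; rfl))
    by_cases c' : u = s + 1
    · exact Or.inr (Or.inl (by rw [c']))
    · rw [n3 u c c']
      refine Or.inl ⟨⟨u, hu, rfl⟩, ?_⟩
      rintro (d | d)
      exacts [ne u s hu (by omega) c d, ne u (s + 1) hu (by omega) c' d]
  · rintro (⟨⟨u, hu, rfl⟩, d⟩ | rfl | rfl)
    · exact ⟨u, hu, (n3 u (fun c => d (Or.inl (by rw [c]))) fun c => d (Or.inr (by rw [c]; rfl))).symm⟩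
    · exact ⟨s + 1, by omega, rfl⟩
    · exact ⟨s, by omega, rfl⟩

lemma flipSeq_cons {T T' T'' : Set (Set (ℝ × ℝ))} {F : ℕ} (h : Flip T T') (h' : FlipSeq F T' T'') :
    FlipSeq (F + 1) T T'' := by
  obtain ⟨f, rfl, rfl, H⟩ := h'
  refine ⟨fun i => Nat.casesOn i T f, rfl, rfl, fun i hi => ?_⟩
  rcases i with _ | i
  · exact h
  · exact H i (by omega)

theorem St.joined (H : St μ p r a b) {α' β' : ℕ → ℕ} (h' : Dn μ a b α' β') (m : ℕ) :
    ∀ α β, Dn μ a b α β → (∀ s ≤ 2 * (2 * μ + 1), α' s ≤ α s) →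
      ∑ s ∈ Finset.range (2 * (2 * μ + 1) + 1), α s = m →
      ∃ F, FlipSeq F (TT4 μ p r a b α β) (TT4 μ p r a b α' β') := by
  induction m using Nat.strong_induction_on with
  | _ m ih =>
  intro α β h hle hm
  by_cases c : ∀ s ≤ 2 * (2 * μ + 1), α s = α' s
  · have c' : ∀ s ≤ 2 * (2 * μ + 1), β s = β' s := fun s hs => by
      have := path_sum h.toIsPath hs
      have := path_sum h'.toIsPath hs
      have := c s hs
      omega
    refine ⟨0, fun _ => TT4 μ p r a b α β, rfl, ?_, fun i hi => by omega⟩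
    ext t
    refine exists_congr fun s => and_congr_right fun hs => ?_
    unfold t4
    rw [c s hs.le, c (s + 1) hs, c' s hs.le, c' (s + 1) hs]
  push Not at c
  obtain ⟨s₀, hs₀, c⟩ := c
  obtain ⟨u, hu, hmax⟩ := Finset.exists_max_image
    ((Finset.range (2 * (2 * μ + 1) + 1)).filter fun s => α' s < α s)
    (fun s => 2 * α s + (2 * (2 * μ + 1) - s))
    ⟨s₀, by have := hle s₀ hs₀; simp only [Finset.mem_filter, Finset.mem_range]; omega⟩
  simp only [Finset.mem_filter, Finset.mem_range] at hu hmax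
  have u0 : u ≠ 0 := fun e => by have := hu.2; rw [e, h.a0] at this; omega
  have u1 : u ≠ 2 * (2 * μ + 1) := fun e => by have := hu.2; rw [e, h.a1, h'.a1] at this; omega
  obtain ⟨s, rfl⟩ : ∃ s, u = s + 1 := ⟨u - 1, by omega⟩
  have a1 := h.step s (by omega)
  have a2 := h.step (s + 1) (by omega)
  have b1 := h'.step s (by omega)
  have b2 := h'.step (s + 1) (by omega)
  have e1 : α (s + 1) = α s + 1 := by
    by_contra hc
    have := hmax s ⟨by omega, by omega⟩
    omega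
  have e2 : α (s + 1 + 1) = α (s + 1) := by
    by_contra hc
    have := hmax (s + 1 + 1) ⟨by omega, by omega⟩
    omega
  have q1 := path_sum h.toIsPath (s := s) (by omega)
  have q2 := path_sum h'.toIsPath (s := s + 1) (by omega)
  have R1 := h.rg (s + 1) (by omega)
  have R2 := h'.rg (s + 1) (by omega)
  have k1 := R1.hk
  have k2 := R2.hl
  have R : Rung μ a b (α s) (β s + 1) := ⟨by omega, by omega, by omega, by omega,
    (H.hb.le (by omega) (by omega)).trans_lt (R2.hy.trans_le (H.ha.le (by omega) (by omega)))⟩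
  obtain ⟨d, f⟩ := H.flip_step h (s := s) (by omega) e1 e2 R
  obtain ⟨F, hF⟩ := ih _ (by
      rw [← hm]
      refine Finset.sum_lt_sum (fun i _ => ?_) ⟨s + 1, Finset.mem_range.2 (by omega), ?_⟩
      · by_cases c' : i = s + 1
        · rw [c', Function.update_self]; omega
        · rw [Function.update_of_ne c']
      · rw [Function.update_self]; omega) _ _ d (fun i hi => by
      by_cases c' : i = s + 1
      · rw [c', Function.update_self]; omega
      · rw [Function.update_of_ne c']; exact hle i hi) rfl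
  exact ⟨F + 1, flipSeq_cons f hF⟩

theorem St.exists_path (H : St μ p r a b) (φ : ℕ → ℕ)
    (hm : ∀ k k', k ≤ k' → k' ≤ 2 * μ → φ k ≤ φ k') (h0 : 1 ≤ φ 0) (hK : φ (2 * μ) = 2 * μ + 1)
    (h1 : ∀ k ≤ 2 * μ, b (φ k / 2) < a (k / 2)) :
    ∃ α β, Dn μ a b α β ∧ (∀ s ≤ 2 * (2 * μ + 1), α s < 2 * μ + 1 → β s ≤ φ (α s)) ∧
      ∀ k ≤ 2 * μ, (∃ t ∈ TT4 μ p r a b α β, stp p a k ∈ t ∧ stp r b (φ k) ∈ t) ∧
        ∀ c ≤ 2 * μ + 1, ∀ t ∈ TT4 μ p r a b α β, stp p a k ∈ t → stp r b c ∈ t → c ≤ φ k := by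
  set n := 2 * μ + 1 with hn
  set α : ℕ → ℕ := fun s => (walk n φ s).1 with hα
  set β : ℕ → ℕ := fun s => (walk n φ s).2 with hβ
  have st : ∀ s, (α s < n ∧ φ (α s) ≤ β s ∧ α (s + 1) = α s + 1 ∧ β (s + 1) = β s) ∨
      (¬ (α s < n ∧ φ (α s) ≤ β s) ∧ α (s + 1) = α s ∧ β (s + 1) = β s + 1) := by
    intro s
    by_cases h : (walk n φ s).1 < n ∧ φ (walk n φ s).1 ≤ (walk n φ s).2
    · exact Or.inl ⟨h.1, h.2, by simp only [hα, walk, if_pos h], by simp only [hβ, walk, if_pos h]⟩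
    · exact Or.inr ⟨h, by simp only [hα, walk, if_neg h], by simp only [hβ, walk, if_neg h]⟩
  have top : ∀ k < n, φ k ≤ n := fun k hk => by have := hm k (2 * μ) (by omega) le_rfl; omega
  have inv : ∀ s ≤ 2 * n, α s + β s = s ∧ α s ≤ n ∧ β s ≤ n ∧ (α s < n → β s ≤ φ (α s)) ∧
      (β s = 0 → α s = 0) ∧ (α s = n → β s = n) := by
    intro s
    induction s with
    | zero => intro _; simp [hα, hβ, walk, hn]
    | succ s ih =>
      intro hs
      obtain ⟨i1, i2, i3, i4, i5, i6⟩ := ih (by omega)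
      rcases st s with ⟨c1, c2, c3, c4⟩ | ⟨c1, c3, c4⟩
      · have := hm 0 (α s) (by omega) (by omega)
        refine ⟨by omega, by omega, by omega, fun h => ?_, by omega, fun h => ?_⟩
        · have := hm (α s) (α (s + 1)) (by omega) (by omega)
          have := i4 c1
          omega
        · rw [show α s = 2 * μ by omega] at c2
          omega
      · have c5 : α s < n := by omega
        have := top _ c5
        refine ⟨by omega, by omega, by omega, fun _ => ?_, by omega, by omega⟩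
        rw [c3]; omega
  have hP : IsPath n α β := by
    have := inv _ le_rfl
    refine ⟨rfl, rfl, by omega, by omega, fun s _ => ?_⟩
    rcases st s with h | h
    · exact Or.inl h.2.2
    · exact Or.inr h.2
  have hD : Dn μ a b α β := by
    refine ⟨hP, fun s hs => ?_⟩
    obtain ⟨i1, i2, i3, i4, i5, i6⟩ := inv s hs
    refine ⟨i2, i3, i5, i6, ?_⟩
    by_cases c : α s < n
    · have := top _ c
      have := i4 c
      exact (H.hb.le (by omega) (by omega)).trans_lt (h1 _ (by omega))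
    · rw [show α s / 2 = μ by omega, show β s / 2 = μ by omega]
      exact H.hi
  refine ⟨α, β, hD, fun s hs => (inv s hs).2.2.2.1, fun k hk => ⟨?_, ?_⟩⟩
  · have hex : ∃ s, k < α s := ⟨2 * n, by rw [hP.a1]; omega⟩
    have s1 := Nat.find_spec hex
    have s2 : Nat.find hex ≤ 2 * n := Nat.find_min' hex (by rw [hP.a1]; omega)
    obtain ⟨s, hs⟩ : ∃ s, Nat.find hex = s + 1 := by
      refine ⟨Nat.find hex - 1, ?_⟩
      have : Nat.find hex ≠ 0 := fun h => by rw [h, hP.a0] at s1; omega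
      omega
    have s3 := Nat.find_min hex (m := s) (by omega)
    rw [hs] at s1 s2
    obtain ⟨-, -, -, i4, -⟩ := inv s (by omega)
    rcases st s with ⟨c1, c2, c3, c4⟩ | ⟨-, c3, c4⟩
    · have e2 : α s = k := by omega
      have e3 : β s = φ k := by
        have := i4 c1
        rw [e2] at this c2
        omega
      exact ⟨_, ⟨s, by omega, rfl⟩, Or.inl (by rw [e2]), Or.inr (Or.inr (Or.inl (by rw [e3])))⟩
    · omega
  · rintro c hc t ⟨s, hs, rfl⟩ hu hl
    obtain ⟨-, i2, i3, i4, -⟩ := inv s hs.le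
    obtain ⟨-, j2, j3, j4, -⟩ := inv (s + 1) hs
    have u : k = α s ∨ k = α (s + 1) := by
      rcases hu with h | h | h | h
      exacts [Or.inl (stp_inj H.hp H.ha (by omega) i2 h), Or.inr (stp_inj H.hp H.ha (by omega) j2 h),
        absurd h (H.ne (by omega) i3), absurd h (H.ne (by omega) j3)]
    have l : c = β s ∨ c = β (s + 1) := by
      rcases hl with h | h | h | h
      exacts [absurd h.symm (H.ne i2 hc), absurd h.symm (H.ne j2 hc),
        Or.inl (stp_inj H.hr H.hb hc i3 h), Or.inr (stp_inj H.hr H.hb hc j3 h)]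
    rcases u with rfl | rfl
    · have := i4 (by omega)
      rcases st s with ⟨-, -, -, c4⟩ | ⟨-, c3, c4⟩
      · omega
      · rw [c3] at j4
        have := j4 (by omega)
        omega
    · have := j4 (by omega)
      rcases st s with ⟨-, -, -, c4⟩ | ⟨-, -, c4⟩ <;> omega

theorem Ort.pair (H : Ort M N μ S p r a b) : ∃ T₁ T₂,
    IsTriangulation (PP μ p r a b) (range (vx (stp p a) (stp r b) (2 * μ + 1))) T₁ ∧
    IsTriangulation (PP μ p r a b) (range (vx (stp p a) (stp r b) (2 * μ + 1))) T₂ ∧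
    (∃ F, FlipSeq F T₁ T₂) ∧ ∀ W, tot p r a b M N S W T₁ = 0 ∧
      (cl N S W).card * (M * (2 * M + 1)) ≤ tot p r a b M N S W T₂ := by
  classical
  obtain ⟨-, n2, n3, -⟩ := H.nums
  have hμ := H.hμ
  have dv : ∀ g e, e ≤ 2 * M + 1 → (2 * (g * (M + 1)) + e) / 2 / (M + 1) = g := fun g e he => by
    rw [show (2 * (g * (M + 1)) + e) / 2 = e / 2 + g * (M + 1) by omega,
      Nat.add_mul_div_right _ _ (by omega), Nat.div_eq_of_lt (by omega), zero_add]
  obtain ⟨α₁, β₁, d1, i1, s1⟩ := H.toSt.exists_path (fun k => if k < 2 * μ then 1 else 2 * μ + 1)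
    (fun k k' h1 _ => by split_ifs <;> omega) (by split_ifs <;> omega) (by simp)
    (fun k hk => by
      split_ifs with c
      · exact H.toSt.lo.trans_le (H.ha.le (by omega) (by omega))
      · rw [show (2 * μ + 1) / 2 = μ by omega, show k / 2 = μ by omega]; exact H.hi)
  obtain ⟨α₂, β₂, d2, -, s2⟩ := H.toSt.exists_path
    (fun k => min (2 * (k / 2 / (M + 1) * (M + 1)) + 2 + (2 * M + 1)) (2 * μ + 1))
    (fun k k' h1 _ => by
      have := Nat.mul_le_mul_right (M + 1)
        (Nat.div_le_div_right (c := M + 1) (Nat.div_le_div_right (c := 2) h1))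
      omega) (by omega)
    (by
      have := dv N 0 (by omega)
      rw [add_zero, ← hμ] at this
      rw [this]
      omega)
    (fun k hk => by
      by_cases c : k / 2 = μ
      · rw [c]
        exact (H.hb.le (by omega) le_rfl).trans_lt H.hi
      · obtain ⟨g, hg, i, hi, e⟩ := blk_of_lt (hμ ▸ (by omega : k / 2 < μ))
        have e2 : k / 2 / (M + 1) = g := by
          have := dv g (k - 2 * (g * (M + 1))) (by omega)
          rwa [show 2 * (g * (M + 1)) + (k - 2 * (g * (M + 1))) = k by omega] at this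
        have := blk_lt (M := M) hg le_rfl
        rw [e2, show min (2 * (g * (M + 1)) + 2 + (2 * M + 1)) (2 * μ + 1) / 2 =
          g * (M + 1) + M + 1 by omega, H.dn g M le_rfl, e, H.up g i hi]
        nlinarith [sq_nonneg (i : ℝ)])
  refine ⟨_, _, H.toSt.isTri d1, H.toSt.isTri d2,
    H.toSt.joined d2 _ α₁ β₁ d1 (fun s hs => ?_) rfl, fun W => ⟨?_, ?_⟩⟩
  · have q1 := path_sum d1.toIsPath hs
    have q2 := path_sum d2.toIsPath hs
    have z := (d2.rg s hs).z0
    have z' := (d2.rg s hs).zK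
    have z1 := (d2.rg s hs).hk
    have z2 := (d1.rg s hs).hl
    by_cases c : α₁ s < 2 * μ
    · have := i1 s hs (by omega)
      rw [if_pos c] at this
      omega
    · omega
  · refine Finset.sum_eq_zero fun x hx => Nat.le_zero.1 (top_le ?_)
    rintro l hl ⟨t, ht, h1, h2⟩
    obtain ⟨b1, b2⟩ := Finset.mem_product.1 hx
    have e1 := blk_lt (M := M) (mem_cl.1 b1).1 le_rfl
    have e2 := Finset.mem_range.1 b2
    have := (s1 _ (by omega)).2 _ (by omega) t ht h1 h2
    rw [if_pos (by omega)] at this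
    omega
  · have c3 : (cl N S W ×ˢ Finset.range M).card * (2 * M + 1) ≤
        tot p r a b M N S W (TT4 μ p r a b α₂ β₂) := by
      rw [← smul_eq_mul]
      refine Finset.card_nsmul_le_sum _ _ _ fun x hx => le_top le_rfl ?_
      obtain ⟨b1, b2⟩ := Finset.mem_product.1 hx
      have e1 := blk_lt (M := M) (mem_cl.1 b1).1 le_rfl
      have e2 := Finset.mem_range.1 b2
      have := (s2 (2 * (x.1 * (M + 1)) + (2 * x.2 + 1)) (by omega)).1
      rwa [dv _ _ (by omega), min_eq_left (by omega)] at this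
    rwa [Finset.card_product, Finset.card_range, mul_assoc] at c3

lemma Ort.tot_eq (H : Ort M N μ S p r a b) {W : Set (ℝ × ℝ)} {T T' : Set (Set (ℝ × ℝ))}
    {w : ℝ × ℝ} (hw : w ∈ W) (hf : InsertPoint w T T') :
    tot p r a b M N S W T' = tot p r a b M N S W T := by
  apply Finset.sum_congr rfl
  intro x hx
  obtain ⟨b1, b2⟩ := Finset.mem_product.1 hx
  exact H.pot_insert (mem_cl.1 b1).1 (Finset.mem_range.1 b2) ((mem_cl.1 b1).2 _ hw) hf

/-- the family again: the two triangulations are joined by flips, and the count also holds when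
the points `q 0, ..., q (j-1)` are inserted or removed at any time -/
theorem family2 (M N : ℕ) :
    ∃ (v : ZMod (2 * (2 * (N * (M + 1)) + 1) + 2) → ℝ × ℝ) (T₁ T₂ : Set (Set (ℝ × ℝ))),
      IsSimplePolygon _ v ∧ (∀ i, (v i).1 = (v (i + 1)).1 ∨ (v i).2 = (v (i + 1)).2) ∧
      IsTriangulation (region _ v) (range v) T₁ ∧ IsTriangulation (region _ v) (range v) T₂ ∧
      (∃ F, FlipSeq F T₁ T₂) ∧
      (∀ j T₁' T₂', InsertSeq j T₁ T₂ T₁' T₂' → ∀ F, FlipSeq F T₁' T₂' →
        N * (M * (2 * M + 1)) ≤ 4 * F + j * (M * (2 * M + 1))) ∧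
      ∀ (j F : ℕ) (q : ℕ → ℝ × ℝ) (f : ℕ → Set (Set (ℝ × ℝ))), f 0 = T₁ → f F = T₂ →
        (∀ i < F, Flip (f i) (f (i + 1)) ∨
          ∃ l < j, InsertPoint (q l) (f i) (f (i + 1)) ∨ InsertPoint (q l) (f (i + 1)) (f i)) →
        N * (M * (2 * M + 1)) ≤ 4 * F + j * (M * (2 * M + 1)) := by
  obtain ⟨S, p, r, a, b, H⟩ := exists_ort M N
  have hreg := H.toSt.region_eq
  obtain ⟨T₁, T₂, t1, t2, hj, low⟩ := H.pair
  obtain ⟨-, n2, n3, -⟩ := H.nums
  have cc := fun j q => Nat.mul_le_mul_right (M * (2 * M + 1))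
    (cl_card (S := S) (by nlinarith [sq_nonneg (M : ℝ)]) N j q)
  refine ⟨vx (stp p a) (stp r b) _, T₁, T₂, H.toSt.simple, H.toSt.orth, by rwa [hreg],
    by rwa [hreg], hj, ?_, ?_⟩
  · rintro j _ _ ⟨q, f₁, f₂, rfl, rfl, rfl, rfl, H'⟩ F hF
    obtain ⟨a1, a2⟩ := H.tot_ins t1 fun i hi => (H' i hi).1
    obtain ⟨-, b2⟩ := H.tot_ins t2 fun i hi => (H' i hi).2
    have c1 := H.tot_seq a1 hF
    obtain ⟨c2, c3⟩ := low (q '' Iio j)
    have c4 := cc j q
    rw [add_mul] at c4
    omega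
  · rintro j F q f rfl rfl H'
    have : ∀ i ≤ F, Inv2 (PP (N * (M + 1)) p r a b)
        (range (vx (stp p a) (stp r b) (2 * (N * (M + 1)) + 1)) ∪ q '' Iio j) (f i) ∧
        tot p r a b M N S (q '' Iio j) (f i) ≤ tot p r a b M N S (q '' Iio j) (f 0) + 4 * i := by
      intro i hi
      induction i with
      | zero => exact ⟨fun t ht => ⟨(t1.1 t ht).1.trans subset_union_left, by
          rw [← t1.2.2.1]
          exact subset_biUnion_of_mem (u := fun t => convexHull ℝ t) ht⟩, by omega⟩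
      | succ i ih =>
        obtain ⟨a1, a2⟩ := ih (by omega)
        rcases H' i hi with g | ⟨l, hl, g | g⟩
        · have := H.tot_flip a1 g
          exact ⟨a1.flip g, by omega⟩
        · have := H.tot_eq (W := q '' Iio j) ⟨l, hl, rfl⟩ g
          exact ⟨a1.insertPoint (Or.inr ⟨l, hl, rfl⟩) g, by omega⟩
        · have := H.tot_eq (W := q '' Iio j) ⟨l, hl, rfl⟩ g
          exact ⟨inv_remove a1 g, by omega⟩
    have c1 := (this F le_rfl).2
    obtain ⟨c2, c3⟩ := low (q '' Iio j)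
    have c4 := cc j q
    rw [add_mul] at c4
    omega

end Pool.Agent.P.MP_fe41f2_co.Orth
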