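import Mathlib
import Pool.Agent.P.MP_fe41f2_co.Defs
import Pool.Agent.P.MP_fe41f2_co.Main

set_option autoImplicit false

open Pool.Agent.P.MP_fe41f2_co

/-- former hand-in SteinerFlips (helper80), an instance of the hand-in TwoGuards -/
theorem Pool.Agent.P.MP_fe41f2_co.VariantSteinerFlips.result :
    ∀ k : ℕ → ℕ, (fun n => (k n : ℝ)) =o[Filter.atTop] (fun n : ℕ => (n : ℝ)) →
      ∀ (C : ℝ) (n₀ : ℕ), ∃ n ≥ n₀, ∃ (v : ZMod n → ℝ × ℝ) (T₁ T₂ : Set (Set (ℝ × ℝ))),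
        IsSimplePolygon n v ∧ IsTriangulation (region n v) (Set.range v) T₁ ∧
        IsTriangulation (region n v) (Set.range v) T₂ ∧
        ∀ j ≤ k n, ∀ T₁' T₂', InsertSeq j T₁ T₂ T₁' T₂' →
          ∀ F : ℕ, FlipSeq F T₁' T₂' → C * n < F :=
  fun k hk C n₀ => Pool.Agent.P.MP_fe41f2_co.main k hk C n₀
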