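import Mathlib
import Pool.Agent.P.MP_fe41f2_co.Defs
import Pool.Agent.P.MP_fe41f2_co.G2Main

set_option autoImplicit false

open Pool.Agent.P.MP_fe41f2_co

namespace Pool.Agent.P.MP_fe41f2_co.VariantTwoGuards

/-- former hand-in TwoGuards (helper9), a consequence of the hand-in Orthogonal -/
theorem result :
    ∀ k : ℕ → ℕ, (fun n => (k n : ℝ)) =o[Filter.atTop] (fun n : ℕ => (n : ℝ)) →
      ∀ (C : ℝ) (n₀ : ℕ), ∃ n ≥ n₀, ∃ (v : ZMod n → ℝ × ℝ) (T₁ T₂ : Set (Set (ℝ × ℝ))),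
        IsSimplePolygon n v ∧
        (∃ i j, ∀ x ∈ region n v,
          segment ℝ (v i) x ⊆ region n v ∨ segment ℝ (v j) x ⊆ region n v) ∧
        IsTriangulation (region n v) (Set.range v) T₁ ∧
        IsTriangulation (region n v) (Set.range v) T₂ ∧
        ∀ j ≤ k n, ∀ T₁' T₂', InsertSeq j T₁ T₂ T₁' T₂' →
          ∀ F : ℕ, FlipSeq F T₁' T₂' → C * n < F :=
  fun k hk C n₀ => G2.main2 k hk C n₀

/-- the negated form of Q1: the same statement without the two guards -/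
theorem posed :
    ∀ k : ℕ → ℕ, (fun n => (k n : ℝ)) =o[Filter.atTop] (fun n : ℕ => (n : ℝ)) →
      ∀ (C : ℝ) (n₀ : ℕ), ∃ n ≥ n₀, ∃ (v : ZMod n → ℝ × ℝ) (T₁ T₂ : Set (Set (ℝ × ℝ))),
        IsSimplePolygon n v ∧ IsTriangulation (region n v) (Set.range v) T₁ ∧
        IsTriangulation (region n v) (Set.range v) T₂ ∧
        ∀ j ≤ k n, ∀ T₁' T₂', InsertSeq j T₁ T₂ T₁' T₂' →
          ∀ F : ℕ, FlipSeq F T₁' T₂' → C * n < F := fun k hk C n₀ => by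
  obtain ⟨n, hn, v, T₁, T₂, h1, -, h2⟩ := result k hk C n₀
  exact ⟨n, hn, v, T₁, T₂, h1, h2⟩

end Pool.Agent.P.MP_fe41f2_co.VariantTwoGuards
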